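import Mathlib

/-!
# CRD: sharp area bound for the second coefficient, for functions univalent over a cardioid. Definitions

Project for `MP_0b1b3b_an`.  `M > 0`; cardioid `Cd M = {M (η + η²/2) : |η| < 1}`.  `w = M (η + η²/2)` is inverted by
`η = et M w = -1 + Rt M w`, `Rt M w = sqrt (1 + 2 w / M)` (principal root).  On the double cover `w = ζ²` the function
`ss M ζ` is an odd branch of `sqrt η`; `QQ = 1 / ss - ss`, `VV = Im QQ`.

Data: `f u = u (k u)²` on the unit disc, `fh z = z k (z²)` is the odd square root of `f (z²)`; `vv z = VV (fh z) / sqrt M`.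
-/

set_option autoImplicit false

open Complex MeasureTheory Metric Set

namespace Pool.Agent.CRD

/-- principal square root -/
noncomputable def sq (z : ℂ) : ℂ := z ^ (1 / 2 : ℂ)

/-- `sqrt (1 + 2 w / M)` -/
noncomputable def Rt (M : ℝ) (w : ℂ) : ℂ := sq (1 + 2 * w / M)

/-- the inverse of `η ↦ M (η + η²/2)` -/
noncomputable def et (M : ℝ) (w : ℂ) : ℂ := Rt M w - 1

/-- the cardioid -/
def Cd (M : ℝ) : Set ℂ := (fun η : ℂ => (M : ℂ) * (η + η ^ 2 / 2)) '' ball 0 1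

/-- the weight `|η|^(-3)` -/
noncomputable def rho (M : ℝ) (w : ℂ) : ℝ := (‖et M w‖ ^ 3)⁻¹

/-- odd branch of `sqrt η`, `w = ζ²` -/
noncomputable def ss (M : ℝ) (ζ : ℂ) : ℂ :=
  ((Real.sqrt (2 / M) : ℝ) : ℂ) * ζ / sq (1 + Rt M (ζ ^ 2))

/-- `1/s - s` -/
noncomputable def QQ (M : ℝ) (ζ : ℂ) : ℂ := (ss M ζ)⁻¹ - ss M ζ

/-- the stream function -/
noncomputable def VV (M : ℝ) (ζ : ℂ) : ℝ := (QQ M ζ).im

/-- `fh z = z k (z²)` -/
def fh (k : ℂ → ℂ) (z : ℂ) : ℂ := z * k (z ^ 2)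

/-- the data -/
structure Dat (M : ℝ) (f k : ℂ → ℂ) : Prop where
  hM : 0 < M
  kd : DifferentiableOn ℂ k (ball 0 1)
  k0 : k 0 = 1
  kne : ∀ u ∈ ball (0 : ℂ) 1, k u ≠ 0
  fk : ∀ u ∈ ball (0 : ℂ) 1, f u = u * (k u) ^ 2
  area : IntegrableOn (fun u => ‖deriv f u‖ ^ 2) (ball 0 1)
  inj : ∀ u ∈ ball (0 : ℂ) 1, ∀ v ∈ ball (0 : ℂ) 1, f u = f v → f u ∈ Cd M → u = v

/-- the area of the image with multiplicity -/
noncomputable def Ar (f : ℂ → ℂ) : ℝ := ∫ u in ball (0 : ℂ) 1, ‖deriv f u‖ ^ 2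

/-- the remainder: the part of the cardioid which is missed and the part of the image outside it, with multiplicity, with the positive weights
`rho - 1` and `1 - rho` -/
noncomputable def Rem (M : ℝ) (f : ℂ → ℂ) : ℝ :=
  (∫ w in Cd M \ f '' ball 0 1, (rho M w - 1)) +
    ∫ u in ball (0 : ℂ) 1 ∩ f ⁻¹' (Cd M)ᶜ, (1 - rho M (f u)) * ‖deriv f u‖ ^ 2

/-- `Q (s (fh z))` -/
noncomputable def Ph (M : ℝ) (k : ℂ → ℂ) (z : ℂ) : ℂ := QQ M (fh k z)

/-- the omitted set of `Ph` on the punctured closed disc of radius `r` -/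
def Om (M : ℝ) (k : ℂ → ℂ) (r : ℝ) : Set ℂ := (Ph M k '' (closedBall 0 r \ {0}))ᶜ

end Pool.Agent.CRD
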