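import Pool.Agent.CRD.CVa
import Pool.Agent.CRD.Defs

/-! CRD/AreaU.  Area of the image of a univalent function; rotations. -/

set_option autoImplicit false

open Complex MeasureTheory Metric Set

namespace Pool.Agent.CRD

variable {f : ℂ → ℂ}

private theorem au_hasDeriv (hf : DifferentiableOn ℂ f (ball 0 1)) :
    ∀ z ∈ ball (0 : ℂ) 1, HasDerivAt f (deriv f z) z := fun _ hz =>
  (hf.differentiableAt (isOpen_ball.mem_nhds hz)).hasDerivAt

private theorem au_cont (hf : DifferentiableOn ℂ f (ball 0 1)) :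
    ContinuousOn (deriv f) (ball 0 1) := (hf.deriv isOpen_ball).continuousOn

private theorem au_meas (hf : DifferentiableOn ℂ f (ball 0 1)) :
    AEStronglyMeasurable (fun u => ‖deriv f u‖ ^ 2) (volume.restrict (ball (0 : ℂ) 1)) :=
  ((au_cont hf).norm.pow 2).aestronglyMeasurable measurableSet_ball

theorem areaU (hf : DifferentiableOn ℂ f (ball 0 1)) (hi : InjOn f (ball 0 1)) :
    (volume (f '' ball 0 1) ≠ ⊤ ↔ IntegrableOn (fun u => ‖deriv f u‖ ^ 2) (ball 0 1)) ∧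
      Ar f = (volume (f '' ball 0 1)).toReal := by
  have hv := cva_vol measurableSet_ball (au_hasDeriv hf) hi
  have hnn : 0 ≤ᵐ[volume.restrict (ball (0 : ℂ) 1)] fun u => ‖deriv f u‖ ^ 2 :=
    Filter.Eventually.of_forall fun u => by positivity
  constructor
  · rw [hv]
    exact lintegral_ofReal_ne_top_iff_integrable (au_meas hf) hnn
  · rw [hv, Ar, integral_eq_lintegral_of_nonneg_ae hnn (au_meas hf)]

/-- rotation -/
noncomputable def rot (c : ℂ) (f : ℂ → ℂ) (u : ℂ) : ℂ := c * f (c⁻¹ * u)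

private theorem au_ne {c : ℂ} (hc : ‖c‖ = 1) : c ≠ 0 := by
  rintro rfl
  rw [norm_zero] at hc
  exact zero_ne_one hc

private theorem au_maps {c : ℂ} (hc : ‖c‖ = 1) {u : ℂ} (hu : u ∈ ball (0 : ℂ) 1) :
    c⁻¹ * u ∈ ball (0 : ℂ) 1 := by
  rw [mem_ball_zero_iff] at hu ⊢
  rw [norm_mul, norm_inv, hc, inv_one, one_mul]
  exact hu

private theorem au_image {c : ℂ} (hc : ‖c‖ = 1) :
    (fun u : ℂ => c⁻¹ * u) '' ball (0 : ℂ) 1 = ball (0 : ℂ) 1 := by
  ext u
  constructor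
  · rintro ⟨v, hv, rfl⟩
    exact au_maps hc hv
  · intro hu
    refine ⟨c * u, ?_, ?_⟩
    · rw [mem_ball_zero_iff] at hu ⊢
      rw [norm_mul, hc, one_mul]
      exact hu
    · exact inv_mul_cancel_left₀ (au_ne hc) u

private theorem au_inner {c : ℂ} (z : ℂ) : HasDerivAt (fun u : ℂ => c⁻¹ * u) c⁻¹ z := by
  have h := (hasDerivAt_id z).const_mul c⁻¹
  rw [mul_one] at h
  exact h

private theorem au_inj {c : ℂ} (hc : ‖c‖ = 1) :
    InjOn (fun u : ℂ => c⁻¹ * u) (ball (0 : ℂ) 1) := fun _ _ _ _ h =>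
  mul_left_cancel₀ (inv_ne_zero (au_ne hc)) h

theorem rot_diff {c : ℂ} (hc : ‖c‖ = 1) (hf : DifferentiableOn ℂ f (ball 0 1)) :
    DifferentiableOn ℂ (rot c f) (ball 0 1) := by
  intro z hz
  have h := (au_hasDeriv hf _ (au_maps hc hz)).comp z (au_inner z)
  exact (h.const_mul c).differentiableAt.differentiableWithinAt

theorem rot_deriv {c : ℂ} (hc : ‖c‖ = 1) (hf : DifferentiableOn ℂ f (ball 0 1)) {u : ℂ} (hu : u ∈ ball (0 : ℂ) 1) :
    deriv (rot c f) u = deriv f (c⁻¹ * u) := by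
  have h := ((au_hasDeriv hf _ (au_maps hc hu)).comp u (au_inner u)).const_mul c
  have h2 : HasDerivAt (rot c f) (c * (deriv f (c⁻¹ * u) * c⁻¹)) u := h
  rw [h2.deriv]
  field_simp [au_ne hc]

theorem rot_Ar {c : ℂ} (hc : ‖c‖ = 1) (hf : DifferentiableOn ℂ f (ball 0 1)) : Ar (rot c f) = Ar f := by
  have h := cva_int (g := fun u => c⁻¹ * u) (g' := fun _ => c⁻¹) measurableSet_ball
    (fun z _ => au_inner (c := c) z) (au_inj hc) (fun w => ‖deriv f w‖ ^ 2)
  rw [au_image hc] at h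
  rw [Ar, Ar, h]
  apply setIntegral_congr_fun measurableSet_ball
  intro u hu
  change ‖deriv (rot c f) u‖ ^ 2 = ‖c⁻¹‖ ^ 2 * ‖deriv f (c⁻¹ * u)‖ ^ 2
  rw [rot_deriv hc hf hu, norm_inv, hc, inv_one, one_pow, one_mul]

theorem rot_area {c : ℂ} (hc : ‖c‖ = 1) (hf : DifferentiableOn ℂ f (ball 0 1))
    (hA : IntegrableOn (fun u => ‖deriv f u‖ ^ 2) (ball 0 1)) :
    IntegrableOn (fun u => ‖deriv (rot c f) u‖ ^ 2) (ball 0 1) := by
  have h := cva_integrable (g := fun u => c⁻¹ * u) (g' := fun _ => c⁻¹) measurableSet_ball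
    (fun z _ => au_inner (c := c) z) (au_inj hc) (fun w => ‖deriv f w‖ ^ 2)
  rw [au_image hc] at h
  refine (h.1 hA).congr_fun ?_ measurableSet_ball
  intro u hu
  change ‖c⁻¹‖ ^ 2 * ‖deriv f (c⁻¹ * u)‖ ^ 2 = ‖deriv (rot c f) u‖ ^ 2
  rw [rot_deriv hc hf hu, norm_inv, hc, inv_one, one_pow, one_mul]

theorem rot_a2 {c : ℂ} (hc : ‖c‖ = 1) (hf : DifferentiableOn ℂ f (ball 0 1)) :
    deriv (deriv (rot c f)) 0 = c⁻¹ * deriv (deriv f) 0 := by
  have h : deriv (rot c f) =ᶠ[nhds 0] fun u => deriv f (c⁻¹ * u) := by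
    filter_upwards [ball_mem_nhds (0 : ℂ) one_pos] with u hu
    exact rot_deriv hc hf hu
  rw [h.deriv_eq, deriv_comp_mul_left, mul_zero, smul_eq_mul]

/-- some rotation has a nonnegative real second coefficient -/
theorem rot_exists (hf : DifferentiableOn ℂ f (ball 0 1)) :
    ∃ c : ℂ, ‖c‖ = 1 ∧ deriv (deriv (rot c f)) 0 / 2 = (‖deriv (deriv f) 0 / 2‖ : ℝ) := by
  by_cases h : deriv (deriv f) 0 / 2 = 0
  · refine ⟨1, norm_one, ?_⟩
    rw [rot_a2 norm_one hf, inv_one, one_mul, h, norm_zero, Complex.ofReal_zero]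
  · have hn : ‖deriv (deriv f) 0 / 2‖ ≠ 0 := norm_ne_zero_iff.2 h
    have hn' : ((‖deriv (deriv f) 0 / 2‖ : ℝ) : ℂ) ≠ 0 := Complex.ofReal_ne_zero.2 hn
    have hc : ‖(deriv (deriv f) 0 / 2) / ((‖deriv (deriv f) 0 / 2‖ : ℝ) : ℂ)‖ = 1 := by
      rw [norm_div, Complex.norm_real, norm_norm, div_self hn]
    refine ⟨(deriv (deriv f) 0 / 2) / ((‖deriv (deriv f) 0 / 2‖ : ℝ) : ℂ), hc, ?_⟩
    rw [rot_a2 hc hf, inv_div, mul_div_assoc, div_mul_cancel₀ _ h]

/-- the area is at least `π` -/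
theorem Ar_pos (hf : DifferentiableOn ℂ f (ball 0 1)) (h1 : deriv f 0 = 1)
    (hA : IntegrableOn (fun u => ‖deriv f u‖ ^ 2) (ball 0 1)) : 0 < Ar f := by
  rw [Ar, setIntegral_pos_iff_support_of_nonneg_ae
    (Filter.Eventually.of_forall fun u => by positivity) hA]
  have hcont : ContinuousAt (deriv f) 0 :=
    (au_cont hf).continuousAt (ball_mem_nhds (0 : ℂ) one_pos)
  have hne : deriv f 0 ≠ 0 := by
    rw [h1]
    exact one_ne_zero
  have hev : ∀ᶠ u in nhds (0 : ℂ), deriv f u ≠ 0 := hcont.eventually_ne hne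
  have hmem : (Function.support (fun u => ‖deriv f u‖ ^ 2) ∩ ball (0 : ℂ) 1) ∈ nhds (0 : ℂ) := by
    filter_upwards [hev, ball_mem_nhds (0 : ℂ) one_pos] with u hu hu2
    refine ⟨?_, hu2⟩
    rw [Function.mem_support]
    exact pow_ne_zero 2 (norm_ne_zero_iff.2 hu)
  exact MeasureTheory.Measure.measure_pos_of_mem_nhds volume hmem

end Pool.Agent.CRD
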