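import Pool.Agent.CRD.CVa

/-! CRD/CV (Mathlib only).  Change of variables for holomorphic maps which are injective on a measurable set. -/

set_option autoImplicit false

open Complex MeasureTheory Metric Set

namespace Pool.Agent.CRD

variable {f : ℂ → ℂ} {T : Set ℂ}

theorem cv_meas (hT : MeasurableSet T) (hf : ∀ u ∈ T, DifferentiableAt ℂ f u) (hi : InjOn f T) :
    MeasurableSet (f '' T) :=
  measurable_image_of_fderivWithin hT
    (fun z hz => (cva_fd (hf z hz).hasDerivAt).hasFDerivWithinAt) hi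

theorem cv_lint (hT : MeasurableSet T) (hf : ∀ u ∈ T, DifferentiableAt ℂ f u) (hi : InjOn f T)
    (g : ℂ → ENNReal) :
    ∫⁻ w in f '' T, g w = ∫⁻ u in T, ENNReal.ofReal (‖deriv f u‖ ^ 2) * g (f u) := by
  rw [lintegral_image_eq_lintegral_abs_det_fderiv_mul volume hT
    (fun z hz => (cva_fd (hf z hz).hasDerivAt).hasFDerivWithinAt) hi g]
  apply setLIntegral_congr_fun hT
  intro z _
  simp only [cva_det, abs_of_nonneg (sq_nonneg ‖deriv f z‖)]

theorem cv_vol (hT : MeasurableSet T) (hf : ∀ u ∈ T, DifferentiableAt ℂ f u) (hi : InjOn f T) :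
    volume (f '' T) = ∫⁻ u in T, ENNReal.ofReal (‖deriv f u‖ ^ 2) :=
  cva_vol hT (fun z hz => (hf z hz).hasDerivAt) hi

theorem cv_int (hT : MeasurableSet T) (hf : ∀ u ∈ T, DifferentiableAt ℂ f u) (hi : InjOn f T)
    (g : ℂ → ℝ) : ∫ w in f '' T, g w = ∫ u in T, g (f u) * ‖deriv f u‖ ^ 2 := by
  rw [cva_int hT (fun z hz => (hf z hz).hasDerivAt) hi g]
  apply setIntegral_congr_fun hT
  intro z _
  simp only [mul_comm]

theorem cv_integrable (hT : MeasurableSet T) (hf : ∀ u ∈ T, DifferentiableAt ℂ f u)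
    (hi : InjOn f T) (g : ℂ → ℝ) :
    IntegrableOn g (f '' T) ↔ IntegrableOn (fun u => g (f u) * ‖deriv f u‖ ^ 2) T := by
  rw [cva_integrable hT (fun z hz => (hf z hz).hasDerivAt) hi g]
  simp only [mul_comm]

theorem cv_real (hT : MeasurableSet T) (hf : ∀ u ∈ T, DifferentiableAt ℂ f u) (hi : InjOn f T) :
    volume.real (f '' T) = ∫ u in T, ‖deriv f u‖ ^ 2 := by
  have h := cv_int hT hf hi (fun _ => (1 : ℝ))
  simp only [one_mul, integral_const, smul_eq_mul, mul_one] at h
  rw [← h]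
  simp [Measure.real]

end Pool.Agent.CRD
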