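import Mathlib

/-! CRD/CVa.  Change of variables for injective holomorphic maps. -/

set_option autoImplicit false

open Complex MeasureTheory Metric Set

namespace Pool.Agent.CRD

theorem cva_det (c : ℂ) :
    ((ContinuousLinearMap.toSpanSingleton ℂ c).restrictScalars ℝ : ℂ →L[ℝ] ℂ).det = ‖c‖ ^ 2 := by
  simp [ContinuousLinearMap.det, LinearMap.det_restrictScalars,
      Algebra.norm_complex_eq, Complex.normSq_eq_norm_sq]

theorem cva_fd {g : ℂ → ℂ} {d z : ℂ} (h : HasDerivAt g d z) :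
    HasFDerivAt g ((ContinuousLinearMap.toSpanSingleton ℂ d).restrictScalars ℝ : ℂ →L[ℝ] ℂ) z :=
  h.hasFDerivAt.restrictScalars ℝ

theorem cva_vol {g g' : ℂ → ℂ} {E : Set ℂ} (hE : MeasurableSet E) (hg : ∀ z ∈ E, HasDerivAt g (g' z) z)
    (hi : InjOn g E) : volume (g '' E) = ∫⁻ z in E, ENNReal.ofReal (‖g' z‖ ^ 2) := by
  have h := lintegral_abs_det_fderiv_eq_addHaar_image volume hE
    (fun z hz => (cva_fd (hg z hz)).hasFDerivWithinAt) hi
  rw [← h]
  apply setLIntegral_congr_fun hE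
  intro z _
  simp only [cva_det, abs_of_nonneg (sq_nonneg ‖g' z‖)]

theorem cva_int {g g' : ℂ → ℂ} {E : Set ℂ} (hE : MeasurableSet E) (hg : ∀ z ∈ E, HasDerivAt g (g' z) z)
    (hi : InjOn g E) (F : ℂ → ℝ) : ∫ w in g '' E, F w = ∫ z in E, ‖g' z‖ ^ 2 * F (g z) := by
  have h := integral_image_eq_integral_abs_det_fderiv_smul volume hE
    (fun z hz => (cva_fd (hg z hz)).hasFDerivWithinAt) hi F
  rw [h]
  apply setIntegral_congr_fun hE
  intro z _
  simp only [cva_det, abs_of_nonneg (sq_nonneg ‖g' z‖), smul_eq_mul]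

theorem cva_integrable {g g' : ℂ → ℂ} {E : Set ℂ} (hE : MeasurableSet E)
    (hg : ∀ z ∈ E, HasDerivAt g (g' z) z) (hi : InjOn g E) (F : ℂ → ℝ) :
    IntegrableOn F (g '' E) ↔ IntegrableOn (fun z => ‖g' z‖ ^ 2 * F (g z)) E := by
  have h := integrableOn_image_iff_integrableOn_abs_det_fderiv_smul volume hE
    (fun z hz => (cva_fd (hg z hz)).hasFDerivWithinAt) hi F
  rw [h]
  apply integrableOn_congr_fun _ hE
  intro z _
  simp only [cva_det, abs_of_nonneg (sq_nonneg ‖g' z‖), smul_eq_mul]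

end Pool.Agent.CRD
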