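import Mathlib

/-! CRD/Null.  The preimage of a null set under a nonconstant holomorphic function is null: it is
locally null at the points with nonzero derivative by the differentiable local inverse, and the
zeros of the derivative are isolated. -/

set_option autoImplicit false

open Complex MeasureTheory Metric Set

namespace Pool.Agent.CRD

open Topology in
private theorem null_loc {g : ℂ → ℂ} {U : Set ℂ} (hU : IsOpen U)
    (hg : DifferentiableOn ℂ g U) {N : Set ℂ} (hN : volume N = 0) {z : ℂ} (hz : z ∈ U)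
    (hd : deriv g z ≠ 0) : ∃ V ∈ 𝓝 z, volume (V ∩ g ⁻¹' N) = 0 := by
  have han : AnalyticAt ℂ g z := hg.analyticAt (hU.mem_nhds hz)
  have hs := han.hasStrictDerivAt
  have hs' := hs.hasStrictFDerivAt_equiv hd
  obtain ⟨e, he, hze⟩ : ∃ e : OpenPartialHomeomorph ℂ ℂ, (e : ℂ → ℂ) = g ∧ z ∈ e.source :=
    ⟨hs'.toOpenPartialHomeomorph g, hs'.toOpenPartialHomeomorph_coe,
      hs'.mem_toOpenPartialHomeomorph_source⟩
  have hV1 : e.source ∈ 𝓝 z := e.open_source.mem_nhds hze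
  have hV2 : {w | deriv g w ≠ 0} ∈ 𝓝 z := han.deriv.continuousAt.eventually_ne hd
  refine ⟨(e.source ∩ {w | deriv g w ≠ 0}) ∩ U,
    Filter.inter_mem (Filter.inter_mem hV1 hV2) (hU.mem_nhds hz), ?_⟩
  have hsub : (e.source ∩ {w | deriv g w ≠ 0}) ∩ U ∩ g ⁻¹' N ⊆
      e.symm '' (N ∩ {v | v ∈ e.target ∧ deriv g (e.symm v) ≠ 0 ∧ e.symm v ∈ U}) := by
    rintro w ⟨⟨⟨hw1, hw2⟩, hw3⟩, hw4⟩
    have h1 : e.symm (g w) = w := by rw [← he]; exact e.left_inv hw1
    refine ⟨g w, ⟨hw4, ?_, ?_, ?_⟩, h1⟩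
    · rw [← he]; exact e.map_source hw1
    · rw [h1]; exact hw2
    · rw [h1]; exact hw3
  refine measure_mono_null hsub ?_
  apply addHaar_image_eq_zero_of_differentiableOn_of_addHaar_eq_zero
  · rintro v ⟨_, hv1, hv2, hv3⟩
    have h2 : HasDerivAt e (deriv g (e.symm v)) (e.symm v) := by
      rw [he]
      exact (hg.analyticAt (hU.mem_nhds hv3)).differentiableAt.hasDerivAt
    have h3 := e.hasDerivAt_symm hv1 hv2 h2
    exact (h3.differentiableAt.restrictScalars ℝ).differentiableWithinAt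
  · exact measure_mono_null inter_subset_left hN

open Topology in
theorem null_preimage {g : ℂ → ℂ} {U : Set ℂ} (hU : IsOpen U) (hc : IsPreconnected U)
    (hg : DifferentiableOn ℂ g U) {x y : ℂ} (hx : x ∈ U) (hy : y ∈ U) (hne : g x ≠ g y)
    {N : Set ℂ} (hN : volume N = 0) : volume (U ∩ g ⁻¹' N) = 0 := by
  have hga : AnalyticOnNhd ℂ g U := hg.analyticOnNhd hU
  apply measure_null_of_locally_null
  rintro z ⟨hz, hzN⟩
  by_cases hd : deriv g z = 0
  · rcases (hga.deriv z hz).eventually_eq_zero_or_eventually_ne_zero with h0 | h0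
    · exfalso
      have h1 := hga.deriv.eqOn_zero_of_preconnected_of_eventuallyEq_zero hc hz h0
      exact hne (hU.is_const_of_deriv_eq_zero hc hg h1 hx hy)
    · have h1 : {w | w ≠ z → deriv g w ≠ 0} ∈ 𝓝 z := by
        rw [eventually_nhdsWithin_iff] at h0
        exact h0
      have h2 : volume ((U ∩ g ⁻¹' N) ∩ ({w | w ≠ z → deriv g w ≠ 0} \ {z})) = 0 := by
        apply measure_null_of_locally_null
        rintro w ⟨⟨hw1, hw2⟩, hw3, hw4⟩
        obtain ⟨V, hV, hV0⟩ := null_loc hU hg hN hw1 (hw3 hw4)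
        refine ⟨V ∩ ((U ∩ g ⁻¹' N) ∩ ({w | w ≠ z → deriv g w ≠ 0} \ {z})), ?_, ?_⟩
        · exact Filter.inter_mem (mem_nhdsWithin_of_mem_nhds hV) self_mem_nhdsWithin
        · have h5 : V ∩ ((U ∩ g ⁻¹' N) ∩ ({w | w ≠ z → deriv g w ≠ 0} \ {z})) ⊆
              V ∩ g ⁻¹' N := fun v hv => ⟨hv.1, hv.2.1.2⟩
          exact measure_mono_null h5 hV0
      refine ⟨(U ∩ g ⁻¹' N) ∩ {w | w ≠ z → deriv g w ≠ 0}, ?_, ?_⟩
      · exact Filter.inter_mem self_mem_nhdsWithin (mem_nhdsWithin_of_mem_nhds h1)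
      · have h3 : (U ∩ g ⁻¹' N) ∩ {w | w ≠ z → deriv g w ≠ 0} ⊆
            {z} ∪ ((U ∩ g ⁻¹' N) ∩ ({w | w ≠ z → deriv g w ≠ 0} \ {z})) := by
          intro w hw
          by_cases h4 : w = z
          · exact Or.inl h4
          · exact Or.inr ⟨hw.1, hw.2, h4⟩
        refine measure_mono_null h3 (measure_union_null ?_ h2)
        exact measure_singleton z
  · obtain ⟨V, hV, hV0⟩ := null_loc hU hg hN hz hd
    refine ⟨V ∩ (U ∩ g ⁻¹' N), ?_, ?_⟩
    · exact Filter.inter_mem (mem_nhdsWithin_of_mem_nhds hV) self_mem_nhdsWithin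
    · have h5 : V ∩ (U ∩ g ⁻¹' N) ⊆ V ∩ g ⁻¹' N := fun v hv => ⟨hv.1, hv.2.2⟩
      exact measure_mono_null h5 hV0

theorem volume_re_zero : volume {z : ℂ | z.re = 0} = 0 := by
  have h := Measure.addHaar_submodule (volume : Measure ℂ) (LinearMap.ker Complex.reLm) (by
    intro h
    have h1 : (1 : ℂ) ∈ LinearMap.ker Complex.reLm := by rw [h]; exact Submodule.mem_top
    rw [LinearMap.mem_ker] at h1
    simp at h1)
  have h2 : ((LinearMap.ker Complex.reLm : Submodule ℝ ℂ) : Set ℂ) = {z : ℂ | z.re = 0} := by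
    ext z
    simp
  rw [h2] at h
  exact h

end Pool.Agent.CRD
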