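import Pool.Agent.CRD.Slit
import Pool.Agent.CRD.Null

/-! CRD/Ener.  The function `v` in the logarithmic coordinate `ω` (`z = exp ω`), its local Lipschitz bound and its energy density.

PLAN.  `vv_lip`: composition of `VV_lip` with the smooth function `ω ↦ fh k (exp ω)` (locally Lipschitz; it is `≠ 0` for `Re ω < 0`, as `k ≠ 0`).
`vv_per`: `exp` is periodic.  `vv_ener`: outside the null set `{ω | Re ω < 0, Re (fh k (exp ω)) = 0}` (`null_preimage` with `U = {Re ω < 0}`; `g ω = fh k (exp ω)` is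
not constant since `g ω → 0` as `Re ω → -∞` and `g ≠ 0`; `volume_re_zero`) the point `ζ = g ω` is outside the slit (`slit_re`), `Q ∘ g` has the complex derivative
`d · g' ω`, `‖d‖² = rho M (ζ²) ‖ζ‖²/M²` (`QQ_deriv`); `v = Im (Q ∘ g) / sqrt M`, so `(L 1)² + (L I)² = ‖d g'‖²/M`.  From `g² = f (exp (2 ω))`:
`2 g g' = f' (exp (2ω)) 2 exp (2ω)`. -/

set_option autoImplicit false

open Complex MeasureTheory Metric Set

namespace Pool.Agent.CRD

/-- `v` in the logarithmic coordinate -/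
noncomputable def vv (M : ℝ) (k : ℂ → ℂ) (ω : ℂ) : ℝ := VV M (fh k (exp ω)) / Real.sqrt M

/-- the energy density -/
noncomputable def WW (M : ℝ) (f : ℂ → ℂ) (ω : ℂ) : ℝ :=
  1 / M ^ 3 * (rho M (f (exp (2 * ω))) * ‖deriv f (exp (2 * ω))‖ ^ 2 * ‖exp (2 * ω)‖ ^ 2)

variable {M : ℝ} {f k : ℂ → ℂ}

private theorem en_sq (ω : ℂ) : exp ω ^ 2 = exp (2 * ω) := by
  rw [← Complex.exp_nat_mul]
  norm_num

private theorem en_mem {ω : ℂ} (h : ω.re < 0) : exp (2 * ω) ∈ ball (0 : ℂ) 1 := by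
  rw [mem_ball_zero_iff, Complex.norm_exp]
  have h1 : (2 * ω).re < 0 := by
    simp
    linarith
  exact Real.exp_zero ▸ Real.exp_lt_exp.2 h1

private theorem en_diff (D : Dat M f k) {ω : ℂ} (h : ω.re < 0) :
    DifferentiableAt ℂ (fun w => fh k (exp w)) ω := by
  have h1 : (fun w => fh k (exp w)) = fun w => exp w * k (exp (2 * w)) := by
    funext w
    unfold fh
    rw [en_sq]
  rw [h1]
  have h2 : DifferentiableAt ℂ k (exp (2 * ω)) :=
    D.kd.differentiableAt (isOpen_ball.mem_nhds (en_mem h))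
  have h3 : DifferentiableAt ℂ (fun w : ℂ => exp (2 * w)) ω :=
    ((differentiableAt_id.const_mul (2 : ℂ))).cexp
  exact (differentiableAt_id.cexp).mul (h2.comp ω h3)

private theorem en_open : IsOpen {ω : ℂ | ω.re < 0} :=
  isOpen_lt Complex.continuous_re continuous_const

private theorem en_don (D : Dat M f k) :
    DifferentiableOn ℂ (fun w => fh k (exp w)) {ω : ℂ | ω.re < 0} := fun _ h =>
  (en_diff D h).differentiableWithinAt

private theorem en_ne (D : Dat M f k) {ω : ℂ} (h : ω.re < 0) : fh k (exp ω) ≠ 0 := by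
  unfold fh
  rw [en_sq]
  exact mul_ne_zero (Complex.exp_ne_zero _) (D.kne _ (en_mem h))

private theorem en_fsq (D : Dat M f k) {ω : ℂ} (h : ω.re < 0) :
    fh k (exp ω) ^ 2 = f (exp (2 * ω)) := by
  rw [D.fk _ (en_mem h)]
  unfold fh
  rw [en_sq, mul_pow, en_sq]

private theorem en_fdiff (D : Dat M f k) {ω : ℂ} (h : ω.re < 0) :
    DifferentiableAt ℂ f (exp (2 * ω)) := by
  have h2 : DifferentiableAt ℂ k (exp (2 * ω)) :=
    D.kd.differentiableAt (isOpen_ball.mem_nhds (en_mem h))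
  have h3 : DifferentiableAt ℂ (fun u => u * k u ^ 2) (exp (2 * ω)) :=
    differentiableAt_id.mul (h2.pow 2)
  refine h3.congr_of_eventuallyEq ?_
  filter_upwards [isOpen_ball.mem_nhds (en_mem h)] with u hu
  exact D.fk u hu

private theorem en_gd (D : Dat M f k) {ω : ℂ} (h : ω.re < 0) {g' : ℂ}
    (hg : HasDerivAt (fun w => fh k (exp w)) g' ω) :
    fh k (exp ω) * g' = deriv f (exp (2 * ω)) * exp (2 * ω) := by
  have h1 : HasDerivAt (fun w => fh k (exp w) ^ 2) (2 * fh k (exp ω) * g') ω := by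
    have h2 := hg.pow 2
    refine h2.congr_deriv ?_
    norm_num
  have h3 : HasDerivAt (fun w : ℂ => exp (2 * w)) (exp (2 * ω) * 2) ω := by
    have h4 : HasDerivAt (fun w : ℂ => 2 * w) (2 : ℂ) ω := by
      simpa using (hasDerivAt_id ω).const_mul (2 : ℂ)
    exact h4.cexp
  have h5 : HasDerivAt (fun w => f (exp (2 * w))) (deriv f (exp (2 * ω)) * (exp (2 * ω) * 2)) ω :=
    HasDerivAt.comp ω (en_fdiff D h).hasDerivAt h3
  have h6 : HasDerivAt (fun w => fh k (exp w) ^ 2)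
      (deriv f (exp (2 * ω)) * (exp (2 * ω) * 2)) ω := by
    refine h5.congr_of_eventuallyEq ?_
    filter_upwards [en_open.mem_nhds h] with w hw
    exact en_fsq D hw
  have h7 := h1.unique h6
  have h8 : (2 : ℂ) * (fh k (exp ω) * g') = 2 * (deriv f (exp (2 * ω)) * exp (2 * ω)) := by
    linear_combination h7
  exact mul_left_cancel₀ two_ne_zero h8

private theorem en_nonconst (D : Dat M f k) : ∃ y ∈ {ω : ℂ | ω.re < 0},
    fh k (exp (-1)) ≠ fh k (exp y) := by
  have h1 : Filter.Tendsto (fun t : ℝ => exp (((-t : ℝ)) : ℂ)) Filter.atTop (nhds 0) := by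
    rw [tendsto_zero_iff_norm_tendsto_zero]
    have h2 : (fun t : ℝ => ‖exp (((-t : ℝ)) : ℂ)‖) = fun t : ℝ => Real.exp (-t) := by
      funext t
      rw [Complex.norm_exp, Complex.ofReal_re]
    rw [h2]
    exact Real.tendsto_exp_neg_atTop_nhds_zero
  have hk : ContinuousAt k 0 :=
    (D.kd.differentiableAt (isOpen_ball.mem_nhds (mem_ball_self one_pos))).continuousAt
  have h3 : ContinuousAt (fh k) 0 := by
    unfold fh
    refine continuousAt_id.mul ?_
    refine ContinuousAt.comp (f := fun z : ℂ => z ^ 2) ?_ (by fun_prop)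
    simpa using hk
  have h4 : Filter.Tendsto (fun t : ℝ => fh k (exp (((-t : ℝ)) : ℂ))) Filter.atTop (nhds 0) := by
    have h5 := h3.tendsto.comp h1
    have h6 : fh k 0 = 0 := by
      unfold fh
      simp
    rw [h6] at h5
    exact h5
  have hne : fh k (exp (-1)) ≠ 0 := en_ne D (by simp)
  have h7 : ∀ᶠ t : ℝ in Filter.atTop, fh k (exp (((-t : ℝ)) : ℂ)) ≠ fh k (exp (-1)) :=
    h4.eventually_ne hne.symm
  obtain ⟨t, ht, ht0⟩ := (h7.and (Filter.eventually_gt_atTop (0 : ℝ))).exists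
  refine ⟨((-t : ℝ) : ℂ), ?_, ht.symm⟩
  change (((-t : ℝ)) : ℂ).re < 0
  rw [Complex.ofReal_re]
  linarith

theorem vv_lip (D : Dat M f k) (ω : ℂ) (h : ω.re < 0) :
    ∃ K : NNReal, ∃ s > 0, LipschitzOnWith K (vv M k) (ball ω s) := by
  obtain ⟨K, r, hr, hK⟩ := VV_lip D.hM (en_ne D h)
  have h1 : ContDiffAt ℂ 1 (fun w => fh k (exp w)) ω :=
    ((en_don D).contDiffOn (n := 1) en_open).contDiffAt (en_open.mem_nhds h)
  obtain ⟨K', t, ht, hK'⟩ := (h1.restrict_scalars ℝ).exists_lipschitzOnWith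
  have h2 : (fun w => fh k (exp w)) ⁻¹' ball (fh k (exp ω)) r ∈ nhds ω :=
    (en_diff D h).continuousAt.preimage_mem_nhds (ball_mem_nhds _ hr)
  obtain ⟨s, hs, hst⟩ := Metric.mem_nhds_iff.1 (Filter.inter_mem ht h2)
  have h3 : LipschitzOnWith (K * K') (VV M ∘ fun w => fh k (exp w)) (ball ω s) :=
    hK.comp (hK'.mono fun x hx => (hst hx).1) fun x hx => (hst hx).2
  refine ⟨Real.toNNReal (1 / Real.sqrt M) * (K * K'), s, hs, ?_⟩
  refine LipschitzOnWith.of_dist_le_mul fun x hx y hy => ?_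
  have h4 := h3.dist_le_mul x hx y hy
  have hM : 0 < Real.sqrt M := Real.sqrt_pos.2 D.hM
  have h5 : dist (vv M k x) (vv M k y) = 1 / Real.sqrt M *
      dist ((VV M ∘ fun w => fh k (exp w)) x) ((VV M ∘ fun w => fh k (exp w)) y) := by
    unfold vv
    rw [Real.dist_eq, Real.dist_eq, ← sub_div, abs_div, abs_of_pos hM, Function.comp_apply,
      Function.comp_apply]
    ring
  rw [h5, NNReal.coe_mul, Real.coe_toNNReal _ (by positivity), mul_assoc]
  exact mul_le_mul_of_nonneg_left h4 (by positivity)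

theorem vv_per (ω : ℂ) : vv M k (ω + 2 * Real.pi * I) = vv M k ω := by
  unfold vv
  rw [Complex.exp_periodic ω]

theorem vv_ener (D : Dat M f k) : ∀ᵐ ω : ℂ, ω.re < 0 →
    ∃ L : ℂ →L[ℝ] ℝ, HasFDerivAt (vv M k) L ω ∧ (L 1) ^ 2 + (L I) ^ 2 = WW M f ω := by
  obtain ⟨y, hy, hne⟩ := en_nonconst D
  have hc : IsPreconnected {ω : ℂ | ω.re < 0} :=
    (convex_halfSpace_re_lt 0).isPreconnected
  have h0 : volume ({ω : ℂ | ω.re < 0} ∩ (fun w => fh k (exp w)) ⁻¹' {z : ℂ | z.re = 0}) = 0 :=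
    null_preimage en_open hc (en_don D) (x := -1) (y := y) (by simp) hy hne volume_re_zero
  have h1 : ∀ᵐ ω : ℂ, ω ∉ {ω : ℂ | ω.re < 0} ∩ (fun w => fh k (exp w)) ⁻¹' {z : ℂ | z.re = 0} :=
    measure_eq_zero_iff_ae_notMem.1 h0
  filter_upwards [h1] with ω hω hre
  have hre0 : (fh k (exp ω)).re ≠ 0 := fun h => hω ⟨hre, h⟩
  have hslit : 1 + 2 * (fh k (exp ω)) ^ 2 / M ∈ slitPlane := by
    by_contra h
    exact hre0 (slit_re D.hM h)
  obtain ⟨d, hd, hdn⟩ := QQ_deriv D.hM (en_ne D hre) hslit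
  obtain ⟨g', hg⟩ : ∃ g', HasDerivAt (fun w => fh k (exp w)) g' ω :=
    ⟨_, (en_diff D hre).hasDerivAt⟩
  have hgd := en_gd D hre hg
  have hcomp : HasDerivAt (fun w => QQ M (fh k (exp w))) (d * g') ω :=
    HasDerivAt.comp (h₂ := QQ M) ω hd hg
  have hf := hcomp.hasFDerivAt.restrictScalars ℝ
  have hL := (Complex.imCLM.hasFDerivAt.comp ω hf).const_mul (1 / Real.sqrt M)
  have hM : 0 < Real.sqrt M := Real.sqrt_pos.2 D.hM
  refine ⟨_, hL.congr_of_eventuallyEq ?_, ?_⟩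
  · refine Filter.Eventually.of_forall fun w => ?_
    unfold vv VV
    simp only [Function.comp_apply, Complex.imCLM_apply]
    ring
  · have e1 : ‖d * g'‖ ^ 2 = (d * g').re ^ 2 + (d * g').im ^ 2 := by
      rw [← Complex.normSq_eq_norm_sq, Complex.normSq_apply]
      ring
    have e2 : ‖d * g'‖ ^ 2 * M ^ 2 = rho M (f (exp (2 * ω))) *
        (‖deriv f (exp (2 * ω))‖ ^ 2 * ‖exp (2 * ω)‖ ^ 2) := by
      rw [norm_mul, mul_pow, hdn, en_fsq D hre, ← mul_pow, ← norm_mul (deriv f _), ← hgd,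
        norm_mul (fh k (exp ω)), mul_pow]
      have := D.hM.ne'
      field_simp
    have e3 : WW M f ω = ((d * g').re ^ 2 + (d * g').im ^ 2) / M := by
      unfold WW
      rw [← e1]
      have h2 : rho M (f (exp (2 * ω))) * ‖deriv f (exp (2 * ω))‖ ^ 2 * ‖exp (2 * ω)‖ ^ 2 =
          ‖d * g'‖ ^ 2 * M ^ 2 := by
        rw [e2]
        ring
      rw [h2]
      have := D.hM.ne'
      field_simp
    rw [e3]
    have e4 : (1 / Real.sqrt M) ^ 2 = 1 / M := by
      rw [div_pow, one_pow, Real.sq_sqrt D.hM.le]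
    have key : (1 / Real.sqrt M * (d * g').im) ^ 2 + (1 / Real.sqrt M * (d * g').re) ^ 2 =
        ((d * g').re ^ 2 + (d * g').im ^ 2) / M := by
      rw [mul_pow, mul_pow, e4]
      ring
    rw [← key]
    simp

end Pool.Agent.CRD
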