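import Pool.Agent.CRD.Expan
import Pool.Agent.CRD.Ener

/-! CRD/Coef.  The sine coefficient of `v` on the circle `|z| = r`, from the expansion of `Ph` at `0`. -/

set_option autoImplicit false

open Complex MeasureTheory Metric Set

namespace Pool.Agent.CRD

private lemma exp_log_add {r : ℝ} (hr : 0 < r) (y : ℝ) :
    exp ((Real.log r : ℝ) + y * I) = (r : ℂ) * exp (y * I) := by
  rw [exp_add, ← ofReal_exp, Real.exp_log hr]

private lemma im_model (r : ℝ) (β : ℂ) (y : ℝ) :
    (((r : ℂ) * exp (y * I))⁻¹ - β * ((r : ℂ) * exp (y * I))).im =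
      -(Real.sin y / r) - r * (β.re * Real.sin y + β.im * Real.cos y) := by
  have h1 : ((r : ℂ) * exp (y * I))⁻¹ = ((r⁻¹ : ℝ) : ℂ) * exp (((-y : ℝ) : ℂ) * I) := by
    rw [mul_inv, ← exp_neg, ofReal_inv]
    congr 2
    push_cast
    ring
  rw [h1, sub_im, im_ofReal_mul, mul_im, im_ofReal_mul, re_ofReal_mul,
    exp_ofReal_mul_I_im, exp_ofReal_mul_I_im, exp_ofReal_mul_I_re, Real.sin_neg]
  ring

theorem coef {M : ℝ} {f k : ℂ → ℂ} (D : Dat M f k) :
    ∃ C r0 : ℝ, 0 ≤ C ∧ 0 < r0 ∧ r0 < 1 ∧ ∀ r : ℝ, 0 < r → r < r0 →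
      |(∫ y in (0 : ℝ)..2 * Real.pi, vv M k (Real.log r + y * I) * Real.sin y) +
        Real.pi * (1 / r + ((deriv k 0).re + 3 / (4 * M)) * r)| ≤ C * r ^ 3 := by
  obtain ⟨C, r0, hC, hr0, hr1, h⟩ := expan D
  have hM := D.hM
  have hsM : 0 < Real.sqrt M := Real.sqrt_pos.2 hM
  refine ⟨C / Real.sqrt M * (2 * Real.pi), r0, by positivity, hr0, hr1, fun r hr hrr => ?_⟩
  set β : ℂ := deriv k 0 + 3 / (4 * M) with hβ
  have hβre : β.re = (deriv k 0).re + 3 / (4 * M) := by
    have h3 : (3 / (4 * (M : ℂ))) = ((3 / (4 * M) : ℝ) : ℂ) := by push_cast; ring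
    rw [hβ, add_re, h3, ofReal_re]
  have hlog : Real.log r < 0 := Real.log_neg hr (hrr.trans hr1)
  have hcont : Continuous fun y : ℝ => vv M k (Real.log r + y * I) := by
    rw [continuous_iff_continuousAt]
    intro y
    have hre : ((Real.log r : ℝ) + (y : ℂ) * I : ℂ).re < 0 := by
      simpa using hlog
    obtain ⟨K, s, hs, hL⟩ := vv_lip D _ hre
    have h1 : ContinuousAt (vv M k) ((Real.log r : ℝ) + (y : ℂ) * I) :=
      hL.continuousOn.continuousAt (ball_mem_nhds _ hs)
    have h2 : ContinuousAt (fun y : ℝ => ((Real.log r : ℝ) + (y : ℂ) * I : ℂ)) y := by fun_prop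
    exact ContinuousAt.comp (f := fun y : ℝ => ((Real.log r : ℝ) + (y : ℂ) * I : ℂ)) h1 h2
  have hpt : ∀ y : ℝ, |vv M k (Real.log r + y * I) -
      (-(Real.sin y / r) - r * (β.re * Real.sin y + β.im * Real.cos y))| ≤
      C / Real.sqrt M * r ^ 3 := by
    intro y
    have hz0 : (r : ℂ) * exp (y * I) ≠ 0 :=
      mul_ne_zero (ofReal_ne_zero.2 hr.ne') (exp_ne_zero _)
    have hzn : ‖(r : ℂ) * exp (y * I)‖ = r := by
      rw [norm_mul, norm_exp_ofReal_mul_I, mul_one, norm_real, Real.norm_eq_abs, abs_of_pos hr]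
    have h1 := h _ hz0 (by rw [hzn]; exact hrr)
    rw [hzn] at h1
    have h2 : vv M k (Real.log r + y * I) = (Ph M k ((r : ℂ) * exp (y * I))).im / Real.sqrt M := by
      rw [vv, exp_log_add hr]
      rfl
    have h4 : (Ph M k ((r : ℂ) * exp (y * I)) - ((Real.sqrt M : ℝ) : ℂ) *
        (((r : ℂ) * exp (y * I))⁻¹ - β * ((r : ℂ) * exp (y * I)))).im =
        Real.sqrt M * (vv M k (Real.log r + y * I) -
          (-(Real.sin y / r) - r * (β.re * Real.sin y + β.im * Real.cos y))) := by
      rw [sub_im, im_ofReal_mul, im_model r, h2]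
      field_simp
    have h5 := (abs_im_le_norm _).trans h1
    rw [h4, abs_mul, abs_of_pos hsM] at h5
    rw [div_mul_eq_mul_div, le_div_iff₀ hsM, mul_comm]
    exact h5
  have hint : (∫ y in (0 : ℝ)..2 * Real.pi,
      (-(Real.sin y / r) - r * (β.re * Real.sin y + β.im * Real.cos y)) * Real.sin y) =
      -(Real.pi * (1 / r + β.re * r)) := by
    have e1 : ∀ y : ℝ, (-(Real.sin y / r) - r * (β.re * Real.sin y + β.im * Real.cos y)) *
        Real.sin y = (-(1 / r) - r * β.re) * Real.sin y ^ 2 +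
          (-(r * β.im)) * (Real.sin y * Real.cos y) := by
      intro y
      ring
    simp only [e1]
    rw [intervalIntegral.integral_add (Continuous.intervalIntegrable (by fun_prop) _ _)
      (Continuous.intervalIntegrable (by fun_prop) _ _), intervalIntegral.integral_const_mul,
      intervalIntegral.integral_const_mul, integral_sin_sq, integral_sin_mul_cos₁]
    simp
    ring
  have hdiff : (∫ y in (0 : ℝ)..2 * Real.pi, vv M k (Real.log r + y * I) * Real.sin y) +
      Real.pi * (1 / r + ((deriv k 0).re + 3 / (4 * M)) * r) =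
      ∫ y in (0 : ℝ)..2 * Real.pi, (vv M k (Real.log r + y * I) -
        (-(Real.sin y / r) - r * (β.re * Real.sin y + β.im * Real.cos y))) * Real.sin y := by
    simp only [sub_mul (vv M k _)]
    have i1 : IntervalIntegrable (fun y : ℝ => vv M k (Real.log r + y * I) * Real.sin y)
        volume 0 (2 * Real.pi) := (hcont.mul Real.continuous_sin).intervalIntegrable _ _
    have i2 : IntervalIntegrable (fun y : ℝ =>
        (-(Real.sin y / r) - r * (β.re * Real.sin y + β.im * Real.cos y)) * Real.sin y)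
        volume 0 (2 * Real.pi) := Continuous.intervalIntegrable (by fun_prop) _ _
    rw [intervalIntegral.integral_sub i1 i2, hint, hβre]
    ring
  rw [hdiff]
  have hb := intervalIntegral.norm_integral_le_of_norm_le_const (a := 0) (b := 2 * Real.pi)
    (C := C / Real.sqrt M * r ^ 3) (f := fun y : ℝ => (vv M k (Real.log r + y * I) -
        (-(Real.sin y / r) - r * (β.re * Real.sin y + β.im * Real.cos y))) * Real.sin y)
    (fun y _ => by
      rw [norm_mul, Real.norm_eq_abs, Real.norm_eq_abs]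
      calc _ ≤ C / Real.sqrt M * r ^ 3 * 1 :=
            mul_le_mul (hpt y) (Real.abs_sin_le_one y) (abs_nonneg _) (by positivity)
        _ = _ := mul_one _)
  rw [Real.norm_eq_abs, sub_zero, abs_of_pos Real.two_pi_pos] at hb
  calc _ ≤ _ := hb
    _ = _ := by ring

end Pool.Agent.CRD
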