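import Pool.Agent.CRD.LowR

/-! CRD/ConstV.  If the remainder vanishes then `v = -2 cosh x sin y + const`: the gradient of `v` is that of `-2 cosh x sin y`
at almost every point, so the two functions have equal increments along almost every (hence every) horizontal and vertical segment. -/

set_option autoImplicit false

open Complex MeasureTheory Metric Set

namespace Pool.Agent.CRD

/-- the good points of the strip -/
private def Gd (v : ℂ → ℝ) (a b : ℝ) (ω : ℂ) : Prop :=
  ω ∈ strip a b → DifferentiableAt ℝ v ω ∧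
    fderiv ℝ v ω 1 = -2 * Real.sinh ω.re * Real.sin ω.im ∧
    fderiv ℝ v ω I = -2 * Real.cosh ω.re * Real.cos ω.im

private theorem gd_ae {v : ℂ → ℝ} (hlip : ∀ ω : ℂ, ω.re < 0 → ∃ K : NNReal, ∃ s > 0, LipschitzOnWith K v (ball ω s))
    (hd : ∀ᵐ ω : ℂ, ω.re < 0 → DifferentiableAt ℝ v ω)
    (h : ∀ a b : ℝ, a < b → b < 0 → ∫ ω in strip a b, gap v ω ≤ 0) {a b : ℝ} (hab : a < b) (hb : b < 0) :
    ∀ᵐ ω : ℂ, Gd v a b ω := by
  have hnn : ∀ ω, 0 ≤ gap v ω := fun ω => by
    unfold gap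
    positivity
  have h0 : ∫ ω in strip a b, gap v ω = 0 :=
    le_antisymm (h a b hab hb) (integral_nonneg hnn)
  have h1 := (setIntegral_eq_zero_iff_of_nonneg_ae (Filter.Eventually.of_forall hnn)
    (gap_int hlip hb)).1 h0
  rw [Filter.EventuallyEq, ae_restrict_iff' (measurableSet_strip a b)] at h1
  filter_upwards [h1, hd] with ω hω1 hω2 hω
  have h2 : gap v ω = 0 := hω1 hω
  unfold gap at h2
  have h3 : fderiv ℝ v ω 1 + 2 * Real.sinh ω.re * Real.sin ω.im = 0 := by
    have := sq_nonneg (fderiv ℝ v ω 1 + 2 * Real.sinh ω.re * Real.sin ω.im)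
    have := sq_nonneg (fderiv ℝ v ω I + 2 * Real.cosh ω.re * Real.cos ω.im)
    have h4 : (fderiv ℝ v ω 1 + 2 * Real.sinh ω.re * Real.sin ω.im) ^ 2 = 0 := by linarith
    exact pow_eq_zero_iff (two_ne_zero) |>.1 h4
  have h5 : fderiv ℝ v ω I + 2 * Real.cosh ω.re * Real.cos ω.im = 0 := by
    rw [h3] at h2
    have h4 : (fderiv ℝ v ω I + 2 * Real.cosh ω.re * Real.cos ω.im) ^ 2 = 0 := by linarith
    exact pow_eq_zero_iff (two_ne_zero) |>.1 h4
  exact ⟨hω2 (lt_trans hω.2.1 hb), by linarith, by linarith⟩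

private theorem cv_deriv_x {v : ℂ → ℝ} {x y : ℝ} (h : DifferentiableAt ℝ v (x + y * I)) :
    deriv (fun t : ℝ => v (t + y * I)) x = fderiv ℝ v (x + y * I) 1 := by
  have h1 : HasDerivAt (fun t : ℝ => ((t : ℂ) + y * I)) 1 x := by
    have := (Complex.ofRealCLM.hasDerivAt (x := x)).add_const ((y : ℂ) * I)
    simpa using this
  exact (h.hasFDerivAt.comp_hasDerivAt x h1).deriv

private theorem cv_deriv_y {v : ℂ → ℝ} {x y : ℝ} (h : DifferentiableAt ℝ v (x + y * I)) :
    deriv (fun t : ℝ => v (x + t * I)) y = fderiv ℝ v (x + y * I) I := by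
  have h1 : HasDerivAt (fun t : ℝ => ((x : ℂ) + t * I)) I y := by
    have := ((Complex.ofRealCLM.hasDerivAt (x := y)).mul_const I).const_add (x : ℂ)
    simpa using this
  exact (h.hasFDerivAt.comp_hasDerivAt y h1).deriv

private theorem cv_lip_x {v : ℂ → ℝ} {a b a' b' : ℝ} {K : NNReal} (hK : LipschitzOnWith K v (cstrip a b)) {y : ℝ}
    (h0 : 0 ≤ y) (h1 : y ≤ 2 * Real.pi) (ha : a ≤ a') (hb : b' ≤ b) :
    LipschitzOnWith K (fun x : ℝ => v (x + y * I)) (Icc a' b') := by
  apply LipschitzOnWith.of_dist_le_mul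
  intro s hs t ht
  have h := hK.dist_le_mul (s + y * I)
    (by simpa [cstrip] using ⟨ha.trans hs.1, hs.2.trans hb, h0, h1⟩)
    (t + y * I) (by simpa [cstrip] using ⟨ha.trans ht.1, ht.2.trans hb, h0, h1⟩)
  refine h.trans (le_of_eq ?_)
  congr 1
  rw [dist_add_right, Complex.dist_eq, Real.dist_eq, ← Complex.ofReal_sub, Complex.norm_real,
    Real.norm_eq_abs]

private theorem cv_lip_y {v : ℂ → ℝ} {a b a' b' : ℝ} {K : NNReal} (hK : LipschitzOnWith K v (cstrip a b)) {x : ℝ}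
    (h0 : a ≤ x) (h1 : x ≤ b) (ha : 0 ≤ a') (hb : b' ≤ 2 * Real.pi) :
    LipschitzOnWith K (fun y : ℝ => v (x + y * I)) (Icc a' b') := by
  apply LipschitzOnWith.of_dist_le_mul
  intro s hs t ht
  have h := hK.dist_le_mul (x + s * I)
    (by simpa [cstrip] using ⟨h0, h1, ha.trans hs.1, hs.2.trans hb⟩)
    (x + t * I) (by simpa [cstrip] using ⟨h0, h1, ha.trans ht.1, ht.2.trans hb⟩)
  refine h.trans (le_of_eq ?_)
  congr 1
  rw [dist_add_left, Complex.dist_eq, Real.dist_eq, ← sub_mul, norm_mul, Complex.norm_I, mul_one,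
    ← Complex.ofReal_sub, Complex.norm_real, Real.norm_eq_abs]

private theorem cv_ftc {u : ℝ → ℝ} {a b : ℝ} {K : NNReal} (hab : a ≤ b) (hu : LipschitzOnWith K u (Icc a b))
    {P p : ℝ → ℝ} (hP : ∀ x, HasDerivAt P (p x) x) (hp : Continuous p)
    (h : ∀ᵐ x : ℝ, x ∈ Ioc a b → deriv u x = p x) : u b - u a = P b - P a := by
  obtain ⟨-, h2⟩ := ibp hab hu (g := fun _ => 1) (g' := fun _ => 0)
    (fun x => hasDerivAt_const x 1) continuous_const
  simp only [mul_one, mul_zero, intervalIntegral.integral_zero, sub_zero] at h2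
  have h3 : ∫ x in a..b, deriv u x = ∫ x in a..b, p x := by
    refine intervalIntegral.integral_congr_ae ?_
    rw [uIoc_of_le hab]
    exact h
  rw [← h2, h3]
  exact intervalIntegral.integral_eq_sub_of_hasDerivAt (fun x _ => hP x)
    (hp.intervalIntegrable a b)

private theorem cv_cont {v : ℂ → ℝ} (hlip : ∀ ω : ℂ, ω.re < 0 → ∃ K : NNReal, ∃ s > 0, LipschitzOnWith K v (ball ω s))
    {ω : ℂ} (h : ω.re < 0) : ContinuousAt v ω := by
  obtain ⟨K, s, hs, hK⟩ := hlip ω h
  exact hK.continuousOn.continuousAt (ball_mem_nhds ω hs)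

private theorem cv_hor {v : ℂ → ℝ} (hlip : ∀ ω : ℂ, ω.re < 0 → ∃ K : NNReal, ∃ s > 0, LipschitzOnWith K v (ball ω s))
    {a b : ℝ} (hb : b < 0) (hG : ∀ᵐ ω : ℂ, Gd v a b ω) {x1 x2 : ℝ} (h1 : a < x1) (h12 : x1 ≤ x2)
    (h2 : x2 < b) {y : ℝ} (hy0 : 0 < y) (hy1 : y < 2 * Real.pi) :
    v (x2 + y * I) - v (x1 + y * I) = -2 * (Real.cosh x2 - Real.cosh x1) * Real.sin y := by
  obtain ⟨K, hK⟩ := lip_strip (a := a) hlip hb
  have key : ∀ᵐ y : ℝ, y ∈ Ioo 0 (2 * Real.pi) →
      v (x2 + y * I) - v (x1 + y * I) = -2 * (Real.cosh x2 - Real.cosh x1) * Real.sin y := by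
    filter_upwards [ae_x hG] with y hy hy'
    have h3 := cv_ftc h12 (cv_lip_x hK hy'.1.le hy'.2.le h1.le h2.le)
      (P := fun x => -2 * Real.cosh x * Real.sin y) (p := fun x => -2 * Real.sinh x * Real.sin y)
      (fun x => ((Real.hasDerivAt_cosh x).const_mul (-2)).mul_const _)
      ((continuous_const.mul Real.continuous_sinh).mul continuous_const) ?_
    · rw [h3]
      ring
    · filter_upwards [hy] with x hx hx'
      have hs : (x + y * I : ℂ) ∈ strip a b := by
        have h4 := hx'.1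
        have h5 := hx'.2
        simp only [strip, mem_ofPred_eq, add_re, ofReal_re, mul_re, I_re, mul_zero, ofReal_im, I_im,
          mul_one, sub_self, add_zero, add_im, mul_im, zero_add]
        exact ⟨by linarith, by linarith, hy'.1, hy'.2⟩
      obtain ⟨g1, g2, -⟩ := hx hs
      rw [cv_deriv_x g1, g2]
      simp
  have hc : ∀ x : ℝ, x < 0 → Continuous (fun y : ℝ => v (x + y * I)) := by
    intro x hx
    refine continuous_iff_continuousAt.2 fun y => ?_
    have h3 : ContinuousAt v ((x : ℂ) + y * I) := cv_cont hlip (by simpa using hx)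
    have h4 : Continuous (fun y : ℝ => ((x : ℂ) + y * I)) := by fun_prop
    exact ContinuousAt.comp (f := fun y : ℝ => ((x : ℂ) + y * I)) h3 h4.continuousAt
  have h3 := Measure.eqOn_open_of_ae_eq (μ := (volume : Measure ℝ)) (U := Ioo 0 (2 * Real.pi))
    (f := fun y : ℝ => v (x2 + y * I) - v (x1 + y * I))
    (g := fun y : ℝ => -2 * (Real.cosh x2 - Real.cosh x1) * Real.sin y)
    (by
      rw [Filter.EventuallyEq, ae_restrict_iff' measurableSet_Ioo]
      exact key) isOpen_Ioo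
    ((hc x2 (by linarith)).sub (hc x1 (by linarith))).continuousOn
    (continuous_const.mul Real.continuous_sin).continuousOn
  exact h3 ⟨hy0, hy1⟩

private theorem cv_ver {v : ℂ → ℝ} (hlip : ∀ ω : ℂ, ω.re < 0 → ∃ K : NNReal, ∃ s > 0, LipschitzOnWith K v (ball ω s))
    {a b : ℝ} (hb : b < 0) (hG : ∀ᵐ ω : ℂ, Gd v a b ω) {y1 y2 : ℝ} (h1 : 0 < y1) (h12 : y1 ≤ y2)
    (h2 : y2 < 2 * Real.pi) {x : ℝ} (hx0 : a < x) (hx1 : x < b) :
    v (x + y2 * I) - v (x + y1 * I) = -2 * Real.cosh x * (Real.sin y2 - Real.sin y1) := by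
  obtain ⟨K, hK⟩ := lip_strip (a := a) hlip hb
  have key : ∀ᵐ x : ℝ, x ∈ Ioo a b →
      v (x + y2 * I) - v (x + y1 * I) = -2 * Real.cosh x * (Real.sin y2 - Real.sin y1) := by
    filter_upwards [ae_y hG] with x hx hx'
    have h3 := cv_ftc h12 (cv_lip_y hK hx'.1.le hx'.2.le h1.le h2.le)
      (P := fun y => -2 * Real.cosh x * Real.sin y) (p := fun y => -2 * Real.cosh x * Real.cos y)
      (fun y => (Real.hasDerivAt_sin y).const_mul _)
      (continuous_const.mul Real.continuous_cos) ?_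
    · rw [h3]
      ring
    · filter_upwards [hx] with y hy hy'
      have hs : (x + y * I : ℂ) ∈ strip a b := by
        have h4 := hy'.1
        have h5 := hy'.2
        simp only [strip, mem_ofPred_eq, add_re, ofReal_re, mul_re, I_re, mul_zero, ofReal_im, I_im,
          mul_one, sub_self, add_zero, add_im, mul_im, zero_add]
        exact ⟨hx'.1, hx'.2, by linarith, by linarith⟩
      obtain ⟨g1, -, g2⟩ := hy hs
      rw [cv_deriv_y g1, g2]
      simp
  have hc : ∀ y : ℝ, ContinuousOn (fun x : ℝ => v (x + y * I)) (Ioo a b) := by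
    intro y x hx
    have h3 : ContinuousAt v ((x : ℂ) + y * I) := cv_cont hlip (by
      have := hx.2
      simp only [add_re, ofReal_re, mul_re, I_re, mul_zero, ofReal_im, I_im,
        mul_one, sub_self, add_zero]
      linarith)
    have h4 : Continuous (fun x : ℝ => ((x : ℂ) + y * I)) := by fun_prop
    exact (ContinuousAt.comp (f := fun x : ℝ => ((x : ℂ) + y * I)) h3
      h4.continuousAt).continuousWithinAt
  have h3 := Measure.eqOn_open_of_ae_eq (μ := (volume : Measure ℝ)) (U := Ioo a b)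
    (f := fun x : ℝ => v (x + y2 * I) - v (x + y1 * I))
    (g := fun x : ℝ => -2 * Real.cosh x * (Real.sin y2 - Real.sin y1))
    (by
      rw [Filter.EventuallyEq, ae_restrict_iff' measurableSet_Ioo]
      exact key) isOpen_Ioo
    ((hc y2).sub (hc y1))
    ((continuous_const.mul Real.continuous_cosh).mul continuous_const).continuousOn
  exact h3 ⟨hx0, hx1⟩

theorem const_v {v : ℂ → ℝ} (hlip : ∀ ω : ℂ, ω.re < 0 → ∃ K : NNReal, ∃ s > 0, LipschitzOnWith K v (ball ω s))
    (hd : ∀ᵐ ω : ℂ, ω.re < 0 → DifferentiableAt ℝ v ω)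
    (h : ∀ a b : ℝ, a < b → b < 0 → ∫ ω in strip a b, gap v ω ≤ 0) :
    ∃ c : ℝ, ∀ ω : ℂ, ω.re < 0 → 0 < ω.im → ω.im < 2 * Real.pi →
      v ω = -2 * Real.cosh ω.re * Real.sin ω.im + c := by
  have hpi := Real.pi_pos
  refine ⟨v ((-1 : ℝ) + Real.pi * I), fun ω h1 h2 h3 => ?_⟩
  obtain ⟨x, y⟩ := ω
  simp only at h1 h2 h3 ⊢
  have e : (⟨x, y⟩ : ℂ) = x + y * I := by
    apply Complex.ext <;> simp
  rw [e]
  obtain ⟨a, ha1, ha2⟩ : ∃ a : ℝ, a < x ∧ a < -1 := ⟨min x (-1) - 1, by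
    have := min_le_left x (-1)
    linarith, by
    have := min_le_right x (-1)
    linarith⟩
  obtain ⟨b, hb1, hb2, hb3⟩ : ∃ b : ℝ, x < b ∧ -1 < b ∧ b < 0 := ⟨max x (-1) / 2, by
    have h4 := le_max_left x (-1)
    have h5 : max x (-1) < 0 := max_lt h1 (by norm_num)
    linarith, by
    have h4 := le_max_right x (-1)
    have h5 : max x (-1) < 0 := max_lt h1 (by norm_num)
    linarith, by
    have h5 : max x (-1) < 0 := max_lt h1 (by norm_num)
    linarith⟩
  have hG := gd_ae hlip hd h (ha1.trans hb1) hb3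
  have hv : v (x + y * I) - v (x + Real.pi * I) = -2 * Real.cosh x * (Real.sin y - Real.sin Real.pi) := by
    rcases le_total Real.pi y with h4 | h4
    · exact cv_ver hlip hb3 hG hpi h4 h3 ha1 hb1
    · have := cv_ver hlip hb3 hG h2 h4 (by linarith) ha1 hb1
      linarith
  have hh : v (x + Real.pi * I) - v ((-1 : ℝ) + Real.pi * I) =
      -2 * (Real.cosh x - Real.cosh (-1)) * Real.sin Real.pi := by
    rcases le_total (-1) x with h4 | h4
    · exact cv_hor hlip hb3 hG ha2 h4 hb1 hpi (by linarith)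
    · have := cv_hor hlip hb3 hG ha1 h4 hb2 hpi (by linarith)
      linarith
  rw [Real.sin_pi] at hv hh
  linarith

end Pool.Agent.CRD
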