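import Pool.Agent.CRD.LowB

/-! CRD/Low.  The lower bound for the energy of `v` on the strip `-L < Re ω < 0`.

PLAN.  `low_b`: `cross`, `square` of `LowB` and `W ≥ 2 (D1 px + D2 py) - (px² + py²)` a.e.  (`HasFDerivAt.fderiv`.)
`low`: `low_b` for `a = -L` and `b → 0-` (`W ≥ 0` a.e. on `Re < 0`, so the integral over `strip (-L) b` is `≤` the integral over `strip (-L) 0`; the left side is
continuous in `b`). -/

set_option autoImplicit false

open Complex MeasureTheory Metric Set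

namespace Pool.Agent.CRD

theorem low_b {v W : ℂ → ℝ} (hlip : ∀ ω : ℂ, ω.re < 0 → ∃ K : NNReal, ∃ s > 0, LipschitzOnWith K v (ball ω s))
    (hper : ∀ ω, v (ω + 2 * Real.pi * I) = v ω)
    (hW : ∀ᵐ ω : ℂ, ω.re < 0 → ∃ L : ℂ →L[ℝ] ℝ, HasFDerivAt v L ω ∧ (L 1) ^ 2 + (L I) ^ 2 = W ω)
    {a b : ℝ} (hab : a < b) (hb : b < 0) (hI : IntegrableOn W (strip a b)) :
    -4 * Real.sinh (b - a) * (∫ y in (0 : ℝ)..2 * Real.pi, v (a + y * I) * Real.sin y) -
      2 * Real.pi * Real.sinh (2 * (b - a)) ≤ ∫ ω in strip a b, W ω := by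
  have hd : ∀ᵐ ω : ℂ, ω.re < 0 → DifferentiableAt ℝ v ω := by
    filter_upwards [hW] with ω h hω
    obtain ⟨L, hL, -⟩ := h hω
    exact hL.differentiableAt
  obtain ⟨hc1, hc2⟩ := cross hlip hper hd hab hb
  obtain ⟨hs1, hs2⟩ := square hab
  have hI2 : IntegrableOn (fun ω => 2 * (fderiv ℝ v ω 1 * (-2 * Real.sinh (ω.re - b) * Real.sin ω.im) +
        fderiv ℝ v ω I * (-2 * Real.cosh (ω.re - b) * Real.cos ω.im)) -
      ((-2 * Real.sinh (ω.re - b) * Real.sin ω.im) ^ 2 +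
        (-2 * Real.cosh (ω.re - b) * Real.cos ω.im) ^ 2)) (strip a b) :=
    (hc1.const_mul 2).sub hs1
  have hval : ∫ ω in strip a b, (2 * (fderiv ℝ v ω 1 * (-2 * Real.sinh (ω.re - b) * Real.sin ω.im) +
        fderiv ℝ v ω I * (-2 * Real.cosh (ω.re - b) * Real.cos ω.im)) -
      ((-2 * Real.sinh (ω.re - b) * Real.sin ω.im) ^ 2 +
        (-2 * Real.cosh (ω.re - b) * Real.cos ω.im) ^ 2)) =
      2 * (-2 * Real.sinh (b - a) * ∫ y in (0 : ℝ)..2 * Real.pi, v (a + y * I) * Real.sin y) -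
        2 * Real.pi * Real.sinh (2 * (b - a)) := by
    rw [integral_sub (hc1.const_mul 2) hs1, integral_const_mul, hc2, hs2]
  have hle : ∫ ω in strip a b, (2 * (fderiv ℝ v ω 1 * (-2 * Real.sinh (ω.re - b) * Real.sin ω.im) +
        fderiv ℝ v ω I * (-2 * Real.cosh (ω.re - b) * Real.cos ω.im)) -
      ((-2 * Real.sinh (ω.re - b) * Real.sin ω.im) ^ 2 +
        (-2 * Real.cosh (ω.re - b) * Real.cos ω.im) ^ 2)) ≤ ∫ ω in strip a b, W ω := by
    refine integral_mono_ae hI2 hI ?_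
    rw [Filter.EventuallyLE, ae_restrict_iff' (measurableSet_strip a b)]
    filter_upwards [hW] with ω h hω
    have hre : ω.re < 0 := lt_trans hω.2.1 hb
    obtain ⟨L, hL, hLW⟩ := h hre
    rw [hL.fderiv, ← hLW]
    nlinarith [sq_nonneg (L 1 - (-2 * Real.sinh (ω.re - b) * Real.sin ω.im)),
      sq_nonneg (L I - (-2 * Real.cosh (ω.re - b) * Real.cos ω.im))]
  rw [hval] at hle
  linarith

theorem low {v W : ℂ → ℝ} (hlip : ∀ ω : ℂ, ω.re < 0 → ∃ K : NNReal, ∃ s > 0, LipschitzOnWith K v (ball ω s))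
    (hper : ∀ ω, v (ω + 2 * Real.pi * I) = v ω)
    (hW : ∀ᵐ ω : ℂ, ω.re < 0 → ∃ L : ℂ →L[ℝ] ℝ, HasFDerivAt v L ω ∧ (L 1) ^ 2 + (L I) ^ 2 = W ω)
    {a : ℝ} (ha : a < 0) (hI : IntegrableOn W (strip a 0)) :
    -4 * Real.sinh (-a) * (∫ y in (0 : ℝ)..2 * Real.pi, v (a + y * I) * Real.sin y) -
      2 * Real.pi * Real.sinh (2 * -a) ≤ ∫ ω in strip a 0, W ω := by
  set S := ∫ y in (0 : ℝ)..2 * Real.pi, v (a + y * I) * Real.sin y with hS
  have hW0 : 0 ≤ᵐ[volume.restrict (strip a 0)] W := by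
    rw [Filter.EventuallyLE, ae_restrict_iff' (measurableSet_strip a 0)]
    filter_upwards [hW] with ω h hω
    obtain ⟨L, -, hLW⟩ := h hω.2.1
    rw [← hLW]
    show (0 : ℝ) ≤ _
    positivity
  have hev : ∀ᶠ b in nhdsWithin (0 : ℝ) (Iio 0),
      -4 * Real.sinh (b - a) * S - 2 * Real.pi * Real.sinh (2 * (b - a)) ≤ ∫ ω in strip a 0, W ω := by
    have h1 : Ioo a 0 ∈ nhdsWithin (0 : ℝ) (Iio 0) := Ioo_mem_nhdsLT ha
    filter_upwards [h1] with b hb
    have hsub : strip a b ⊆ strip a 0 := fun ω hω => ⟨hω.1, lt_trans hω.2.1 hb.2, hω.2.2⟩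
    refine (low_b hlip hper hW hb.1 hb.2 (hI.mono_set hsub)).trans ?_
    exact setIntegral_mono_set hI hW0 (Filter.Eventually.of_forall hsub)
  have hcont : Filter.Tendsto (fun b : ℝ => -4 * Real.sinh (b - a) * S -
      2 * Real.pi * Real.sinh (2 * (b - a))) (nhdsWithin 0 (Iio 0))
      (nhds (-4 * Real.sinh (0 - a) * S - 2 * Real.pi * Real.sinh (2 * (0 - a)))) := by
    have : Continuous (fun b : ℝ => -4 * Real.sinh (b - a) * S -
      2 * Real.pi * Real.sinh (2 * (b - a))) := by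
      have h1 := Real.continuous_sinh
      fun_prop
    exact (this.tendsto 0).mono_left nhdsWithin_le_nhds
  have := le_of_tendsto hcont hev
  simpa only [zero_sub] using this

end Pool.Agent.CRD
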