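import Pool.Agent.CRD.Root

/-! CRD/Smal.  Elementary facts on the data near `0`, and boundedness of the weight away from `0`. -/

set_option autoImplicit false

open Complex MeasureTheory Metric Set Filter Topology

namespace Pool.Agent.CRD

variable {M : ℝ} {f k : ℂ → ℂ}

theorem f_diff (D : Dat M f k) : DifferentiableOn ℂ f (ball 0 1) := by
  have h1 : DifferentiableOn ℂ (fun u => u * (k u) ^ 2) (ball 0 1) :=
    differentiableOn_id.mul (D.kd.pow 2)
  exact h1.congr D.fk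

theorem f_zero (D : Dat M f k) : f 0 = 0 := by
  rw [D.fk 0 (mem_ball_self one_pos), zero_mul]

theorem f_deriv0 (D : Dat M f k) : HasDerivAt f 1 0 := by
  have hb : ball (0 : ℂ) 1 ∈ 𝓝 (0 : ℂ) := ball_mem_nhds 0 one_pos
  have h1 : HasDerivAt k (deriv k 0) 0 := (D.kd.differentiableAt hb).hasDerivAt
  have h2 := (hasDerivAt_id (0 : ℂ)).mul (h1.pow 2)
  have h3 : HasDerivAt (fun u => u * (k u) ^ 2) 1 0 := by
    refine HasDerivAt.congr_deriv h2 ?_
    simp [D.k0]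
  refine h3.congr_of_eventuallyEq ?_
  filter_upwards [hb] with u hu
  exact D.fk u hu

theorem fB_nhds (D : Dat M f k) {r : ℝ} (hr : 0 < r) : f '' closedBall 0 r ∈ 𝓝 (0 : ℂ) := by
  have hb : ball (0 : ℂ) 1 ∈ 𝓝 (0 : ℂ) := ball_mem_nhds 0 one_pos
  have h1 : AnalyticAt ℂ f 0 := (f_diff D).analyticAt hb
  have h2 : HasStrictDerivAt f (deriv f 0) 0 := h1.hasStrictDerivAt
  rw [(f_deriv0 D).deriv] at h2
  have h3 := h2.map_nhds_eq one_ne_zero
  rw [f_zero D] at h3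
  rw [← h3]
  exact image_mem_map (closedBall_mem_nhds 0 hr)

theorem small_Cd (D : Dat M f k) :
    ∃ r1 : ℝ, 0 < r1 ∧ r1 < 1 ∧ ∀ r, 0 < r → r < r1 → f '' closedBall 0 (r ^ 2) ⊆ Cd M := by
  have h1 : ContinuousAt f 0 := (f_deriv0 D).continuousAt
  have h2 : Cd M ∈ 𝓝 (f 0) := by
    rw [f_zero D]
    exact (isOpen_Cd D.hM).mem_nhds zero_mem_Cd
  obtain ⟨δ, hδ, h3⟩ := Metric.eventually_nhds_iff.1 (h1.eventually h2)
  refine ⟨min δ (1 / 2), lt_min hδ (by norm_num), (min_le_right _ _).trans_lt (by norm_num), ?_⟩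
  rintro r hr0 hr1 _ ⟨u, hu, rfl⟩
  have h4 : r < δ := hr1.trans_le (min_le_left _ _)
  have h5 : r < 1 / 2 := hr1.trans_le (min_le_right _ _)
  refine h3 (y := u) ?_
  have h6 : dist u 0 ≤ r ^ 2 := hu
  have h7 : r ^ 2 ≤ r := by nlinarith
  linarith

theorem rho_bdd (hM : 0 < M) {δ : ℝ} (hδ : 0 < δ) : ∃ C : ℝ, ∀ w : ℂ, δ ≤ ‖w‖ → rho M w ≤ C := by
  have hc : 0 < min 1 (2 * δ / (3 * M)) := lt_min one_pos (by positivity)
  refine ⟨((min 1 (2 * δ / (3 * M))) ^ 3)⁻¹, fun w hw => ?_⟩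
  have h1 : min 1 (2 * δ / (3 * M)) ≤ ‖et M w‖ := by
    rcases le_or_gt 1 ‖et M w‖ with h | h
    · exact (min_le_left _ _).trans h
    · refine (min_le_right _ _).trans ?_
      rw [div_le_iff₀ (by positivity)]
      have h2 : ‖w‖ ≤ M * (‖et M w‖ + ‖et M w‖ ^ 2 / 2) := by
        conv_lhs => rw [← et_eq hM w]
        rw [norm_mul, Complex.norm_real, Real.norm_of_nonneg hM.le]
        refine mul_le_mul_of_nonneg_left ((norm_add_le _ _).trans ?_) hM.le
        rw [norm_div, norm_pow, Complex.norm_ofNat]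
      have h3 : 0 ≤ ‖et M w‖ := norm_nonneg _
      have h4 : ‖et M w‖ ^ 2 ≤ ‖et M w‖ := by nlinarith
      nlinarith
  unfold rho
  exact inv_anti₀ (pow_pos hc 3) (pow_le_pow_left₀ hc.le h1 3)

theorem Cd_bdd (hM : 0 < M) : Cd M ⊆ closedBall 0 (3 * M / 2) := by
  rintro _ ⟨η, hη, rfl⟩
  rw [mem_ball, dist_zero_right] at hη
  rw [mem_closedBall, dist_zero_right, norm_mul, Complex.norm_real, Real.norm_of_nonneg hM.le]
  have h1 : ‖η + η ^ 2 / 2‖ ≤ ‖η‖ + ‖η‖ ^ 2 / 2 := by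
    refine (norm_add_le _ _).trans ?_
    rw [norm_div, norm_pow, Complex.norm_ofNat]
  have h2 : 0 ≤ ‖η‖ := norm_nonneg _
  have h3 : ‖η‖ ^ 2 ≤ 1 := by nlinarith
  nlinarith

/-- integrability of the weight on the part of the cardioid outside a neighbourhood of `0` -/
theorem rho_int (hM : 0 < M) {B : Set ℂ} (hB : MeasurableSet B) (h0 : B ∈ 𝓝 (0 : ℂ)) :
    IntegrableOn (rho M) (Cd M \ B) := by
  obtain ⟨δ, hδ, hsub⟩ := Metric.mem_nhds_iff.1 h0
  obtain ⟨C, hC⟩ := rho_bdd hM hδ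
  have hms : MeasurableSet (Cd M \ B) := (isOpen_Cd hM).measurableSet.diff hB
  have hfin : volume (Cd M \ B) ≠ ⊤ := by
    refine ne_top_of_le_ne_top ?_ (measure_mono (sdiff_subset.trans (Cd_bdd hM)))
    exact measure_closedBall_lt_top.ne
  refine Measure.integrableOn_of_bounded (M := C) hfin measurable_rho.aestronglyMeasurable ?_
  refine ae_restrict_of_forall_mem hms fun w hw => ?_
  rw [Real.norm_of_nonneg (rho_nonneg w)]
  refine hC w ?_
  by_contra h
  push Not at h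
  exact hw.2 (hsub (by rwa [mem_ball, dist_zero_right]))

end Pool.Agent.CRD
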