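import Pool.Agent.CRD.Defs

/-! CRD/SqrtF.  The square root `k` of `f u / u` on the unit disc: `dslope f 0` has no zeros on the disc, a
primitive of its logarithmic derivative gives a logarithm, `k = exp (primitive / 2)`. -/

set_option autoImplicit false

open Complex MeasureTheory Metric Set

namespace Pool.Agent.CRD

private theorem exists_sqrt {h : ℂ → ℂ} (hd : DifferentiableOn ℂ h (ball 0 1)) (h0 : h 0 = 1)
    (hne : ∀ u ∈ ball (0 : ℂ) 1, h u ≠ 0) :
    ∃ k : ℂ → ℂ, DifferentiableOn ℂ k (ball 0 1) ∧ k 0 = 1 ∧ (∀ u ∈ ball (0 : ℂ) 1, k u ≠ 0) ∧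
      ∀ u ∈ ball (0 : ℂ) 1, h u = (k u) ^ 2 := by
  have hq : DifferentiableOn ℂ (fun u => deriv h u / h u) (ball 0 1) :=
    (hd.deriv isOpen_ball).div hd hne
  obtain ⟨F, hF0, hF⟩ := hq.isExactOn_ball.with_val_at 0 0
  have hG : ∀ u ∈ ball (0 : ℂ) 1, HasDerivAt (fun u => h u * exp (-F u)) 0 u := by
    intro u hu
    have h1 : HasDerivAt h (deriv h u) u :=
      (hd.differentiableAt (isOpen_ball.mem_nhds hu)).hasDerivAt
    have h2 : HasDerivAt (fun u => exp (-F u)) (exp (-F u) * -(deriv h u / h u)) u :=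
      (hF u hu).neg.cexp
    have h3 := h1.mul h2
    have h4 : deriv h u * exp (-F u) + h u * (exp (-F u) * -(deriv h u / h u)) = 0 := by
      have := hne u hu
      field_simp
      ring
    rw [← h4]
    exact h3
  have hconst : ∀ u ∈ ball (0 : ℂ) 1, h u * exp (-F u) = 1 := by
    intro u hu
    have h1 := isOpen_ball.is_const_of_deriv_eq_zero (convex_ball (0 : ℂ) 1).isPreconnected
      (f := fun u => h u * exp (-F u))
      (fun v hv => (hG v hv).differentiableAt.differentiableWithinAt)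
      (fun v hv => (hG v hv).deriv) hu (mem_ball_self one_pos)
    rw [h1, h0, hF0]
    simp
  refine ⟨fun u => exp (F u / 2), ?_, ?_, fun u _ => exp_ne_zero _, ?_⟩
  · intro u hu
    exact ((hF u hu).div_const 2).cexp.differentiableAt.differentiableWithinAt
  · simp [hF0]
  · intro u hu
    have h1 := hconst u hu
    have h2 : exp (F u / 2) ^ 2 = exp (F u) := by
      rw [← exp_nat_mul]
      congr 1
      push_cast
      ring
    rw [h2]
    have h3 : exp (-F u) * exp (F u) = 1 := by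
      rw [← exp_add, neg_add_cancel, exp_zero]
    calc h u = h u * (exp (-F u) * exp (F u)) := by rw [h3, mul_one]
      _ = (h u * exp (-F u)) * exp (F u) := by ring
      _ = exp (F u) := by rw [h1, one_mul]

theorem exists_k {f : ℂ → ℂ} (hf : DifferentiableOn ℂ f (ball 0 1)) (h0 : f 0 = 0) (h1 : deriv f 0 = 1)
    (hz : ∀ u ∈ ball (0 : ℂ) 1, f u = 0 → u = 0) :
    ∃ k : ℂ → ℂ, DifferentiableOn ℂ k (ball 0 1) ∧ k 0 = 1 ∧ (∀ u ∈ ball (0 : ℂ) 1, k u ≠ 0) ∧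
      (∀ u ∈ ball (0 : ℂ) 1, f u = u * (k u) ^ 2) ∧ 2 * deriv k 0 = deriv (deriv f) 0 / 2 := by
  have hmem : ball (0 : ℂ) 1 ∈ nhds (0 : ℂ) := ball_mem_nhds _ one_pos
  have hd : DifferentiableOn ℂ (dslope f 0) (ball 0 1) := (differentiableOn_dslope hmem).2 hf
  have hfs : ∀ u : ℂ, f u = u * dslope f 0 u := by
    intro u
    have h2 := sub_smul_dslope f 0 u
    rw [sub_zero, h0, sub_zero, smul_eq_mul] at h2
    exact h2.symm
  have hne : ∀ u ∈ ball (0 : ℂ) 1, dslope f 0 u ≠ 0 := by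
    intro u hu hcon
    have h2 : f u = 0 := by rw [hfs u, hcon, mul_zero]
    have h3 := hz u hu h2
    rw [h3, dslope_same, h1] at hcon
    exact one_ne_zero hcon
  obtain ⟨k, hk, hk0, hkne, hks⟩ := exists_sqrt hd (by rw [dslope_same, h1]) hne
  have hfk : ∀ u ∈ ball (0 : ℂ) 1, f u = u * (k u) ^ 2 := fun u hu => by rw [hfs u, hks u hu]
  refine ⟨k, hk, hk0, hkne, hfk, ?_⟩
  have hkd : ∀ u ∈ ball (0 : ℂ) 1, HasDerivAt k (deriv k u) u := fun u hu =>
    (hk.differentiableAt (isOpen_ball.mem_nhds hu)).hasDerivAt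
  have hdf : ∀ u ∈ ball (0 : ℂ) 1, deriv f u = (k u) ^ 2 + u * (2 * k u * deriv k u) := by
    intro u hu
    have h2 : HasDerivAt (fun u => u * (k u) ^ 2)
        (1 * (k u) ^ 2 + u * (((2 : ℕ) : ℂ) * (k u) ^ (2 - 1) * deriv k u)) u :=
      (hasDerivAt_id' u).mul ((hkd u hu).pow 2)
    have h3 : f =ᶠ[nhds u] fun u => u * (k u) ^ 2 := by
      filter_upwards [isOpen_ball.mem_nhds hu] with v hv
      exact hfk v hv
    rw [h3.deriv_eq, h2.deriv]
    norm_num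
  have hkd2 : HasDerivAt (deriv k) (deriv (deriv k) 0) 0 :=
    ((hk.deriv isOpen_ball).differentiableAt hmem).hasDerivAt
  have hk1 := hkd 0 (mem_ball_self one_pos)
  have h4 : HasDerivAt (fun u => (k u) ^ 2 + u * (2 * k u * deriv k u))
      (((2 : ℕ) : ℂ) * (k 0) ^ (2 - 1) * deriv k 0 + (1 * (2 * k 0 * deriv k 0) +
        0 * (2 * deriv k 0 * deriv k 0 + 2 * k 0 * deriv (deriv k) 0))) 0 :=
    (hk1.pow 2).add ((hasDerivAt_id' (0 : ℂ)).mul ((hk1.const_mul 2).mul hkd2))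
  have h5 : deriv f =ᶠ[nhds (0 : ℂ)] fun u => (k u) ^ 2 + u * (2 * k u * deriv k u) := by
    filter_upwards [hmem] with v hv
    exact hdf v hv
  rw [h5.deriv_eq, h4.deriv, hk0]
  norm_num

theorem exists_dat {M : ℝ} (hM : 0 < M) {f : ℂ → ℂ} (hf : DifferentiableOn ℂ f (ball 0 1)) (h0 : f 0 = 0)
    (h1 : deriv f 0 = 1) (hA : IntegrableOn (fun u => ‖deriv f u‖ ^ 2) (ball 0 1))
    (hi : ∀ u ∈ ball (0 : ℂ) 1, ∀ v ∈ ball (0 : ℂ) 1, f u = f v → f u ∈ Cd M → u = v) :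
    ∃ k : ℂ → ℂ, Dat M f k ∧ 2 * deriv k 0 = deriv (deriv f) 0 / 2 := by
  have hC : (0 : ℂ) ∈ Cd M := ⟨0, mem_ball_self one_pos, by simp⟩
  have hz : ∀ u ∈ ball (0 : ℂ) 1, f u = 0 → u = 0 := by
    intro u hu hfu
    exact hi u hu 0 (mem_ball_self one_pos) (by rw [hfu, h0]) (by rw [hfu]; exact hC)
  obtain ⟨k, hk, hk0, hkne, hfk, hd⟩ := exists_k hf h0 h1 hz
  exact ⟨k, ⟨hM, hk, hk0, hkne, hfk, hA, hi⟩, hd⟩

end Pool.Agent.CRD
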