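import Pool.Agent.CRD.Upper
import Pool.Agent.CRD.Smal
import Pool.Agent.CRD.Low
import Pool.Agent.CRD.Coef
import Pool.Agent.CRD.SqrtF

/-! CRD/Core.  The master inequality. -/

set_option autoImplicit false

open Complex MeasureTheory Metric Set

namespace Pool.Agent.CRD

/-- the weighted derivative is integrable outside `0` -/
theorem int_rho {M : ℝ} {f k : ℂ → ℂ} (D : Dat M f k) {r : ℝ} (h0 : 0 < r) (h1 : r < 1) :
    IntegrableOn (fun u => rho M (f u) * ‖deriv f u‖ ^ 2) (ball 0 1 \ closedBall 0 (r ^ 2)) := by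
  have hr2 : 0 < r ^ 2 := by positivity
  have hr3 : r ^ 2 < 1 := by nlinarith
  have hn1 := fB_nhds D hr2
  have hn2 : Cd M ∈ nhds (0 : ℂ) := (isOpen_Cd D.hM).mem_nhds zero_mem_Cd
  obtain ⟨δ, hδ, hball⟩ := Metric.mem_nhds_iff.1 (Filter.inter_mem hn1 hn2)
  obtain ⟨C, hC⟩ := rho_bdd D.hM hδ
  have hout : ∀ u ∈ ball (0 : ℂ) 1 \ closedBall 0 (r ^ 2), δ ≤ ‖f u‖ := by
    intro u hu
    by_contra hcon
    push Not at hcon
    have hm : f u ∈ ball (0 : ℂ) δ := by simpa using hcon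
    obtain ⟨⟨v, hv, hvf⟩, hcd⟩ := hball hm
    have hv1 : v ∈ ball (0 : ℂ) 1 := by
      have h2 : ‖v‖ ≤ r ^ 2 := by simpa using hv
      have : ‖v‖ < 1 := lt_of_le_of_lt h2 hr3
      simpa using this
    have := D.inj u hu.1 v hv1 hvf.symm hcd
    rw [this] at hu
    exact hu.2 hv
  have hms : MeasurableSet (ball (0 : ℂ) 1 \ closedBall 0 (r ^ 2)) :=
    measurableSet_ball.diff measurableSet_closedBall
  have hint : IntegrableOn (fun u => ‖deriv f u‖ ^ 2) (ball 0 1 \ closedBall 0 (r ^ 2)) :=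
    D.area.mono_set Set.sdiff_subset
  have hfc : ContinuousOn f (ball 0 1 \ closedBall 0 (r ^ 2)) :=
    (f_diff D).continuousOn.mono Set.sdiff_subset
  have hme : AEStronglyMeasurable (fun u => rho M (f u)) (volume.restrict (ball 0 1 \ closedBall 0 (r ^ 2))) := by
    have h2 : AEMeasurable f (volume.restrict (ball 0 1 \ closedBall 0 (r ^ 2))) := hfc.aemeasurable hms
    exact (measurable_rho.comp_aemeasurable h2).aestronglyMeasurable
  have hb : ∀ᵐ u ∂(volume.restrict (ball (0 : ℂ) 1 \ closedBall 0 (r ^ 2))), ‖rho M (f u)‖ ≤ C := by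
    refine (ae_restrict_iff' hms).2 (Filter.Eventually.of_forall fun u hu => ?_)
    rw [Real.norm_eq_abs, abs_of_nonneg (rho_nonneg _)]
    exact hC _ (hout u hu)
  exact Integrable.bdd_mul hint hme hb

theorem sinh_log {r : ℝ} (h0 : 0 < r) : Real.sinh (-Real.log r) = (1 / r - r) / 2 := by
  rw [Real.sinh_eq, neg_neg, Real.exp_neg, Real.exp_log h0, one_div]

theorem sinh_log2 {r : ℝ} (h0 : 0 < r) : Real.sinh (2 * -Real.log r) = (1 / r ^ 2 - r ^ 2) / 2 := by
  have h : 2 * -Real.log r = -Real.log (r ^ 2) := by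
    rw [Real.log_pow]
    push_cast
    ring
  rw [h, sinh_log (by positivity)]

/-- integrability of the energy density on the strip -/
theorem int_WW {M : ℝ} {f k : ℂ → ℂ} (D : Dat M f k) {r : ℝ} (h0 : 0 < r) (h1 : r < 1) :
    IntegrableOn (WW M f) (strip (Real.log r) 0) := by
  have e1 := ecoord_integrable h0 h1 (int_rho D h0 h1)
  exact e1.const_mul (1 / M ^ 3)

/-- the master inequality with an additional remainder `J` -/
theorem core_J {M : ℝ} {f k : ℂ → ℂ} (D : Dat M f k) {J rJ : ℝ} (hrJ : 0 < rJ)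
    (hJ : ∀ r : ℝ, 0 < r → r < rJ → r < 1 →
      -4 * Real.sinh (-Real.log r) *
          (∫ y in (0 : ℝ)..2 * Real.pi, vv M k (Real.log r + y * I) * Real.sin y) -
        2 * Real.pi * Real.sinh (2 * -Real.log r) + J ≤ ∫ ω in strip (Real.log r) 0, WW M f ω) :
    9 / (4 * M) + Rem M f / (2 * Real.pi * M ^ 3) + J / Real.pi ≤
      Ar f / (2 * Real.pi * M ^ 3) + 2 - 2 * (deriv k 0).re := by
  obtain ⟨C1, r1, hC1, hr1, hr1', hco⟩ := coef D
  obtain ⟨C2, r2, hr2, hr2', hup⟩ := upper D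
  have hM := D.hM
  set β : ℝ := (deriv k 0).re + 3 / (4 * M) with hβ
  set X : ℝ := (Ar f - 3 * Real.pi / 2 * M ^ 2 - Rem M f) / (2 * M ^ 3) with hX
  have hpi := Real.pi_pos
  have key : ∀ r : ℝ, 0 < r → r < min (min r1 r2) rJ →
      2 * Real.pi * (β - 1) + J ≤ X + (2 * Real.pi * |β| + 2 * C1 + |C2| / (2 * M ^ 3)) * r ^ 2 := by
    intro r hr hrm
    have h3 : r < rJ := lt_of_lt_of_le hrm (min_le_right _ _)
    have h4 : r < min r1 r2 := lt_of_lt_of_le hrm (min_le_left _ _)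
    have h1 : r < r1 := lt_of_lt_of_le h4 (min_le_left _ _)
    have h2 : r < r2 := lt_of_lt_of_le h4 (min_le_right _ _)
    have hr1'' : r < 1 := h1.trans hr1'
    have hint := int_rho D hr hr1''
    have e2 := ecoord hr hr1'' hint
    have hl := hJ r hr h3 hr1''
    have hWi : ∫ ω in strip (Real.log r) 0, WW M f ω =
        1 / M ^ 3 * (1 / 2 * ∫ u in ball 0 1 \ closedBall 0 (r ^ 2), rho M (f u) * ‖deriv f u‖ ^ 2) := by
      rw [← e2, ← integral_const_mul]
      rfl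
    rw [hWi, sinh_log hr, sinh_log2 hr] at hl
    have hc := hco r hr h1
    have hu := hup r hr h2
    set S := ∫ y in (0 : ℝ)..2 * Real.pi, vv M k (Real.log r + y * I) * Real.sin y with hS
    set T := ∫ u in ball 0 1 \ closedBall 0 (r ^ 2), rho M (f u) * ‖deriv f u‖ ^ 2 with hT
    have hc2 := (abs_le.1 hc).2
    have hd : 0 < 1 / r - r := by
      have : 1 < 1 / r := by rw [lt_div_iff₀ hr]; linarith
      linarith
    have hM3 : 0 < M ^ 3 := by positivity
    -- lower side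
    have hlow : 2 * (1 / r - r) * (Real.pi * (1 / r + β * r) - C1 * r ^ 3) ≤
        -4 * ((1 / r - r) / 2) * S := by
      have : S ≤ C1 * r ^ 3 - Real.pi * (1 / r + β * r) := by linarith
      nlinarith
    have hTu : 1 / M ^ 3 * (1 / 2 * T) ≤ X + Real.pi / r ^ 2 + C2 * r ^ 2 / (2 * M ^ 3) := by
      have : 1 / M ^ 3 * (1 / 2 * T) ≤ 1 / M ^ 3 * (1 / 2 *
          (Ar f - 3 * Real.pi / 2 * M ^ 2 - Rem M f + 2 * Real.pi * M ^ 3 / r ^ 2 + C2 * r ^ 2)) := by
        have hp : 0 < 1 / M ^ 3 := by positivity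
        nlinarith
      refine this.trans (le_of_eq ?_)
      rw [hX]
      field_simp
    have e3 : 2 * (1 / r - r) * (Real.pi * (1 / r + β * r) - C1 * r ^ 3) =
        2 * Real.pi * (1 / r ^ 2) + 2 * Real.pi * (β - 1) - 2 * Real.pi * β * r ^ 2 -
          2 * C1 * (r ^ 2 - r ^ 4) := by
      field_simp
      ring
    have e4 : 2 * Real.pi * ((1 / r ^ 2 - r ^ 2) / 2) = Real.pi * (1 / r ^ 2) - Real.pi * r ^ 2 := by
      ring
    have e5 : Real.pi / r ^ 2 = Real.pi * (1 / r ^ 2) := by ring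
    rw [e3] at hlow
    rw [e4] at hl
    rw [e5] at hTu
    have hb1 : 2 * Real.pi * β * r ^ 2 ≤ 2 * Real.pi * |β| * r ^ 2 := by
      have : β ≤ |β| := le_abs_self β
      have hq : 0 ≤ 2 * Real.pi * r ^ 2 := by positivity
      nlinarith
    have hb2 : 2 * C1 * (r ^ 2 - r ^ 4) ≤ 2 * C1 * r ^ 2 := by
      have : 0 ≤ r ^ 4 := by positivity
      nlinarith
    have hb3 : C2 * r ^ 2 / (2 * M ^ 3) ≤ |C2| / (2 * M ^ 3) * r ^ 2 := by
      rw [div_mul_eq_mul_div]
      apply div_le_div_of_nonneg_right _ (by positivity)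
      exact mul_le_mul_of_nonneg_right (le_abs_self _) (by positivity)
    have hb4 : 0 ≤ Real.pi * r ^ 2 := by positivity
    have : 2 * Real.pi * (β - 1) + J ≤ X + 2 * Real.pi * |β| * r ^ 2 + 2 * C1 * r ^ 2 +
        |C2| / (2 * M ^ 3) * r ^ 2 := by
      linarith
    linarith
  have hlim : 2 * Real.pi * (β - 1) + J ≤ X := by
    have hm : 0 < min (min r1 r2) rJ := lt_min (lt_min hr1 hr2) hrJ
    set K := 2 * Real.pi * |β| + 2 * C1 + |C2| / (2 * M ^ 3) with hK
    have ht : Filter.Tendsto (fun r : ℝ => X + K * r ^ 2) (nhdsWithin 0 (Ioi 0)) (nhds (X + K * 0 ^ 2)) := by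
      apply Filter.Tendsto.mono_left _ nhdsWithin_le_nhds
      have : Continuous fun r : ℝ => X + K * r ^ 2 := by fun_prop
      exact this.tendsto 0
    have h := ge_of_tendsto ht (b := 2 * Real.pi * (β - 1) + J) (by
      filter_upwards [Ioo_mem_nhdsGT hm] with r hr
      exact key r hr.1 hr.2)
    simpa using h
  rw [hX, hβ] at hlim
  have hM3 : 0 < M ^ 3 := by positivity
  have h2 : (2 * Real.pi * ((deriv k 0).re + 3 / (4 * M) - 1) + J) * (2 * M ^ 3) ≤
      Ar f - 3 * Real.pi / 2 * M ^ 2 - Rem M f := by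
    rwa [le_div_iff₀ (by positivity)] at hlim
  have e6 : Ar f / (2 * Real.pi * M ^ 3) + 2 - 2 * (deriv k 0).re -
      (9 / (4 * M) + Rem M f / (2 * Real.pi * M ^ 3) + J / Real.pi) =
      (Ar f - 3 * Real.pi / 2 * M ^ 2 - Rem M f -
        (2 * Real.pi * ((deriv k 0).re + 3 / (4 * M) - 1) + J) * (2 * M ^ 3)) / (2 * Real.pi * M ^ 3) := by
    field_simp
    ring
  have : 0 ≤ Ar f / (2 * Real.pi * M ^ 3) + 2 - 2 * (deriv k 0).re -
      (9 / (4 * M) + Rem M f / (2 * Real.pi * M ^ 3) + J / Real.pi) := by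
    rw [e6]
    apply div_nonneg (by linarith) (by positivity)
  linarith

theorem core {M : ℝ} {f k : ℂ → ℂ} (D : Dat M f k) :
    9 / (4 * M) + Rem M f / (2 * Real.pi * M ^ 3) ≤
      Ar f / (2 * Real.pi * M ^ 3) + 2 - 2 * (deriv k 0).re := by
  have h := core_J D (J := 0) one_pos (fun r hr _ hr1 => by
    have hl := low (v := vv M k) (W := WW M f) (fun ω hω => vv_lip D ω hω) (fun ω => vv_per ω)
      (vv_ener D) (Real.log_neg hr hr1) (int_WW D hr hr1)
    linarith)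
  simpa using h

theorem main {M : ℝ} (hM : 0 < M) {f : ℂ → ℂ} (hf : DifferentiableOn ℂ f (ball 0 1)) (h0 : f 0 = 0)
    (h1 : deriv f 0 = 1) (hA : IntegrableOn (fun u => ‖deriv f u‖ ^ 2) (ball 0 1))
    (hi : ∀ u ∈ ball (0 : ℂ) 1, ∀ v ∈ ball (0 : ℂ) 1, f u = f v → f u ∈ Cd M → u = v) :
    9 / (4 * M) + Rem M f / (2 * Real.pi * M ^ 3) ≤
      Ar f / (2 * Real.pi * M ^ 3) + 2 - (deriv (deriv f) 0 / 2).re := by
  obtain ⟨k, D, hk⟩ := exists_dat hM hf h0 h1 hA hi
  have h := core D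
  rw [← hk]
  have : (2 * deriv k 0).re = 2 * (deriv k 0).re := by simp
  rw [this]
  exact h

end Pool.Agent.CRD
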