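import Pool.Agent.CRD.Core
import Pool.Agent.CRD.AreaU

/-! CRD/Disc.  The bound for `|a₂|`.

PLAN.  `Rem_nonneg`: `rho ≥ 1` on `Cd M \ {0}` (`rho_ge`; `0 = f 0 ∈ f '' ball 0 1`), `rho ≤ 1` outside (`rho_le`); both integrands are nonnegative on
their sets (`setIntegral_nonneg`; measurability of `f '' ball 0 1`: either `AnalyticOnNhd`/open mapping: `f` is not constant, or use `ae`/`MeasurableSet` of `Cd M` and the
complement; alternatively bound through `setIntegral_nonneg_of_ae_restrict`).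
`Cd_norm`: `‖M (η + η²/2)‖ < 3M/2`.  `disc_rem`: rotate (`rot_exists`), apply `main` to `rot c f` with `M = sqrt (2A/(3π))`, `A = Ar f`, so `A = (3π/2) M²`,
`A/(2πM³) = 3/(4M)`, `(3M/2)² = 3A/(2π)`.  `disc`: drop `Rem ≥ 0`; `3/(2M) = (3/2) sqrt (3π/2) / sqrt A`. -/

set_option autoImplicit false

open Complex MeasureTheory Metric Set

namespace Pool.Agent.CRD

theorem Cd_norm {M : ℝ} (hM : 0 < M) {w : ℂ} (h : w ∈ Cd M) : ‖w‖ < 3 * M / 2 := by
  obtain ⟨η, hη, rfl⟩ := h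
  rw [mem_ball_zero_iff] at hη
  have h1 : ‖η + η ^ 2 / 2‖ ≤ ‖η‖ + ‖η‖ ^ 2 / 2 := by
    refine (norm_add_le _ _).trans (le_of_eq ?_)
    rw [norm_div, norm_pow, Complex.norm_ofNat]
  have h2 : ‖η‖ ^ 2 < 1 := by
    have h3 := norm_nonneg η
    nlinarith
  show ‖(M : ℂ) * (η + η ^ 2 / 2)‖ < 3 * M / 2
  rw [norm_mul, Complex.norm_of_nonneg hM.le]
  have h4 : ‖η + η ^ 2 / 2‖ < 3 / 2 := by linarith
  calc M * ‖η + η ^ 2 / 2‖ < M * (3 / 2) := mul_lt_mul_of_pos_left h4 hM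
    _ = 3 * M / 2 := by ring

theorem Rem_nonneg {M : ℝ} (hM : 0 < M) {f : ℂ → ℂ} (hf : DifferentiableOn ℂ f (ball 0 1)) (h0 : f 0 = 0)
    (h1 : deriv f 0 = 1) : 0 ≤ Rem M f := by
  have hmC : MeasurableSet (Cd M) := (isOpen_Cd hM).measurableSet
  have hzero : (0 : ℂ) ∈ ball (0 : ℂ) 1 := mem_ball_self one_pos
  have himg : MeasurableSet (f '' ball 0 1) := by
    rcases (hf.analyticOnNhd isOpen_ball).is_constant_or_isOpen
      (convex_ball (0 : ℂ) 1).isPreconnected with ⟨w, hw⟩ | h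
    · exfalso
      have h2 : f =ᶠ[nhds 0] fun _ => w :=
        Filter.eventuallyEq_of_mem (isOpen_ball.mem_nhds hzero) fun z hz => hw z hz
      have h3 := h2.deriv_eq
      rw [h1, deriv_const] at h3
      exact one_ne_zero h3
    · exact (h _ subset_rfl isOpen_ball).measurableSet
  refine add_nonneg ?_ ?_
  · refine setIntegral_nonneg (hmC.diff himg) fun w hw => ?_
    have hw0 : w ≠ 0 := by
      rintro rfl
      exact hw.2 ⟨0, hzero, h0⟩
    exact sub_nonneg.2 (rho_ge hM hw.1 hw0)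
  · have hm2 : MeasurableSet (ball (0 : ℂ) 1 ∩ f ⁻¹' (Cd M)ᶜ) := by
      have h2 : ball (0 : ℂ) 1 ∩ f ⁻¹' (Cd M)ᶜ = ball (0 : ℂ) 1 \ (ball (0 : ℂ) 1 ∩ f ⁻¹' (Cd M)) := by
        ext u
        simp only [mem_inter_iff, mem_preimage, mem_compl_iff, mem_sdiff]
        tauto
      rw [h2]
      exact measurableSet_ball.diff
        (hf.continuousOn.isOpen_inter_preimage isOpen_ball (isOpen_Cd hM)).measurableSet
    refine setIntegral_nonneg hm2 fun u hu => ?_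
    exact mul_nonneg (sub_nonneg.2 (rho_le hM hu.2)) (by positivity)

/-- with the remainder; `c` is a rotation which makes the second coefficient nonnegative -/
theorem disc_rem {f : ℂ → ℂ} (hf : DifferentiableOn ℂ f (ball 0 1)) (h0 : f 0 = 0)
    (h1 : deriv f 0 = 1) (hA : IntegrableOn (fun u => ‖deriv f u‖ ^ 2) (ball 0 1))
    (hi : ∀ u ∈ ball (0 : ℂ) 1, ∀ v ∈ ball (0 : ℂ) 1, f u = f v → ‖f u‖ ^ 2 < 3 * Ar f / (2 * Real.pi) → u = v)
    {c : ℂ} (hc : ‖c‖ = 1) (hc2 : deriv (deriv (rot c f)) 0 / 2 = (‖deriv (deriv f) 0 / 2‖ : ℝ))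
    {M : ℝ} (hM : 0 < M) (hMA : Ar f = 3 * Real.pi / 2 * M ^ 2) :
    3 / (2 * M) + Rem M (rot c f) / (2 * Real.pi * M ^ 3) ≤ 2 - ‖deriv (deriv f) 0 / 2‖ := by
  have hc0 : c ≠ 0 := by
    intro h
    rw [h, norm_zero] at hc
    exact zero_ne_one hc
  have hr0 : rot c f 0 = 0 := by
    show c * f (c⁻¹ * 0) = 0
    rw [mul_zero, h0, mul_zero]
  have hzero : (0 : ℂ) ∈ ball (0 : ℂ) 1 := mem_ball_self one_pos
  have hr1 : deriv (rot c f) 0 = 1 := by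
    rw [rot_deriv hc hf hzero, mul_zero, h1]
  have hball : ∀ u ∈ ball (0 : ℂ) 1, c⁻¹ * u ∈ ball (0 : ℂ) 1 := by
    intro u hu
    rw [mem_ball_zero_iff] at hu ⊢
    rw [norm_mul, norm_inv, hc, inv_one, one_mul]
    exact hu
  have hinj : ∀ u ∈ ball (0 : ℂ) 1, ∀ v ∈ ball (0 : ℂ) 1, rot c f u = rot c f v →
      rot c f u ∈ Cd M → u = v := by
    intro u hu v hv huv hC
    have h2 : f (c⁻¹ * u) = f (c⁻¹ * v) := mul_left_cancel₀ hc0 huv
    have h3 : ‖f (c⁻¹ * u)‖ < 3 * M / 2 := by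
      have h4 := Cd_norm hM hC
      have h5 : ‖rot c f u‖ = ‖f (c⁻¹ * u)‖ := by
        show ‖c * f (c⁻¹ * u)‖ = _
        rw [norm_mul, hc, one_mul]
      rwa [h5] at h4
    have h6 : ‖f (c⁻¹ * u)‖ ^ 2 < 3 * Ar f / (2 * Real.pi) := by
      have h7 : 3 * Ar f / (2 * Real.pi) = (3 * M / 2) ^ 2 := by
        rw [hMA]
        field_simp
      rw [h7]
      exact pow_lt_pow_left₀ h3 (norm_nonneg _) two_ne_zero
    exact mul_left_cancel₀ (inv_ne_zero hc0) (hi _ (hball u hu) _ (hball v hv) h2 h6)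
  have h := main hM (rot_diff hc hf) hr0 hr1 (rot_area hc hf hA) hinj
  rw [rot_Ar hc hf, hc2, Complex.ofReal_re] at h
  have h8 : Ar f / (2 * Real.pi * M ^ 3) = 3 / (4 * M) := by
    rw [hMA]
    field_simp
    ring
  rw [h8] at h
  have h9 : 9 / (4 * M) = 3 / (2 * M) + 3 / (4 * M) := by
    field_simp
    ring
  rw [h9] at h
  linarith

theorem disc {f : ℂ → ℂ} (hf : DifferentiableOn ℂ f (ball 0 1)) (h0 : f 0 = 0)
    (h1 : deriv f 0 = 1) (hA : IntegrableOn (fun u => ‖deriv f u‖ ^ 2) (ball 0 1))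
    (hi : ∀ u ∈ ball (0 : ℂ) 1, ∀ v ∈ ball (0 : ℂ) 1, f u = f v → ‖f u‖ ^ 2 < 3 * Ar f / (2 * Real.pi) → u = v) :
    ‖deriv (deriv f) 0 / 2‖ ≤ 2 - 3 / 2 * Real.sqrt (3 * Real.pi / 2) / Real.sqrt (Ar f) := by
  have hA0 := Ar_pos hf h1 hA
  obtain ⟨c, hc, hc2⟩ := rot_exists hf
  have hpi : 0 < 3 * Real.pi / 2 := by positivity
  have hs1 : 0 < Real.sqrt (Ar f) := Real.sqrt_pos.2 hA0
  have hs2 : 0 < Real.sqrt (3 * Real.pi / 2) := Real.sqrt_pos.2 hpi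
  have hM : 0 < Real.sqrt (Ar f) / Real.sqrt (3 * Real.pi / 2) := div_pos hs1 hs2
  have hMA : Ar f = 3 * Real.pi / 2 *
      (Real.sqrt (Ar f) / Real.sqrt (3 * Real.pi / 2)) ^ 2 := by
    rw [div_pow, Real.sq_sqrt hA0.le, Real.sq_sqrt hpi.le]
    field_simp
  have h := disc_rem hf h0 h1 hA hi hc hc2 hM hMA
  have hzero : (0 : ℂ) ∈ ball (0 : ℂ) 1 := mem_ball_self one_pos
  have hr0 : rot c f 0 = 0 := by
    show c * f (c⁻¹ * 0) = 0
    rw [mul_zero, h0, mul_zero]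
  have hr1 : deriv (rot c f) 0 = 1 := by
    rw [rot_deriv hc hf hzero, mul_zero, h1]
  have hR := Rem_nonneg hM (rot_diff hc hf) hr0 hr1
  have hR2 : 0 ≤ Rem (Real.sqrt (Ar f) / Real.sqrt (3 * Real.pi / 2)) (rot c f) /
      (2 * Real.pi * (Real.sqrt (Ar f) / Real.sqrt (3 * Real.pi / 2)) ^ 3) :=
    div_nonneg hR (by positivity)
  have h2 : 3 / (2 * (Real.sqrt (Ar f) / Real.sqrt (3 * Real.pi / 2))) =
      3 / 2 * Real.sqrt (3 * Real.pi / 2) / Real.sqrt (Ar f) := by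
    field_simp
  rw [h2] at h
  linarith

end Pool.Agent.CRD
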