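import Pool.Agent.CRD.Low

/-! CRD/LowR.  The lower bound with its remainder.

For `b1 < b < 0` and the test function `-2 cosh (x - b) sin y` one has on `strip a b` almost everywhere
`W = 2 ∇v · ∇p - |∇p|² + |∇v - ∇p|²`; the last term is kept on `strip a1 b1` only; then `b → 0-` (dominated convergence). -/

set_option autoImplicit false

open Complex MeasureTheory Metric Set

namespace Pool.Agent.CRD

/-- squared norm of the gradient of `v + 2 cosh x sin y` -/
noncomputable def gap (v : ℂ → ℝ) (ω : ℂ) : ℝ :=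
  (fderiv ℝ v ω 1 + 2 * Real.sinh ω.re * Real.sin ω.im) ^ 2 +
    (fderiv ℝ v ω I + 2 * Real.cosh ω.re * Real.cos ω.im) ^ 2

/-- the same for the shifted test function -/
private noncomputable def gb (v : ℂ → ℝ) (c : ℝ) (ω : ℂ) : ℝ :=
  (fderiv ℝ v ω 1 + 2 * Real.sinh (ω.re - c) * Real.sin ω.im) ^ 2 +
    (fderiv ℝ v ω I + 2 * Real.cosh (ω.re - c) * Real.cos ω.im) ^ 2

private theorem gb_zero (v : ℂ → ℝ) : gb v 0 = gap v := by
  funext ω
  rw [gb, gap, sub_zero]

private theorem gb_nonneg (v : ℂ → ℝ) (c : ℝ) (ω : ℂ) : 0 ≤ gb v c ω := by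
  rw [gb]
  positivity

private theorem lr_isCompact (a b : ℝ) : IsCompact (cstrip a b) := by
  have h : cstrip a b = Icc a b ×ℂ Icc 0 (2 * Real.pi) := by
    ext ω
    simp only [cstrip, mem_ofPred_eq, Complex.mem_reProdIm, mem_Icc]
    tauto
  rw [h]
  exact isCompact_Icc.reProdIm isCompact_Icc

private theorem lr_sub (a b : ℝ) : strip a b ⊆ cstrip a b := by
  intro ω hω
  exact ⟨hω.1.le, hω.2.1.le, hω.2.2.1.le, hω.2.2.2.le⟩

private theorem lr_isOpen (a b : ℝ) : IsOpen (strip a b) := by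
  have h : strip a b = Ioo a b ×ℂ Ioo 0 (2 * Real.pi) := by
    ext ω
    simp only [strip, mem_ofPred_eq, Complex.mem_reProdIm, mem_Ioo]
    tauto
  rw [h]
  exact isOpen_Ioo.reProdIm isOpen_Ioo

private theorem lr_fin (a b : ℝ) : volume (strip a b) ≠ ⊤ :=
  ((measure_mono (lr_sub a b)).trans_lt (lr_isCompact a b).measure_lt_top).ne

private theorem lr_D {v : ℂ → ℝ} {a b : ℝ} {K : NNReal} (hK : LipschitzOnWith K v (cstrip a b)) (c : ℂ)
    {ω : ℂ} (hω : ω ∈ strip a b) : |fderiv ℝ v ω c| ≤ K * ‖c‖ := by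
  have hn : cstrip a b ∈ nhds ω :=
    Filter.mem_of_superset ((lr_isOpen a b).mem_nhds hω) (lr_sub a b)
  have h1 := norm_fderiv_le_of_lipschitzOn ℝ hn hK
  rw [← Real.norm_eq_abs]
  exact ((fderiv ℝ v ω).le_opNorm c).trans (mul_le_mul_of_nonneg_right h1 (norm_nonneg c))

private theorem lr_sinh (x : ℝ) : |Real.sinh x| ≤ Real.cosh x := by
  rw [abs_le]
  constructor
  · have := Real.exp_pos x
    rw [← Real.cosh_add_sinh] at this
    linarith
  · exact (Real.sinh_lt_cosh x).le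

private theorem gb_bd {v : ℂ → ℝ} {a b : ℝ} {K : NNReal} (hK : LipschitzOnWith K v (cstrip a b))
    {ω : ℂ} (hω : ω ∈ strip a b) {c R : ℝ} (hR : |ω.re - c| ≤ |R|) :
    ‖gb v c ω‖ ≤ 2 * (K + 2 * Real.cosh R) ^ 2 := by
  have hch : Real.cosh (ω.re - c) ≤ Real.cosh R := Real.cosh_le_cosh.2 hR
  have hc0 : 0 < Real.cosh (ω.re - c) := Real.cosh_pos _
  have h1 : |fderiv ℝ v ω 1 + 2 * Real.sinh (ω.re - c) * Real.sin ω.im| ≤ K + 2 * Real.cosh R := by
    refine (abs_add_le _ _).trans (add_le_add ?_ ?_)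
    · refine (lr_D hK 1 hω).trans (le_of_eq ?_)
      rw [norm_one, mul_one]
    · rw [abs_mul, abs_mul, abs_two]
      have h3 := (lr_sinh (ω.re - c)).trans hch
      calc 2 * |Real.sinh (ω.re - c)| * |Real.sin ω.im| ≤ 2 * |Real.sinh (ω.re - c)| * 1 :=
            mul_le_mul_of_nonneg_left (Real.abs_sin_le_one _) (by positivity)
        _ ≤ 2 * Real.cosh R := by linarith
  have h2 : |fderiv ℝ v ω I + 2 * Real.cosh (ω.re - c) * Real.cos ω.im| ≤ K + 2 * Real.cosh R := by
    refine (abs_add_le _ _).trans (add_le_add ?_ ?_)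
    · refine (lr_D hK I hω).trans (le_of_eq ?_)
      rw [Complex.norm_I, mul_one]
    · rw [abs_mul, abs_mul, abs_two, abs_of_pos hc0]
      calc 2 * Real.cosh (ω.re - c) * |Real.cos ω.im| ≤ 2 * Real.cosh (ω.re - c) * 1 :=
            mul_le_mul_of_nonneg_left (Real.abs_cos_le_one _) (by positivity)
        _ ≤ 2 * Real.cosh R := by linarith
  rw [Real.norm_of_nonneg (gb_nonneg v c ω), gb]
  have h3 := sq_le_sq' (neg_le_of_abs_le h1) (le_of_abs_le h1)
  have h4 := sq_le_sq' (neg_le_of_abs_le h2) (le_of_abs_le h2)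
  linarith

private theorem gb_meas (v : ℂ → ℝ) (c : ℝ) : Measurable (gb v c) := by
  have h1 : Measurable (fun ω : ℂ => fderiv ℝ v ω 1) := measurable_fderiv_apply_const ℝ v 1
  have h2 : Measurable (fun ω : ℂ => fderiv ℝ v ω I) := measurable_fderiv_apply_const ℝ v I
  have h3 : Continuous (fun ω : ℂ => 2 * Real.sinh (ω.re - c) * Real.sin ω.im) :=
    (continuous_const.mul (Real.continuous_sinh.comp (Complex.continuous_re.sub continuous_const))).mul
      (Real.continuous_sin.comp Complex.continuous_im)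
  have h4 : Continuous (fun ω : ℂ => 2 * Real.cosh (ω.re - c) * Real.cos ω.im) :=
    (continuous_const.mul (Real.continuous_cosh.comp (Complex.continuous_re.sub continuous_const))).mul
      (Real.continuous_cos.comp Complex.continuous_im)
  exact ((h1.add h3.measurable).pow_const 2).add ((h2.add h4.measurable).pow_const 2)

private theorem gb_int {v : ℂ → ℝ} (hlip : ∀ ω : ℂ, ω.re < 0 → ∃ K : NNReal, ∃ s > 0, LipschitzOnWith K v (ball ω s))
    {a b : ℝ} (hb : b < 0) (c : ℝ) : IntegrableOn (gb v c) (strip a b) := by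
  obtain ⟨K, hK⟩ := lip_strip (a := a) hlip hb
  refine Measure.integrableOn_of_bounded (M := 2 * (K + 2 * Real.cosh (|a| + |b| + |c|)) ^ 2)
    (lr_fin a b) (gb_meas v c).aestronglyMeasurable ?_
  rw [ae_restrict_iff' (measurableSet_strip a b)]
  refine Filter.Eventually.of_forall fun ω hω => gb_bd hK hω ?_
  rw [abs_of_nonneg (by positivity : (0 : ℝ) ≤ |a| + |b| + |c|), abs_le]
  have h1 := hω.1
  have h2 := hω.2.1
  have ha := neg_abs_le a
  have hb' := le_abs_self b
  have hc1 := neg_abs_le c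
  have hc2 := le_abs_self c
  have ha2 := abs_nonneg a
  have hb2 := abs_nonneg b
  constructor <;> linarith

theorem gap_int {v : ℂ → ℝ} (hlip : ∀ ω : ℂ, ω.re < 0 → ∃ K : NNReal, ∃ s > 0, LipschitzOnWith K v (ball ω s))
    {a b : ℝ} (hb : b < 0) : IntegrableOn (gap v) (strip a b) := by
  rw [← gb_zero]
  exact gb_int hlip hb 0

private theorem low_bR {v W : ℂ → ℝ} (hlip : ∀ ω : ℂ, ω.re < 0 → ∃ K : NNReal, ∃ s > 0, LipschitzOnWith K v (ball ω s))
    (hper : ∀ ω, v (ω + 2 * Real.pi * I) = v ω)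
    (hW : ∀ᵐ ω : ℂ, ω.re < 0 → ∃ L : ℂ →L[ℝ] ℝ, HasFDerivAt v L ω ∧ (L 1) ^ 2 + (L I) ^ 2 = W ω)
    {a b a1 b1 : ℝ} (ha : a ≤ a1) (h1 : a1 < b1) (hbb : b1 ≤ b) (hb : b < 0)
    (hI : IntegrableOn W (strip a b)) :
    -4 * Real.sinh (b - a) * (∫ y in (0 : ℝ)..2 * Real.pi, v (a + y * I) * Real.sin y) -
      2 * Real.pi * Real.sinh (2 * (b - a)) + ∫ ω in strip a1 b1, gb v b ω ≤ ∫ ω in strip a b, W ω := by
  have hab : a < b := by linarith
  have hd : ∀ᵐ ω : ℂ, ω.re < 0 → DifferentiableAt ℝ v ω := by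
    filter_upwards [hW] with ω h hω
    obtain ⟨L, hL, -⟩ := h hω
    exact hL.differentiableAt
  obtain ⟨hc1, hc2⟩ := cross hlip hper hd hab hb
  obtain ⟨hs1, hs2⟩ := square hab
  have hg : IntegrableOn (gb v b) (strip a b) := gb_int hlip hb b
  have hI2 : IntegrableOn (fun ω => 2 * (fderiv ℝ v ω 1 * (-2 * Real.sinh (ω.re - b) * Real.sin ω.im) +
        fderiv ℝ v ω I * (-2 * Real.cosh (ω.re - b) * Real.cos ω.im)) -
      ((-2 * Real.sinh (ω.re - b) * Real.sin ω.im) ^ 2 +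
        (-2 * Real.cosh (ω.re - b) * Real.cos ω.im) ^ 2)) (strip a b) :=
    (hc1.const_mul 2).sub hs1
  have hval : ∫ ω in strip a b, (2 * (fderiv ℝ v ω 1 * (-2 * Real.sinh (ω.re - b) * Real.sin ω.im) +
        fderiv ℝ v ω I * (-2 * Real.cosh (ω.re - b) * Real.cos ω.im)) -
      ((-2 * Real.sinh (ω.re - b) * Real.sin ω.im) ^ 2 +
        (-2 * Real.cosh (ω.re - b) * Real.cos ω.im) ^ 2)) =
      2 * (-2 * Real.sinh (b - a) * ∫ y in (0 : ℝ)..2 * Real.pi, v (a + y * I) * Real.sin y) -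
        2 * Real.pi * Real.sinh (2 * (b - a)) := by
    rw [integral_sub (hc1.const_mul 2) hs1, integral_const_mul, hc2, hs2]
  have heq : ∫ ω in strip a b, ((2 * (fderiv ℝ v ω 1 * (-2 * Real.sinh (ω.re - b) * Real.sin ω.im) +
        fderiv ℝ v ω I * (-2 * Real.cosh (ω.re - b) * Real.cos ω.im)) -
      ((-2 * Real.sinh (ω.re - b) * Real.sin ω.im) ^ 2 +
        (-2 * Real.cosh (ω.re - b) * Real.cos ω.im) ^ 2)) + gb v b ω) = ∫ ω in strip a b, W ω := by
    refine setIntegral_congr_ae (measurableSet_strip a b) ?_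
    filter_upwards [hW] with ω h hω
    have hre : ω.re < 0 := lt_trans hω.2.1 hb
    obtain ⟨L, hL, hLW⟩ := h hre
    rw [gb, hL.fderiv, ← hLW]
    ring
  rw [integral_add hI2 hg, hval] at heq
  have hmono : ∫ ω in strip a1 b1, gb v b ω ≤ ∫ ω in strip a b, gb v b ω := by
    refine setIntegral_mono_set hg (Filter.Eventually.of_forall fun ω => gb_nonneg v b ω)
      (Filter.Eventually.of_forall ?_)
    intro ω hω
    exact ⟨lt_of_le_of_lt ha hω.1, lt_of_lt_of_le hω.2.1 hbb, hω.2.2⟩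
  linarith

theorem low_rem {v W : ℂ → ℝ} (hlip : ∀ ω : ℂ, ω.re < 0 → ∃ K : NNReal, ∃ s > 0, LipschitzOnWith K v (ball ω s))
    (hper : ∀ ω, v (ω + 2 * Real.pi * I) = v ω)
    (hW : ∀ᵐ ω : ℂ, ω.re < 0 → ∃ L : ℂ →L[ℝ] ℝ, HasFDerivAt v L ω ∧ (L 1) ^ 2 + (L I) ^ 2 = W ω)
    {a a1 b1 : ℝ} (ha : a ≤ a1) (h1 : a1 < b1) (hb : b1 < 0) (hI : IntegrableOn W (strip a 0)) :
    -4 * Real.sinh (-a) * (∫ y in (0 : ℝ)..2 * Real.pi, v (a + y * I) * Real.sin y) -
      2 * Real.pi * Real.sinh (2 * -a) + ∫ ω in strip a1 b1, gap v ω ≤ ∫ ω in strip a 0, W ω := by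
  set S := ∫ y in (0 : ℝ)..2 * Real.pi, v (a + y * I) * Real.sin y with hS
  have hW0 : 0 ≤ᵐ[volume.restrict (strip a 0)] W := by
    rw [Filter.EventuallyLE, ae_restrict_iff' (measurableSet_strip a 0)]
    filter_upwards [hW] with ω h hω
    obtain ⟨L, -, hLW⟩ := h hω.2.1
    rw [← hLW]
    show (0 : ℝ) ≤ _
    positivity
  have hmem : Ioo b1 0 ∈ nhdsWithin (0 : ℝ) (Iio 0) := Ioo_mem_nhdsLT hb
  have hev : ∀ᶠ b in nhdsWithin (0 : ℝ) (Iio 0),
      -4 * Real.sinh (b - a) * S - 2 * Real.pi * Real.sinh (2 * (b - a)) +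
        ∫ ω in strip a1 b1, gb v b ω ≤ ∫ ω in strip a 0, W ω := by
    filter_upwards [hmem] with b hb'
    have hsub : strip a b ⊆ strip a 0 := fun ω hω => ⟨hω.1, lt_trans hω.2.1 hb'.2, hω.2.2⟩
    refine (low_bR hlip hper hW ha h1 hb'.1.le hb'.2 (hI.mono_set hsub)).trans ?_
    exact setIntegral_mono_set hI hW0 (Filter.Eventually.of_forall hsub)
  have hcont : Filter.Tendsto (fun b : ℝ => -4 * Real.sinh (b - a) * S -
      2 * Real.pi * Real.sinh (2 * (b - a))) (nhdsWithin 0 (Iio 0))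
      (nhds (-4 * Real.sinh (0 - a) * S - 2 * Real.pi * Real.sinh (2 * (0 - a)))) := by
    have : Continuous (fun b : ℝ => -4 * Real.sinh (b - a) * S -
      2 * Real.pi * Real.sinh (2 * (b - a))) := by
      have h1 := Real.continuous_sinh
      fun_prop
    exact (this.tendsto 0).mono_left nhdsWithin_le_nhds
  obtain ⟨K, hK⟩ := lip_strip (a := a1) hlip hb
  have hdom : Filter.Tendsto (fun b : ℝ => ∫ ω in strip a1 b1, gb v b ω) (nhdsWithin 0 (Iio 0))
      (nhds (∫ ω in strip a1 b1, gb v 0 ω)) := by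
    refine tendsto_integral_filter_of_dominated_convergence
      (fun _ => 2 * (K + 2 * Real.cosh a1) ^ 2)
      (Filter.Eventually.of_forall fun b => (gb_meas v b).aestronglyMeasurable) ?_
      (integrableOn_const (lr_fin a1 b1)) ?_
    · filter_upwards [hmem] with b hb'
      rw [ae_restrict_iff' (measurableSet_strip a1 b1)]
      refine Filter.Eventually.of_forall fun ω hω => gb_bd hK hω ?_
      have h2 := hω.1
      have h3 := hω.2.1
      have h4 := hb'.1
      have h5 := hb'.2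
      rw [abs_of_neg (by linarith : a1 < 0), abs_le]
      constructor <;> linarith
    · refine Filter.Eventually.of_forall fun ω => ?_
      have : Continuous (fun b : ℝ => gb v b ω) := by
        have h1 := Real.continuous_sinh
        have h2 := Real.continuous_cosh
        unfold gb
        fun_prop
      exact (this.tendsto 0).mono_left nhdsWithin_le_nhds
  have := le_of_tendsto (hcont.add hdom) hev
  simpa only [zero_sub, gb_zero] using this

end Pool.Agent.CRD
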