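import Pool.Agent.CRD.Root

/-! CRD/Pick.  The extremal functions: the cardioid minus a slit.

`κ u = u / (1 - u)²`, `S u = sq (1 + 4 κ u / M)`, `p = (S - 1)/(S + 1)`, `f = M (p + p²/2)`. -/

set_option autoImplicit false

open Complex MeasureTheory Metric Set

namespace Pool.Agent.CRD

private noncomputable def ka (u : ℂ) : ℂ := u / (1 - u) ^ 2
private noncomputable def Wk (M : ℝ) (u : ℂ) : ℂ := 1 + 4 * ka u / M
private noncomputable def Sk (M : ℝ) (u : ℂ) : ℂ := sq (Wk M u)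
private noncomputable def pk (M : ℝ) (u : ℂ) : ℂ := (Sk M u - 1) / (Sk M u + 1)
private noncomputable def fk (M : ℝ) (u : ℂ) : ℂ := M * (pk M u + pk M u ^ 2 / 2)

private lemma one_sub_ne {u : ℂ} (hu : u ∈ ball (0 : ℂ) 1) : 1 - u ≠ 0 := by
  intro h
  have h1 : u = 1 := by linear_combination -h
  rw [h1] at hu
  simp at hu

private lemma q_re {u : ℂ} (hu : u ∈ ball (0 : ℂ) 1) : 0 < ((1 + u) / (1 - u)).re := by
  have h1 := one_sub_ne hu
  have h2 : 0 < normSq (1 - u) := normSq_pos.2 h1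
  rw [Complex.div_re, ← add_div]
  apply div_pos _ h2
  have h3 : ‖u‖ < 1 := by simpa using hu
  have h4 : ‖u‖ ^ 2 < 1 := by nlinarith [norm_nonneg u]
  rw [← Complex.normSq_eq_norm_sq, Complex.normSq_apply] at h4
  simp only [add_re, sub_re, one_re, add_im, sub_im, one_im]
  nlinarith

private lemma W_eq {M : ℝ} (hM : 1 ≤ M) {u : ℂ} (hu : u ∈ ball (0 : ℂ) 1) :
    Wk M u = ((1 - 1 / M : ℝ) : ℂ) + ((1 / M : ℝ) : ℂ) * ((1 + u) / (1 - u)) ^ 2 := by
  have h1 := one_sub_ne hu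
  have hM' : (M : ℂ) ≠ 0 := by exact_mod_cast (by linarith : (0 : ℝ) < M).ne'
  unfold Wk ka
  push_cast
  field_simp
  ring

private lemma W_slit {M : ℝ} (hM : 1 ≤ M) {u : ℂ} (hu : u ∈ ball (0 : ℂ) 1) :
    Wk M u ∈ slitPlane := by
  have hM0 : (0 : ℝ) < M := by linarith
  rw [W_eq hM hu]
  have hq := q_re hu
  obtain ⟨q, hqd⟩ : ∃ q, q = (1 + u) / (1 - u) := ⟨_, rfl⟩
  rw [← hqd] at hq ⊢
  rw [mem_slitPlane_iff]
  have hre : (((1 - 1 / M : ℝ) : ℂ) + ((1 / M : ℝ) : ℂ) * q ^ 2).re =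
      (1 - 1 / M) + (1 / M) * (q.re * q.re - q.im * q.im) := by
    rw [add_re, ofReal_re, re_ofReal_mul, pow_two, mul_re]
  have him : (((1 - 1 / M : ℝ) : ℂ) + ((1 / M : ℝ) : ℂ) * q ^ 2).im =
      (1 / M) * (q.re * q.im + q.im * q.re) := by
    rw [add_im, ofReal_im, im_ofReal_mul, pow_two, mul_im, zero_add]
  rw [hre, him]
  by_cases h : q.im = 0
  · left
    rw [h]
    have h1 : 1 / M ≤ 1 := by rw [div_le_one hM0]; exact hM
    have h2 : 0 < 1 / M := by positivity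
    have h3 : 0 < q.re * q.re := mul_pos hq hq
    have h4 := mul_pos h2 h3
    have e : 1 - 1 / M + 1 / M * (q.re * q.re - 0 * 0) = (1 - 1 / M) + 1 / M * (q.re * q.re) := by ring
    rw [e]
    linarith
  · right
    have h2 : 1 / M ≠ 0 := by positivity
    have e : 1 / M * (q.re * q.im + q.im * q.re) = 1 / M * (2 * q.re * q.im) := by ring
    rw [e]
    exact mul_ne_zero h2 (mul_ne_zero (mul_ne_zero two_ne_zero hq.ne') h)

private lemma S_re {M : ℝ} (hM : 1 ≤ M) {u : ℂ} (hu : u ∈ ball (0 : ℂ) 1) : 0 < (Sk M u).re :=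
  sq_re_pos (W_slit hM hu)

private lemma S_ne {M : ℝ} (hM : 1 ≤ M) {u : ℂ} (hu : u ∈ ball (0 : ℂ) 1) : Sk M u ≠ 0 := by
  intro h
  have := S_re hM hu
  rw [h] at this
  simp at this

private lemma S_one_ne {M : ℝ} (hM : 1 ≤ M) {u : ℂ} (hu : u ∈ ball (0 : ℂ) 1) :
    Sk M u + 1 ≠ 0 := by
  intro h
  have h1 := S_re hM hu
  have h2 : Sk M u = -1 := by linear_combination h
  rw [h2] at h1
  simp at h1
  linarith

private lemma p_lt {M : ℝ} (hM : 1 ≤ M) {u : ℂ} (hu : u ∈ ball (0 : ℂ) 1) : ‖pk M u‖ < 1 := by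
  have h1 := S_re hM hu
  have h2 := S_one_ne hM hu
  unfold pk
  rw [norm_div, div_lt_one (norm_pos_iff.2 h2)]
  apply lt_of_pow_lt_pow_left₀ 2 (norm_nonneg _)
  rw [← Complex.normSq_eq_norm_sq, ← Complex.normSq_eq_norm_sq, Complex.normSq_apply,
    Complex.normSq_apply]
  simp only [add_re, sub_re, one_re, add_im, sub_im, one_im]
  nlinarith

private lemma S_zero {M : ℝ} : Sk M 0 = 1 := by
  unfold Sk Wk ka
  rw [zero_div, mul_zero, zero_div, add_zero]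
  exact sq_unique (by norm_num) (by simp)

private lemma ka_deriv {u : ℂ} (hu : u ∈ ball (0 : ℂ) 1) :
    HasDerivAt ka ((1 + u) / (1 - u) ^ 3) u := by
  have h1 := one_sub_ne hu
  have h2 : HasDerivAt (fun u : ℂ => (1 - u) ^ 2) (-(2 * (1 - u))) u := by
    have h3 : HasDerivAt (fun u : ℂ => 1 - u) (-1) u := by
      simpa using (hasDerivAt_id u).const_sub 1
    have h4 := h3.pow 2
    convert! h4 using 1
    ring
  have h5 := (hasDerivAt_id u).div h2 (pow_ne_zero 2 h1)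
  have h6 : ka = (id / fun u : ℂ => (1 - u) ^ 2) := by
    funext v
    rfl
  rw [h6]
  convert! h5 using 1
  simp only [id]
  field_simp
  ring

private lemma S_deriv {M : ℝ} (hM : 1 ≤ M) {u : ℂ} (hu : u ∈ ball (0 : ℂ) 1) :
    HasDerivAt (Sk M) (2 * ((1 + u) / (1 - u) ^ 3) / (M * Sk M u)) u := by
  have hM' : (M : ℂ) ≠ 0 := by exact_mod_cast (by linarith : (0 : ℝ) < M).ne'
  have h1 : HasDerivAt (Wk M) (4 * ((1 + u) / (1 - u) ^ 3) / M) u :=
    (((ka_deriv hu).const_mul 4).div_const (M : ℂ)).const_add 1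
  have h2 := (sq_deriv (W_slit hM hu)).comp u h1
  have hS := S_ne hM hu
  convert! h2 using 1
  unfold Sk at hS ⊢
  have h3 := one_sub_ne hu
  field_simp
  ring

private lemma f_deriv {M : ℝ} (hM : 1 ≤ M) {u : ℂ} (hu : u ∈ ball (0 : ℂ) 1) :
    HasDerivAt (fk M) (8 * ((1 + u) / (1 - u) ^ 3) / (Sk M u + 1) ^ 3) u := by
  have hM' : (M : ℂ) ≠ 0 := by exact_mod_cast (by linarith : (0 : ℝ) < M).ne'
  have hS := S_ne hM hu
  have hS1 := S_one_ne hM hu
  have h3 := one_sub_ne hu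
  have hp : HasDerivAt (pk M) (((2 * ((1 + u) / (1 - u) ^ 3) / (M * Sk M u)) * (Sk M u + 1) -
      (Sk M u - 1) * (2 * ((1 + u) / (1 - u) ^ 3) / (M * Sk M u))) / (Sk M u + 1) ^ 2) u :=
    ((S_deriv hM hu).sub_const 1).div ((S_deriv hM hu).add_const 1) hS1
  have hf := (hp.add ((hp.pow 2).div_const 2)).const_mul (M : ℂ)
  convert! hf using 1
  have e2 : (2 : ℕ) - 1 = 1 := rfl
  rw [e2, pow_one]
  unfold pk
  generalize Sk M u = S at hS hS1 ⊢
  generalize (1 + u) / (1 - u) ^ 3 = K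
  push_cast
  field_simp
  ring

private lemma f_deriv2 {M : ℝ} (hM : 1 ≤ M) : deriv (deriv (fk M)) 0 = 4 - 3 / M := by
  have hM' : (M : ℂ) ≠ 0 := by exact_mod_cast (by linarith : (0 : ℝ) < M).ne'
  have h0 : (0 : ℂ) ∈ ball (0 : ℂ) 1 := by simp
  have he : deriv (fk M) =ᶠ[nhds 0] fun u => 8 * ((1 + u) / (1 - u) ^ 3) / (Sk M u + 1) ^ 3 := by
    filter_upwards [isOpen_ball.mem_nhds h0] with u hu
    exact (f_deriv hM hu).deriv
  rw [he.deriv_eq]
  have h1 : HasDerivAt (fun u : ℂ => 1 - u) (-1) 0 := by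
    simpa using (hasDerivAt_id (0 : ℂ)).const_sub 1
  have h2 : HasDerivAt (fun u : ℂ => 1 + u) 1 0 := by
    simpa using (hasDerivAt_id (0 : ℂ)).const_add 1
  have hne : (1 - (0 : ℂ)) ^ 3 ≠ 0 := by norm_num
  have hSne : (Sk M 0 + 1) ^ 3 ≠ 0 := pow_ne_zero 3 (S_one_ne hM h0)
  have h3 := ((h2.div (h1.pow 3) hne).const_mul 8).div (((S_deriv hM h0).add_const 1).pow 3) hSne
  have h4 := h3.deriv
  have e : (fun u : ℂ => 8 * ((1 + u) / (1 - u) ^ 3) / (Sk M u + 1) ^ 3) =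
      ((fun u : ℂ => 8 * ((1 + u) / (1 - u) ^ 3)) / fun u => (Sk M u + 1) ^ 3) := rfl
  rw [e]
  refine h4.trans ?_
  simp only [S_zero, Pi.pow_apply, Pi.div_apply]
  norm_num
  field_simp
  ring

theorem pick {M : ℝ} (hM : 1 ≤ M) :
    ∃ f : ℂ → ℂ, DifferentiableOn ℂ f (ball 0 1) ∧ InjOn f (ball 0 1) ∧ f 0 = 0 ∧ deriv f 0 = 1 ∧
      deriv (deriv f) 0 / 2 = 2 - 3 / (2 * M) ∧ f '' ball 0 1 ⊆ Cd M := by
  have hM0 : (0 : ℝ) < M := by linarith
  have hM' : (M : ℂ) ≠ 0 := by exact_mod_cast hM0.ne'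
  refine ⟨fk M, fun u hu => (f_deriv hM hu).differentiableAt.differentiableWithinAt, ?_, ?_, ?_, ?_, ?_⟩
  · intro u hu v hv huv
    have hp : pk M u = pk M v := by
      rw [← et_Cd hM0 (p_lt hM hu), ← et_Cd hM0 (p_lt hM hv)]
      exact congrArg (et M) huv
    have hS : Sk M u = Sk M v := by
      have h1 := S_one_ne hM hu
      have h2 := S_one_ne hM hv
      unfold pk at hp
      rw [div_eq_div_iff h1 h2] at hp
      linear_combination (1 / 2 : ℂ) * hp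
    have hW : Wk M u = Wk M v := by
      rw [← sq_sq (Wk M u), ← sq_sq (Wk M v)]
      exact congrArg (· ^ 2) hS
    rw [W_eq hM hu, W_eq hM hv] at hW
    have hM1 : ((1 / M : ℝ) : ℂ) ≠ 0 := by
      exact_mod_cast (by positivity : (0 : ℝ) < 1 / M).ne'
    have hq2 : ((1 + u) / (1 - u)) ^ 2 = ((1 + v) / (1 - v)) ^ 2 :=
      mul_left_cancel₀ hM1 (add_left_cancel hW)
    have hq : (1 + u) / (1 - u) = (1 + v) / (1 - v) := by
      rw [← sq_unique rfl (q_re hu), ← sq_unique rfl (q_re hv), hq2]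
    rw [div_eq_div_iff (one_sub_ne hu) (one_sub_ne hv)] at hq
    linear_combination (1 / 2 : ℂ) * hq
  · unfold fk pk
    rw [S_zero]
    simp
  · rw [(f_deriv hM (by simp : (0 : ℂ) ∈ ball (0 : ℂ) 1)).deriv, S_zero]
    norm_num
  · rw [f_deriv2 hM]
    field_simp
    ring
  · rintro _ ⟨u, hu, rfl⟩
    exact ⟨pk M u, by simpa using p_lt hM hu, rfl⟩

end Pool.Agent.CRD
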