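import Pool.Agent.CRD.RelU

/-! CRD/RelM.  The algebraic equation has a solution on the disc only for `M ≥ 1`.

With `g = 1 + 2 f u/M`, `q = M (1-u)² + 4u` the equation is `g q² = (q + u g)²`.  If `M < 1`, then `q` has a simple
root `u0 ∈ (-1, 0)`, `g` vanishes at `u0`, and after division by `(u - u0)²` the equation gives a contradiction at
`u0` (value and derivative). -/

set_option autoImplicit false

open Complex MeasureTheory Metric Set

namespace Pool.Agent.CRD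

variable {M : ℝ} {f : ℂ → ℂ}

theorem rel_M (hM : 0 < M) (hf : DifferentiableOn ℂ f (ball 0 1)) (f0 : f 0 = 0)
    (h : ∃ r : ℝ, 0 < r ∧ ∀ u : ℂ, ‖u‖ < r → u * (1 - et M (f u)) ^ 2 = M * et M (f u) * (1 - u) ^ 2) :
    1 ≤ M := by
  by_contra hlt
  push Not at hlt
  have hrel := rel_poly hM hf h
  obtain ⟨u0, ⟨hu1, hu2⟩, hq0⟩ : (0 : ℝ) ∈ (fun u : ℝ => M * (1 - u) ^ 2 + 4 * u) '' Ioo (-1) 0 := by
    apply intermediate_value_Ioo (by norm_num) (by fun_prop)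
    constructor
    · norm_num
      linarith
    · norm_num
      exact hM
  have hq0' : M * (1 - u0) ^ 2 + 4 * u0 = 0 := hq0
  have hMC : (M : ℂ) ≠ 0 := by exact_mod_cast hM.ne'
  have hq0C : (M : ℂ) * (1 - (u0 : ℂ)) ^ 2 + 4 * (u0 : ℂ) = 0 := by exact_mod_cast hq0'
  have hu0C : (u0 : ℂ) ≠ 0 := by exact_mod_cast hu2.ne
  have hmem : (u0 : ℂ) ∈ ball (0 : ℂ) 1 := by
    rw [mem_ball_zero_iff, Complex.norm_real, Real.norm_eq_abs, abs_lt]
    exact ⟨hu1, by linarith⟩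
  have hnhds : ball (0 : ℂ) 1 ∈ nhds (u0 : ℂ) := isOpen_ball.mem_nhds hmem
  obtain ⟨g, hg⟩ : ∃ g : ℂ → ℂ, g = fun u => 1 + 2 * f u / M := ⟨_, rfl⟩
  have hgd : DifferentiableOn ℂ g (ball 0 1) := by
    rw [hg]
    exact ((hf.const_mul 2).div_const _).const_add 1
  have hrel' : ∀ u ∈ ball (0 : ℂ) 1, g u * ((M : ℂ) * (1 - u) ^ 2 + 4 * u) ^ 2 =
      ((M : ℂ) * (1 - u) ^ 2 + 4 * u + u * g u) ^ 2 := by
    intro u hu
    have h1 := hrel u hu
    rw [hg]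
    simp only
    rw [h1]
    ring
  have hg0 : g u0 = 0 := by
    have h1 := hrel' u0 hmem
    rw [hq0C] at h1
    have h2 : (u0 : ℂ) * g u0 = 0 := by
      have h3 : ((u0 : ℂ) * g u0) ^ 2 = 0 := by linear_combination -h1
      exact pow_eq_zero_iff (two_ne_zero) |>.1 h3
    exact (mul_eq_zero.1 h2).resolve_left hu0C
  obtain ⟨g1, hg1⟩ : ∃ g1 : ℂ → ℂ, g1 = dslope g (u0 : ℂ) := ⟨_, rfl⟩
  have hg1d : DifferentiableAt ℂ g1 (u0 : ℂ) := by
    rw [hg1]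
    exact ((Complex.differentiableOn_dslope hnhds).2 hgd).differentiableAt hnhds
  have hgs : ∀ u, g u = (u - (u0 : ℂ)) * g1 u := by
    intro u
    have h1 := sub_smul_dslope g (u0 : ℂ) u
    rw [hg0, sub_zero, ← hg1, smul_eq_mul] at h1
    exact h1.symm
  obtain ⟨q1, hq1⟩ : ∃ q1 : ℂ → ℂ, q1 = fun u => (M : ℂ) * (u + u0) + (4 - 2 * M) := ⟨_, rfl⟩
  have hq1d : DifferentiableAt ℂ q1 (u0 : ℂ) := by
    rw [hq1]
    fun_prop
  have hqs : ∀ u : ℂ, (M : ℂ) * (1 - u) ^ 2 + 4 * u = (u - u0) * q1 u := by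
    intro u
    rw [hq1]
    linear_combination hq0C
  have hq1ne : q1 u0 ≠ 0 := by
    rw [hq1]
    simp only
    have h1 : (0 : ℝ) < M * (u0 + u0) + (4 - 2 * M) := by nlinarith
    have h2 : ((M * (u0 + u0) + (4 - 2 * M) : ℝ) : ℂ) ≠ 0 := by exact_mod_cast h1.ne'
    intro h3
    apply h2
    push_cast
    exact h3
  obtain ⟨F, hF⟩ : ∃ F : ℂ → ℂ, F = fun u => (u - (u0 : ℂ)) * (g1 u * q1 u ^ 2) - (q1 u + u * g1 u) ^ 2 :=
    ⟨_, rfl⟩
  have hFd : HasDerivAt F (1 * (g1 u0 * q1 u0 ^ 2) + ((u0 : ℂ) - u0) * deriv (fun u => g1 u * q1 u ^ 2) u0 -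
      2 * (q1 u0 + u0 * g1 u0) * deriv (fun u => q1 u + u * g1 u) u0) (u0 : ℂ) := by
    have h1 : HasDerivAt (fun u : ℂ => u - (u0 : ℂ)) 1 (u0 : ℂ) := (hasDerivAt_id _).sub_const _
    have h2 : HasDerivAt (fun u => g1 u * q1 u ^ 2) (deriv (fun u => g1 u * q1 u ^ 2) u0) (u0 : ℂ) :=
      (hg1d.mul (hq1d.pow 2)).hasDerivAt
    have h3 : HasDerivAt (fun u => q1 u + u * g1 u) (deriv (fun u => q1 u + u * g1 u) u0) (u0 : ℂ) :=
      (hq1d.add (differentiableAt_id.mul hg1d)).hasDerivAt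
    have h4 := (h1.mul h2).sub (h3.pow 2)
    rw [hF]
    refine HasDerivAt.congr_deriv h4 ?_
    simp
  have hFz : ∀ᶠ u in nhdsWithin (u0 : ℂ) {(u0 : ℂ)}ᶜ, F u = 0 := by
    filter_upwards [mem_nhdsWithin_of_mem_nhds hnhds, self_mem_nhdsWithin] with u hu hne
    have h1 := hrel' u hu
    rw [hqs, hgs] at h1
    have hne' : u - (u0 : ℂ) ≠ 0 := sub_ne_zero.2 hne
    have h2 : (u - (u0 : ℂ)) ^ 2 * F u = 0 := by
      rw [hF]
      simp only
      linear_combination h1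
    exact (mul_eq_zero.1 h2).resolve_left (pow_ne_zero 2 hne')
  have hF0 : F u0 = 0 := by
    have h1 : Filter.Tendsto F (nhdsWithin (u0 : ℂ) {(u0 : ℂ)}ᶜ) (nhds (F u0)) :=
      hFd.continuousAt.tendsto.mono_left nhdsWithin_le_nhds
    have h2 : Filter.Tendsto F (nhdsWithin (u0 : ℂ) {(u0 : ℂ)}ᶜ) (nhds 0) :=
      (Filter.tendsto_congr' hFz).2 tendsto_const_nhds
    exact tendsto_nhds_unique h1 h2
  have hF1 : F =ᶠ[nhds (u0 : ℂ)] fun _ => 0 := by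
    rw [eventually_nhdsWithin_iff] at hFz
    filter_upwards [hFz] with u hu
    by_cases hne : u = (u0 : ℂ)
    · rw [hne, hF0]
    · exact hu hne
  have hderiv : deriv F (u0 : ℂ) = 0 := by
    rw [hF1.deriv_eq]
    simp
  rw [hFd.deriv] at hderiv
  have hh : q1 u0 + (u0 : ℂ) * g1 u0 = 0 := by
    rw [hF] at hF0
    have h1 : (q1 u0 + (u0 : ℂ) * g1 u0) ^ 2 = 0 := by
      simp only at hF0
      linear_combination -hF0
    exact pow_eq_zero_iff (two_ne_zero) |>.1 h1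
  rw [hh] at hderiv
  have h5 : g1 u0 * q1 u0 ^ 2 = 0 := by linear_combination hderiv
  rcases mul_eq_zero.1 h5 with h6 | h6
  · rw [h6, mul_zero, add_zero] at hh
    exact hq1ne hh
  · exact hq1ne (pow_eq_zero_iff (two_ne_zero) |>.1 h6)

end Pool.Agent.CRD
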