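import Pool.Agent.CRD.PhRel

/-! CRD/RelN.  Vanishing remainder: the equation for `η = et M (f u)` near `0`.

`ph_rel` squared: with `z ^ 2 = u` and `s = ss M (fh k z)` one has `s ^ 2 = et M (f u)` and `z (1 - s ^ 2) = √M s (1 - z ^ 2)`. -/

set_option autoImplicit false

open Complex MeasureTheory Metric Set

namespace Pool.Agent.CRD

variable {M : ℝ} {f k : ℂ → ℂ}

theorem rel (D : Dat M f k) (h : ∀ a b : ℝ, a < b → b < 0 → ∫ ω in strip a b, gap (vv M k) ω ≤ 0) :
    ∃ r : ℝ, 0 < r ∧ ∀ u : ℂ, ‖u‖ < r →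
      u * (1 - et M (f u)) ^ 2 = M * et M (f u) * (1 - u) ^ 2 := by
  have hM := D.hM
  obtain ⟨r, hr, hph⟩ := ph_rel D h
  refine ⟨min (r ^ 2) 1, lt_min (by positivity) one_pos, fun u hu => ?_⟩
  have hu1 : ‖u‖ < 1 := hu.trans_le (min_le_right _ _)
  have hu2 : ‖u‖ < r ^ 2 := hu.trans_le (min_le_left _ _)
  have hub : u ∈ ball (0 : ℂ) 1 := by rwa [mem_ball_zero_iff]
  have hfk := D.fk u hub
  by_cases hu0 : u = 0
  · have h1 : et M (f u) = 0 := by
      rw [et_zero_iff hM, hfk, hu0, zero_mul]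
    rw [h1, hu0]
    ring
  · have hz2 : sq u ^ 2 = u := sq_sq u
    set z : ℂ := sq u with hz
    have hz0 : z ≠ 0 := by
      intro h1
      rw [h1] at hz2
      exact hu0 (by rw [← hz2]; ring)
    have hzr : ‖z‖ < r := by
      have h1 : ‖z‖ ^ 2 < r ^ 2 := by rwa [← norm_pow, hz2]
      exact lt_of_pow_lt_pow_left₀ 2 hr.le h1
    have hp := hph z hz0 hzr
    have hfh : fh k z ^ 2 = f u := by
      unfold fh
      rw [hz2, hfk, mul_pow, hz2]
    have hs2 : ss M (fh k z) ^ 2 = et M (f u) := by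
      rw [ss_sq hM, hfh]
    have hs0 : ss M (fh k z) ≠ 0 := by
      intro h1
      rw [ss_zero_iff hM] at h1
      unfold fh at h1
      rw [hz2] at h1
      rcases mul_eq_zero.1 h1 with h2 | h2
      · exact hz0 h2
      · exact D.kne u hub h2
    unfold Ph QQ at hp
    set s : ℂ := ss M (fh k z) with hs
    have hm : (((Real.sqrt M : ℝ) : ℂ)) ^ 2 = (M : ℂ) := by
      rw [← ofReal_pow, Real.sq_sqrt hM.le]
    set m : ℂ := ((Real.sqrt M : ℝ) : ℂ) with hmm
    have e : z * (1 - s ^ 2) = m * s * (1 - z ^ 2) := by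
      field_simp at hp
      linear_combination hp
    rw [← hs2, ← hz2, ← hm]
    have e2 := congrArg (fun w : ℂ => w ^ 2) e
    linear_combination e2

end Pool.Agent.CRD
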