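import Pool.Agent.CRD.Root
import Pool.Agent.CRD.CV

/-! CRD/Vol.  Area of the cardioid and of its rings.

PLAN.  `ring_int`: replace `η` by `-η` (`volume` is invariant) and take the mean: `∫ ‖1 + η‖² = ∫ (1 + ‖η‖²)` over the ring; then
`MeasureTheory.integral_fun_norm_addHaar` (or `Complex.integral_comp_polarCoord_symm`), `Complex.volume_ball`: `2 π ∫_x^1 (y + y³) dy`.
`vol_ring`: `cv_vol` for `η ↦ M (η + η²/2)`, derivative `M (1 + η)`, injective on the unit disc by `et_Cd`.
`vol_Cd`: the point `0` is a null set, `x = 0`. -/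

set_option autoImplicit false

open Complex MeasureTheory Metric Set Real

namespace Pool.Agent.CRD

variable {M : ℝ}

private theorem ring_meas (x : ℝ) : MeasurableSet {η : ℂ | x < ‖η‖ ∧ ‖η‖ < 1} :=
  (measurableSet_lt measurable_const measurable_norm).inter
    (measurableSet_lt measurable_norm measurable_const)

private theorem ring_integrable (x : ℝ) :
    IntegrableOn (fun η : ℂ => ‖1 + η‖ ^ 2) {η : ℂ | x < ‖η‖ ∧ ‖η‖ < 1} := by
  have h1 : IntegrableOn (fun η : ℂ => ‖1 + η‖ ^ 2) (closedBall 0 1) :=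
    ContinuousOn.integrableOn_compact (isCompact_closedBall _ _)
      (by fun_prop)
  refine h1.mono_set ?_
  intro η hη
  rw [mem_closedBall_zero_iff]
  exact hη.2.le

theorem ring_int {x : ℝ} (hx : 0 ≤ x) (hx1 : x ≤ 1) :
    ∫ η in {η : ℂ | x < ‖η‖ ∧ ‖η‖ < 1}, ‖1 + η‖ ^ 2 = π * (3 / 2 - x ^ 2 - x ^ 4 / 2) := by
  set S : Set ℂ := {η : ℂ | x < ‖η‖ ∧ ‖η‖ < 1} with hS
  have hSm : MeasurableSet S := ring_meas x
  set F : ℂ → ℝ := S.indicator fun η => ‖1 + η‖ ^ 2 with hF
  have hFi : Integrable F := by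
    rw [hF, integrable_indicator_iff hSm]
    exact ring_integrable x
  have hneg : ∫ η, F (-η) = ∫ η, F η := integral_neg_eq_self F volume
  have hsum : ∫ η, (F η + F (-η)) = 2 * ∫ η in S, ‖1 + η‖ ^ 2 := by
    rw [integral_add hFi hFi.comp_neg, hneg, hF, integral_indicator hSm]
    ring
  have hpt : ∀ η : ℂ, F η + F (-η) =
      (fun y : ℝ => (Ioo x 1).indicator (fun y => 2 * (1 + y ^ 2)) y) ‖η‖ := by
    intro η
    by_cases h : x < ‖η‖ ∧ ‖η‖ < 1
    · have h1 : η ∈ S := h
      have h2 : -η ∈ S := by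
        rw [hS]
        change x < ‖-η‖ ∧ ‖-η‖ < 1
        rwa [norm_neg]
      have h3 : ‖η‖ ∈ Ioo x 1 := h
      simp only [hF, indicator_of_mem h1, indicator_of_mem h2, indicator_of_mem h3]
      have h4 := parallelogram_law_with_norm ℝ (1 : ℂ) η
      rw [← sub_eq_add_neg]
      rw [norm_one] at h4
      nlinarith [h4]
    · have h1 : η ∉ S := h
      have h2 : -η ∉ S := by
        rw [hS]
        change ¬ (x < ‖-η‖ ∧ ‖-η‖ < 1)
        rwa [norm_neg]
      have h3 : ‖η‖ ∉ Ioo x 1 := h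
      simp only [hF, indicator_of_notMem h1, indicator_of_notMem h2, indicator_of_notMem h3]
      ring
  have hpol := integral_fun_norm_addHaar (E := ℂ) (F := ℝ) volume
    (fun y : ℝ => (Ioo x 1).indicator (fun y => 2 * (1 + y ^ 2)) y)
  rw [← integral_congr_ae (Filter.Eventually.of_forall hpt), hsum, Complex.finrank_real_complex]
    at hpol
  have hball : (volume : Measure ℂ).real (ball 0 1) = π := by
    rw [Measure.real, Complex.volume_ball]
    simp
  have hone : ∫ y in Ioi (0 : ℝ), y ^ (2 - 1) • (Ioo x 1).indicator (fun y => 2 * (1 + y ^ 2)) y =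
      (1 - x ^ 2) + (1 - x ^ 4) / 2 := by
    have e1 : ∀ y : ℝ, y ^ (2 - 1) • (Ioo x 1).indicator (fun y => 2 * (1 + y ^ 2)) y =
        (Ioo x 1).indicator (fun y => 2 * y + 2 * y ^ 3) y := by
      intro y
      by_cases hy : y ∈ Ioo x 1
      · simp only [indicator_of_mem hy, smul_eq_mul]
        ring
      · simp only [indicator_of_notMem hy, smul_zero]
    simp only [e1]
    rw [setIntegral_indicator measurableSet_Ioo]
    have e2 : Ioi (0 : ℝ) ∩ Ioo x 1 = Ioo x 1 := by
      ext y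
      simp only [mem_inter_iff, mem_Ioi, mem_Ioo]
      constructor
      · exact fun h => h.2
      · exact fun h => ⟨lt_of_le_of_lt hx h.1, h⟩
    rw [e2, ← integral_Ioc_eq_integral_Ioo, ← intervalIntegral.integral_of_le hx1]
    have c1 : Continuous fun y : ℝ => 2 * y := by fun_prop
    have c2 : Continuous fun y : ℝ => 2 * y ^ 3 := by fun_prop
    rw [intervalIntegral.integral_add (c1.intervalIntegrable _ _) (c2.intervalIntegrable _ _)]
    rw [intervalIntegral.integral_const_mul, intervalIntegral.integral_const_mul, integral_id,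
      integral_pow]
    ring
  rw [hone, hball] at hpol
  simp only [smul_eq_mul, nsmul_eq_mul] at hpol
  push_cast at hpol
  linarith

theorem vol_ring (hM : 0 < M) {x : ℝ} (hx : 0 ≤ x) (hx1 : x ≤ 1) :
    volume ((fun η : ℂ => (M : ℂ) * (η + η ^ 2 / 2)) '' {η : ℂ | x < ‖η‖ ∧ ‖η‖ < 1}) =
      ENNReal.ofReal (π * M ^ 2 * (3 / 2 - x ^ 2 - x ^ 4 / 2)) := by
  have hd : ∀ u : ℂ, HasDerivAt (fun η : ℂ => (M : ℂ) * (η + η ^ 2 / 2)) ((M : ℂ) * (1 + u)) u := by
    intro u
    have h := ((hasDerivAt_id u).add (((hasDerivAt_id u).pow 2).div_const 2)).const_mul (M : ℂ)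
    convert! h using 1
    simp
  rw [cv_vol (ring_meas x) (fun u _ => (hd u).differentiableAt) ?_]
  · have h1 : ∀ u : ℂ, ‖deriv (fun η : ℂ => (M : ℂ) * (η + η ^ 2 / 2)) u‖ ^ 2 =
        M ^ 2 * ‖1 + u‖ ^ 2 := by
      intro u
      rw [(hd u).deriv, norm_mul, mul_pow, Complex.norm_real, Real.norm_eq_abs, sq_abs]
    simp only [h1]
    rw [← ofReal_integral_eq_lintegral_ofReal ((ring_integrable x).const_mul (M ^ 2))
      (Filter.Eventually.of_forall fun u => by positivity)]
    rw [integral_const_mul, ring_int hx hx1]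
    congr 1
    ring
  · intro a ha b hb hab
    have h1 := et_Cd hM ha.2
    have h2 := et_Cd hM hb.2
    simp only at hab
    rw [← h1, ← h2, hab]

theorem vol_Cd (hM : 0 < M) : volume (Cd M) = ENNReal.ofReal (3 * π / 2 * M ^ 2) := by
  have h := vol_ring hM (le_refl (0 : ℝ)) zero_le_one
  have h1 : volume (Cd M) =
      volume ((fun η : ℂ => (M : ℂ) * (η + η ^ 2 / 2)) '' {η : ℂ | 0 < ‖η‖ ∧ ‖η‖ < 1}) := by
    apply le_antisymm
    · have hsub : Cd M ⊆ ((fun η : ℂ => (M : ℂ) * (η + η ^ 2 / 2)) ''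
          {η : ℂ | 0 < ‖η‖ ∧ ‖η‖ < 1}) ∪ {0} := by
        rintro w ⟨η, hη, rfl⟩
        rw [mem_ball_zero_iff] at hη
        by_cases h0 : η = 0
        · right
          subst h0
          simp
        · left
          exact ⟨η, ⟨norm_pos_iff.2 h0, hη⟩, rfl⟩
      calc volume (Cd M) ≤ _ := measure_mono hsub
        _ ≤ _ := measure_union_le _ _
        _ = _ := by simp
    · apply measure_mono
      rintro w ⟨η, hη, rfl⟩
      exact ⟨η, by rw [mem_ball_zero_iff]; exact hη.2, rfl⟩
  rw [h1, h]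
  congr 1
  ring

end Pool.Agent.CRD
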