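import Pool.Agent.CRD.Core
import Pool.Agent.CRD.Disc
import Pool.Agent.CRD.LowR
import Pool.Agent.CRD.RelN
import Pool.Agent.CRD.RelM
import Pool.Agent.CRD.Pick
import Pool.Agent.CRD.Vol

/-! CRD/CoreR.  The master inequality with both remainders, the extremal functions. -/

set_option autoImplicit false

open Complex MeasureTheory Metric Set

namespace Pool.Agent.CRD

theorem core_rem {M : ℝ} {f k : ℂ → ℂ} (D : Dat M f k) {a b : ℝ} (hab : a < b) (hb : b < 0) :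
    9 / (4 * M) + Rem M f / (2 * Real.pi * M ^ 3) + (∫ ω in strip a b, gap (vv M k) ω) / Real.pi ≤
      Ar f / (2 * Real.pi * M ^ 3) + 2 - 2 * (deriv k 0).re := by
  apply core_J D (Real.exp_pos a)
  intro r hr hra hr1
  have hlog : Real.log r ≤ a := by
    rw [Real.log_le_iff_le_exp hr]
    exact hra.le
  exact low_rem (v := vv M k) (W := WW M f) (fun ω hω => vv_lip D ω hω) (fun ω => vv_per ω)
    (vv_ener D) hlog hab hb (int_WW D hr hr1)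

section general

variable {M : ℝ} {f : ℂ → ℂ}

/-- equality in the master inequality gives the algebraic equation -/
theorem eq_rel (hM : 0 < M) (hf : DifferentiableOn ℂ f (ball 0 1)) (h0 : f 0 = 0)
    (h1 : deriv f 0 = 1) (hA : IntegrableOn (fun u => ‖deriv f u‖ ^ 2) (ball 0 1))
    (hi : ∀ u ∈ ball (0 : ℂ) 1, ∀ v ∈ ball (0 : ℂ) 1, f u = f v → f u ∈ Cd M → u = v)
    (he : Ar f / (2 * Real.pi * M ^ 3) + 2 - (deriv (deriv f) 0 / 2).re ≤ 9 / (4 * M)) :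
    ∃ r : ℝ, 0 < r ∧ ∀ u : ℂ, ‖u‖ < r → u * (1 - et M (f u)) ^ 2 = M * et M (f u) * (1 - u) ^ 2 := by
  obtain ⟨k, D, hk⟩ := exists_dat hM hf h0 h1 hA hi
  apply rel D
  intro a b hab hb
  have h := core_rem D hab hb
  have h2 := Rem_nonneg hM hf h0 h1
  have h3 : (2 * deriv k 0).re = 2 * (deriv k 0).re := by simp
  rw [← hk, h3] at he
  have h4 : 0 ≤ Rem M f / (2 * Real.pi * M ^ 3) := by positivity
  have h5 : (∫ ω in strip a b, gap (vv M k) ω) / Real.pi ≤ 0 := by linarith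
  by_contra hcon
  push Not at hcon
  have : 0 < (∫ ω in strip a b, gap (vv M k) ω) / Real.pi := div_pos hcon Real.pi_pos
  linarith

theorem eq_M (hM : 0 < M) (hf : DifferentiableOn ℂ f (ball 0 1)) (h0 : f 0 = 0)
    (h1 : deriv f 0 = 1) (hA : IntegrableOn (fun u => ‖deriv f u‖ ^ 2) (ball 0 1))
    (hi : ∀ u ∈ ball (0 : ℂ) 1, ∀ v ∈ ball (0 : ℂ) 1, f u = f v → f u ∈ Cd M → u = v)
    (he : Ar f / (2 * Real.pi * M ^ 3) + 2 - (deriv (deriv f) 0 / 2).re ≤ 9 / (4 * M)) : 1 ≤ M :=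
  rel_M hM hf h0 (eq_rel hM hf h0 h1 hA hi he)

end general

/-- the extremal functions -/
noncomputable def PP (M : ℝ) : ℂ → ℂ :=
  open scoped Classical in
  if h : 1 ≤ M then Classical.choose (pick h) else 0

section PPfacts

variable {M : ℝ}

theorem PP_spec (hM : 1 ≤ M) : DifferentiableOn ℂ (PP M) (ball 0 1) ∧ InjOn (PP M) (ball 0 1) ∧
    PP M 0 = 0 ∧ deriv (PP M) 0 = 1 ∧ deriv (deriv (PP M)) 0 / 2 = 2 - 3 / (2 * M) ∧
    PP M '' ball 0 1 ⊆ Cd M := by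
  have : PP M = Classical.choose (pick hM) := by
    simp [PP, hM]
  rw [this]
  exact Classical.choose_spec (pick hM)

theorem PP_vol (hM : 1 ≤ M) : volume (PP M '' ball 0 1) ≤ ENNReal.ofReal (3 * Real.pi / 2 * M ^ 2) := by
  rw [← vol_Cd (lt_of_lt_of_le one_pos hM)]
  exact measure_mono (PP_spec hM).2.2.2.2.2

theorem PP_int (hM : 1 ≤ M) : IntegrableOn (fun u => ‖deriv (PP M) u‖ ^ 2) (ball 0 1) := by
  obtain ⟨h1, h2, _⟩ := PP_spec hM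
  refine (areaU h1 h2).1.1 ?_
  exact ne_top_of_le_ne_top ENNReal.ofReal_ne_top (PP_vol hM)

theorem PP_Ar_le (hM : 1 ≤ M) : Ar (PP M) ≤ 3 * Real.pi / 2 * M ^ 2 := by
  obtain ⟨h1, h2, _⟩ := PP_spec hM
  rw [(areaU h1 h2).2]
  have h3 := ENNReal.toReal_mono ENNReal.ofReal_ne_top (PP_vol hM)
  have hpi := Real.pi_pos
  rwa [ENNReal.toReal_ofReal (by positivity)] at h3

theorem PP_inj (hM : 1 ≤ M) (T : Set ℂ) : ∀ u ∈ ball (0 : ℂ) 1, ∀ v ∈ ball (0 : ℂ) 1,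
    PP M u = PP M v → PP M u ∈ T → u = v :=
  fun _ hu _ hv h _ => (PP_spec hM).2.1 hu hv h

theorem PP_a2re (hM : 1 ≤ M) : (deriv (deriv (PP M)) 0 / 2).re = 2 - 3 / (2 * M) := by
  rw [(PP_spec hM).2.2.2.2.1]
  have : (2 - 3 / (2 * (M : ℂ))) = ((2 - 3 / (2 * M) : ℝ) : ℂ) := by push_cast; ring
  rw [this, ofReal_re]

theorem PP_Ar (hM : 1 ≤ M) : Ar (PP M) = 3 * Real.pi / 2 * M ^ 2 := by
  apply le_antisymm (PP_Ar_le hM)
  obtain ⟨h1, h2, h3, h4, h5, h6⟩ := PP_spec hM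
  have hM0 : 0 < M := lt_of_lt_of_le one_pos hM
  have h := main hM0 h1 h3 h4 (PP_int hM) (PP_inj hM _)
  rw [PP_a2re hM] at h
  have hR := Rem_nonneg hM0 h1 h3 h4
  have hpi := Real.pi_pos
  have h7 : 0 ≤ Rem M (PP M) / (2 * Real.pi * M ^ 3) := by positivity
  have h8 : 9 / (4 * M) ≤ Ar (PP M) / (2 * Real.pi * M ^ 3) + 3 / (2 * M) := by linarith
  have h9 : 9 / (4 * M) - 3 / (2 * M) = 3 * Real.pi / 2 * M ^ 2 / (2 * Real.pi * M ^ 3) := by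
    field_simp
    ring
  have h10 : 3 * Real.pi / 2 * M ^ 2 / (2 * Real.pi * M ^ 3) ≤ Ar (PP M) / (2 * Real.pi * M ^ 3) := by
    linarith
  exact (div_le_div_iff_of_pos_right (by positivity)).1 h10

theorem PP_eq (hM : 1 ≤ M) :
    Ar (PP M) / (2 * Real.pi * M ^ 3) + 2 - (deriv (deriv (PP M)) 0 / 2).re = 9 / (4 * M) := by
  have hM0 : 0 < M := lt_of_lt_of_le one_pos hM
  have hpi := Real.pi_pos
  rw [PP_Ar hM, PP_a2re hM]
  field_simp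
  ring

theorem PP_rel (hM : 1 ≤ M) :
    ∃ r : ℝ, 0 < r ∧ ∀ u : ℂ, ‖u‖ < r →
      u * (1 - et M (PP M u)) ^ 2 = M * et M (PP M u) * (1 - u) ^ 2 := by
  obtain ⟨h1, h2, h3, h4, h5, h6⟩ := PP_spec hM
  have hM0 : 0 < M := lt_of_lt_of_le one_pos hM
  exact eq_rel hM0 h1 h3 h4 (PP_int hM) (PP_inj hM _) (PP_eq hM).le

theorem PP_poly (hM : 1 ≤ M) : ∀ u ∈ ball (0 : ℂ) 1,
    (1 + 2 * PP M u / M) * (M * (1 - u) ^ 2 + 4 * u) ^ 2 =
      (M * (1 - u) ^ 2 + 5 * u + 2 * u * PP M u / M) ^ 2 :=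
  rel_poly (lt_of_lt_of_le one_pos hM) (PP_spec hM).1 (PP_rel hM)

end PPfacts

/-- the extremal function is unique -/
theorem eq_unique {M : ℝ} {f : ℂ → ℂ} (hM : 0 < M) (hf : DifferentiableOn ℂ f (ball 0 1)) (h0 : f 0 = 0)
    (h1 : deriv f 0 = 1) (hA : IntegrableOn (fun u => ‖deriv f u‖ ^ 2) (ball 0 1))
    (hi : ∀ u ∈ ball (0 : ℂ) 1, ∀ v ∈ ball (0 : ℂ) 1, f u = f v → f u ∈ Cd M → u = v)
    (he : Ar f / (2 * Real.pi * M ^ 3) + 2 - (deriv (deriv f) 0 / 2).re ≤ 9 / (4 * M)) :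
    1 ≤ M ∧ EqOn f (PP M) (ball 0 1) := by
  have h2 := eq_M hM hf h0 h1 hA hi he
  exact ⟨h2, rel_unique hM hf h0 (PP_spec h2).1 (PP_spec h2).2.2.1
    (eq_rel hM hf h0 h1 hA hi he) (PP_rel h2)⟩

end Pool.Agent.CRD
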