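import Pool.Agent.CRD.CV

/-! CRD/Ecoord.  The substitution `u = exp (2 ω)`: the strip `log r < Re ω < 0`, `0 < Im ω < 2π` covers the annulus `r² < |u| < 1` twice.

On each half strip the map is injective and its image is the annulus up to a null set. -/

set_option autoImplicit false

open Complex MeasureTheory Metric Set

namespace Pool.Agent.CRD

/-- the strip -/
def strip (a b : ℝ) : Set ℂ := {ω | a < ω.re ∧ ω.re < b ∧ 0 < ω.im ∧ ω.im < 2 * Real.pi}

/-- a half strip -/
private def hs (a c : ℝ) : Set ℂ :=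
  {ω | a < ω.re ∧ ω.re < 0 ∧ c < ω.im ∧ ω.im < c + Real.pi}

private theorem vol_line (c : ℝ) : volume {z : ℂ | z.im = c} = 0 := by
  have h : {z : ℂ | z.im = c} = Complex.measurableEquivRealProd ⁻¹' (univ ×ˢ {c}) := by
    ext z
    simp [Complex.measurableEquivRealProd_apply]
  rw [h, Complex.volume_preserving_equiv_real_prod.measure_preimage
    (MeasurableSet.univ.prod (measurableSet_singleton c)).nullMeasurableSet,
    Measure.volume_eq_prod, Measure.prod_prod, Real.volume_singleton, mul_zero]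

private theorem hs_meas (a c : ℝ) : MeasurableSet (hs a c) := by
  have h : IsOpen (hs a c) := by
    refine (isOpen_lt continuous_const continuous_re).inter
      ((isOpen_lt continuous_re continuous_const).inter
        ((isOpen_lt continuous_const continuous_im).inter
          (isOpen_lt continuous_im continuous_const)))
  exact h.measurableSet

private theorem norm_e (ω : ℂ) : ‖exp (2 * ω)‖ = Real.exp (2 * ω.re) := by
  rw [Complex.norm_exp]
  simp

private theorem hs_inj (a c : ℝ) : InjOn (fun ω : ℂ => exp (2 * ω)) (hs a c) := by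
  intro ω hω ω' hω' h
  obtain ⟨n, hn⟩ := Complex.exp_eq_exp_iff_exists_int.1 h
  have him := congrArg Complex.im hn
  simp at him
  have h1 : ω.im - ω'.im = n * Real.pi := by linarith
  have hp := Real.pi_pos
  have h2 : |(n : ℝ)| < 1 := by
    rw [abs_lt]
    constructor
    · by_contra hcon
      push Not at hcon
      have := mul_le_mul_of_nonneg_right hcon hp.le
      have h3 := hω.2.2.1
      have h4 := hω'.2.2.2
      linarith
    · by_contra hcon
      push Not at hcon
      have := mul_le_mul_of_nonneg_right hcon hp.le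
      have h3 := hω'.2.2.1
      have h4 := hω.2.2.2
      linarith
  have h3 : n = 0 := by
    have : |n| < 1 := by exact_mod_cast h2
    exact Int.abs_lt_one_iff.1 this
  rw [h3] at hn
  have : (2 : ℂ) * ω = 2 * ω' := by simpa using hn
  exact mul_left_cancel₀ two_ne_zero this

private theorem hs_sub {r : ℝ} (h0 : 0 < r) (c : ℝ) :
    (fun ω : ℂ => exp (2 * ω)) '' hs (Real.log r) c ⊆ ball 0 1 \ closedBall 0 (r ^ 2) := by
  rintro _ ⟨ω, hω, rfl⟩
  constructor
  · rw [mem_ball_zero_iff, norm_e, Real.exp_lt_one_iff]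
    have := hω.2.1
    linarith
  · rw [mem_closedBall_zero_iff, norm_e, not_le, ← Real.log_lt_iff_lt_exp (by positivity),
      Real.log_pow]
    have := hω.1
    push_cast
    linarith

private theorem hs_sup {r : ℝ} (h0 : 0 < r) {c : ℝ} (hc : exp (2 * (c * I)) = 1) :
    ball 0 1 \ closedBall 0 (r ^ 2) ⊆
      (fun ω : ℂ => exp (2 * ω)) '' hs (Real.log r) c ∪ {z : ℂ | z.im = 0} := by
  rintro u ⟨hu1, hu2⟩
  rw [mem_ball_zero_iff] at hu1
  rw [mem_closedBall_zero_iff, not_le] at hu2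
  by_cases him : u.im = 0
  · exact Or.inr him
  left
  have hr2 : 0 < r ^ 2 := by positivity
  have hu0 : u ≠ 0 := by
    intro e
    rw [e, Complex.zero_im] at him
    exact him rfl
  have hun : 0 < ‖u‖ := norm_pos_iff.2 hu0
  have hsl : -u ∈ slitPlane := by
    rw [mem_slitPlane_iff]
    right
    rw [neg_im]
    exact neg_ne_zero.2 him
  have harg : (-u).arg ≠ Real.pi := (mem_slitPlane_iff_arg.1 hsl).1
  have harg1 : (-u).arg < Real.pi := lt_of_le_of_ne (arg_le_pi _) harg
  have harg2 : -Real.pi < (-u).arg := neg_pi_lt_arg _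
  refine ⟨(log (-u) + Real.pi * I) / 2 + c * I, ?_, ?_⟩
  · have hre : ((log (-u) + Real.pi * I) / 2 + c * I).re = Real.log ‖u‖ / 2 := by
      simp [Complex.log_re]
    have him' : ((log (-u) + Real.pi * I) / 2 + c * I).im = ((-u).arg + Real.pi) / 2 + c := by
      simp [Complex.log_im]
    refine ⟨?_, ?_, ?_, ?_⟩
    · rw [hre]
      have h1 : Real.log (r ^ 2) < Real.log ‖u‖ := Real.log_lt_log hr2 hu2
      rw [Real.log_pow] at h1
      push_cast at h1
      linarith
    · rw [hre]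
      have h1 : Real.log ‖u‖ < 0 := Real.log_neg hun hu1
      linarith
    · rw [him']
      linarith
    · rw [him']
      linarith
  · show exp (2 * ((log (-u) + Real.pi * I) / 2 + c * I)) = u
    have h1 : 2 * ((log (-u) + Real.pi * I) / 2 + c * I) =
        log (-u) + Real.pi * I + 2 * (c * I) := by ring
    rw [h1, Complex.exp_add, Complex.exp_add, hc, Complex.exp_log (neg_ne_zero.2 hu0),
      Complex.exp_pi_mul_I]
    ring

private theorem hs_ae {r : ℝ} (h0 : 0 < r) {c : ℝ} (hc : exp (2 * (c * I)) = 1) :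
    (fun ω : ℂ => exp (2 * ω)) '' hs (Real.log r) c =ᵐ[volume]
      (ball 0 1 \ closedBall 0 (r ^ 2) : Set ℂ) := by
  rw [ae_eq_set]
  constructor
  · rw [sdiff_eq_empty.2 (hs_sub h0 c), measure_empty]
  · refine measure_mono_null ?_ (vol_line 0)
    rintro u ⟨hu, hu'⟩
    rcases hs_sup h0 hc hu with h | h
    · exact absurd h hu'
    · exact h

private theorem hasD (ω : ℂ) : HasDerivAt (fun ω : ℂ => exp (2 * ω)) (exp (2 * ω) * 2) ω := by
  have h : HasDerivAt (fun ω : ℂ => 2 * ω) 2 ω := by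
    simpa using (hasDerivAt_id ω).const_mul (2 : ℂ)
  exact h.cexp

private theorem norm_d (ω : ℂ) :
    ‖deriv (fun ω : ℂ => exp (2 * ω)) ω‖ ^ 2 = 4 * ‖exp (2 * ω)‖ ^ 2 := by
  rw [(hasD ω).deriv, norm_mul]
  have : ‖(2 : ℂ)‖ = 2 := by simp
  rw [this]
  ring

private theorem hs_int {F : ℂ → ℝ} {r : ℝ} (h0 : 0 < r)
    (hF : IntegrableOn F (ball 0 1 \ closedBall 0 (r ^ 2))) {c : ℝ}
    (hc : exp (2 * (c * I)) = 1) :
    IntegrableOn (fun ω => F (exp (2 * ω)) * ‖exp (2 * ω)‖ ^ 2) (hs (Real.log r) c) ∧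
    ∫ ω in hs (Real.log r) c, F (exp (2 * ω)) * ‖exp (2 * ω)‖ ^ 2 =
      1 / 4 * ∫ u in ball 0 1 \ closedBall 0 (r ^ 2), F u := by
  have hT := hs_meas (Real.log r) c
  have hd : ∀ u ∈ hs (Real.log r) c, DifferentiableAt ℂ (fun ω : ℂ => exp (2 * ω)) u :=
    fun u _ => (hasD u).differentiableAt
  have hi := hs_inj (Real.log r) c
  have e : ∀ ω : ℂ, F (exp (2 * ω)) * ‖deriv (fun ω : ℂ => exp (2 * ω)) ω‖ ^ 2 =
      4 * (F (exp (2 * ω)) * ‖exp (2 * ω)‖ ^ 2) := by
    intro ω
    rw [norm_d]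
    ring
  constructor
  · have h1 := (cv_integrable hT hd hi F).1 (hF.mono_set (hs_sub h0 c))
    have h2 : IntegrableOn (fun ω => 4 * (F (exp (2 * ω)) * ‖exp (2 * ω)‖ ^ 2))
        (hs (Real.log r) c) := by
      refine h1.congr_fun ?_ hT
      intro ω _
      exact e ω
    have h3 := h2.const_mul (1 / 4 : ℝ)
    refine IntegrableOn.congr_fun h3 ?_ hT
    intro ω _
    show 1 / 4 * (4 * (F (exp (2 * ω)) * ‖exp (2 * ω)‖ ^ 2)) = F (exp (2 * ω)) * ‖exp (2 * ω)‖ ^ 2
    ring
  · have h1 := cv_int hT hd hi F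
    rw [setIntegral_congr_set (hs_ae h0 hc)] at h1
    have h2 : ∫ u in hs (Real.log r) c,
        F (exp (2 * u)) * ‖deriv (fun ω : ℂ => exp (2 * ω)) u‖ ^ 2 =
        4 * ∫ u in hs (Real.log r) c, F (exp (2 * u)) * ‖exp (2 * u)‖ ^ 2 := by
      rw [← integral_const_mul]
      exact integral_congr_ae (Filter.Eventually.of_forall fun ω => e ω)
    have h3 : ∫ u in ball 0 1 \ closedBall 0 (r ^ 2), F u =
        4 * ∫ u in hs (Real.log r) c, F (exp (2 * u)) * ‖exp (2 * u)‖ ^ 2 := h1.trans h2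
    rw [h3]
    ring

private theorem strip_ae (a : ℝ) : strip a 0 =ᵐ[volume] (hs a 0 ∪ hs a Real.pi : Set ℂ) := by
  have hp := Real.pi_pos
  rw [ae_eq_set]
  constructor
  · refine measure_mono_null ?_ (vol_line Real.pi)
    rintro u ⟨hu, hu'⟩
    by_contra hne
    apply hu'
    rcases lt_or_gt_of_ne hne with h | h
    · exact Or.inl ⟨hu.1, hu.2.1, hu.2.2.1, by rw [zero_add]; exact h⟩
    · exact Or.inr ⟨hu.1, hu.2.1, h, by have := hu.2.2.2; linarith⟩
  · have h : (hs a 0 ∪ hs a Real.pi : Set ℂ) ⊆ strip a 0 := by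
      rintro u (hu | hu)
      · exact ⟨hu.1, hu.2.1, hu.2.2.1, by have := hu.2.2.2; linarith⟩
      · exact ⟨hu.1, hu.2.1, by have := hu.2.2.1; linarith, by have := hu.2.2.2; linarith⟩
    rw [sdiff_eq_empty.2 h, measure_empty]

private theorem hs_disj (a : ℝ) : Disjoint (hs a 0) (hs a Real.pi) := by
  rw [Set.disjoint_left]
  intro u hu hu'
  have h1 := hu.2.2.2
  have h2 := hu'.2.2.1
  linarith

private theorem c0 : exp (2 * (((0 : ℝ) : ℂ) * I)) = 1 := by simp

private theorem cpi : exp (2 * (((Real.pi : ℝ) : ℂ) * I)) = 1 := by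
  rw [← mul_assoc]
  exact Complex.exp_two_pi_mul_I

theorem ecoord_integrable {F : ℂ → ℝ} {r : ℝ} (h0 : 0 < r) (h1 : r < 1)
    (hF : IntegrableOn F (ball 0 1 \ closedBall 0 (r ^ 2))) :
    IntegrableOn (fun ω => F (exp (2 * ω)) * ‖exp (2 * ω)‖ ^ 2) (strip (Real.log r) 0) := by
  have hA := (hs_int h0 hF c0).1
  have hB := (hs_int h0 hF cpi).1
  have h := hA.union hB
  exact h.congr_set_ae (strip_ae _)

theorem ecoord {F : ℂ → ℝ} {r : ℝ} (h0 : 0 < r) (h1 : r < 1)
    (hF : IntegrableOn F (ball 0 1 \ closedBall 0 (r ^ 2))) :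
    ∫ ω in strip (Real.log r) 0, F (exp (2 * ω)) * ‖exp (2 * ω)‖ ^ 2 =
      1 / 2 * ∫ u in ball 0 1 \ closedBall 0 (r ^ 2), F u := by
  have hA := hs_int h0 hF c0
  have hB := hs_int h0 hF cpi
  rw [setIntegral_congr_set (strip_ae _), setIntegral_union (hs_disj _) (hs_meas _ _) hA.1 hB.1,
    hA.2, hB.2]
  ring

end Pool.Agent.CRD
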