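import Pool.Agent.CRD.SFac

/-! CRD/Expan.  Expansion of `Ph` at `0`: `z Ph z = h (z²)` with a function `h` analytic at `0`. -/

set_option autoImplicit false

open Complex MeasureTheory Metric Set

namespace Pool.Agent.CRD

open Topology Filter Asymptotics

/-- the inner function under the root -/
private noncomputable def AA (M : ℝ) (k : ℂ → ℂ) (t : ℂ) : ℂ := 1 + 2 * (t * k t ^ 2) / M

private noncomputable def TT (M : ℝ) (k : ℂ → ℂ) (t : ℂ) : ℂ := sq (1 + sq (AA M k t))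

private noncomputable def hh (M : ℝ) (k : ℂ → ℂ) (t : ℂ) : ℂ :=
  TT M k t / (((Real.sqrt (2 / M) : ℝ) : ℂ) * k t) -
    ((Real.sqrt (2 / M) : ℝ) : ℂ) * (t * k t) / TT M k t

private lemma Ph_eq {M : ℝ} {k : ℂ → ℂ} {z : ℂ} (hz : z ≠ 0) : Ph M k z = hh M k (z ^ 2) / z := by
  have e1 : (fh k z) ^ 2 = z ^ 2 * k (z ^ 2) ^ 2 := by
    unfold fh
    ring
  have e2 : sq (1 + Rt M ((fh k z) ^ 2)) = TT M k (z ^ 2) := by
    unfold TT AA Rt
    rw [e1]
  unfold Ph QQ ss hh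
  rw [e2, inv_div]
  unfold fh
  rw [sub_div, div_div]
  have e3 : ((Real.sqrt (2 / M) : ℝ) : ℂ) * (z * k (z ^ 2)) =
      ((Real.sqrt (2 / M) : ℝ) : ℂ) * k (z ^ 2) * z := by ring
  have e4 : ((Real.sqrt (2 / M) : ℝ) : ℂ) * (z * k (z ^ 2)) / TT M k (z ^ 2) =
      ((Real.sqrt (2 / M) : ℝ) : ℂ) * (z ^ 2 * k (z ^ 2)) / TT M k (z ^ 2) / z := by
    field_simp
  rw [e4, e3]

private lemma sq_one' : sq 1 = 1 := sq_unique (by norm_num) (by norm_num)

private lemma slit_of_re {z : ℂ} (h : 0 < z.re) : z ∈ slitPlane := Or.inl h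

private lemma one_add_slit {z : ℂ} (h : z ∈ slitPlane) : 1 + sq z ∈ slitPlane := by
  apply slit_of_re
  have := sq_re_pos h
  rw [add_re, one_re]
  linarith

private lemma sq_ne {z : ℂ} (h : z ∈ slitPlane) : sq z ≠ 0 := by
  intro h0
  have := sq_re_pos h
  rw [h0, zero_re] at this
  exact lt_irrefl _ this

theorem expan {M : ℝ} {f k : ℂ → ℂ} (D : Dat M f k) :
    ∃ C r0 : ℝ, 0 ≤ C ∧ 0 < r0 ∧ r0 < 1 ∧ ∀ z : ℂ, z ≠ 0 → ‖z‖ < r0 →
      ‖Ph M k z - ((Real.sqrt M : ℝ) : ℂ) * (z⁻¹ - (deriv k 0 + 3 / (4 * M)) * z)‖ ≤ C * ‖z‖ ^ 3 := by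
  have hM := D.hM
  have hMc : (M : ℂ) ≠ 0 := by exact_mod_cast hM.ne'
  have m0 : (0 : ℂ) ∈ ball (0 : ℂ) 1 := by simp
  have nb : ball (0 : ℂ) 1 ∈ 𝓝 (0 : ℂ) := isOpen_ball.mem_nhds m0
  -- constants
  set c : ℂ := ((Real.sqrt (2 / M) : ℝ) : ℂ) with hc
  set s2 : ℂ := ((Real.sqrt 2 : ℝ) : ℂ) with hs2
  set sM : ℂ := ((Real.sqrt M : ℝ) : ℂ) with hsM
  have hs2p : 0 < Real.sqrt 2 := Real.sqrt_pos.2 two_pos
  have hsMp : 0 < Real.sqrt M := Real.sqrt_pos.2 hM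
  have hs2n : s2 ≠ 0 := by rw [hs2]; exact_mod_cast hs2p.ne'
  have hsMn : sM ≠ 0 := by rw [hsM]; exact_mod_cast hsMp.ne'
  have hs2s : s2 ^ 2 = 2 := by
    rw [hs2, ← ofReal_pow, Real.sq_sqrt two_pos.le]
    norm_num
  have hsMs : sM ^ 2 = M := by rw [hsM, ← ofReal_pow, Real.sq_sqrt hM.le]
  have hcs : c = s2 / sM := by
    rw [hc, hs2, hsM, ← ofReal_div, Real.sqrt_div two_pos.le]
  have hcn : c ≠ 0 := by rw [hcs]; exact div_ne_zero hs2n hsMn
  have sq2 : sq 2 = s2 := sq_unique hs2s (by rw [hs2, ofReal_re]; exact hs2p)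
  -- differentiability
  set U : Set ℂ := ball (0 : ℂ) 1 ∩ AA M k ⁻¹' slitPlane with hU
  have hAd : DifferentiableOn ℂ (AA M k) (ball 0 1) := by
    unfold AA
    exact (((differentiableOn_id.mul (D.kd.pow 2)).const_mul (2 : ℂ)).div_const _).const_add _
  have hUo : IsOpen U := hAd.continuousOn.isOpen_inter_preimage isOpen_ball isOpen_slitPlane
  have hA0 : AA M k 0 = 1 := by
    unfold AA
    simp
  have hU0 : (0 : ℂ) ∈ U := ⟨m0, by rw [mem_preimage, hA0]; exact slit_of_re (by norm_num)⟩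
  have hsA : ∀ t ∈ U, DifferentiableAt ℂ (fun t => sq (AA M k t)) t := fun t ht =>
    (sq_deriv ht.2).differentiableAt.comp t (hAd.differentiableAt (isOpen_ball.mem_nhds ht.1))
  have hTd : ∀ t ∈ U, DifferentiableAt ℂ (TT M k) t := fun t ht =>
    (sq_deriv (one_add_slit ht.2)).differentiableAt.comp t ((hsA t ht).const_add 1)
  have hTn : ∀ t ∈ U, TT M k t ≠ 0 := fun t ht => sq_ne (one_add_slit ht.2)
  have hkd : ∀ t ∈ U, DifferentiableAt ℂ k t := fun t ht =>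
    D.kd.differentiableAt (isOpen_ball.mem_nhds ht.1)
  have hhd : DifferentiableOn ℂ (hh M k) U := by
    intro t ht
    apply DifferentiableAt.differentiableWithinAt
    unfold hh
    have h1 : c * k t ≠ 0 := mul_ne_zero hcn (D.kne t ht.1)
    exact ((hTd t ht).div ((hkd t ht).const_mul c) h1).sub
      (((differentiableAt_id.mul (hkd t ht)).const_mul c).div (hTd t ht) (hTn t ht))
  -- the derivative at the origin
  have hk' : HasDerivAt k (deriv k 0) 0 := (D.kd.differentiableAt nb).hasDerivAt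
  have hA' : HasDerivAt (AA M k) (2 / M) 0 := by
    have h1 := ((((hasDerivAt_id (0 : ℂ)).mul (hk'.pow 2)).const_mul (2 : ℂ)).div_const
      (M : ℂ)).const_add (1 : ℂ)
    refine h1.congr_deriv ?_
    simp [D.k0]
  have hsA' : HasDerivAt (fun t => sq (AA M k t)) (1 / M) 0 := by
    have h1 := (sq_deriv (show AA M k 0 ∈ slitPlane from hU0.2)).comp (0 : ℂ) hA'
    refine h1.congr_deriv ?_
    rw [hA0, sq_one']
    field_simp
  have hT0 : TT M k 0 = s2 := by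
    unfold TT
    rw [hA0, sq_one', show (1 : ℂ) + 1 = 2 by norm_num, sq2]
  have hT' : HasDerivAt (TT M k) (1 / (2 * s2 * M)) 0 := by
    have h1 := (sq_deriv (one_add_slit (show AA M k 0 ∈ slitPlane from hU0.2))).comp (0 : ℂ)
      (hsA'.const_add (1 : ℂ))
    refine h1.congr_deriv ?_
    rw [hA0, sq_one', show (1 : ℂ) + 1 = 2 by norm_num, sq2]
    field_simp
  have hh0 : hh M k 0 = sM := by
    unfold hh
    rw [hT0, D.k0, ← hc, hcs]
    field_simp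
    ring
  have hh' : deriv (hh M k) 0 = -(sM * (deriv k 0 + 3 / (4 * M))) := by
    have n1 : c * k 0 ≠ 0 := mul_ne_zero hcn (D.kne 0 m0)
    have h1 : HasDerivAt (hh M k) _ 0 := (hT'.div (hk'.const_mul c) n1).sub
      ((((hasDerivAt_id (0 : ℂ)).mul hk').const_mul c).div hT' (hTn 0 hU0))
    rw [h1.deriv, hT0, D.k0, hcs]
    have e4 : (M : ℂ) = sM ^ 2 := hsMs.symm
    simp only [id_eq, Pi.mul_apply, zero_mul]
    rw [e4]
    have e5 : s2 ^ 2 = 2 := hs2s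
    field_simp
    ring_nf
    simp only [e5]
    ring
  -- the remainder
  have hds : DifferentiableOn ℂ (dslope (hh M k) 0) U :=
    (Complex.differentiableOn_dslope (hUo.mem_nhds hU0)).2 hhd
  have hO := (hds.differentiableAt (hUo.mem_nhds hU0)).isBigO_sub
  obtain ⟨C, hC⟩ := hO.bound
  obtain ⟨ε, hε, hεC⟩ := Metric.eventually_nhds_iff.1 hC
  refine ⟨max C 0, min (1 / 2) ε, le_max_right _ _, lt_min (by norm_num) hε,
    (min_le_left _ _).trans_lt (by norm_num), ?_⟩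
  intro z hz hzr
  have hz1 : ‖z‖ < 1 / 2 := hzr.trans_le (min_le_left _ _)
  have hz2 : ‖z‖ < ε := hzr.trans_le (min_le_right _ _)
  have hzp : 0 < ‖z‖ := norm_pos_iff.2 hz
  have ht : dist (z ^ 2) 0 < ε := by
    rw [dist_zero_right, norm_pow]
    nlinarith
  have h1 := hεC ht
  rw [dslope_same, hh', sub_zero, norm_pow] at h1
  have h2 := sub_smul_dslope (hh M k) 0 (z ^ 2)
  rw [sub_zero, smul_eq_mul, hh0] at h2
  have h3 : Ph M k z - sM * (z⁻¹ - (deriv k 0 + 3 / (4 * M)) * z) =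
      z ^ 2 * (dslope (hh M k) 0 (z ^ 2) - -(sM * (deriv k 0 + 3 / (4 * M)))) / z := by
    have h4 : hh M k (z ^ 2) = z ^ 2 * dslope (hh M k) 0 (z ^ 2) + sM := by rw [h2]; ring
    rw [Ph_eq hz, h4]
    field_simp
    ring
  rw [h3, norm_div, norm_mul, norm_pow, div_le_iff₀ hzp]
  calc ‖z‖ ^ 2 * ‖dslope (hh M k) 0 (z ^ 2) - -(sM * (deriv k 0 + 3 / (4 * M)))‖
      ≤ ‖z‖ ^ 2 * (C * ‖z‖ ^ 2) := mul_le_mul_of_nonneg_left h1 (by positivity)
    _ = C * ‖z‖ ^ 4 := by ring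
    _ ≤ max C 0 * ‖z‖ ^ 4 := mul_le_mul_of_nonneg_right (le_max_left _ _) (by positivity)
    _ = max C 0 * ‖z‖ ^ 3 * ‖z‖ := by ring

end Pool.Agent.CRD
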