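import Pool.Agent.CRD.Defs
import Pool.Agent.Helper59.PolarAvg

/-! CRD/ParA.  The elementary area bound (small areas).

With `g = deriv f`, `b = g' (0)`: on the circle of radius `r < 1` one has
`‖g z‖² ≥ 2 Re (g z conj (1 + b z)) - ‖1 + b z‖² = Re H`, `H = 2 g + 2 conj b r² (g - g 0) / z - 1 - ‖b‖² r²` analytic,
`H 0 = 1 + ‖b‖² r²`; integrate in polar coordinates (`Helper59.PolarAvg`). -/

set_option autoImplicit false

open Complex MeasureTheory Metric Set

namespace Pool.Agent.CRD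

private theorem pa_pt (w b z : ℂ) (r : ℝ) (hz : ‖z‖ = r) (hr : 0 < r) :
    (2 * w + 2 * (starRingEnd ℂ) b * (r : ℂ) ^ 2 * ((w - 1) / z) - 1 - ((‖b‖ ^ 2 * r ^ 2 : ℝ) : ℂ)).re
      ≤ ‖w‖ ^ 2 := by
  have hz0 : z ≠ 0 := by
    intro h
    rw [h, norm_zero] at hz
    exact hr.ne hz
  have h1 : (r : ℂ) ^ 2 = z * (starRingEnd ℂ) z := by
    rw [Complex.mul_conj, Complex.normSq_eq_norm_sq, hz]
    push_cast
    ring
  have h2 : 2 * (starRingEnd ℂ) b * (r : ℂ) ^ 2 * ((w - 1) / z) =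
      2 * (starRingEnd ℂ) b * (starRingEnd ℂ) z * (w - 1) := by
    rw [h1]
    field_simp
  rw [h2]
  have h3 : 0 ≤ Complex.normSq (w - (1 + b * z)) := Complex.normSq_nonneg _
  have h4 : ‖b‖ ^ 2 * r ^ 2 = Complex.normSq b * Complex.normSq z := by
    rw [Complex.normSq_eq_norm_sq, Complex.normSq_eq_norm_sq, hz]
  have h5 : ‖w‖ ^ 2 = Complex.normSq w := (Complex.normSq_eq_norm_sq w).symm
  rw [h4, h5]
  simp only [Complex.normSq_apply, Complex.sub_re, Complex.sub_im, Complex.add_re, Complex.add_im,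
    Complex.mul_re, Complex.mul_im, Complex.one_re, Complex.one_im, Complex.conj_re, Complex.conj_im,
    Complex.ofReal_re, Complex.re_ofNat, Complex.im_ofNat] at h3 ⊢
  nlinarith [h3]

private theorem pa_circ {g : ℂ → ℂ} (hg : DifferentiableOn ℂ g (ball 0 1)) (h1 : g 0 = 1) {r : ℝ}
    (hr0 : 0 < r) (hr1 : r < 1) :
    1 + ‖deriv g 0‖ ^ 2 * r ^ 2 ≤ Real.circleAverage (fun z => ‖g z‖ ^ 2) 0 r := by
  set b := deriv g 0 with hb
  set H : ℂ → ℂ := fun z => 2 * g z + 2 * (starRingEnd ℂ) b * (r : ℂ) ^ 2 * dslope g 0 z - 1 -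
    ((‖b‖ ^ 2 * r ^ 2 : ℝ) : ℂ) with hH
  have hD : DifferentiableOn ℂ (dslope g 0) (ball 0 1) :=
    (Complex.differentiableOn_dslope (ball_mem_nhds 0 one_pos)).2 hg
  have hHd : DifferentiableOn ℂ H (ball 0 1) :=
    (((hg.const_mul 2).add (hD.const_mul _)).sub_const _).sub_const _
  have hsub : closedBall (0 : ℂ) r ⊆ ball 0 1 := closedBall_subset_ball hr1
  have hsp : sphere (0 : ℂ) |r| ⊆ ball 0 1 := by
    rw [abs_of_pos hr0]
    exact sphere_subset_ball hr1
  have hHc : DiffContOnCl ℂ H (ball 0 |r|) := by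
    rw [abs_of_pos hr0]
    exact hHd.diffContOnCl_ball hsub
  have hav := hHc.circleAverage
  have hre : Real.circleAverage (fun z => (H z).re) 0 r = (H 0).re := by
    have h := ContinuousLinearMap.circleAverage_comp_comm Complex.reCLM
      (f := H) (c := 0) (R := r) ((hHd.continuousOn.mono hsp).circleIntegrable')
    have h' : Real.circleAverage (fun z => (H z).re) 0 r = Complex.reCLM (Real.circleAverage H 0 r) := h
    rw [h', hav]
    rfl
  have hH0 : (H 0).re = 1 + ‖b‖ ^ 2 * r ^ 2 := by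
    have e1 : H 0 = ((1 + ‖b‖ ^ 2 * r ^ 2 : ℝ) : ℂ) := by
      simp only [hH]
      rw [dslope_same, h1, ← hb]
      have e2 : (starRingEnd ℂ) b * b = ((‖b‖ ^ 2 : ℝ) : ℂ) := by
        rw [mul_comm, Complex.mul_conj, Complex.normSq_eq_norm_sq]
      push_cast at e2 ⊢
      linear_combination 2 * (r : ℂ) ^ 2 * e2
    rw [e1, Complex.ofReal_re]
  rw [← hH0, ← hre]
  apply Real.circleAverage_mono
  · apply ContinuousOn.circleIntegrable'
    exact Complex.continuous_re.comp_continuousOn (hHd.continuousOn.mono hsp)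
  · apply ContinuousOn.circleIntegrable'
    exact (hg.continuousOn.mono hsp).norm.pow 2
  · intro z hz
    rw [abs_of_pos hr0, mem_sphere_zero_iff_norm] at hz
    have hz0 : z ≠ 0 := by
      intro h
      rw [h, norm_zero] at hz
      exact hr0.ne hz
    have e1 : dslope g 0 z = (g z - 1) / z := by
      rw [dslope_of_ne _ hz0, slope_def_field, h1, sub_zero]
    have := pa_pt (g z) b z r hz hr0
    simp only [hH]
    rw [e1]
    exact this

theorem area_lower {f : ℂ → ℂ} (hf : DifferentiableOn ℂ f (ball 0 1)) (h1 : deriv f 0 = 1)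
    (hA : IntegrableOn (fun u => ‖deriv f u‖ ^ 2) (ball 0 1)) :
    Real.pi * (1 + 2 * ‖deriv (deriv f) 0 / 2‖ ^ 2) ≤ Ar f := by
  have hg : DifferentiableOn ℂ (deriv f) (ball 0 1) := hf.deriv isOpen_ball
  have hAr0 : 0 ≤ Ar f := by
    unfold Ar
    exact integral_nonneg fun u => by positivity
  have hpol := Helper59.Hardy.polar_avg (G := fun u => ‖deriv f u‖ ^ 2) (w := 0) (R := 1)
    (hg.continuousOn.norm.pow 2) (fun z _ => by positivity)
  have hL : ∫⁻ z in ball (0 : ℂ) 1, ENNReal.ofReal (‖deriv f z‖ ^ 2) = ENNReal.ofReal (Ar f) := by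
    unfold Ar
    rw [ofReal_integral_eq_lintegral_ofReal hA]
    exact Filter.Eventually.of_forall fun u => by positivity
  rw [hL] at hpol
  set B := ‖deriv (deriv f) 0‖ ^ 2 with hB
  have hB0 : 0 ≤ B := by positivity
  have hlow : ∫⁻ r in Ioo (0 : ℝ) 1, ENNReal.ofReal (2 * Real.pi * r * (1 + B * r ^ 2)) ≤
      ENNReal.ofReal (Ar f) := by
    rw [hpol]
    apply setLIntegral_mono' measurableSet_Ioo
    intro r hr
    apply ENNReal.ofReal_le_ofReal
    have h2 := pa_circ hg h1 hr.1 hr.2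
    have h3 : 0 ≤ 2 * Real.pi * r := by
      have := hr.1
      positivity
    exact mul_le_mul_of_nonneg_left h2 h3
  have hcont : Continuous fun r : ℝ => 2 * Real.pi * r * (1 + B * r ^ 2) := by fun_prop
  have hint : IntegrableOn (fun r : ℝ => 2 * Real.pi * r * (1 + B * r ^ 2)) (Ioo 0 1) :=
    (hcont.integrableOn_Icc).mono_set Ioo_subset_Icc_self
  have hval : ∫ r in Ioo (0 : ℝ) 1, (2 * Real.pi * r * (1 + B * r ^ 2)) =
      Real.pi * (1 + 2 * ‖deriv (deriv f) 0 / 2‖ ^ 2) := by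
    rw [← integral_Ioc_eq_integral_Ioo, ← intervalIntegral.integral_of_le zero_le_one]
    have e1 : ∀ r ∈ uIcc (0 : ℝ) 1, HasDerivAt (fun r : ℝ => Real.pi * r ^ 2 + Real.pi * B / 2 * r ^ 4)
        (2 * Real.pi * r * (1 + B * r ^ 2)) r := by
      intro r _
      have h1 := ((hasDerivAt_pow 2 r).const_mul Real.pi).add
        ((hasDerivAt_pow 4 r).const_mul (Real.pi * B / 2))
      refine h1.congr_deriv ?_
      push_cast
      ring
    rw [intervalIntegral.integral_eq_sub_of_hasDerivAt e1 (hcont.intervalIntegrable 0 1)]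
    rw [norm_div, div_pow, ← hB]
    have e2 : ‖(2 : ℂ)‖ = 2 := by simp
    rw [e2]
    ring
  have hge : ENNReal.ofReal (Real.pi * (1 + 2 * ‖deriv (deriv f) 0 / 2‖ ^ 2)) ≤
      ENNReal.ofReal (Ar f) := by
    rw [← hval, ofReal_integral_eq_lintegral_ofReal hint]
    · exact hlow
    · refine (ae_restrict_iff' measurableSet_Ioo).2 (Filter.Eventually.of_forall fun r hr => ?_)
      have := hr.1
      show 0 ≤ 2 * Real.pi * r * (1 + B * r ^ 2)
      positivity
  exact (ENNReal.ofReal_le_ofReal_iff hAr0).1 hge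

end Pool.Agent.CRD
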