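import Pool.Agent.CRD.Defs

/-! CRD/ParB.  The extremal functions for small areas.

PLAN.  `quad`: `f u = u + a u²`, univalent since `‖a (u+v)‖ < 1`, `∫ ‖1 + 2 a u‖² = π + 2 π a²` (replace `u` by `-u` and average; `∫_{ball 0 1} ‖u‖² = π/2`). -/

set_option autoImplicit false

open Complex MeasureTheory Metric Set

namespace Pool.Agent.CRD

private theorem pb_re : ∫ u in ball (0 : ℂ) 1, u.re = 0 := by
  set g : ℂ → ℝ := (ball (0 : ℂ) 1).indicator (fun u => u.re) with hg
  have e1 : ∫ u in ball (0 : ℂ) 1, u.re = ∫ u, g u := (integral_indicator measurableSet_ball).symm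
  have e2 : ∫ u, g (-u) = ∫ u, g u := integral_neg_eq_self g volume
  have e3 : ∀ u, g (-u) = -g u := by
    intro u
    by_cases h : u ∈ ball (0 : ℂ) 1
    · have h' : -u ∈ ball (0 : ℂ) 1 := by
        rw [mem_ball_zero_iff] at h ⊢
        rwa [norm_neg]
      rw [hg, indicator_of_mem h', indicator_of_mem h, Complex.neg_re]
    · have h' : -u ∉ ball (0 : ℂ) 1 := by
        rw [mem_ball_zero_iff] at h ⊢
        rwa [norm_neg]
      rw [hg, indicator_of_notMem h', indicator_of_notMem h, neg_zero]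
  have e4 : ∫ u, g (-u) = -∫ u, g u := by
    rw [← integral_neg]
    exact integral_congr_ae (Filter.Eventually.of_forall e3)
  rw [e1]
  linarith [e2, e4]

private theorem pb_sq : ∫ u in ball (0 : ℂ) 1, ‖u‖ ^ 2 = Real.pi / 2 := by
  set f : ℝ → ℝ := (Iio (1 : ℝ)).indicator (fun y => y ^ 2) with hf
  have e1 : ∫ u in ball (0 : ℂ) 1, ‖u‖ ^ 2 = ∫ u : ℂ, f ‖u‖ := by
    rw [← integral_indicator measurableSet_ball]
    apply integral_congr_ae
    refine Filter.Eventually.of_forall (fun u => ?_)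
    change (ball (0 : ℂ) 1).indicator (fun u => ‖u‖ ^ 2) u = f ‖u‖
    by_cases h : u ∈ ball (0 : ℂ) 1
    · have h' : ‖u‖ ∈ Iio (1 : ℝ) := mem_ball_zero_iff.1 h
      rw [hf, indicator_of_mem h, indicator_of_mem h']
    · have h' : ‖u‖ ∉ Iio (1 : ℝ) := fun h2 => h (mem_ball_zero_iff.2 h2)
      rw [hf, indicator_of_notMem h, indicator_of_notMem h']
  rw [e1, integral_fun_norm_addHaar, Complex.finrank_real_complex]
  have hv : (volume : Measure ℂ).real (ball 0 1) = Real.pi := by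
    rw [Measure.real, Complex.volume_ball]
    simp
  rw [hv]
  have e2 : ∫ y in Ioi (0 : ℝ), y ^ (2 - 1) • f y = ∫ y in Ioo (0 : ℝ) 1, y ^ 3 := by
    have e3 : ∀ y ∈ Ioi (0 : ℝ), y ^ (2 - 1) • f y = (Iio (1 : ℝ)).indicator (fun y => y ^ 3) y := by
      intro y _
      by_cases h : y ∈ Iio (1 : ℝ)
      · rw [hf, indicator_of_mem h, indicator_of_mem h, smul_eq_mul]
        ring
      · rw [hf, indicator_of_notMem h, indicator_of_notMem h, smul_zero]
    rw [setIntegral_congr_fun measurableSet_Ioi e3, setIntegral_indicator measurableSet_Iio]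
    rfl
  rw [e2, ← integral_Ioc_eq_integral_Ioo, ← intervalIntegral.integral_of_le zero_le_one, integral_pow]
  simp only [nsmul_eq_mul, smul_eq_mul]
  norm_num
  ring

theorem quad {a : ℝ} (h0 : 0 ≤ a) (h1 : a ≤ 1 / 2) :
    ∃ f : ℂ → ℂ, DifferentiableOn ℂ f (ball 0 1) ∧ InjOn f (ball 0 1) ∧ f 0 = 0 ∧ deriv f 0 = 1 ∧
      deriv (deriv f) 0 / 2 = a ∧ IntegrableOn (fun u => ‖deriv f u‖ ^ 2) (ball 0 1) ∧
      Ar f = Real.pi * (1 + 2 * a ^ 2) := by
  set f : ℂ → ℂ := fun u => u + (a : ℂ) * u ^ 2 with hf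
  have hd : ∀ u, HasDerivAt f (1 + 2 * (a : ℂ) * u) u := by
    intro u
    have h2 : HasDerivAt (fun u : ℂ => u + (a : ℂ) * u ^ 2) (1 + (a : ℂ) * ((2 : ℕ) * u ^ (2 - 1))) u :=
      (hasDerivAt_id' u).add ((hasDerivAt_pow 2 u).const_mul (a : ℂ))
    have h3 : (1 + (a : ℂ) * (((2 : ℕ) : ℂ) * u ^ (2 - 1))) = 1 + 2 * (a : ℂ) * u := by
      push_cast
      ring
    rw [h3] at h2
    exact h2
  have hdf : deriv f = fun u => 1 + 2 * (a : ℂ) * u := by
    funext u
    exact (hd u).deriv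
  have hcont : Continuous (fun u : ℂ => ‖deriv f u‖ ^ 2) := by
    rw [hdf]
    fun_prop
  have hint : ∀ F : ℂ → ℝ, Continuous F → IntegrableOn F (ball (0 : ℂ) 1) := by
    intro F hF
    exact (hF.continuousOn.integrableOn_compact (isCompact_closedBall (0 : ℂ) 1)).mono_set
      ball_subset_closedBall
  refine ⟨f, ?_, ?_, ?_, ?_, ?_, hint _ hcont, ?_⟩
  · intro u _
    exact (hd u).differentiableAt.differentiableWithinAt
  · intro u hu v hv huv
    rw [mem_ball_zero_iff] at hu hv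
    have h4 : (u - v) * (1 + (a : ℂ) * (u + v)) = 0 := by
      have h5 : u + (a : ℂ) * u ^ 2 = v + (a : ℂ) * v ^ 2 := huv
      linear_combination h5
    rcases mul_eq_zero.1 h4 with h5 | h5
    · exact sub_eq_zero.1 h5
    · exfalso
      have h6 : (a : ℂ) * (u + v) = -1 := by linear_combination h5
      have h7 : ‖(a : ℂ) * (u + v)‖ = 1 := by
        rw [h6, norm_neg, norm_one]
      rw [norm_mul, Complex.norm_of_nonneg h0] at h7
      have h8 : ‖u + v‖ < 2 := by
        calc ‖u + v‖ ≤ ‖u‖ + ‖v‖ := norm_add_le _ _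
          _ < 2 := by linarith
      have h9 : 0 ≤ ‖u + v‖ := norm_nonneg _
      nlinarith
  · simp [hf]
  · rw [hdf]
    simp
  · rw [hdf]
    have h10 : HasDerivAt (fun u : ℂ => 1 + 2 * (a : ℂ) * u) (2 * (a : ℂ)) 0 := by
      have := ((hasDerivAt_id' (0 : ℂ)).const_mul (2 * (a : ℂ))).const_add 1
      rwa [mul_one] at this
    rw [h10.deriv]
    ring
  · rw [Ar]
    have e1 : ∀ u : ℂ, ‖deriv f u‖ ^ 2 = 1 + 4 * a * u.re + 4 * a ^ 2 * ‖u‖ ^ 2 := by
      intro u
      rw [hdf, ← Complex.normSq_eq_norm_sq, ← Complex.normSq_eq_norm_sq, Complex.normSq_apply,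
        Complex.normSq_apply]
      simp only [Complex.add_re, Complex.add_im, Complex.mul_re, Complex.mul_im, Complex.one_re,
        Complex.one_im, Complex.ofReal_re, Complex.ofReal_im, Complex.re_ofNat, Complex.im_ofNat]
      ring
    have e2 : ∫ u in ball (0 : ℂ) 1, ‖deriv f u‖ ^ 2 =
        ∫ u in ball (0 : ℂ) 1, (1 + 4 * a * u.re + 4 * a ^ 2 * ‖u‖ ^ 2) :=
      setIntegral_congr_fun measurableSet_ball (fun u _ => e1 u)
    rw [e2, integral_add, integral_add, integral_const_mul, integral_const_mul, pb_re, pb_sq,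
      setIntegral_const, Measure.real, Complex.volume_ball]
    · simp
      ring
    · exact hint _ continuous_const
    · exact hint _ (by fun_prop)
    · exact hint _ (by fun_prop)
    · exact hint _ (by fun_prop)

end Pool.Agent.CRD
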