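import Pool.Agent.CRD.Smal
import Pool.Agent.CRD.Vol

/-! CRD/Stab.  Stability: lower bound of the remainder by the area of the missing part of the cardioid. -/

set_option autoImplicit false

open Complex MeasureTheory Metric Set Real

namespace Pool.Agent.CRD

variable {M : ℝ} {f k : ℂ → ℂ}

private theorem stab_poly {x t : ℝ} (hx0 : 0 < x) (hx1 : x ≤ 1) (h : x ^ 3 * (1 + t) = 1) :
    3 / 2 - x ^ 2 - x ^ 4 / 2 ≤ 3 / 2 * t := by
  have h3 : 0 < x ^ 3 := by positivity
  have h31 : x ^ 3 ≤ 1 := pow_le_one₀ hx0.le hx1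
  have ht : 1 - x ^ 3 ≤ t := by
    have e : x ^ 3 * t = 1 - x ^ 3 := by linarith
    have ht0 : 0 ≤ t := by
      by_contra hc
      push Not at hc
      have : x ^ 3 * t < 0 := mul_neg_of_pos_of_neg h3 hc
      linarith
    have : x ^ 3 * t ≤ 1 * t := mul_le_mul_of_nonneg_right h31 ht0
    linarith
  have h4 : 0 ≤ x ^ 2 * ((1 - x) * (1 - x / 2)) := by
    apply mul_nonneg (by positivity)
    apply mul_nonneg <;> linarith
  nlinarith [h4, ht]

theorem level (hM : 0 < M) {t : ℝ} (ht : 0 ≤ t) :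
    volume {w | w ∈ Cd M ∧ rho M w < 1 + t} ≤ ENNReal.ofReal (3 * π / 2 * M ^ 2 * t) := by
  obtain ⟨x, hx0, hx1, hx3⟩ : ∃ x : ℝ, 0 < x ∧ x ≤ 1 ∧ x ^ 3 * (1 + t) = 1 := by
    have h1 : 0 < 1 + t := by linarith
    refine ⟨(1 + t) ^ (-(1 / 3) : ℝ), Real.rpow_pos_of_pos h1 _,
      Real.rpow_le_one_of_one_le_of_nonpos (by linarith) (by norm_num), ?_⟩
    rw [← Real.rpow_natCast, ← Real.rpow_mul h1.le]
    have e : (-(1 / 3) * ((3 : ℕ) : ℝ) : ℝ) = -1 := by norm_num
    rw [e, Real.rpow_neg_one, inv_mul_cancel₀ h1.ne']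
  have hsub : {w | w ∈ Cd M ∧ rho M w < 1 + t} ⊆ {0} ∪
      ((fun η : ℂ => (M : ℂ) * (η + η ^ 2 / 2)) '' {η : ℂ | x < ‖η‖ ∧ ‖η‖ < 1}) := by
    rintro w ⟨hw, hr⟩
    by_cases h0 : w = 0
    · exact Or.inl h0
    · right
      refine ⟨et M w, ⟨?_, (mem_Cd hM w).1 hw⟩, et_eq hM w⟩
      have hne : et M w ≠ 0 := fun h => h0 ((et_zero_iff hM w).1 h)
      have hp : 0 < ‖et M w‖ := norm_pos_iff.2 hne
      by_contra hc
      push Not at hc
      have h3 : ‖et M w‖ ^ 3 ≤ x ^ 3 := pow_le_pow_left₀ hp.le hc 3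
      have hp3 : 0 < ‖et M w‖ ^ 3 := by positivity
      rw [rho] at hr
      have h4 : 1 + t ≤ (‖et M w‖ ^ 3)⁻¹ := by
        rw [le_inv_comm₀ (by linarith) hp3]
        have e : x ^ 3 = (1 + t)⁻¹ := eq_inv_of_mul_eq_one_left hx3
        rw [← e]
        exact h3
      linarith
  calc volume {w | w ∈ Cd M ∧ rho M w < 1 + t}
      ≤ volume ({0} ∪
      ((fun η : ℂ => (M : ℂ) * (η + η ^ 2 / 2)) '' {η : ℂ | x < ‖η‖ ∧ ‖η‖ < 1})) :=
        measure_mono hsub
    _ ≤ volume ({0} : Set ℂ) +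
      volume ((fun η : ℂ => (M : ℂ) * (η + η ^ 2 / 2)) '' {η : ℂ | x < ‖η‖ ∧ ‖η‖ < 1}) :=
        measure_union_le _ _
    _ = ENNReal.ofReal (π * M ^ 2 * (3 / 2 - x ^ 2 - x ^ 4 / 2)) := by
        rw [vol_ring hM hx0.le hx1, measure_singleton, zero_add]
    _ ≤ ENNReal.ofReal (3 * π / 2 * M ^ 2 * t) := by
        apply ENNReal.ofReal_le_ofReal
        have h := stab_poly hx0 hx1 hx3
        have h2 : 0 ≤ π * M ^ 2 := by positivity
        have h3 := mul_le_mul_of_nonneg_left h h2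
        linarith

theorem image_open (D : Dat M f k) : IsOpen (f '' ball 0 1) := by
  have hA : AnalyticOnNhd ℂ f (ball 0 1) := (f_diff D).analyticOnNhd isOpen_ball
  rcases hA.is_constant_or_isOpen (convex_ball (0 : ℂ) 1).isPreconnected with ⟨w, hw⟩ | h
  · exfalso
    have h1 : HasDerivAt f 0 0 := by
      apply (hasDerivAt_const (0 : ℂ) w).congr_of_eventuallyEq
      filter_upwards [ball_mem_nhds (0 : ℂ) one_pos] with z hz
      exact hw z hz
    exact one_ne_zero ((f_deriv0 D).unique h1)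
  · exact h _ (Subset.refl _) isOpen_ball

theorem stab (D : Dat M f k) :
    volume.real (Cd M \ f '' ball 0 1) ^ 2 / (4 * (3 * π / 2 * M ^ 2)) ≤ Rem M f := by
  have hM := D.hM
  set E : Set ℂ := Cd M \ f '' ball 0 1 with hE
  set A : ℝ := 3 * π / 2 * M ^ 2 with hA
  set V : ℝ := volume.real E with hV
  have hApos : 0 < A := by positivity
  have hVnn : 0 ≤ V := measureReal_nonneg
  have hop := image_open D
  have hEm : MeasurableSet E := (isOpen_Cd hM).measurableSet.diff hop.measurableSet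
  have h0E : (0 : ℂ) ∉ E := fun h => h.2 ⟨0, by simp, f_zero D⟩
  have hnhds : f '' ball 0 1 ∈ nhds (0 : ℂ) :=
    hop.mem_nhds ⟨0, by simp, f_zero D⟩
  have hCdfin : volume (Cd M) ≠ ⊤ := by
    rw [vol_Cd hM]
    exact ENNReal.ofReal_ne_top
  have hEfin : volume E ≠ ⊤ := measure_ne_top_of_subset sdiff_subset hCdfin
  have hrint : IntegrableOn (rho M) E := rho_int hM hop.measurableSet hnhds
  have hcint : ∀ c : ℝ, IntegrableOn (fun _ : ℂ => c) E := fun c =>
    integrableOn_const hEfin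
  have hint : IntegrableOn (fun w => rho M w - 1) E := hrint.sub (hcint 1)
  have hnn : ∀ w ∈ E, 0 ≤ rho M w - 1 := by
    intro w hw
    have hw0 : w ≠ 0 := fun h => h0E (h ▸ hw)
    have := rho_ge hM hw.1 hw0
    linarith
  -- the second integral
  have hsecond : 0 ≤ ∫ u in ball (0 : ℂ) 1 ∩ f ⁻¹' (Cd M)ᶜ,
      (1 - rho M (f u)) * ‖deriv f u‖ ^ 2 := by
    have hms : MeasurableSet (ball (0 : ℂ) 1 ∩ f ⁻¹' (Cd M)ᶜ) := by
      have h1 : IsOpen (ball (0 : ℂ) 1 ∩ f ⁻¹' (Cd M)) :=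
        (f_diff D).continuousOn.isOpen_inter_preimage isOpen_ball (isOpen_Cd hM)
      have h2 : ball (0 : ℂ) 1 ∩ f ⁻¹' (Cd M)ᶜ = ball (0 : ℂ) 1 \ (ball (0 : ℂ) 1 ∩ f ⁻¹' (Cd M)) := by
        ext u
        simp only [mem_inter_iff, mem_preimage, mem_compl_iff, mem_sdiff, not_and]
        constructor
        · rintro ⟨h1, h2⟩
          exact ⟨h1, fun _ => h2⟩
        · rintro ⟨h1, h2⟩
          exact ⟨h1, h2 h1⟩
      rw [h2]
      exact isOpen_ball.measurableSet.diff h1.measurableSet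
    apply setIntegral_nonneg hms
    rintro u ⟨-, hu⟩
    have := rho_le hM hu
    apply mul_nonneg (by linarith) (by positivity)
  set t : ℝ := V / (2 * A) with ht
  have ht0 : 0 ≤ t := by positivity
  set T : Set ℂ := {w | rho M w < 1 + t} with hT
  have hTm : MeasurableSet T := measurableSet_lt measurable_rho measurable_const
  have hlev : volume.real (E ∩ T) ≤ A * t := by
    have h1 : volume (E ∩ T) ≤ ENNReal.ofReal (3 * π / 2 * M ^ 2 * t) := by
      refine (measure_mono ?_).trans (level hM ht0)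
      rintro w ⟨hw1, hw2⟩
      exact ⟨hw1.1, hw2⟩
    rw [Measure.real]
    exact ENNReal.toReal_le_of_le_ofReal (by positivity) h1
  have hsum : volume.real (E ∩ T) + volume.real (E \ T) = V :=
    measureReal_inter_add_sdiff hTm hEfin
  have h1 : ∫ w in E \ T, (rho M w - 1) ≤ ∫ w in E, (rho M w - 1) := by
    apply setIntegral_mono_set hint
    · rw [Filter.EventuallyLE, ae_restrict_iff' hEm]
      exact Filter.Eventually.of_forall fun w hw => hnn w hw
    · exact (LE.le.eventuallyLE sdiff_subset)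
  have hETfin : volume (E \ T) ≠ ⊤ := measure_ne_top_of_subset sdiff_subset hEfin
  have h2 : volume.real (E \ T) * t ≤ ∫ w in E \ T, (rho M w - 1) := by
    have e : ∫ _ in E \ T, t = volume.real (E \ T) * t := by
      rw [setIntegral_const, smul_eq_mul]
    rw [← e]
    apply setIntegral_mono_on (integrableOn_const hETfin) (hint.mono_set sdiff_subset)
      (hEm.diff hTm)
    intro w hw
    have : ¬ rho M w < 1 + t := hw.2
    push Not at this
    linarith
  have h3 : (V - A * t) * t ≤ ∫ w in E, (rho M w - 1) := by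
    have h4 : V - A * t ≤ volume.real (E \ T) := by linarith
    have h5 := mul_le_mul_of_nonneg_right h4 ht0
    linarith
  have h6 : (V - A * t) * t = V ^ 2 / (4 * A) := by
    rw [ht]
    field_simp
    ring
  rw [h6] at h3
  rw [Rem]
  linarith

end Pool.Agent.CRD
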