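import Pool.Agent.CRD.Disc
import Pool.Agent.CRD.Stab

/-! # CRD/StabF: stability of the sharp inequality

`stab_disc`: `(2 - |a₂|) sqrt A ≥ c* (1 + β²/8)`, `β = vol (Cd M \ F (D)) / A`, for the class of functions which are univalent over the disc
`|w|² < 3A/(2π)`; `stab_S`: `(2 - |a₂|) sqrt A ≥ c* (1 + α²/32)`, `α = vol (f (D) ∆ rotated cardioid) / A`, for univalent functions.
Here `c* = (3/2) sqrt (3π/2)`, `M = sqrt (2A/(3π))`, so that the cardioid `Cd M` has the area `A`. -/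

set_option autoImplicit false

open Complex MeasureTheory Metric Set

namespace Pool.Agent.CRD

private theorem stf_alg {A M b d x : ℝ} (hM : 0 < M) (hA : A = 3 * Real.pi / 2 * M ^ 2)
    (h1 : b ^ 2 / (4 * (3 * Real.pi / 2 * M ^ 2)) ≤ x) (h2 : 3 / (2 * M) + x / (2 * Real.pi * M ^ 3) ≤ d) :
    3 / 2 * Real.sqrt (3 * Real.pi / 2) * (1 + (b / A) ^ 2 / 8) ≤ d * Real.sqrt A := by
  have hπ : 0 < Real.pi := Real.pi_pos
  have h3 : Real.sqrt A = Real.sqrt (3 * Real.pi / 2) * M := by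
    rw [hA, Real.sqrt_mul (by positivity), Real.sqrt_sq hM.le]
  have h4 : 3 / (2 * M) + b ^ 2 / (4 * (3 * Real.pi / 2 * M ^ 2)) / (2 * Real.pi * M ^ 3) ≤ d := by
    refine le_trans ?_ h2
    have h5 : b ^ 2 / (4 * (3 * Real.pi / 2 * M ^ 2)) / (2 * Real.pi * M ^ 3) ≤
        x / (2 * Real.pi * M ^ 3) := div_le_div_of_nonneg_right h1 (by positivity)
    linarith
  have h5 : 3 / 2 * Real.sqrt (3 * Real.pi / 2) * (1 + (b / A) ^ 2 / 8) =
      (3 / (2 * M) + b ^ 2 / (4 * (3 * Real.pi / 2 * M ^ 2)) / (2 * Real.pi * M ^ 3)) *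
        (Real.sqrt (3 * Real.pi / 2) * M) := by
    rw [hA]
    field_simp
    ring
  rw [h3, h5]
  exact mul_le_mul_of_nonneg_right h4 (by positivity)

/-- the functions of the theorem, data of the rotated function -/
private theorem stf_dat {f : ℂ → ℂ} (hf : DifferentiableOn ℂ f (ball 0 1)) (h0 : f 0 = 0)
    (h1 : deriv f 0 = 1) (hA : IntegrableOn (fun u => ‖deriv f u‖ ^ 2) (ball 0 1))
    (hi : ∀ u ∈ ball (0 : ℂ) 1, ∀ v ∈ ball (0 : ℂ) 1, f u = f v →
      ‖f u‖ ^ 2 < 3 * Ar f / (2 * Real.pi) → u = v)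
    {c : ℂ} (hc : ‖c‖ = 1) {M : ℝ} (hM : 0 < M) (hMA : Ar f = 3 * Real.pi / 2 * M ^ 2) :
    ∃ k : ℂ → ℂ, Dat M (rot c f) k := by
  have hc0 : c ≠ 0 := norm_pos_iff.1 (hc ▸ one_pos)
  have hb : ∀ u ∈ ball (0 : ℂ) 1, c⁻¹ * u ∈ ball (0 : ℂ) 1 := by
    intro u hu
    rw [mem_ball_zero_iff, norm_mul, norm_inv, hc, inv_one, one_mul]
    exact mem_ball_zero_iff.1 hu
  obtain ⟨k, D, _⟩ := exists_dat hM (rot_diff hc hf) (by
    unfold rot
    rw [mul_zero, h0, mul_zero]) (by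
    rw [rot_deriv hc hf (mem_ball_self one_pos), mul_zero, h1]) (rot_area hc hf hA) (by
    intro u hu v hv huv hC
    have h2 : f (c⁻¹ * u) = f (c⁻¹ * v) := mul_left_cancel₀ hc0 huv
    have h3 : ‖f (c⁻¹ * u)‖ ^ 2 < 3 * Ar f / (2 * Real.pi) := by
      have h4 := Cd_norm hM hC
      unfold rot at h4
      rw [norm_mul, hc, one_mul] at h4
      have h5 : 3 * Ar f / (2 * Real.pi) = (3 * M / 2) ^ 2 := by
        rw [hMA]
        have hπ : Real.pi ≠ 0 := Real.pi_ne_zero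
        field_simp
      rw [h5]
      exact pow_lt_pow_left₀ h4 (norm_nonneg _) two_ne_zero
    have h4 := hi _ (hb u hu) _ (hb v hv) h2 h3
    exact mul_left_cancel₀ (inv_ne_zero hc0) h4)
  exact ⟨k, D⟩

theorem stab_disc {f : ℂ → ℂ} (hf : DifferentiableOn ℂ f (ball 0 1)) (h0 : f 0 = 0)
    (h1 : deriv f 0 = 1) (hA : IntegrableOn (fun u => ‖deriv f u‖ ^ 2) (ball 0 1))
    (hi : ∀ u ∈ ball (0 : ℂ) 1, ∀ v ∈ ball (0 : ℂ) 1, f u = f v →
      ‖f u‖ ^ 2 < 3 * Ar f / (2 * Real.pi) → u = v)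
    {c : ℂ} (hc : ‖c‖ = 1) (hc2 : deriv (deriv f) 0 / 2 = c * (‖deriv (deriv f) 0 / 2‖ : ℝ)) :
    3 / 2 * Real.sqrt (3 * Real.pi / 2) * (1 + (volume.real (Cd (Real.sqrt (2 * Ar f / (3 * Real.pi))) \
      rot c f '' ball 0 1) / Ar f) ^ 2 / 8) ≤
      (2 - ‖deriv (deriv f) 0 / 2‖) * Real.sqrt (Ar f) := by
  have hAp := Ar_pos hf h1 hA
  have hπ : 0 < Real.pi := Real.pi_pos
  set M : ℝ := Real.sqrt (2 * Ar f / (3 * Real.pi)) with hMd
  have hM : 0 < M := Real.sqrt_pos.2 (by positivity)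
  have hMA : Ar f = 3 * Real.pi / 2 * M ^ 2 := by
    rw [hMd, Real.sq_sqrt (by positivity)]
    field_simp
  have hc0 : c ≠ 0 := norm_pos_iff.1 (hc ▸ one_pos)
  obtain ⟨k, D⟩ := stf_dat hf h0 h1 hA hi hc hM hMA
  have hc2' : deriv (deriv (rot c f)) 0 / 2 = (‖deriv (deriv f) 0 / 2‖ : ℝ) := by
    rw [rot_a2 hc hf, mul_div_assoc, hc2, ← mul_assoc, inv_mul_cancel₀ hc0, one_mul]
    rw [← hc2]
  exact stf_alg hM hMA (stab D) (disc_rem hf h0 h1 hA hi hc hc2' hM hMA)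

private theorem stf_mul {c : ℂ} (hc : ‖c‖ = 1) {S : Set ℂ} (hS : MeasurableSet S) :
    volume ((fun w => c * w) '' S) = volume S := by
  have hc0 : c ≠ 0 := norm_pos_iff.1 (hc ▸ one_pos)
  set a : Circle := ⟨c, mem_sphere_zero_iff_norm.2 hc⟩ with ha
  have h1 : (fun w => c * w) '' S = (rotation a⁻¹) ⁻¹' S := by
    ext w
    constructor
    · rintro ⟨v, hv, rfl⟩
      show rotation a⁻¹ (c * v) ∈ S
      rw [rotation_apply]
      have h2 : ((a⁻¹ : Circle) : ℂ) * (c * v) = v := by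
        rw [Circle.coe_inv, ← mul_assoc]
        show c⁻¹ * c * v = v
        rw [inv_mul_cancel₀ hc0, one_mul]
      rw [h2]
      exact hv
    · intro hw
      refine ⟨rotation a⁻¹ w, hw, ?_⟩
      show c * rotation a⁻¹ w = w
      rw [rotation_apply, Circle.coe_inv, ← mul_assoc]
      show c * c⁻¹ * w = w
      rw [mul_inv_cancel₀ hc0, one_mul]
  rw [h1]
  exact (LinearIsometryEquiv.measurePreserving (rotation a⁻¹)).measure_preimage hS.nullMeasurableSet

theorem stab_S {f : ℂ → ℂ} (hf : DifferentiableOn ℂ f (ball 0 1)) (hi : InjOn f (ball 0 1))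
    (h0 : f 0 = 0) (h1 : deriv f 0 = 1) (hv : volume (f '' ball 0 1) ≠ ⊤)
    {c : ℂ} (hc : ‖c‖ = 1) (hc2 : deriv (deriv f) 0 / 2 = c * (‖deriv (deriv f) 0 / 2‖ : ℝ)) :
    3 / 2 * Real.sqrt (3 * Real.pi / 2) * (1 + (volume.real (symmDiff (f '' ball 0 1)
      ((fun w => c⁻¹ * w) '' Cd (Real.sqrt (2 * volume.real (f '' ball 0 1) / (3 * Real.pi))))) /
        volume.real (f '' ball 0 1)) ^ 2 / 32) ≤
      (2 - ‖deriv (deriv f) 0 / 2‖) * Real.sqrt (volume.real (f '' ball 0 1)) := by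
  obtain ⟨ha1, ha2⟩ := areaU hf hi
  have hA := ha1.1 hv
  have hAe : volume.real (f '' ball 0 1) = Ar f := ha2.symm
  rw [hAe]
  have hAp := Ar_pos hf h1 hA
  have hπ : 0 < Real.pi := Real.pi_pos
  have hi' : ∀ u ∈ ball (0 : ℂ) 1, ∀ v ∈ ball (0 : ℂ) 1, f u = f v →
      ‖f u‖ ^ 2 < 3 * Ar f / (2 * Real.pi) → u = v := fun u hu v hv huv _ => hi hu hv huv
  have hmain := stab_disc hf h0 h1 hA hi' hc hc2
  set M : ℝ := Real.sqrt (2 * Ar f / (3 * Real.pi)) with hMd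
  have hM : 0 < M := Real.sqrt_pos.2 (by positivity)
  have hMA : Ar f = 3 * Real.pi / 2 * M ^ 2 := by
    rw [hMd, Real.sq_sqrt (by positivity)]
    field_simp
  have hc0 : c ≠ 0 := norm_pos_iff.1 (hc ▸ one_pos)
  obtain ⟨k, D⟩ := stf_dat hf h0 h1 hA hi' hc hM hMA
  have hci : ‖c⁻¹‖ = 1 := by rw [norm_inv, hc, inv_one]
  have hFo : IsOpen (rot c f '' ball 0 1) := image_open D
  have hCo : IsOpen (Cd M) := isOpen_Cd hM
  -- the rotated image
  have hrot : f '' ball 0 1 = (fun w => c⁻¹ * w) '' (rot c f '' ball 0 1) := by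
    ext w
    constructor
    · rintro ⟨u, hu, rfl⟩
      refine ⟨c * f u, ⟨c * u, ?_, ?_⟩, ?_⟩
      · rw [mem_ball_zero_iff, norm_mul, hc, one_mul]
        exact mem_ball_zero_iff.1 hu
      · show c * f (c⁻¹ * (c * u)) = c * f u
        rw [inv_mul_cancel_left₀ hc0]
      · show c⁻¹ * (c * f u) = f u
        rw [inv_mul_cancel_left₀ hc0]
    · rintro ⟨_, ⟨u, hu, rfl⟩, rfl⟩
      refine ⟨c⁻¹ * u, ?_, ?_⟩
      · rw [mem_ball_zero_iff, norm_mul, hci, one_mul]
        exact mem_ball_zero_iff.1 hu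
      · show f (c⁻¹ * u) = c⁻¹ * (c * f (c⁻¹ * u))
        rw [inv_mul_cancel_left₀ hc0]
  have hvF : volume (rot c f '' ball 0 1) = volume (f '' ball 0 1) := by
    rw [hrot, stf_mul hci hFo.measurableSet]
  have hvC : volume (Cd M) = ENNReal.ofReal (Ar f) := by rw [vol_Cd hM, hMA]
  have hrF : volume.real (rot c f '' ball 0 1) = Ar f := by
    rw [← hAe]
    unfold Measure.real
    rw [hvF]
  have hrC : volume.real (Cd M) = Ar f := by
    unfold Measure.real
    rw [hvC, ENNReal.toReal_ofReal hAp.le]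
  have hfF : volume (rot c f '' ball 0 1) ≠ ⊤ := by rw [hvF]; exact hv
  have hfC : volume (Cd M) ≠ ⊤ := by rw [hvC]; exact ENNReal.ofReal_ne_top
  -- the symmetric difference
  have hsd : volume.real (symmDiff (f '' ball 0 1) ((fun w => c⁻¹ * w) '' Cd M)) =
      2 * volume.real (Cd M \ rot c f '' ball 0 1) := by
    have e1 : symmDiff (f '' ball 0 1) ((fun w => c⁻¹ * w) '' Cd M) =
        (fun w => c⁻¹ * w) '' (symmDiff (rot c f '' ball 0 1) (Cd M)) := by
      rw [Set.image_symmDiff (mul_right_injective₀ (inv_ne_zero hc0)), ← hrot]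
    have e2 : volume.real (symmDiff (f '' ball 0 1) ((fun w => c⁻¹ * w) '' Cd M)) =
        volume.real (symmDiff (rot c f '' ball 0 1) (Cd M)) := by
      unfold Measure.real
      rw [e1, stf_mul hci (hFo.measurableSet.symmDiff hCo.measurableSet)]
    have e3 : volume.real (symmDiff (rot c f '' ball 0 1) (Cd M)) =
        volume.real (rot c f '' ball 0 1 \ Cd M) + volume.real (Cd M \ rot c f '' ball 0 1) := by
      rw [Set.symmDiff_def]
      refine measureReal_union ?_ (hCo.measurableSet.diff hFo.measurableSet) ?_ ?_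
      · exact disjoint_sdiff_sdiff
      · exact ne_top_of_le_ne_top hfF (measure_mono sdiff_subset)
      · exact ne_top_of_le_ne_top hfC (measure_mono sdiff_subset)
    have e4 : volume.real (rot c f '' ball 0 1 \ Cd M) +
        volume.real (rot c f '' ball 0 1 ∩ Cd M) = Ar f := by
      rw [← hrF]
      exact measureReal_sdiff_add_inter hCo.measurableSet hfF
    have e5 : volume.real (Cd M \ rot c f '' ball 0 1) +
        volume.real (Cd M ∩ rot c f '' ball 0 1) = Ar f := by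
      rw [← hrC]
      exact measureReal_sdiff_add_inter hFo.measurableSet hfC
    rw [inter_comm] at e5
    rw [e2, e3]
    linarith
  rw [hsd]
  have e6 : (2 * volume.real (Cd M \ rot c f '' ball 0 1) / Ar f) ^ 2 / 32 =
      (volume.real (Cd M \ rot c f '' ball 0 1) / Ar f) ^ 2 / 8 := by ring
  rw [e6]
  exact hmain

end Pool.Agent.CRD
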