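import Pool.Agent.CRD.CoreR
import Pool.Agent.CRD.ParA
import Pool.Agent.CRD.ParB
import Pool.Agent.CRD.StabF

/-! CRD/Fin.  Preparation of the final theorem. -/

set_option autoImplicit false

open Complex MeasureTheory Metric Set

namespace Pool.Agent.CRD

/-- the sharp constant -/
noncomputable def cst : ℝ := 3 / 2 * Real.sqrt (3 * Real.pi / 2)

theorem cst_pos : 0 < cst := by
  have := Real.pi_pos
  unfold cst
  positivity

/-- the parameter of the cardioid of area `A` -/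
noncomputable def MM (A : ℝ) : ℝ := Real.sqrt (2 * A / (3 * Real.pi))

theorem MM_pos {A : ℝ} (hA : 0 < A) : 0 < MM A := by
  have := Real.pi_pos
  unfold MM
  positivity

theorem MM_sq {A : ℝ} (hA : 0 < A) : A = 3 * Real.pi / 2 * MM A ^ 2 := by
  have := Real.pi_pos
  unfold MM
  rw [Real.sq_sqrt (by positivity)]
  field_simp

theorem MM_inv {M : ℝ} (hM : 0 < M) : MM (3 * Real.pi / 2 * M ^ 2) = M := by
  have := Real.pi_pos
  unfold MM
  have : 2 * (3 * Real.pi / 2 * M ^ 2) / (3 * Real.pi) = M ^ 2 := by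
    field_simp
  rw [this, Real.sqrt_sq hM.le]

theorem cst_eq {A : ℝ} (hA : 0 < A) : cst / Real.sqrt A = 3 / (2 * MM A) := by
  have hpi := Real.pi_pos
  have hM := MM_pos hA
  have h1 : Real.sqrt A = Real.sqrt (3 * Real.pi / 2) * MM A := by
    conv_lhs => rw [MM_sq hA]
    rw [Real.sqrt_mul (by positivity), Real.sqrt_sq hM.le]
  have h2 : 0 < Real.sqrt (3 * Real.pi / 2) := by positivity
  rw [h1, cst]
  field_simp

theorem MM_ge_one {A : ℝ} (hA : 3 * Real.pi / 2 ≤ A) : 1 ≤ MM A := by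
  have hpi := Real.pi_pos
  unfold MM
  rw [Real.one_le_sqrt, le_div_iff₀ (by positivity)]
  linarith

section rotation

variable {f g : ℂ → ℂ}

theorem rot_zero {c : ℂ} (h0 : f 0 = 0) : rot c f 0 = 0 := by
  simp [rot, h0]

theorem rot_one {c : ℂ} (hc : ‖c‖ = 1) (hf : DifferentiableOn ℂ f (ball 0 1)) (h1 : deriv f 0 = 1) :
    deriv (rot c f) 0 = 1 := by
  rw [rot_deriv hc hf (mem_ball_self one_pos), mul_zero, h1]

theorem rot_rot {c : ℂ} (hc : ‖c‖ = 1) : rot c⁻¹ (rot c f) = f := by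
  have hc0 : c ≠ 0 := norm_pos_iff.1 (hc ▸ one_pos)
  funext u
  simp only [rot]
  rw [inv_inv, inv_mul_cancel_left₀ hc0, inv_mul_cancel_left₀ hc0]

theorem mem_rot {c : ℂ} (hc : ‖c‖ = 1) {u : ℂ} (hu : u ∈ ball (0 : ℂ) 1) : c⁻¹ * u ∈ ball (0 : ℂ) 1 := by
  rw [mem_ball_zero_iff, norm_mul, norm_inv, hc, inv_one, one_mul]
  exact mem_ball_zero_iff.1 hu

theorem rot_congr {c : ℂ} (hc : ‖c‖ = 1) (h : EqOn f g (ball 0 1)) :
    EqOn (rot c f) (rot c g) (ball 0 1) := by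
  intro u hu
  simp only [rot]
  rw [h (mem_rot hc hu)]

theorem deriv_congr (h : EqOn f g (ball 0 1)) : EqOn (deriv f) (deriv g) (ball 0 1) := by
  intro u hu
  exact Filter.EventuallyEq.deriv_eq (h.eventuallyEq_of_mem (isOpen_ball.mem_nhds hu))

theorem a2_congr (h : EqOn f g (ball 0 1)) : deriv (deriv f) 0 = deriv (deriv g) 0 :=
  deriv_congr (deriv_congr h) (mem_ball_self one_pos)

theorem Ar_congr (h : EqOn f g (ball 0 1)) : Ar f = Ar g := by
  unfold Ar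
  apply setIntegral_congr_fun measurableSet_ball
  intro u hu
  simp only [deriv_congr h hu]

/-- univalence over the disc gives univalence of the rotated function over the cardioid -/
theorem rot_inj {c : ℂ} (hc : ‖c‖ = 1) {M : ℝ} (hM : 0 < M) (hMA : Ar f = 3 * Real.pi / 2 * M ^ 2)
    (hi : ∀ u ∈ ball (0 : ℂ) 1, ∀ v ∈ ball (0 : ℂ) 1, f u = f v →
      ‖f u‖ ^ 2 < 3 * Ar f / (2 * Real.pi) → u = v) :
    ∀ u ∈ ball (0 : ℂ) 1, ∀ v ∈ ball (0 : ℂ) 1, rot c f u = rot c f v → rot c f u ∈ Cd M → u = v := by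
  have hc0 : c ≠ 0 := norm_pos_iff.1 (hc ▸ one_pos)
  intro u hu v hv huv hC
  have h2 : f (c⁻¹ * u) = f (c⁻¹ * v) := mul_left_cancel₀ hc0 huv
  have h3 : ‖f (c⁻¹ * u)‖ ^ 2 < 3 * Ar f / (2 * Real.pi) := by
    have h4 := Cd_norm hM hC
    unfold rot at h4
    rw [norm_mul, hc, one_mul] at h4
    have h5 : 3 * Ar f / (2 * Real.pi) = (3 * M / 2) ^ 2 := by
      rw [hMA]
      have hπ : Real.pi ≠ 0 := Real.pi_ne_zero
      field_simp
    rw [h5]
    exact pow_lt_pow_left₀ h4 (norm_nonneg _) two_ne_zero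
  have h4 := hi _ (mem_rot hc hu) _ (mem_rot hc hv) h2 h3
  exact mul_left_cancel₀ (inv_ne_zero hc0) h4

/-- equality in the bound for `|a₂|` -/
theorem disc_eq (hf : DifferentiableOn ℂ f (ball 0 1)) (h0 : f 0 = 0)
    (h1 : deriv f 0 = 1) (hA : IntegrableOn (fun u => ‖deriv f u‖ ^ 2) (ball 0 1))
    (hi : ∀ u ∈ ball (0 : ℂ) 1, ∀ v ∈ ball (0 : ℂ) 1, f u = f v →
      ‖f u‖ ^ 2 < 3 * Ar f / (2 * Real.pi) → u = v) :
    ‖deriv (deriv f) 0 / 2‖ = 2 - cst / Real.sqrt (Ar f) ↔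
      1 ≤ MM (Ar f) ∧ ∃ c : ℂ, ‖c‖ = 1 ∧ EqOn f (rot c (PP (MM (Ar f)))) (ball 0 1) := by
  have hAp := Ar_pos hf h1 hA
  have hM := MM_pos hAp
  have hMA := MM_sq hAp
  set M := MM (Ar f) with hMd
  rw [cst_eq hAp, ← hMd]
  have hpi := Real.pi_pos
  constructor
  · intro he
    obtain ⟨c, hc, hc2⟩ := rot_exists hf
    have hc0 : c ≠ 0 := norm_pos_iff.1 (hc ▸ one_pos)
    have h2 := eq_unique hM (rot_diff hc hf) (rot_zero h0) (rot_one hc hf h1) (rot_area hc hf hA)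
      (rot_inj hc hM hMA hi) (by
        rw [rot_Ar hc hf, hc2, ofReal_re, he, hMA]
        apply le_of_eq
        field_simp
        ring)
    refine ⟨h2.1, c⁻¹, by rw [norm_inv, hc, inv_one], ?_⟩
    have h3 := rot_congr (c := c⁻¹) (by rw [norm_inv, hc, inv_one]) h2.2
    rwa [rot_rot hc] at h3
  · rintro ⟨hM1, c, hc, he⟩
    have hc0 : c ≠ 0 := norm_pos_iff.1 (hc ▸ one_pos)
    rw [a2_congr he, rot_a2 hc (PP_spec hM1).1, mul_div_assoc, norm_mul, norm_inv, hc, inv_one, one_mul,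
      (PP_spec hM1).2.2.2.2.1]
    have h5 : (2 - 3 / (2 * (M : ℂ))) = ((2 - 3 / (2 * M) : ℝ) : ℂ) := by push_cast; ring
    rw [h5, norm_real, Real.norm_eq_abs, abs_of_nonneg]
    have : 3 / (2 * M) ≤ 3 / 2 := by
      apply div_le_div_of_nonneg_left (by norm_num) (by norm_num)
      linarith
    linarith

end rotation

end Pool.Agent.CRD
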