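import Mathlib

/-! # CRD/GrE: an area bound of Gronwall type by comparison with an ellipse

`G z = b/z + g z + O(z³)` near `0`.  With the real linear map `L x = b x + g r² conj x` one has `b/z + g z = L (1/z)` for `‖z‖ = r`, so the image
of the circle lies in the ellipse `L '' closedBall 0 (1/r + C r³)`; the complement of the ellipse is connected, hence contained in the image of
the punctured disc (open mapping theorem).  So the omitted set has area at most `π b²/r² + C r²`. -/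

set_option autoImplicit false

open Complex MeasureTheory Metric Set Filter Topology Real

namespace Pool.Agent.CRD

theorem lin_lower {b : ℝ} {c : ℂ} (x : ℂ) :
    (b - ‖c‖) * ‖x‖ ≤ ‖(b : ℂ) * x + c * (starRingEnd ℂ) x‖ := by
  have h1 : ‖(b : ℂ) * x‖ = |b| * ‖x‖ := by
    rw [norm_mul, Complex.norm_real, Real.norm_eq_abs]
  have h2 : ‖c * (starRingEnd ℂ) x‖ = ‖c‖ * ‖x‖ := by
    rw [norm_mul, RCLike.norm_conj]
  have h3 : ‖(b : ℂ) * x‖ ≤ ‖(b : ℂ) * x + c * (starRingEnd ℂ) x‖ + ‖c * (starRingEnd ℂ) x‖ := by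
    have h := norm_sub_le ((b : ℂ) * x + c * (starRingEnd ℂ) x) (c * (starRingEnd ℂ) x)
    rw [add_sub_cancel_right] at h
    exact h
  have h4 : b * ‖x‖ ≤ |b| * ‖x‖ := mul_le_mul_of_nonneg_right (le_abs_self b) (norm_nonneg x)
  rw [h1, h2] at h3
  linarith [sub_mul b ‖c‖ ‖x‖]

theorem lin_surj {b : ℝ} {c : ℂ} (h : ‖c‖ < b) (y : ℂ) :
    ∃ x : ℂ, (b : ℂ) * x + c * (starRingEnd ℂ) x = y := by
  have hd : (0 : ℝ) < b ^ 2 - ‖c‖ ^ 2 := by nlinarith [norm_nonneg c]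
  have hd' : ((b ^ 2 - ‖c‖ ^ 2 : ℝ) : ℂ) ≠ 0 := by exact_mod_cast hd.ne'
  have hcc : c * (starRingEnd ℂ) c = ((‖c‖ ^ 2 : ℝ) : ℂ) := by
    rw [Complex.mul_conj, Complex.normSq_eq_norm_sq]
  refine ⟨((b : ℂ) * y - c * (starRingEnd ℂ) y) / ((b ^ 2 - ‖c‖ ^ 2 : ℝ) : ℂ), ?_⟩
  have h1 : (starRingEnd ℂ) (((b : ℂ) * y - c * (starRingEnd ℂ) y) / ((b ^ 2 - ‖c‖ ^ 2 : ℝ) : ℂ)) =
      ((b : ℂ) * (starRingEnd ℂ) y - (starRingEnd ℂ) c * y) / ((b ^ 2 - ‖c‖ ^ 2 : ℝ) : ℂ) := by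
    rw [map_div₀, map_sub, map_mul, map_mul, Complex.conj_ofReal, Complex.conj_ofReal,
      Complex.conj_conj]
  rw [h1, mul_div_assoc', mul_div_assoc', ← add_div, div_eq_iff hd']
  have h2 : (b : ℂ) * ((b : ℂ) * y - c * (starRingEnd ℂ) y) +
      c * ((b : ℂ) * (starRingEnd ℂ) y - (starRingEnd ℂ) c * y) =
      (b : ℂ) ^ 2 * y - (c * (starRingEnd ℂ) c) * y := by ring
  rw [h2, hcc]
  push_cast
  ring

theorem out_conn {ρ : ℝ} (h : 0 < ρ) : IsPreconnected {x : ℂ | ρ < ‖x‖} := by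
  have h1 : {x : ℂ | ρ < ‖x‖} = Complex.exp '' {z : ℂ | Real.log ρ < z.re} := by
    ext x
    constructor
    · intro hx
      have hx' : ρ < ‖x‖ := hx
      have hx0 : x ≠ 0 := norm_pos_iff.1 (h.trans hx')
      refine ⟨Complex.log x, ?_, Complex.exp_log hx0⟩
      show Real.log ρ < (Complex.log x).re
      rw [Complex.log_re]
      exact Real.log_lt_log h hx'
    · rintro ⟨z, hz, rfl⟩
      show ρ < ‖Complex.exp z‖
      rw [Complex.norm_exp]
      exact (Real.log_lt_iff_lt_exp h).1 hz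
  rw [h1]
  exact (convex_halfSpace_re_gt _).isPreconnected.image _ Complex.continuous_exp.continuousOn

theorem in_conn {r : ℝ} (h : 0 < r) : IsPreconnected (ball (0 : ℂ) r \ {0}) := by
  have h1 : ball (0 : ℂ) r \ {0} = Complex.exp '' {z : ℂ | z.re < Real.log r} := by
    ext x
    constructor
    · rintro ⟨hx, hx0⟩
      have hx' : ‖x‖ < r := mem_ball_zero_iff.1 hx
      have hx0' : x ≠ 0 := hx0
      refine ⟨Complex.log x, ?_, Complex.exp_log hx0'⟩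
      show (Complex.log x).re < Real.log r
      rw [Complex.log_re]
      exact Real.log_lt_log (norm_pos_iff.2 hx0') hx'
    · rintro ⟨z, hz, rfl⟩
      refine ⟨?_, Complex.exp_ne_zero z⟩
      rw [mem_ball_zero_iff, Complex.norm_exp]
      exact (Real.lt_log_iff_exp_lt h).1 hz
  rw [h1]
  exact (convex_halfSpace_re_lt _).isPreconnected.image _ Complex.continuous_exp.continuousOn

private theorem gre_inv {z : ℂ} {r : ℝ} (hr : 0 < r) (hz : ‖z‖ = r) :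
    (r : ℂ) ^ 2 * (starRingEnd ℂ) (1 / z) = z := by
  have hz0 : z ≠ 0 := norm_pos_iff.1 (hz ▸ hr)
  have hc0 : (starRingEnd ℂ) z ≠ 0 := (map_ne_zero _).2 hz0
  rw [map_div₀, map_one, mul_one_div, div_eq_iff hc0, Complex.mul_conj, Complex.normSq_eq_norm_sq, hz]
  push_cast
  rfl

theorem incl {G : ℂ → ℂ} {b C0 R0 r : ℝ} {g : ℂ} (hb : 0 < b) (hC0 : 0 ≤ C0)
    (hG : DifferentiableOn ℂ G (ball 0 R0 \ {0}))
    (hexp : ∀ z : ℂ, z ≠ 0 → ‖z‖ < R0 → ‖G z - (b : ℂ) / z - g * z‖ ≤ C0 * ‖z‖ ^ 3)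
    (hr : 0 < r) (hrR : r < R0) (hrg : ‖g‖ * r ^ 2 ≤ b / 2) :
    (G '' (closedBall 0 r \ {0}))ᶜ ⊆
      (fun x : ℂ => (b : ℂ) * x + (g * (r : ℂ) ^ 2) * (starRingEnd ℂ) x) ''
        closedBall 0 (1 / r + 2 / b * C0 * r ^ 3) := by
  set c : ℂ := g * (r : ℂ) ^ 2 with hc
  set L : ℂ → ℂ := fun x => (b : ℂ) * x + c * (starRingEnd ℂ) x with hL
  set ρ : ℝ := 1 / r + 2 / b * C0 * r ^ 3 with hρ
  have hcn : ‖c‖ ≤ b / 2 := by
    rw [hc, norm_mul, norm_pow, Complex.norm_real, Real.norm_eq_abs, sq_abs]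
    exact hrg
  have hcb : ‖c‖ < b := by linarith
  have hρ0 : 0 < ρ := by
    have h1 : 0 < 1 / r := one_div_pos.2 hr
    have h2 : 0 ≤ 2 / b * C0 * r ^ 3 :=
      mul_nonneg (mul_nonneg (div_nonneg two_pos.le hb.le) hC0) (pow_nonneg hr.le 3)
    rw [hρ]
    linarith
  have hLsub : ∀ x y, L x - L y = L (x - y) := by
    intro x y
    show (b : ℂ) * x + c * (starRingEnd ℂ) x - ((b : ℂ) * y + c * (starRingEnd ℂ) y) =
      (b : ℂ) * (x - y) + c * (starRingEnd ℂ) (x - y)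
    rw [map_sub]
    ring
  have hLlow : ∀ x, b / 2 * ‖x‖ ≤ ‖L x‖ := by
    intro x
    refine le_trans ?_ (lin_lower (b := b) (c := c) x)
    exact mul_le_mul_of_nonneg_right (by linarith) (norm_nonneg x)
  have hLup : ∀ x, ‖L x‖ ≤ 2 * b * ‖x‖ := by
    intro x
    have h1 : ‖L x‖ ≤ ‖(b : ℂ) * x‖ + ‖c * (starRingEnd ℂ) x‖ := norm_add_le _ _
    rw [norm_mul, Complex.norm_real, Real.norm_eq_abs, abs_of_pos hb, norm_mul, RCLike.norm_conj] at h1
    have h2 : ‖c‖ * ‖x‖ ≤ b / 2 * ‖x‖ := mul_le_mul_of_nonneg_right hcn (norm_nonneg x)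
    have h3 : 0 ≤ b * ‖x‖ := mul_nonneg hb.le (norm_nonneg x)
    linarith
  -- the image of the circle
  have hcirc : ∀ z : ℂ, ‖z‖ = r → G z ∈ L '' closedBall 0 ρ := by
    intro z hz
    have hz0 : z ≠ 0 := norm_pos_iff.1 (hz ▸ hr)
    obtain ⟨x, hx⟩ := lin_surj hcb (G z)
    refine ⟨x, ?_, hx⟩
    rw [mem_closedBall_zero_iff]
    have h1 : L (1 / z) = (b : ℂ) / z + g * z := by
      show (b : ℂ) * (1 / z) + c * (starRingEnd ℂ) (1 / z) = _
      rw [hc, mul_assoc g, gre_inv hr hz, mul_one_div]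
    have h2 : ‖L (x - 1 / z)‖ ≤ C0 * r ^ 3 := by
      rw [← hLsub]
      have hx' : L x = G z := hx
      rw [hx', h1]
      have h3 := hexp z hz0 (hz ▸ hrR)
      rw [hz] at h3
      have h4 : G z - ((b : ℂ) / z + g * z) = G z - (b : ℂ) / z - g * z := by ring
      rw [h4]
      exact h3
    have h3 := hLlow (x - 1 / z)
    have h4 : ‖x - 1 / z‖ ≤ 2 / b * C0 * r ^ 3 := by
      have h5 : b / 2 * ‖x - 1 / z‖ ≤ C0 * r ^ 3 := h3.trans h2
      have h6 : ‖x - 1 / z‖ = 2 / b * (b / 2 * ‖x - 1 / z‖) := by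
        field_simp
      rw [h6, mul_assoc (2 / b)]
      exact mul_le_mul_of_nonneg_left h5 (div_nonneg two_pos.le hb.le)
    have h5 : ‖(1 : ℂ) / z‖ = 1 / r := by rw [norm_div, norm_one, hz]
    have h6 := norm_add_le (x - 1 / z) (1 / z)
    rw [sub_add_cancel, h5] at h6
    rw [hρ]
    linarith
  have hball : closedBall (0 : ℂ) r \ {0} ⊆ ball 0 R0 \ {0} := fun z hz =>
    ⟨mem_ball_zero_iff.2 (lt_of_le_of_lt (mem_closedBall_zero_iff.1 hz.1) hrR), hz.2⟩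
  have hball' : ball (0 : ℂ) r \ {0} ⊆ ball 0 R0 \ {0} := fun z hz =>
    hball ⟨ball_subset_closedBall hz.1, hz.2⟩
  have hopen : IsOpen (ball (0 : ℂ) R0 \ {0}) := isOpen_ball.sdiff isClosed_singleton
  have hopen' : IsOpen (ball (0 : ℂ) r \ {0}) := isOpen_ball.sdiff isClosed_singleton
  -- the modulus is large near the pole
  set K : ℝ := ‖g‖ * r + C0 * r ^ 3 with hK
  have hbig : ∀ z : ℂ, z ≠ 0 → ‖z‖ ≤ r → b / ‖z‖ - K ≤ ‖G z‖ := by
    intro z hz0 hzr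
    have h1 := hexp z hz0 (lt_of_le_of_lt hzr hrR)
    have h2 : ‖(b : ℂ) / z‖ = b / ‖z‖ := by
      rw [norm_div, Complex.norm_real, Real.norm_eq_abs, abs_of_pos hb]
    have h3 : (b : ℂ) / z = G z - (G z - (b : ℂ) / z - g * z) - g * z := by ring
    have h4 : ‖(b : ℂ) / z‖ ≤ ‖G z‖ + ‖G z - (b : ℂ) / z - g * z‖ + ‖g * z‖ := by
      calc ‖(b : ℂ) / z‖ = ‖G z - (G z - (b : ℂ) / z - g * z) - g * z‖ := by rw [← h3]
        _ ≤ ‖G z - (G z - (b : ℂ) / z - g * z)‖ + ‖g * z‖ := norm_sub_le _ _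
        _ ≤ _ := by
          have := norm_sub_le (G z) (G z - (b : ℂ) / z - g * z)
          linarith
    have h5 : ‖g * z‖ ≤ ‖g‖ * r := by
      rw [norm_mul]
      exact mul_le_mul_of_nonneg_left hzr (norm_nonneg g)
    have h6 : C0 * ‖z‖ ^ 3 ≤ C0 * r ^ 3 :=
      mul_le_mul_of_nonneg_left (pow_le_pow_left₀ (norm_nonneg z) hzr 3) hC0
    rw [h2] at h4
    rw [hK]
    linarith
  have hK0 : 0 ≤ K := by
    rw [hK]
    exact add_nonneg (mul_nonneg (norm_nonneg g) hr.le) (mul_nonneg hC0 (pow_nonneg hr.le 3))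
  have hlarge : ∀ T : ℝ, ∃ z : ℂ, z ≠ 0 ∧ ‖z‖ < r ∧ T < ‖G z‖ := by
    intro T
    set t : ℝ := min (r / 2) (b / (|T| + K + 1)) with ht
    have hden : 0 < |T| + K + 1 := by linarith [abs_nonneg T]
    have ht0 : 0 < t := lt_min (by linarith) (div_pos hb hden)
    have htn : ‖(t : ℂ)‖ = t := by
      rw [Complex.norm_real, Real.norm_eq_abs, abs_of_pos ht0]
    have htr : t < r := lt_of_le_of_lt (min_le_left _ _) (by linarith)
    refine ⟨(t : ℂ), ?_, ?_, ?_⟩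
    · exact_mod_cast ht0.ne'
    · rw [htn]
      exact htr
    · have h1 := hbig (t : ℂ) (by exact_mod_cast ht0.ne') (by rw [htn]; exact htr.le)
      rw [htn] at h1
      have h2 : |T| + K + 1 ≤ b / t := by
        rw [le_div_iff₀ ht0]
        have h3 : t ≤ b / (|T| + K + 1) := min_le_right _ _
        rw [le_div_iff₀ hden] at h3
        linarith
      linarith [le_abs_self T]
  set U : Set ℂ := G '' (ball 0 r \ {0}) with hU
  have hUopen : IsOpen U := by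
    have hGan : AnalyticOnNhd ℂ G (ball 0 r \ {0}) := (hG.mono hball').analyticOnNhd hopen'
    rcases hGan.is_constant_or_isOpen (in_conn hr) with ⟨w, hw⟩ | h
    · exfalso
      obtain ⟨z, hz0, hzr, hz⟩ := hlarge ‖w‖
      rw [hw z ⟨mem_ball_zero_iff.2 hzr, hz0⟩] at hz
      exact lt_irrefl _ hz
    · exact h _ (subset_refl _) hopen'
  set Ω : Set ℂ := L '' {x | ρ < ‖x‖} with hΩ
  have hLcont : Continuous L := by
    show Continuous (fun x : ℂ => (b : ℂ) * x + c * (starRingEnd ℂ) x)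
    exact (continuous_const.mul continuous_id).add (continuous_const.mul Complex.continuous_conj)
  have hΩconn : IsPreconnected Ω := (out_conn hρ0).image _ hLcont.continuousOn
  have hΩdisj : ∀ W ∈ Ω, W ∉ L '' closedBall 0 ρ := by
    rintro W ⟨x, hx, rfl⟩ ⟨y, hy, hxy⟩
    have h1 := hLlow (x - y)
    rw [← hLsub, hxy, sub_self, norm_zero] at h1
    have h2 : ‖x - y‖ = 0 := by
      refine le_antisymm ?_ (norm_nonneg _)
      by_contra h3
      have h4 : 0 < b / 2 * ‖x - y‖ := mul_pos (by linarith) (not_le.1 h3)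
      linarith
    have h3 : x = y := sub_eq_zero.1 (norm_eq_zero.1 h2)
    rw [h3] at hx
    exact not_le.2 hx (mem_closedBall_zero_iff.1 hy)
  have hΩmem : ∀ W, W ∉ L '' closedBall 0 ρ → W ∈ Ω := by
    intro W hW
    obtain ⟨x, hx⟩ := lin_surj hcb W
    refine ⟨x, ?_, hx⟩
    by_contra h
    exact hW ⟨x, mem_closedBall_zero_iff.2 (not_lt.1 h), hx⟩
  have hne : (Ω ∩ U).Nonempty := by
    obtain ⟨z, hz0, hzr, hz⟩ := hlarge (2 * b * ρ)
    refine ⟨G z, hΩmem _ ?_, ⟨z, ⟨mem_ball_zero_iff.2 hzr, hz0⟩, rfl⟩⟩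
    rintro ⟨x, hx, hxz⟩
    have h1 := hLup x
    rw [hxz] at h1
    have h2 : 2 * b * ‖x‖ ≤ 2 * b * ρ :=
      mul_le_mul_of_nonneg_left (mem_closedBall_zero_iff.1 hx) (by linarith)
    linarith
  have hcl : closure U ∩ Ω ⊆ U := by
    rintro W ⟨hW1, hW2⟩
    obtain ⟨y, hy, hyW⟩ := mem_closure_iff_seq_limit.1 hW1
    choose zs hzs hzG using hy
    have hcomp : IsCompact (closedBall (0 : ℂ) r) := isCompact_closedBall 0 r
    obtain ⟨z, hz, φ, hφ, hlim⟩ := hcomp.tendsto_subseq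
      (fun n => ball_subset_closedBall (hzs n).1)
    have hlimW : Tendsto (fun n => y (φ n)) atTop (𝓝 W) := hyW.comp hφ.tendsto_atTop
    set δ : ℝ := b / (K + ‖W‖ + 1) with hδ
    have hden : 0 < K + ‖W‖ + 1 := by linarith [norm_nonneg W]
    have hδ0 : 0 < δ := div_pos hb hden
    have hev : ∀ᶠ n in atTop, δ ≤ ‖zs (φ n)‖ := by
      have h1 : ∀ᶠ n in atTop, ‖y (φ n)‖ < ‖W‖ + 1 :=
        hlimW.norm.eventually_lt_const (by linarith)
      filter_upwards [h1] with n hn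
      have hz0 : zs (φ n) ≠ 0 := (hzs (φ n)).2
      have h2 := hbig (zs (φ n)) hz0 (mem_ball_zero_iff.1 (hzs (φ n)).1).le
      rw [hzG] at h2
      have h3 : b / ‖zs (φ n)‖ ≤ K + ‖W‖ + 1 := by linarith
      have h4 : 0 < ‖zs (φ n)‖ := norm_pos_iff.2 hz0
      rw [div_le_iff₀ h4] at h3
      rw [hδ, div_le_iff₀ hden]
      linarith
    have hzδ : δ ≤ ‖z‖ := ge_of_tendsto hlim.norm hev
    have hz0 : z ≠ 0 := norm_pos_iff.1 (hδ0.trans_le hzδ)
    have hzR : z ∈ ball (0 : ℂ) R0 \ {0} := hball ⟨hz, hz0⟩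
    have hcont : ContinuousAt G z := (hG.differentiableAt (hopen.mem_nhds hzR)).continuousAt
    have hlimG : Tendsto (fun n => y (φ n)) atTop (𝓝 (G z)) := by
      have h1 := hcont.tendsto.comp hlim
      refine h1.congr (fun n => ?_)
      exact hzG (φ n)
    have hWz : W = G z := tendsto_nhds_unique hlimW hlimG
    have hzr : ‖z‖ < r := by
      refine lt_of_le_of_ne (mem_closedBall_zero_iff.1 hz) (fun h => ?_)
      apply hΩdisj W hW2
      rw [hWz]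
      exact hcirc z h
    rw [hWz]
    exact ⟨z, ⟨mem_ball_zero_iff.2 hzr, hz0⟩, rfl⟩
  have hΩU : Ω ⊆ U := hΩconn.subset_of_closure_inter_subset hUopen hne hcl
  intro W hW
  by_contra hcon
  obtain ⟨z, hz, hzW⟩ := hΩU (hΩmem W hcon)
  exact hW ⟨z, ⟨ball_subset_closedBall hz.1, hz.2⟩, hzW⟩

/-- the real linear map `x ↦ b x + c conj x` -/
private noncomputable def greL (b : ℝ) (c : ℂ) : ℂ →ₗ[ℝ] ℂ where
  toFun x := (b : ℂ) * x + c * (starRingEnd ℂ) x
  map_add' x y := by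
    rw [map_add]
    ring
  map_smul' t x := by
    rw [RingHom.id_apply, Complex.real_smul, map_mul, Complex.conj_ofReal, Complex.real_smul]
    ring

private theorem greL_det (b : ℝ) (c : ℂ) : LinearMap.det (greL b c) = b ^ 2 - ‖c‖ ^ 2 := by
  have h1 : greL b c 1 = (b : ℂ) + c := by
    show (b : ℂ) * 1 + c * (starRingEnd ℂ) 1 = _
    rw [map_one, mul_one, mul_one]
  have h2 : greL b c Complex.I = (b : ℂ) * Complex.I - c * Complex.I := by
    show (b : ℂ) * Complex.I + c * (starRingEnd ℂ) Complex.I = _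
    rw [Complex.conj_I]
    ring
  rw [← LinearMap.det_toMatrix Complex.basisOneI, Matrix.det_fin_two]
  simp only [LinearMap.toMatrix_apply, Complex.coe_basisOneI, Matrix.cons_val_zero,
    Matrix.cons_val_one, Complex.coe_basisOneI_repr, h1, h2]
  rw [← Complex.normSq_eq_norm_sq, Complex.normSq_apply]
  simp only [Complex.add_re, Complex.add_im, Complex.sub_re, Complex.sub_im, Complex.mul_re,
    Complex.mul_im, Complex.ofReal_re, Complex.ofReal_im, Complex.I_re, Complex.I_im]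
  ring

theorem vol_lin {b : ℝ} {c : ℂ} (hb : 0 < b) (h : ‖c‖ ≤ b) {R : ℝ} (hR : 0 ≤ R) :
    volume ((fun x : ℂ => (b : ℂ) * x + c * (starRingEnd ℂ) x) '' closedBall 0 R) ≤
      ENNReal.ofReal (b ^ 2 * (π * R ^ 2)) := by
  have h1 : (fun x : ℂ => (b : ℂ) * x + c * (starRingEnd ℂ) x) '' closedBall 0 R =
      greL b c '' closedBall 0 R := rfl
  have h2 : |b ^ 2 - ‖c‖ ^ 2| ≤ b ^ 2 := by
    rw [abs_le]
    constructor
    · nlinarith [norm_nonneg c]
    · nlinarith [norm_nonneg c]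
  have h3 : volume (closedBall (0 : ℂ) R) = ENNReal.ofReal (π * R ^ 2) := by
    rw [Complex.volume_closedBall, ← ENNReal.ofReal_pow hR, mul_comm π,
      ENNReal.ofReal_mul (pow_nonneg hR 2)]
    rw [← NNReal.coe_real_pi, ENNReal.ofReal_coe_nnreal]
  rw [h1, MeasureTheory.Measure.addHaar_image_linearMap, greL_det, h3,
    ENNReal.ofReal_mul (pow_nonneg hb.le 2)]
  exact mul_le_mul_left (ENNReal.ofReal_le_ofReal h2) _

theorem gron {G : ℂ → ℂ} {b C0 R0 : ℝ} {g : ℂ} (hb : 0 < b) (hR0 : 0 < R0)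
    (hG : DifferentiableOn ℂ G (ball 0 R0 \ {0}))
    (hexp : ∀ z : ℂ, z ≠ 0 → ‖z‖ < R0 → ‖G z - (b : ℂ) / z - g * z‖ ≤ C0 * ‖z‖ ^ 3) :
    ∃ C r0 : ℝ, 0 < r0 ∧ r0 ≤ R0 ∧ ∀ r, 0 < r → r < r0 →
      volume ((G '' (closedBall 0 r \ {0}))ᶜ) ≤ ENNReal.ofReal (π * b ^ 2 / r ^ 2 + C * r ^ 2) := by
  set C1 : ℝ := max C0 0 with hC1
  have hC10 : 0 ≤ C1 := le_max_right _ _
  have hexp' : ∀ z : ℂ, z ≠ 0 → ‖z‖ < R0 → ‖G z - (b : ℂ) / z - g * z‖ ≤ C1 * ‖z‖ ^ 3 :=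
    fun z hz0 hz => (hexp z hz0 hz).trans
      (mul_le_mul_of_nonneg_right (le_max_left _ _) (pow_nonneg (norm_nonneg z) 3))
  have hg1 : 0 < 2 * (‖g‖ + 1) := by linarith [norm_nonneg g]
  refine ⟨4 * π * b * C1 + 4 * π * C1 ^ 2, min (min R0 1) (b / (2 * (‖g‖ + 1))),
    lt_min (lt_min hR0 one_pos) (div_pos hb hg1), (min_le_left _ _).trans (min_le_left _ _), ?_⟩
  intro r hr hr0
  have hrR : r < R0 := hr0.trans_le ((min_le_left _ _).trans (min_le_left _ _))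
  have hr1 : r < 1 := hr0.trans_le ((min_le_left _ _).trans (min_le_right _ _))
  have hrb : r < b / (2 * (‖g‖ + 1)) := hr0.trans_le (min_le_right _ _)
  have hrg : ‖g‖ * r ^ 2 ≤ b / 2 := by
    rw [lt_div_iff₀ hg1] at hrb
    have h1 : r ^ 2 ≤ r := by nlinarith
    have h2 : ‖g‖ * r ^ 2 ≤ ‖g‖ * r := mul_le_mul_of_nonneg_left h1 (norm_nonneg g)
    nlinarith [norm_nonneg g]
  have h1 := incl hb hC10 hG hexp' hr hrR hrg
  have hcn : ‖g * (r : ℂ) ^ 2‖ ≤ b := by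
    rw [norm_mul, norm_pow, Complex.norm_real, Real.norm_eq_abs, sq_abs]
    linarith
  have hR' : 0 ≤ 1 / r + 2 / b * C1 * r ^ 3 :=
    add_nonneg (one_div_nonneg.2 hr.le)
      (mul_nonneg (mul_nonneg (div_nonneg two_pos.le hb.le) hC10) (pow_nonneg hr.le 3))
  refine (measure_mono h1).trans ((vol_lin hb hcn hR').trans (ENNReal.ofReal_le_ofReal ?_))
  have h2 : b ^ 2 * (π * (1 / r + 2 / b * C1 * r ^ 3) ^ 2) =
      π * b ^ 2 / r ^ 2 + 4 * π * b * C1 * r ^ 2 + 4 * π * C1 ^ 2 * r ^ 6 := by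
    field_simp
    ring
  rw [h2]
  have h3 : r ^ 6 ≤ r ^ 2 := pow_le_pow_of_le_one hr.le hr1.le (by norm_num)
  have h4 : 4 * π * C1 ^ 2 * r ^ 6 ≤ 4 * π * C1 ^ 2 * r ^ 2 :=
    mul_le_mul_of_nonneg_left h3 (mul_nonneg (mul_nonneg (by norm_num) Real.pi_pos.le) (sq_nonneg _))
  have h5 : (4 * π * b * C1 + 4 * π * C1 ^ 2) * r ^ 2 =
      4 * π * b * C1 * r ^ 2 + 4 * π * C1 ^ 2 * r ^ 2 := by ring
  rw [h5]
  linarith

end Pool.Agent.CRD
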