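import Pool.Agent.CRD.Ecoord

/-! CRD/LowA.  Tools for the lower bound: Lipschitz bound on closed strips, integration by parts on segments, Fubini on the strip. -/

set_option autoImplicit false

open Complex MeasureTheory Metric Set

namespace Pool.Agent.CRD

/-- the closed strip -/
def cstrip (a b : ℝ) : Set ℂ := {ω | a ≤ ω.re ∧ ω.re ≤ b ∧ 0 ≤ ω.im ∧ ω.im ≤ 2 * Real.pi}

theorem lip_strip {v : ℂ → ℝ} (hlip : ∀ ω : ℂ, ω.re < 0 → ∃ K : NNReal, ∃ s > 0, LipschitzOnWith K v (ball ω s))
    {a b : ℝ} (hb : b < 0) : ∃ K : NNReal, LipschitzOnWith K v (cstrip a b) := by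
  have hc : IsCompact (cstrip a b) := by
    have h1 : cstrip a b = Icc a b ×ℂ Icc 0 (2 * Real.pi) := by
      ext ω
      simp only [cstrip, mem_ofPred_eq, Complex.mem_reProdIm, mem_Icc, and_assoc]
    rw [h1]
    exact isCompact_Icc.reProdIm isCompact_Icc
  have hl : LocallyLipschitzOn (cstrip a b) v := by
    intro ω hω
    obtain ⟨K, s, hs, h⟩ := hlip ω (lt_of_le_of_lt hω.2.1 hb)
    exact ⟨K, ball ω s, mem_nhdsWithin_of_mem_nhds (ball_mem_nhds ω hs), h⟩
  exact hl.exists_lipschitzOnWith_of_compact hc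

theorem measurableSet_strip (a b : ℝ) : MeasurableSet (strip a b) := by
  have h1 : IsOpen (strip a b) := by
    have h2 : strip a b = Ioo a b ×ℂ Ioo 0 (2 * Real.pi) := by
      ext ω
      simp only [strip, mem_ofPred_eq, Complex.mem_reProdIm, mem_Ioo, and_assoc]
    rw [h2]
    exact isOpen_Ioo.reProdIm isOpen_Ioo
  exact h1.measurableSet

private theorem pre_strip (a b : ℝ) : Complex.measurableEquivRealProd.symm ⁻¹' (strip a b) =
    Ioo a b ×ˢ Ioo 0 (2 * Real.pi) := by
  ext p
  simp only [strip, mem_preimage, mem_ofPred_eq, mem_prod, mem_Ioo,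
    Complex.measurableEquivRealProd_symm_apply, and_assoc]

private theorem toC (x y : ℝ) : Complex.measurableEquivRealProd.symm (x, y) = (x : ℂ) + y * I := by
  rw [Complex.measurableEquivRealProd_symm_apply]
  apply Complex.ext <;> simp

private theorem int_strip (F : ℂ → ℝ) (a b : ℝ) : ∫ ω in strip a b, F ω =
    ∫ p in Ioo a b ×ˢ Ioo 0 (2 * Real.pi), F ((p.1 : ℂ) + p.2 * I) := by
  rw [← pre_strip, ← (Complex.volume_preserving_equiv_real_prod.symm).setIntegral_preimage_emb
    (Complex.measurableEquivRealProd.symm.measurableEmbedding) F (strip a b)]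
  refine setIntegral_congr_fun
    (Complex.measurableEquivRealProd.symm.measurable (measurableSet_strip a b)) ?_
  rintro ⟨x, y⟩ _
  exact congrArg F (toC x y)

private theorem intble_strip {F : ℂ → ℝ} {a b : ℝ} (hF : IntegrableOn F (strip a b)) :
    IntegrableOn (fun p : ℝ × ℝ => F ((p.1 : ℂ) + p.2 * I)) (Ioo a b ×ˢ Ioo 0 (2 * Real.pi)) := by
  rw [← pre_strip]
  have h := ((Complex.volume_preserving_equiv_real_prod.symm).integrableOn_comp_preimage
    (Complex.measurableEquivRealProd.symm.measurableEmbedding) (f := F) (s := strip a b)).2 hF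
  refine h.congr_fun ?_
    (Complex.measurableEquivRealProd.symm.measurable (measurableSet_strip a b))
  rintro ⟨x, y⟩ _
  exact congrArg F (toC x y)

private theorem ivl {f : ℝ → ℝ} {a b : ℝ} (hab : a ≤ b) : ∫ x in a..b, f x = ∫ x in Ioo a b, f x := by
  rw [intervalIntegral.integral_of_le hab, integral_Ioc_eq_integral_Ioo]

/-- Fubini, `x` inside -/
theorem fub_x {F : ℂ → ℝ} {a b : ℝ} (hab : a < b) (hF : IntegrableOn F (strip a b)) :
    ∫ ω in strip a b, F ω = ∫ y in (0 : ℝ)..2 * Real.pi, ∫ x in a..b, F (x + y * I) := by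
  have hpi := Real.pi_pos
  rw [int_strip, ivl (by positivity)]
  have h := intble_strip hF
  rw [IntegrableOn, Measure.volume_eq_prod, ← Measure.prod_restrict] at h
  rw [Measure.volume_eq_prod, ← Measure.prod_restrict, integral_prod_symm _ h]
  refine integral_congr_ae (Filter.Eventually.of_forall fun y => ?_)
  exact (ivl hab.le).symm

/-- Fubini, `y` inside -/
theorem fub_y {F : ℂ → ℝ} {a b : ℝ} (hab : a < b) (hF : IntegrableOn F (strip a b)) :
    ∫ ω in strip a b, F ω = ∫ x in a..b, ∫ y in (0 : ℝ)..2 * Real.pi, F (x + y * I) := by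
  have hpi := Real.pi_pos
  rw [int_strip, ivl hab.le]
  have h := intble_strip hF
  rw [IntegrableOn, Measure.volume_eq_prod, ← Measure.prod_restrict] at h
  rw [Measure.volume_eq_prod, ← Measure.prod_restrict, integral_prod _ h]
  refine integral_congr_ae (Filter.Eventually.of_forall fun x => ?_)
  exact (ivl (by positivity)).symm

private theorem ae_p {P : ℂ → Prop} (hP : ∀ᵐ ω : ℂ, P ω) :
    ∀ᵐ p : ℝ × ℝ, P ((p.1 : ℂ) + p.2 * I) := by
  have h := (Complex.volume_preserving_equiv_real_prod.symm).quasiMeasurePreserving.ae hP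
  filter_upwards [h] with p hp
  rw [← toC]
  exact hp

/-- almost every point of almost every horizontal line -/
theorem ae_x {P : ℂ → Prop} (hP : ∀ᵐ ω : ℂ, P ω) : ∀ᵐ y : ℝ, ∀ᵐ x : ℝ, P (x + y * I) := by
  have h := ae_p hP
  rw [Measure.volume_eq_prod] at h
  have h1 := (Measure.measurePreserving_swap (μ := (volume : Measure ℝ))
    (ν := (volume : Measure ℝ))).quasiMeasurePreserving.ae h
  exact Measure.ae_ae_of_ae_prod h1

/-- almost every point of almost every vertical line -/
theorem ae_y {P : ℂ → Prop} (hP : ∀ᵐ ω : ℂ, P ω) : ∀ᵐ x : ℝ, ∀ᵐ y : ℝ, P (x + y * I) := by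
  have h := ae_p hP
  rw [Measure.volume_eq_prod] at h
  exact Measure.ae_ae_of_ae_prod h

/-- integration by parts for a Lipschitz function and a `C¹` function -/
theorem ibp {u g g' : ℝ → ℝ} {a b : ℝ} {K : NNReal} (hab : a ≤ b) (hu : LipschitzOnWith K u (Icc a b))
    (hg : ∀ x, HasDerivAt g (g' x) x) (hg' : Continuous g') :
    IntervalIntegrable (deriv u) volume a b ∧
      ∫ x in a..b, deriv u x * g x = u b * g b - u a * g a - ∫ x in a..b, u x * g' x := by
  have hu' : AbsolutelyContinuousOnInterval u a b := by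
    rw [← uIcc_of_le hab] at hu
    exact hu.absolutelyContinuousOnInterval
  have hd : deriv g = g' := funext fun x => (hg x).deriv
  have hgc : ContDiff ℝ 1 g := by
    rw [contDiff_one_iff_deriv, hd]
    exact ⟨fun x => (hg x).differentiableAt, hg'⟩
  have hg1 : AbsolutelyContinuousOnInterval g a b :=
    hgc.contDiffOn.absolutelyContinuousOnInterval
  refine ⟨hu'.intervalIntegrable_deriv, ?_⟩
  have h := hg1.integral_mul_deriv_eq_deriv_mul hu'
  rw [hd] at h
  simp only [mul_comm] at h ⊢
  exact h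

end Pool.Agent.CRD
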