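import Pool.Agent.CRD.LowA

/-! CRD/LowB.  The lower bound for the energy of `v` on the strip `a < Re ω < b`, `b < 0`.

With `p (x + i y) = -2 cosh (x - b) sin y`: `cross` is `∫ ∇v · ∇p` over the strip, `square` is `∫ |∇p|²`.
Put `H = v cosh (x - b) sin y`. On horizontal lines `D1 v px - 2 H` is the derivative of `v px` and on vertical lines
`D2 v py + 2 H` is the derivative of `v py`; the boundary terms at `x = b` and at `y = 0, 2π` cancel. -/

set_option autoImplicit false

open Complex MeasureTheory Metric Set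

namespace Pool.Agent.CRD

private theorem isCompact_cstrip (a b : ℝ) : IsCompact (cstrip a b) := by
  have h : cstrip a b = Icc a b ×ℂ Icc 0 (2 * Real.pi) := by
    ext ω
    simp only [cstrip, mem_setOf_eq, Complex.mem_reProdIm, mem_Icc]
    tauto
  rw [h]
  exact isCompact_Icc.reProdIm isCompact_Icc

private theorem strip_sub (a b : ℝ) : strip a b ⊆ cstrip a b := by
  intro ω hω
  exact ⟨hω.1.le, hω.2.1.le, hω.2.2.1.le, hω.2.2.2.le⟩

private theorem isOpen_strip (a b : ℝ) : IsOpen (strip a b) := by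
  have h : strip a b = Ioo a b ×ℂ Ioo 0 (2 * Real.pi) := by
    ext ω
    simp only [strip, mem_setOf_eq, Complex.mem_reProdIm, mem_Ioo]
    tauto
  rw [h]
  exact isOpen_Ioo.reProdIm isOpen_Ioo

private theorem ibp' {u g g' : ℝ → ℝ} {a b : ℝ} {K : NNReal} (hab : a ≤ b) (hu : LipschitzOnWith K u (Icc a b))
    (hg : ∀ x, HasDerivAt g (g' x) x) (hg' : Continuous g') :
    ∫ x in a..b, (deriv u x * g x + u x * g' x) = u b * g b - u a * g a := by
  obtain ⟨h1, h2⟩ := ibp hab hu hg hg'
  have hgc : Continuous g := continuous_iff_continuousAt.2 fun x => (hg x).continuousAt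
  have h3 : IntervalIntegrable (fun x => deriv u x * g x) volume a b :=
    h1.mul_continuousOn hgc.continuousOn
  have h4 : IntervalIntegrable (fun x => u x * g' x) volume a b := by
    apply ContinuousOn.intervalIntegrable
    rw [uIcc_of_le hab]
    exact hu.continuousOn.mul hg'.continuousOn
  rw [intervalIntegral.integral_add h3 h4, h2]
  ring

private theorem deriv_x {v : ℂ → ℝ} {x y : ℝ} (h : DifferentiableAt ℝ v (x + y * I)) :
    deriv (fun t : ℝ => v (t + y * I)) x = fderiv ℝ v (x + y * I) 1 := by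
  have h1 : HasDerivAt (fun t : ℝ => ((t : ℂ) + y * I)) 1 x := by
    have := (Complex.ofRealCLM.hasDerivAt (x := x)).add_const ((y : ℂ) * I)
    simpa using this
  exact (h.hasFDerivAt.comp_hasDerivAt x h1).deriv

private theorem deriv_y {v : ℂ → ℝ} {x y : ℝ} (h : DifferentiableAt ℝ v (x + y * I)) :
    deriv (fun t : ℝ => v (x + t * I)) y = fderiv ℝ v (x + y * I) I := by
  have h1 : HasDerivAt (fun t : ℝ => ((x : ℂ) + t * I)) I y := by
    have := ((Complex.ofRealCLM.hasDerivAt (x := y)).mul_const I).const_add (x : ℂ)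
    simpa using this
  exact (h.hasFDerivAt.comp_hasDerivAt y h1).deriv

private theorem lip_x {v : ℂ → ℝ} {a b : ℝ} {K : NNReal} (hK : LipschitzOnWith K v (cstrip a b)) {y : ℝ}
    (h0 : 0 ≤ y) (h1 : y ≤ 2 * Real.pi) :
    LipschitzOnWith K (fun x : ℝ => v (x + y * I)) (Icc a b) := by
  apply LipschitzOnWith.of_dist_le_mul
  intro s hs t ht
  have h := hK.dist_le_mul (s + y * I) (by simpa [cstrip] using ⟨hs.1, hs.2, h0, h1⟩)
    (t + y * I) (by simpa [cstrip] using ⟨ht.1, ht.2, h0, h1⟩)
  refine h.trans (le_of_eq ?_)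
  congr 1
  rw [dist_add_right, Complex.dist_eq, Real.dist_eq, ← Complex.ofReal_sub, Complex.norm_real,
    Real.norm_eq_abs]

private theorem lip_y {v : ℂ → ℝ} {a b : ℝ} {K : NNReal} (hK : LipschitzOnWith K v (cstrip a b)) {x : ℝ}
    (h0 : a ≤ x) (h1 : x ≤ b) :
    LipschitzOnWith K (fun y : ℝ => v (x + y * I)) (Icc 0 (2 * Real.pi)) := by
  apply LipschitzOnWith.of_dist_le_mul
  intro s hs t ht
  have h := hK.dist_le_mul (x + s * I) (by simpa [cstrip] using ⟨h0, h1, hs.1, hs.2⟩)
    (x + t * I) (by simpa [cstrip] using ⟨h0, h1, ht.1, ht.2⟩)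
  refine h.trans (le_of_eq ?_)
  congr 1
  rw [dist_add_left, Complex.dist_eq, Real.dist_eq, ← sub_mul, norm_mul, Complex.norm_I, mul_one,
    ← Complex.ofReal_sub, Complex.norm_real, Real.norm_eq_abs]

private theorem int_D {v : ℂ → ℝ} {a b : ℝ} {K : NNReal} (hK : LipschitzOnWith K v (cstrip a b)) (c : ℂ) :
    IntegrableOn (fun ω => fderiv ℝ v ω c) (strip a b) := by
  have hfin : volume (strip a b) < ⊤ :=
    (measure_mono (strip_sub a b)).trans_lt (isCompact_cstrip a b).measure_lt_top
  refine Measure.integrableOn_of_bounded (M := K * ‖c‖) hfin.ne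
    (measurable_fderiv_apply_const ℝ v c).aestronglyMeasurable ?_
  rw [ae_restrict_iff' (measurableSet_strip a b)]
  refine Filter.Eventually.of_forall fun ω hω => ?_
  have hn : cstrip a b ∈ nhds ω :=
    Filter.mem_of_superset ((isOpen_strip a b).mem_nhds hω) (strip_sub a b)
  have h1 := norm_fderiv_le_of_lipschitzOn ℝ hn hK
  exact ((fderiv ℝ v ω).le_opNorm c).trans (mul_le_mul_of_nonneg_right h1 (norm_nonneg c))

private theorem px_cont (b : ℝ) : Continuous (fun ω : ℂ => -2 * Real.sinh (ω.re - b) * Real.sin ω.im) :=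
  (continuous_const.mul (Real.continuous_sinh.comp (Complex.continuous_re.sub continuous_const))).mul
    (Real.continuous_sin.comp Complex.continuous_im)

private theorem py_cont (b : ℝ) : Continuous (fun ω : ℂ => -2 * Real.cosh (ω.re - b) * Real.cos ω.im) :=
  (continuous_const.mul (Real.continuous_cosh.comp (Complex.continuous_re.sub continuous_const))).mul
    (Real.continuous_cos.comp Complex.continuous_im)

private theorem ph_cont (b : ℝ) : Continuous (fun ω : ℂ => 2 * Real.cosh (ω.re - b) * Real.sin ω.im) :=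
  (continuous_const.mul (Real.continuous_cosh.comp (Complex.continuous_re.sub continuous_const))).mul
    (Real.continuous_sin.comp Complex.continuous_im)

theorem cross {v : ℂ → ℝ} (hlip : ∀ ω : ℂ, ω.re < 0 → ∃ K : NNReal, ∃ s > 0, LipschitzOnWith K v (ball ω s))
    (hper : ∀ ω, v (ω + 2 * Real.pi * I) = v ω)
    (hd : ∀ᵐ ω : ℂ, ω.re < 0 → DifferentiableAt ℝ v ω) {a b : ℝ} (hab : a < b) (hb : b < 0) :
    IntegrableOn (fun ω => fderiv ℝ v ω 1 * (-2 * Real.sinh (ω.re - b) * Real.sin ω.im) +
        fderiv ℝ v ω I * (-2 * Real.cosh (ω.re - b) * Real.cos ω.im)) (strip a b) ∧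
      ∫ ω in strip a b, (fderiv ℝ v ω 1 * (-2 * Real.sinh (ω.re - b) * Real.sin ω.im) +
        fderiv ℝ v ω I * (-2 * Real.cosh (ω.re - b) * Real.cos ω.im)) =
      -2 * Real.sinh (b - a) * ∫ y in (0 : ℝ)..2 * Real.pi, v (a + y * I) * Real.sin y := by
  obtain ⟨K, hK⟩ := lip_strip (a := a) hlip hb
  have hG1 : IntegrableOn (fun ω => fderiv ℝ v ω 1 * (-2 * Real.sinh (ω.re - b) * Real.sin ω.im))
      (strip a b) :=
    (int_D hK 1).mul_continuousOn_of_subset (px_cont b).continuousOn (measurableSet_strip a b)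
      (isCompact_cstrip a b) (strip_sub a b)
  have hG2 : IntegrableOn (fun ω => fderiv ℝ v ω I * (-2 * Real.cosh (ω.re - b) * Real.cos ω.im))
      (strip a b) :=
    (int_D hK I).mul_continuousOn_of_subset (py_cont b).continuousOn (measurableSet_strip a b)
      (isCompact_cstrip a b) (strip_sub a b)
  have hH : IntegrableOn (fun ω => v ω * (2 * Real.cosh (ω.re - b) * Real.sin ω.im)) (strip a b) :=
    ((hK.continuousOn.mul (ph_cont b).continuousOn).integrableOn_compact
      (isCompact_cstrip a b)).mono_set (strip_sub a b)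
  refine ⟨hG1.add hG2, ?_⟩
  have hF1 : IntegrableOn (fun ω => fderiv ℝ v ω 1 * (-2 * Real.sinh (ω.re - b) * Real.sin ω.im) -
      v ω * (2 * Real.cosh (ω.re - b) * Real.sin ω.im)) (strip a b) := hG1.sub hH
  have hF2 : IntegrableOn (fun ω => fderiv ℝ v ω I * (-2 * Real.cosh (ω.re - b) * Real.cos ω.im) +
      v ω * (2 * Real.cosh (ω.re - b) * Real.sin ω.im)) (strip a b) := hG2.add hH
  have hsplit : ∫ ω in strip a b, (fderiv ℝ v ω 1 * (-2 * Real.sinh (ω.re - b) * Real.sin ω.im) +
        fderiv ℝ v ω I * (-2 * Real.cosh (ω.re - b) * Real.cos ω.im)) =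
      (∫ ω in strip a b, (fderiv ℝ v ω 1 * (-2 * Real.sinh (ω.re - b) * Real.sin ω.im) -
        v ω * (2 * Real.cosh (ω.re - b) * Real.sin ω.im))) +
      ∫ ω in strip a b, (fderiv ℝ v ω I * (-2 * Real.cosh (ω.re - b) * Real.cos ω.im) +
        v ω * (2 * Real.cosh (ω.re - b) * Real.sin ω.im)) := by
    rw [← integral_add hF1 hF2]
    congr 1
    ext ω
    ring
  rw [hsplit, fub_x hab hF1, fub_y hab hF2]
  have h2pi : (0 : ℝ) < 2 * Real.pi := by positivity
  have hx : ∫ y in (0 : ℝ)..2 * Real.pi, ∫ x in a..b,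
      (fderiv ℝ v (x + y * I) 1 * (-2 * Real.sinh (((x : ℂ) + y * I).re - b) * Real.sin ((x : ℂ) + y * I).im) -
        v (x + y * I) * (2 * Real.cosh (((x : ℂ) + y * I).re - b) * Real.sin ((x : ℂ) + y * I).im)) =
      ∫ y in (0 : ℝ)..2 * Real.pi, -2 * Real.sinh (b - a) * (v (a + y * I) * Real.sin y) := by
    apply intervalIntegral.integral_congr_ae
    filter_upwards [ae_x hd] with y hy hym
    rw [uIoc_of_le h2pi.le] at hym
    have h1 : ∫ x in a..b,
        (fderiv ℝ v (x + y * I) 1 * (-2 * Real.sinh (((x : ℂ) + y * I).re - b) * Real.sin ((x : ℂ) + y * I).im) -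
          v (x + y * I) * (2 * Real.cosh (((x : ℂ) + y * I).re - b) * Real.sin ((x : ℂ) + y * I).im)) =
        ∫ x in a..b, (deriv (fun t : ℝ => v (t + y * I)) x * (-2 * Real.sinh (x - b) * Real.sin y) +
          v (x + y * I) * (-2 * Real.cosh (x - b) * Real.sin y)) := by
      apply intervalIntegral.integral_congr_ae
      filter_upwards [hy] with x hx hxm
      rw [uIoc_of_le hab.le] at hxm
      have hre : ((x : ℂ) + y * I).re = x := by simp
      have him : ((x : ℂ) + y * I).im = y := by simp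
      rw [deriv_x (hx (by rw [hre]; linarith [hxm.2])), hre, him]
      ring
    rw [h1, ibp' (u := fun t : ℝ => v (t + y * I)) (g := fun x => -2 * Real.sinh (x - b) * Real.sin y)
      (g' := fun x => -2 * Real.cosh (x - b) * Real.sin y) hab.le (lip_x hK hym.1.le hym.2)
      (fun x => by
        have h := ((Real.hasDerivAt_sinh (x - b)).comp x ((hasDerivAt_id x).sub_const b))
        have h' := (h.const_mul (-2)).mul_const (Real.sin y)
        simpa [mul_one] using h')
      (by fun_prop)]
    have hs : Real.sinh (a - b) = - Real.sinh (b - a) := by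
      rw [← Real.sinh_neg]; congr 1; ring
    simp only [sub_self, Real.sinh_zero, hs]
    ring
  have hy : ∫ x in a..b, ∫ y in (0 : ℝ)..2 * Real.pi,
      (fderiv ℝ v (x + y * I) I * (-2 * Real.cosh (((x : ℂ) + y * I).re - b) * Real.cos ((x : ℂ) + y * I).im) +
        v (x + y * I) * (2 * Real.cosh (((x : ℂ) + y * I).re - b) * Real.sin ((x : ℂ) + y * I).im)) =
      ∫ x in a..b, (0 : ℝ) := by
    apply intervalIntegral.integral_congr_ae
    filter_upwards [ae_y hd] with x hx hxm
    rw [uIoc_of_le hab.le] at hxm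
    have h1 : ∫ y in (0 : ℝ)..2 * Real.pi,
        (fderiv ℝ v (x + y * I) I * (-2 * Real.cosh (((x : ℂ) + y * I).re - b) * Real.cos ((x : ℂ) + y * I).im) +
          v (x + y * I) * (2 * Real.cosh (((x : ℂ) + y * I).re - b) * Real.sin ((x : ℂ) + y * I).im)) =
        ∫ y in (0 : ℝ)..2 * Real.pi, (deriv (fun t : ℝ => v (x + t * I)) y *
          (-2 * Real.cosh (x - b) * Real.cos y) +
          v (x + y * I) * (2 * Real.cosh (x - b) * Real.sin y)) := by
      apply intervalIntegral.integral_congr_ae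
      filter_upwards [hx] with y hy _
      have hre : ((x : ℂ) + y * I).re = x := by simp
      have him : ((x : ℂ) + y * I).im = y := by simp
      rw [deriv_y (hy (by rw [hre]; linarith [hxm.2])), hre, him]
    rw [h1, ibp' (u := fun t : ℝ => v (x + t * I)) (g := fun y => -2 * Real.cosh (x - b) * Real.cos y)
      (g' := fun y => 2 * Real.cosh (x - b) * Real.sin y) h2pi.le (lip_y hK hxm.1.le hxm.2)
      (fun y => by
        have h := (Real.hasDerivAt_cos y).const_mul (-2 * Real.cosh (x - b))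
        exact h.congr_deriv (by ring))
      (by fun_prop)]
    have h0 : v ((x : ℂ) + ((2 * Real.pi : ℝ) : ℂ) * I) = v ((x : ℂ) + ((0 : ℝ) : ℂ) * I) := by
      rw [← hper ((x : ℂ) + ((0 : ℝ) : ℂ) * I)]
      congr 1
      push_cast
      ring
    simp only [Real.cos_two_pi, Real.cos_zero]
    rw [h0]
    ring
  rw [hx, hy, intervalIntegral.integral_const_mul]
  simp

theorem square {a b : ℝ} (hab : a < b) :
    IntegrableOn (fun ω : ℂ => (-2 * Real.sinh (ω.re - b) * Real.sin ω.im) ^ 2 +
        (-2 * Real.cosh (ω.re - b) * Real.cos ω.im) ^ 2) (strip a b) ∧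
      ∫ ω in strip a b, ((-2 * Real.sinh (ω.re - b) * Real.sin ω.im) ^ 2 +
        (-2 * Real.cosh (ω.re - b) * Real.cos ω.im) ^ 2) = 2 * Real.pi * Real.sinh (2 * (b - a)) := by
  have hI : IntegrableOn (fun ω : ℂ => (-2 * Real.sinh (ω.re - b) * Real.sin ω.im) ^ 2 +
      (-2 * Real.cosh (ω.re - b) * Real.cos ω.im) ^ 2) (strip a b) :=
    ((((px_cont b).pow 2).add ((py_cont b).pow 2)).continuousOn.integrableOn_compact
      (isCompact_cstrip a b)).mono_set (strip_sub a b)
  refine ⟨hI, ?_⟩
  rw [fub_y hab hI]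
  have h1 : ∀ x : ℝ, ∫ y in (0 : ℝ)..2 * Real.pi,
      ((-2 * Real.sinh (((x : ℂ) + y * I).re - b) * Real.sin ((x : ℂ) + y * I).im) ^ 2 +
        (-2 * Real.cosh (((x : ℂ) + y * I).re - b) * Real.cos ((x : ℂ) + y * I).im) ^ 2) =
      4 * Real.pi * Real.cosh (2 * (x - b)) := by
    intro x
    have h2 : ∀ y : ℝ, (-2 * Real.sinh (((x : ℂ) + y * I).re - b) * Real.sin ((x : ℂ) + y * I).im) ^ 2 +
        (-2 * Real.cosh (((x : ℂ) + y * I).re - b) * Real.cos ((x : ℂ) + y * I).im) ^ 2 =
        4 * Real.sinh (x - b) ^ 2 * Real.sin y ^ 2 + 4 * Real.cosh (x - b) ^ 2 * Real.cos y ^ 2 := by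
      intro y
      have hre : ((x : ℂ) + y * I).re = x := by simp
      have him : ((x : ℂ) + y * I).im = y := by simp
      rw [hre, him]
      ring
    simp_rw [h2]
    rw [intervalIntegral.integral_add (by apply Continuous.intervalIntegrable; fun_prop)
      (by apply Continuous.intervalIntegrable; fun_prop), intervalIntegral.integral_const_mul,
      intervalIntegral.integral_const_mul, integral_sin_sq, integral_cos_sq, Real.cosh_two_mul]
    simp
    ring
  simp_rw [h1]
  rw [intervalIntegral.integral_const_mul]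
  have h3 : ∫ x in a..b, Real.cosh (2 * (x - b)) = Real.sinh (2 * (b - a)) / 2 := by
    have hd : ∀ x ∈ uIcc a b, HasDerivAt (fun x => Real.sinh (2 * (x - b)) / 2)
        (Real.cosh (2 * (x - b))) x := by
      intro x _
      have h := ((Real.hasDerivAt_sinh (2 * (x - b))).comp x
        (((hasDerivAt_id x).sub_const b).const_mul 2)).div_const 2
      exact h.congr_deriv (by ring)
    rw [intervalIntegral.integral_eq_sub_of_hasDerivAt hd
      (by apply Continuous.intervalIntegrable; fun_prop)]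
    have : Real.sinh (2 * (a - b)) = - Real.sinh (2 * (b - a)) := by
      rw [← Real.sinh_neg]; congr 1; ring
    simp only [sub_self, mul_zero, Real.sinh_zero, this]
    ring
  rw [h3]
  ring

end Pool.Agent.CRD
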