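import Pool.Agent.CRD.SFac
import Pool.Agent.CRD.CV

/-! CRD/OmA.  The weighted area of the part of the cardioid which is not covered by `f (B)`, `B = closedBall 0 (r²)`, in terms of the omitted set
of `Ph`.

Change of variables from the right half disc (`w = M (s² + s⁴/2)`) and to the
values of `1/s - s`, which are omitted by `Ph` together with their negatives.  -/

set_option autoImplicit false

open Complex MeasureTheory Metric Set

namespace Pool.Agent.CRD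

variable {M : ℝ} {f k : ℂ → ℂ}

/-- the part of the right half disc which is not covered -/
def Sp (M : ℝ) (f : ℂ → ℂ) (r : ℝ) : Set ℂ :=
  {s | 0 < s.re ∧ ‖s‖ < 1 ∧ (M : ℂ) * (s ^ 2 + s ^ 4 / 2) ∉ f '' closedBall 0 (r ^ 2)}

private theorem om_closed (D : Dat M f k) {r : ℝ} (hr1 : r ^ 2 < 1) :
    IsClosed (f '' closedBall 0 (r ^ 2)) := by
  have hsub : closedBall (0 : ℂ) (r ^ 2) ⊆ ball 0 1 := closedBall_subset_ball hr1
  have h1 : ContinuousOn f (closedBall 0 (r ^ 2)) := by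
    have h2 : ContinuousOn (fun u => u * (k u) ^ 2) (closedBall 0 (r ^ 2)) :=
      continuousOn_id.mul ((D.kd.continuousOn.mono hsub).pow 2)
    exact h2.congr fun u hu => D.fk u (hsub hu)
  exact ((isCompact_closedBall (0 : ℂ) (r ^ 2)).image_of_continuousOn h1).isClosed

theorem Sp_meas (D : Dat M f k) {r : ℝ} (hr1 : r ^ 2 < 1) : MeasurableSet (Sp M f r) := by
  have h1 : IsOpen {s : ℂ | 0 < s.re} := isOpen_lt continuous_const Complex.continuous_re
  have h2 : IsOpen {s : ℂ | ‖s‖ < 1} := isOpen_lt continuous_norm continuous_const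
  have h3 : Continuous fun s : ℂ => (M : ℂ) * (s ^ 2 + s ^ 4 / 2) := by fun_prop
  have h4 := (om_closed D hr1).isOpen_compl.preimage h3
  exact (h1.inter (h2.inter h4)).measurableSet

private theorem om_re {s : ℂ} (h : 0 < s.re) : s ≠ 0 := by
  rintro rfl
  simp at h

private theorem om_et (hM : 0 < M) {s : ℂ} (hs : ‖s‖ < 1) :
    et M ((M : ℂ) * (s ^ 2 + s ^ 4 / 2)) = s ^ 2 := by
  have h1 : ‖s ^ 2‖ < 1 := by
    rw [norm_pow]
    exact pow_lt_one₀ (norm_nonneg _) hs two_ne_zero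
  have h2 := et_Cd hM h1
  rw [← h2]
  congr 2
  rw [h2]
  ring

private theorem om_inj (hM : 0 < M) (r : ℝ) :
    InjOn (fun s : ℂ => (M : ℂ) * (s ^ 2 + s ^ 4 / 2)) (Sp M f r) := by
  intro s hs t ht h
  have h1 : s ^ 2 = t ^ 2 := by
    rw [← om_et hM hs.2.1, ← om_et hM ht.2.1]
    exact congrArg (et M) h
  rcases sq_eq_sq_iff_eq_or_eq_neg.1 h1 with h2 | h2
  · exact h2
  · have h3 := congrArg Complex.re h2
    rw [Complex.neg_re] at h3
    have h4 := hs.1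
    have h5 := ht.1
    linarith

private theorem om_qinj (r : ℝ) : InjOn (fun s : ℂ => s⁻¹ - s) (Sp M f r) :=
  fun _ hs _ ht h => Q_inj hs.2.1 ht.2.1 (om_re hs.1) (om_re ht.1) h

private theorem om_qder {s : ℂ} (hs : s ≠ 0) :
    HasDerivAt (fun s : ℂ => s⁻¹ - s) (-(s ^ 2)⁻¹ - 1) s :=
  (hasDerivAt_inv hs).sub (hasDerivAt_id s)

private theorem om_wder (s : ℂ) :
    HasDerivAt (fun s : ℂ => (M : ℂ) * (s ^ 2 + s ^ 4 / 2)) (2 * M * s * (1 + s ^ 2)) s := by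
  have h1 := ((hasDerivAt_pow 2 s).add ((hasDerivAt_pow 4 s).div_const 2)).const_mul (M : ℂ)
  refine h1.congr_deriv ?_
  push_cast
  ring

private theorem om_weight (hM : 0 < M) {s : ℂ} (hs : ‖s‖ < 1) (h0 : s ≠ 0) :
    ENNReal.ofReal (‖deriv (fun s : ℂ => (M : ℂ) * (s ^ 2 + s ^ 4 / 2)) s‖ ^ 2) *
      ENNReal.ofReal (rho M ((M : ℂ) * (s ^ 2 + s ^ 4 / 2))) =
    ENNReal.ofReal (4 * M ^ 2) * ENNReal.ofReal (‖deriv (fun s : ℂ => s⁻¹ - s) s‖ ^ 2) := by
  rw [(om_wder s).deriv, (om_qder h0).deriv, ← ENNReal.ofReal_mul (by positivity),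
    ← ENNReal.ofReal_mul (by positivity), rho, om_et hM hs]
  congr 1
  have hn : 0 < ‖s‖ := norm_pos_iff.2 h0
  have h1 : -(s ^ 2)⁻¹ - 1 = -((1 + s ^ 2) / s ^ 2) := by
    field_simp
    ring
  rw [h1, norm_neg, norm_div, norm_mul, norm_mul, norm_mul, norm_pow, Complex.norm_real,
    Real.norm_of_nonneg hM.le, Complex.norm_ofNat]
  field_simp
  ring

private theorem om_im : ∀ᵐ w : ℂ, w.im ≠ 0 := by
  have h1 : (LinearMap.ker Complex.imLm : Submodule ℝ ℂ) ≠ ⊤ := by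
    intro h
    have h2 : Complex.I ∈ (LinearMap.ker Complex.imLm : Submodule ℝ ℂ) := by
      rw [h]
      exact Submodule.mem_top
    rw [LinearMap.mem_ker] at h2
    simp at h2
  have h2 := Measure.addHaar_submodule (volume : Measure ℂ) _ h1
  rw [ae_iff]
  refine measure_mono_null ?_ h2
  intro w hw
  have h3 : w.im = 0 := not_not.1 hw
  exact LinearMap.mem_ker.2 h3

private theorem om_cover (hM : 0 < M) (r : ℝ) {w : ℂ} (hw : w ∈ Cd M \ f '' closedBall 0 (r ^ 2))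
    (hi : w.im ≠ 0) : w ∈ (fun s : ℂ => (M : ℂ) * (s ^ 2 + s ^ 4 / 2)) '' Sp M f r := by
  have h1 := et_eq hM w
  have h2 := (mem_Cd hM w).1 hw.1
  have h3 : (et M w).im ≠ 0 := by
    intro h4
    apply hi
    have h5 : et M w = ((et M w).re : ℂ) := by
      apply Complex.ext
      · simp
      · rw [h4]
        simp
    rw [← h1, h5]
    have h6 : (M : ℂ) * (((et M w).re : ℂ) + ((et M w).re : ℂ) ^ 2 / 2) =
        ((M * ((et M w).re + (et M w).re ^ 2 / 2) : ℝ) : ℂ) := by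
      push_cast
      ring
    rw [h6]
    exact Complex.ofReal_im _
  have h4 : et M w ∈ slitPlane := Or.inr h3
  have h5 := sq_sq (et M w)
  have h6 : (M : ℂ) * (sq (et M w) ^ 2 + sq (et M w) ^ 4 / 2) = w := by
    have h7 : sq (et M w) ^ 4 = et M w ^ 2 := by
      rw [← h5, ← pow_mul, h5]
    rw [h7, h5, h1]
  refine ⟨sq (et M w), ⟨sq_re_pos h4, ?_, ?_⟩, h6⟩
  · have h7 : ‖sq (et M w)‖ ^ 2 < 1 := by
      rw [← norm_pow, h5]
      exact h2
    by_contra h8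
    rw [not_lt] at h8
    have h9 : 1 ≤ ‖sq (et M w)‖ ^ 2 := one_le_pow₀ h8
    linarith
  · rw [h6]
    exact hw.2

theorem half (D : Dat M f k) {r : ℝ} (hr : 0 < r) (hr1 : r ^ 2 < 1) :
    ∫⁻ w in Cd M \ f '' closedBall 0 (r ^ 2), ENNReal.ofReal (rho M w) ≤
      ENNReal.ofReal (4 * M ^ 2) * volume ((fun s : ℂ => s⁻¹ - s) '' Sp M f r) := by
  have hS := Sp_meas D hr1
  have hM := D.hM
  have h1 : ∫⁻ w in Cd M \ f '' closedBall 0 (r ^ 2), ENNReal.ofReal (rho M w) ≤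
      ∫⁻ w in (fun s : ℂ => (M : ℂ) * (s ^ 2 + s ^ 4 / 2)) '' Sp M f r,
        ENNReal.ofReal (rho M w) := by
    apply lintegral_mono_set'
    filter_upwards [om_im] with w hw hw2
    exact om_cover hM r hw2 hw
  refine h1.trans (le_of_eq ?_)
  rw [cv_lint hS (fun s _ => (om_wder s).differentiableAt) (om_inj hM r),
    cv_vol hS (fun s hs => (om_qder (om_re hs.1)).differentiableAt) (om_qinj r),
    ← lintegral_const_mul' _ _ ENNReal.ofReal_ne_top]
  exact setLIntegral_congr_fun hS fun s hs => om_weight hM hs.2.1 (om_re hs.1)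

private theorem om_omit (D : Dat M f k) {r : ℝ} (hr1 : r ^ 2 < 1)
    (hsub : f '' closedBall 0 (r ^ 2) ⊆ Cd M) {s : ℂ} (h0 : s ≠ 0) (hs : ‖s‖ < 1)
    (hW : (M : ℂ) * (s ^ 2 + s ^ 4 / 2) ∉ f '' closedBall 0 (r ^ 2)) :
    s⁻¹ - s ∈ Om M k r := by
  rintro ⟨z, ⟨hz, hz0⟩, hPh⟩
  have hM := D.hM
  have hz0' : z ≠ 0 := hz0
  rw [mem_closedBall_zero_iff] at hz
  have h1 : z ^ 2 ∈ closedBall (0 : ℂ) (r ^ 2) := by
    rw [mem_closedBall_zero_iff, norm_pow]
    exact pow_le_pow_left₀ (norm_nonneg _) hz 2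
  have h2 : z ^ 2 ∈ ball (0 : ℂ) 1 := closedBall_subset_ball hr1 h1
  have h3 : fh k z ^ 2 = f (z ^ 2) := by
    rw [D.fk _ h2, fh, mul_pow]
  have h4 : f (z ^ 2) ∈ f '' closedBall 0 (r ^ 2) := ⟨_, h1, rfl⟩
  have h5 : ‖ss M (fh k z)‖ < 1 := ss_norm hM (by rw [h3]; exact hsub h4)
  have h6 : ss M (fh k z) ≠ 0 := by
    rw [Ne, ss_zero_iff hM, fh]
    exact mul_ne_zero hz0' (D.kne _ h2)
  have h7 : ss M (fh k z) = s := Q_inj h5 hs h6 h0 hPh
  have h8 : s ^ 2 = et M (f (z ^ 2)) := by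
    rw [← h7, ss_sq hM, h3]
  apply hW
  have h9 : (M : ℂ) * (s ^ 2 + s ^ 4 / 2) = f (z ^ 2) := by
    rw [← et_eq hM (f (z ^ 2)), ← h8]
    ring
  rw [h9]
  exact h4

theorem twice (D : Dat M f k) {r : ℝ} (hr : 0 < r) (hr1 : r ^ 2 < 1)
    (hsub : f '' closedBall 0 (r ^ 2) ⊆ Cd M) :
    2 * volume ((fun s : ℂ => s⁻¹ - s) '' Sp M f r) ≤ volume (Om M k r) := by
  have hS := Sp_meas D hr1
  set A : Set ℂ := (fun s : ℂ => s⁻¹ - s) '' Sp M f r with hA
  have hAm : MeasurableSet A :=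
    cv_meas hS (fun s hs => (om_qder (om_re hs.1)).differentiableAt) (om_qinj r)
  have hdis : Disjoint A (Neg.neg ⁻¹' A) := by
    rw [Set.disjoint_left]
    rintro _ ⟨s, hs, rfl⟩ ⟨t, ht, h⟩
    have h1 : s⁻¹ - s = (-t)⁻¹ - (-t) := by
      have h2 : t⁻¹ - t = -(s⁻¹ - s) := h
      rw [inv_neg]
      linear_combination h2
    have h3 : s = -t := Q_inj hs.2.1 (by rw [norm_neg]; exact ht.2.1) (om_re hs.1)
      (neg_ne_zero.2 (om_re ht.1)) h1
    have h4 := congrArg Complex.re h3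
    rw [Complex.neg_re] at h4
    have h5 := hs.1
    have h6 := ht.1
    linarith
  have hneg : volume (Neg.neg ⁻¹' A) = volume A := Measure.measure_preimage_neg volume A
  have hsubA : A ∪ Neg.neg ⁻¹' A ⊆ Om M k r := by
    rintro w (⟨s, hs, rfl⟩ | ⟨s, hs, h⟩)
    · exact om_omit D hr1 hsub (om_re hs.1) hs.2.1 hs.2.2
    · have h1 : w = (-s)⁻¹ - (-s) := by
        have h2 : s⁻¹ - s = -w := h
        rw [inv_neg]
        linear_combination h2
      rw [h1]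
      refine om_omit D hr1 hsub (neg_ne_zero.2 (om_re hs.1)) (by rw [norm_neg]; exact hs.2.1) ?_
      have h3 : (M : ℂ) * ((-s) ^ 2 + (-s) ^ 4 / 2) = (M : ℂ) * (s ^ 2 + s ^ 4 / 2) := by ring
      rw [h3]
      exact hs.2.2
  calc 2 * volume A = volume A + volume (Neg.neg ⁻¹' A) := by rw [hneg, two_mul]
    _ = volume (A ∪ Neg.neg ⁻¹' A) := (measure_union hdis (measurable_neg hAm)).symm
    _ ≤ volume (Om M k r) := measure_mono hsubA

theorem om_int (D : Dat M f k) {r : ℝ} (hr : 0 < r) (hr1 : r ^ 2 < 1)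
    (hsub : f '' closedBall 0 (r ^ 2) ⊆ Cd M) :
    ∫⁻ w in Cd M \ f '' closedBall 0 (r ^ 2), ENNReal.ofReal (rho M w) ≤
      ENNReal.ofReal (2 * M ^ 2) * volume (Om M k r) := by
  refine (half D hr hr1).trans ?_
  have h1 : ENNReal.ofReal (4 * M ^ 2) = ENNReal.ofReal (2 * M ^ 2) * 2 := by
    have h2 : (4 : ℝ) * M ^ 2 = 2 * M ^ 2 * 2 := by ring
    rw [h2, ENNReal.ofReal_mul (by positivity)]
    congr 1
    exact ENNReal.ofReal_ofNat 2
  rw [h1, mul_assoc]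
  gcongr
  exact twice D hr hr1 hsub

end Pool.Agent.CRD
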