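import Pool.Agent.CRD.StabF

/-! # CRD/Opt: the exponent of the stability theorem is optimal

The functions `z + z²/2 + t z³`, `0 < t ≤ 1/20`, are univalent in the unit disc, `a₂ = 1/2`, `A = (3π/2) (1 + 2 t²)`, so that
`(2 - |a₂|) sqrt A ≤ c* (1 + t²)`, while the symmetric difference of the image and the cardioid of the same area has area at least `t/160`. -/

set_option autoImplicit false

open Complex MeasureTheory Metric Set

namespace Pool.Agent.CRD

/-- the test functions -/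
noncomputable def ft (t : ℝ) (z : ℂ) : ℂ := z + z ^ 2 / 2 + (t : ℂ) * z ^ 3

private theorem op_deriv (t : ℝ) (z : ℂ) : HasDerivAt (ft t) (1 + z + 3 * (t : ℂ) * z ^ 2) z := by
  have h1 : HasDerivAt (fun z : ℂ => z + z ^ 2 / 2 + (t : ℂ) * z ^ 3)
      (1 + (2 : ℕ) * z ^ (2 - 1) / 2 + (t : ℂ) * ((3 : ℕ) * z ^ (3 - 1))) z :=
    ((hasDerivAt_id z).add ((hasDerivAt_pow 2 z).div_const 2)).add ((hasDerivAt_pow 3 z).const_mul _)
  have h2 : (1 + (2 : ℕ) * z ^ (2 - 1) / 2 + (t : ℂ) * ((3 : ℕ) * z ^ (3 - 1)) : ℂ) =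
      1 + z + 3 * (t : ℂ) * z ^ 2 := by
    push_cast
    ring
  rw [h2] at h1
  exact h1

theorem ft_deriv (t : ℝ) : deriv (ft t) = fun z => 1 + z + 3 * (t : ℂ) * z ^ 2 := by
  funext z
  exact (op_deriv t z).deriv

theorem ft_diff (t : ℝ) : DifferentiableOn ℂ (ft t) (ball 0 1) := fun z _ =>
  (op_deriv t z).differentiableAt.differentiableWithinAt

theorem ft_a2 (t : ℝ) : deriv (deriv (ft t)) 0 / 2 = 1 / 2 := by
  rw [ft_deriv]
  have h1 : HasDerivAt (fun z : ℂ => 1 + z + 3 * (t : ℂ) * z ^ 2)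
      (0 + 1 + 3 * (t : ℂ) * ((2 : ℕ) * (0 : ℂ) ^ (2 - 1))) 0 :=
    ((hasDerivAt_const (0 : ℂ) (1 : ℂ)).add (hasDerivAt_id 0)).add ((hasDerivAt_pow 2 0).const_mul _)
  rw [h1.deriv]
  norm_num

private theorem op_re {z : ℂ} (hz : ‖z‖ < 1) : ‖1 + z‖ ^ 2 < 2 * (1 + z.re) := by
  have h1 : ‖z‖ ^ 2 < 1 := by nlinarith [norm_nonneg z]
  rw [← Complex.normSq_eq_norm_sq, Complex.normSq_apply] at *
  simp only [Complex.add_re, Complex.add_im, Complex.one_re, Complex.one_im]
  nlinarith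

theorem ft_inj {t : ℝ} (h0 : 0 < t) (h1 : t ≤ 1 / 20) : InjOn (ft t) (ball 0 1) := by
  intro z1 hz1 z2 hz2 heq
  by_contra hne
  rw [mem_ball_zero_iff] at hz1 hz2
  have h2 : (z1 - z2) * (1 + (z1 + z2) / 2 + (t : ℂ) * (z1 ^ 2 + z1 * z2 + z2 ^ 2)) = 0 := by
    unfold ft at heq
    linear_combination heq
  have h3 : 1 + (z1 + z2) / 2 + (t : ℂ) * (z1 ^ 2 + z1 * z2 + z2 ^ 2) = 0 := by
    rcases mul_eq_zero.1 h2 with h | h
    · exact absurd (sub_eq_zero.1 h) hne
    · exact h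
  have h4 : (1 + (z1 + z2) / 2 + (t : ℂ) * (z1 ^ 2 + z1 * z2 + z2 ^ 2)).re = 0 := by
    rw [h3, Complex.zero_re]
  have e1 : (1 + (z1 + z2) / 2 + (t : ℂ) * (z1 ^ 2 + z1 * z2 + z2 ^ 2)).re =
      1 + (z1.re + z2.re) / 2 + t * (z1 ^ 2 + z1 * z2 + z2 ^ 2).re := by
    rw [Complex.add_re, Complex.add_re, Complex.re_ofReal_mul, Complex.one_re]
    have : ((z1 + z2) / 2).re = (z1.re + z2.re) / 2 := by
      rw [← Complex.add_re]
      exact Complex.div_ofNat_re (z1 + z2) 2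
    rw [this]
  have e2 : (z1 ^ 2 + z1 * z2 + z2 ^ 2).re = z1.re ^ 2 - z1.im ^ 2 + (z1.re * z2.re - z1.im * z2.im) +
      (z2.re ^ 2 - z2.im ^ 2) := by
    simp only [pow_two, Complex.add_re, Complex.mul_re]
  have b1 := op_re hz1
  have b2 := op_re hz2
  rw [← Complex.normSq_eq_norm_sq, Complex.normSq_apply] at b1 b2
  simp only [Complex.add_re, Complex.add_im, Complex.one_re, Complex.one_im] at b1 b2
  rw [e1, e2] at h4
  set x1 := z1.re
  set y1 := z1.im
  set x2 := z2.re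
  set y2 := z2.im
  have hs1 : 0 < 1 + x1 := by nlinarith [sq_nonneg (1 + x1), sq_nonneg (0 + y1)]
  have hs2 : 0 < 1 + x2 := by nlinarith [sq_nonneg (1 + x2), sq_nonneg (0 + y2)]
  -- lower bound of the real part of the quadratic form
  have e3 : 3 - 6 * ((1 + x1) + (1 + x2)) ≤
      x1 ^ 2 - y1 ^ 2 + (x1 * x2 - y1 * y2) + (x2 ^ 2 - y2 ^ 2) := by
    nlinarith [sq_nonneg ((1 + x1) + (1 + x2)), sq_nonneg (y1 - y2), sq_nonneg (y1 + y2),
      sq_nonneg ((1 + x1) - (1 + x2))]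
  have e4 : t * (3 - 6 * ((1 + x1) + (1 + x2))) ≤
      t * (x1 ^ 2 - y1 ^ 2 + (x1 * x2 - y1 * y2) + (x2 ^ 2 - y2 ^ 2)) :=
    mul_le_mul_of_nonneg_left e3 h0.le
  nlinarith

private theorem op_rot (F : ℂ → ℝ) (a : Circle) : ∫ z, F (a * z) = ∫ z, F z := by
  have h := (LinearIsometryEquiv.measurePreserving (rotation a)).integral_comp
    (rotation a).toHomeomorph.measurableEmbedding F
  exact h

private theorem op_four (t : ℝ) (z : ℂ) :
    ‖1 + z + 3 * (t : ℂ) * z ^ 2‖ ^ 2 + ‖1 + -z + 3 * (t : ℂ) * (-z) ^ 2‖ ^ 2 +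
      (‖1 + Complex.I * z + 3 * (t : ℂ) * (Complex.I * z) ^ 2‖ ^ 2 +
        ‖1 + -(Complex.I * z) + 3 * (t : ℂ) * (-(Complex.I * z)) ^ 2‖ ^ 2) =
      4 * (1 + ‖z‖ ^ 2 + 9 * t ^ 2 * (‖z‖ ^ 2) ^ 2) := by
  simp only [← Complex.normSq_eq_norm_sq, Complex.normSq_apply]
  simp only [pow_two, Complex.add_re, Complex.add_im, Complex.mul_re, Complex.mul_im, Complex.neg_re,
    Complex.neg_im, Complex.one_re, Complex.one_im, Complex.I_re, Complex.I_im, Complex.ofReal_re,
    Complex.ofReal_im, Complex.re_ofNat, Complex.im_ofNat]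
  ring

theorem ft_Ar (t : ℝ) : Ar (ft t) = 3 * Real.pi / 2 * (1 + 2 * t ^ 2) := by
  set F : ℂ → ℝ := (ball (0 : ℂ) 1).indicator fun z => ‖1 + z + 3 * (t : ℂ) * z ^ 2‖ ^ 2 with hF
  have hcont : Continuous fun z : ℂ => ‖1 + z + 3 * (t : ℂ) * z ^ 2‖ ^ 2 := by fun_prop
  have hint : IntegrableOn (fun z : ℂ => ‖1 + z + 3 * (t : ℂ) * z ^ 2‖ ^ 2) (ball 0 1) :=
    (hcont.continuousOn.integrableOn_compact (isCompact_closedBall (0 : ℂ) 1)).mono_set
      ball_subset_closedBall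
  have hFi : Integrable F := by
    rw [hF, integrable_indicator_iff measurableSet_ball]
    exact hint
  have hFA : ∫ z, F z = Ar (ft t) := by
    rw [hF, integral_indicator measurableSet_ball]
    unfold Ar
    rw [ft_deriv]
  set a : Circle := ⟨Complex.I, mem_sphere_zero_iff_norm.2 Complex.norm_I⟩ with ha
  have hI : ∫ z, F (Complex.I * z) = ∫ z, F z := op_rot F a
  have hIi : Integrable fun z => F (Complex.I * z) := by
    have h := (LinearIsometryEquiv.measurePreserving (rotation a)).integrable_comp_of_integrable hFi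
    exact h
  have hneg : ∫ z, F (-z) = ∫ z, F z := integral_neg_eq_self F volume
  have hInn : ∫ z, F (-(Complex.I * z)) = ∫ z, F z := by
    have h := integral_neg_eq_self (fun z => F (Complex.I * z)) volume
    have h2 : (fun z => F (Complex.I * -z)) = fun z => F (-(Complex.I * z)) := by
      funext z
      rw [mul_neg]
    rw [h2] at h
    rw [h, hI]
  have hInni : Integrable fun z => F (-(Complex.I * z)) := by
    have h := hIi.comp_neg
    have h2 : (fun z => F (Complex.I * -z)) = fun z => F (-(Complex.I * z)) := by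
      funext z
      rw [mul_neg]
    rw [h2] at h
    exact h
  have hsum : ∫ z, (F z + F (-z) + (F (Complex.I * z) + F (-(Complex.I * z)))) =
      4 * Ar (ft t) := by
    have j1 : ∫ z, (F z + F (-z)) = (∫ z, F z) + ∫ z, F (-z) := integral_add hFi hFi.comp_neg
    have j2 : ∫ z, (F (Complex.I * z) + F (-(Complex.I * z))) =
        (∫ z, F (Complex.I * z)) + ∫ z, F (-(Complex.I * z)) := integral_add hIi hInni
    have j3 : ∫ z, (F z + F (-z) + (F (Complex.I * z) + F (-(Complex.I * z)))) =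
        (∫ z, (F z + F (-z))) + ∫ z, (F (Complex.I * z) + F (-(Complex.I * z))) :=
      integral_add (hFi.add hFi.comp_neg) (hIi.add hInni)
    rw [j3, j1, j2, hneg, hI, hInn, hFA]
    ring
  have hpt : ∀ z : ℂ, F z + F (-z) + (F (Complex.I * z) + F (-(Complex.I * z))) =
      (fun y : ℝ => (Iio (1 : ℝ)).indicator
        (fun y => 4 * (1 + y ^ 2 + 9 * t ^ 2 * (y ^ 2) ^ 2)) y) ‖z‖ := by
    intro z
    by_cases h : ‖z‖ < 1
    · have m1 : z ∈ ball (0 : ℂ) 1 := mem_ball_zero_iff.2 h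
      have m2 : -z ∈ ball (0 : ℂ) 1 := by rw [mem_ball_zero_iff, norm_neg]; exact h
      have m3 : Complex.I * z ∈ ball (0 : ℂ) 1 := by
        rw [mem_ball_zero_iff, norm_mul, Complex.norm_I, one_mul]; exact h
      have m4 : -(Complex.I * z) ∈ ball (0 : ℂ) 1 := by
        rw [mem_ball_zero_iff, norm_neg, norm_mul, Complex.norm_I, one_mul]; exact h
      have m5 : ‖z‖ ∈ Iio (1 : ℝ) := h
      simp only [hF, indicator_of_mem m1, indicator_of_mem m2, indicator_of_mem m3,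
        indicator_of_mem m4, indicator_of_mem m5]
      exact op_four t z
    · have m1 : z ∉ ball (0 : ℂ) 1 := fun h' => h (mem_ball_zero_iff.1 h')
      have m2 : -z ∉ ball (0 : ℂ) 1 := by rw [mem_ball_zero_iff, norm_neg]; exact h
      have m3 : Complex.I * z ∉ ball (0 : ℂ) 1 := by
        rw [mem_ball_zero_iff, norm_mul, Complex.norm_I, one_mul]; exact h
      have m4 : -(Complex.I * z) ∉ ball (0 : ℂ) 1 := by
        rw [mem_ball_zero_iff, norm_neg, norm_mul, Complex.norm_I, one_mul]; exact h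
      have m5 : ‖z‖ ∉ Iio (1 : ℝ) := h
      simp only [hF, indicator_of_notMem m1, indicator_of_notMem m2, indicator_of_notMem m3,
        indicator_of_notMem m4, indicator_of_notMem m5]
      ring
  have hpol := integral_fun_norm_addHaar (E := ℂ) (F := ℝ) volume
    (fun y : ℝ => (Iio (1 : ℝ)).indicator (fun y => 4 * (1 + y ^ 2 + 9 * t ^ 2 * (y ^ 2) ^ 2)) y)
  rw [← integral_congr_ae (Filter.Eventually.of_forall hpt), hsum, Complex.finrank_real_complex]
    at hpol
  have hball : (volume : Measure ℂ).real (ball 0 1) = Real.pi := by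
    rw [Measure.real, Complex.volume_ball]
    simp
  have hone : ∫ y in Ioi (0 : ℝ), y ^ (2 - 1) • (Iio (1 : ℝ)).indicator
      (fun y => 4 * (1 + y ^ 2 + 9 * t ^ 2 * (y ^ 2) ^ 2)) y = 3 + 6 * t ^ 2 := by
    have e1 : ∀ y : ℝ, y ^ (2 - 1) • (Iio (1 : ℝ)).indicator
        (fun y => 4 * (1 + y ^ 2 + 9 * t ^ 2 * (y ^ 2) ^ 2)) y =
        (Iio (1 : ℝ)).indicator (fun y => 4 * y + 4 * y ^ 3 + 36 * t ^ 2 * y ^ 5) y := by
      intro y
      by_cases hy : y ∈ Iio (1 : ℝ)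
      · simp only [indicator_of_mem hy, smul_eq_mul]
        ring
      · simp only [indicator_of_notMem hy, smul_zero]
    simp only [e1]
    rw [setIntegral_indicator measurableSet_Iio]
    have e2 : Ioi (0 : ℝ) ∩ Iio 1 = Ioo 0 1 := rfl
    rw [e2, ← integral_Ioc_eq_integral_Ioo, ← intervalIntegral.integral_of_le zero_le_one]
    have c1 : Continuous fun y : ℝ => 4 * y := by fun_prop
    have c2 : Continuous fun y : ℝ => 4 * y ^ 3 := by fun_prop
    have c3 : Continuous fun y : ℝ => 36 * t ^ 2 * y ^ 5 := by fun_prop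
    have j1 : ∫ y in (0 : ℝ)..1, (4 * y + 4 * y ^ 3 + 36 * t ^ 2 * y ^ 5) =
        (∫ y in (0 : ℝ)..1, (4 * y + 4 * y ^ 3)) + ∫ y in (0 : ℝ)..1, 36 * t ^ 2 * y ^ 5 :=
      intervalIntegral.integral_add ((c1.add c2).intervalIntegrable _ _) (c3.intervalIntegrable _ _)
    have j2 : ∫ y in (0 : ℝ)..1, (4 * y + 4 * y ^ 3) =
        (∫ y in (0 : ℝ)..1, 4 * y) + ∫ y in (0 : ℝ)..1, 4 * y ^ 3 :=
      intervalIntegral.integral_add (c1.intervalIntegrable _ _) (c2.intervalIntegrable _ _)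
    rw [j1, j2, intervalIntegral.integral_const_mul,
      intervalIntegral.integral_const_mul, intervalIntegral.integral_const_mul, integral_id,
      integral_pow, integral_pow]
    norm_num
    ring
  rw [hone, hball] at hpol
  simp only [smul_eq_mul, nsmul_eq_mul] at hpol
  push_cast at hpol
  linarith

private theorem op_e6 {t M x y n : ℝ} (h0 : 0 < t) (hM : 0 < M) (hM2 : M ≤ 1 + 1 / 400)
    (e2 : (2 * M : ℝ) * x = n - M * y) (e4 : 7 / 10 * t ≤ n) (e5 : |y| ≤ 5 / 4 * t * (3 / 20)) :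
    t / 4 ≤ x := by
  have h2 : y ≤ 5 / 4 * t * (3 / 20) := (abs_le.1 e5).2
  have h3 : M * y ≤ (1 + 1 / 400) * (5 / 4 * t * (3 / 20)) := by
    have h5 : 0 ≤ 5 / 4 * t * (3 / 20) := by linarith
    calc M * y ≤ M * (5 / 4 * t * (3 / 20)) := mul_le_mul_of_nonneg_left h2 hM.le
      _ ≤ (1 + 1 / 400) * (5 / 4 * t * (3 / 20)) := mul_le_mul_of_nonneg_right hM2 h5
  by_contra hcon
  have hcon' : x < t / 4 := not_le.1 hcon
  have h5 : (2 * M) * x ≤ (2 * M) * (t / 4) := mul_le_mul_of_nonneg_left hcon'.le (by linarith)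
  have h6 : (2 * M) * (t / 4) ≤ (2 * (1 + 1 / 400)) * (t / 4) :=
    mul_le_mul_of_nonneg_right (by linarith) (by linarith)
  linarith

/-- points of the image which are not in the cardioid -/
private theorem op_out {t M : ℝ} (h0 : 0 < t) (h1 : t ≤ 1 / 20) (hM1 : 1 ≤ M) (hM2 : M ≤ 1 + t ^ 2)
    {z η : ℂ} (hz : ‖z‖ < 1) (hz1 : 1 - t / 8 < ‖z‖) (hz2 : ‖z - 1‖ ≤ 1 / 10) (hη : ‖η‖ < 1)
    (h : ft t z = (M : ℂ) * (η + η ^ 2 / 2)) : False := by
  have ht2 : t ^ 2 ≤ t / 20 := by nlinarith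
  have ht0 : 0 ≤ t ^ 2 := sq_nonneg t
  set d : ℂ := η - z with hd
  set Dn : ℂ := 2 + ((z - 1) + d / 2) with hDn
  set N : ℂ := (t : ℂ) * z ^ 3 - ((M - 1 : ℝ) : ℂ) * (z + z ^ 2 / 2) with hN
  have e1 : (M : ℂ) * d * Dn = N := by
    unfold ft at h
    rw [hDn, hN, hd]
    push_cast
    linear_combination (-1 : ℂ) * h
  -- the real part of `z` is at least `9/10`
  have hre : |z.re - 1| ≤ 1 / 10 := by
    have h2 := Complex.abs_re_le_norm (z - 1)
    rw [Complex.sub_re, Complex.one_re] at h2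
    exact h2.trans hz2
  have him : |z.im| ≤ 1 / 10 := by
    have h2 := Complex.abs_im_le_norm (z - 1)
    rw [Complex.sub_im, Complex.one_im, sub_zero] at h2
    exact h2.trans hz2
  have hre1 := (abs_le.1 hre).1
  have hre2 : z.re ≤ 1 := (Complex.re_le_norm z).trans hz.le
  have him1 := (abs_le.1 him).1
  have him2 := (abs_le.1 him).2
  have hηre : -1 ≤ η.re := by
    have h2 := (abs_le.1 (Complex.abs_re_le_norm η)).1
    linarith
  have hzn : 0 ≤ ‖z‖ := norm_nonneg z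
  -- bound for `N`
  have hzz : ‖z + z ^ 2 / 2‖ ≤ 3 / 2 := by
    calc ‖z + z ^ 2 / 2‖ ≤ ‖z‖ + ‖z ^ 2 / 2‖ := norm_add_le _ _
      _ = ‖z‖ + ‖z‖ ^ 2 / 2 := by rw [norm_div, norm_pow, Complex.norm_ofNat]
      _ ≤ 3 / 2 := by nlinarith
  have hNn : ‖N‖ ≤ 11 / 10 * t := by
    have h2 : ‖(t : ℂ) * z ^ 3‖ ≤ t := by
      rw [norm_mul, Complex.norm_real, Real.norm_eq_abs, abs_of_pos h0, norm_pow]
      have h3 : ‖z‖ ^ 3 ≤ 1 := pow_le_one₀ hzn hz.le
      nlinarith
    have h3 : ‖((M - 1 : ℝ) : ℂ) * (z + z ^ 2 / 2)‖ ≤ t ^ 2 * (3 / 2) := by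
      rw [norm_mul, Complex.norm_real, Real.norm_eq_abs, abs_of_nonneg (by linarith)]
      exact mul_le_mul (by linarith) hzz (norm_nonneg _) ht0
    calc ‖N‖ ≤ ‖(t : ℂ) * z ^ 3‖ + ‖((M - 1 : ℝ) : ℂ) * (z + z ^ 2 / 2)‖ := norm_sub_le _ _
      _ ≤ 11 / 10 * t := by linarith
  -- lower bound for `Dn`
  have hDre : Dn.re = 1 + (η.re + z.re) / 2 := by
    rw [hDn, hd, Complex.add_re, Complex.add_re, Complex.sub_re, Complex.one_re, Complex.re_ofNat,
      Complex.div_ofNat_re, Complex.sub_re]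
    ring
  have hDlow : 9 / 10 ≤ ‖Dn‖ := by
    refine le_trans ?_ (Complex.re_le_norm Dn)
    rw [hDre]
    linarith
  have hM0 : 0 < M := by linarith
  have hnorm : M * ‖d‖ * ‖Dn‖ = ‖N‖ := by
    rw [← e1, norm_mul, norm_mul, Complex.norm_real, Real.norm_eq_abs, abs_of_pos hM0]
  have hdn : ‖d‖ ≤ 5 / 4 * t := by
    have h2 : ‖d‖ * (9 / 10) ≤ M * ‖d‖ * ‖Dn‖ := by
      have h3 : ‖d‖ ≤ M * ‖d‖ := by nlinarith [norm_nonneg d]
      exact mul_le_mul h3 hDlow (by norm_num) (mul_nonneg hM0.le (norm_nonneg d))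
    rw [hnorm] at h2
    linarith
  -- the product with `conj z`
  set X : ℂ := (starRingEnd ℂ) z * d with hX
  have hXn : ‖X‖ ≤ 5 / 4 * t := by
    rw [hX, norm_mul, RCLike.norm_conj]
    nlinarith [norm_nonneg d]
  set μ : ℂ := (z - 1) + d / 2 with hμ
  have hμn : ‖μ‖ ≤ 3 / 20 := by
    calc ‖μ‖ ≤ ‖z - 1‖ + ‖d / 2‖ := norm_add_le _ _
      _ = ‖z - 1‖ + ‖d‖ / 2 := by rw [norm_div, Complex.norm_ofNat]
      _ ≤ 3 / 20 := by linarith
  have e2 : (2 * M : ℝ) * X.re = ((starRingEnd ℂ) z * N).re - M * (X * μ).re := by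
    have h2 : ((2 * M : ℝ) : ℂ) * X = (starRingEnd ℂ) z * N - (M : ℂ) * (X * μ) := by
      rw [← e1, hX, hDn, hμ]
      push_cast
      ring
    have h3 := congrArg Complex.re h2
    rw [Complex.re_ofReal_mul, Complex.sub_re, Complex.re_ofReal_mul] at h3
    exact h3
  have e3 : (starRingEnd ℂ) z * N = ((t * ‖z‖ ^ 2 : ℝ) : ℂ) * z ^ 2 -
      (((M - 1) * ‖z‖ ^ 2 : ℝ) : ℂ) * (1 + z / 2) := by
    have h2 : (starRingEnd ℂ) z * z = ((‖z‖ ^ 2 : ℝ) : ℂ) := by
      rw [mul_comm, Complex.mul_conj, Complex.normSq_eq_norm_sq]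
    have h3 : (starRingEnd ℂ) z * N = ((starRingEnd ℂ) z * z) * ((t : ℂ) * z ^ 2) -
        ((starRingEnd ℂ) z * z) * (((M - 1 : ℝ) : ℂ) * (1 + z / 2)) := by
      rw [hN]
      ring
    rw [h3, h2]
    push_cast
    ring
  have hn2 : 1 - t / 4 ≤ ‖z‖ ^ 2 := by nlinarith
  have hn3 : ‖z‖ ^ 2 ≤ 1 := pow_le_one₀ hzn hz.le
  have hz2re : 4 / 5 ≤ (z ^ 2).re := by
    rw [pow_two, Complex.mul_re]
    nlinarith
  have e4 : 7 / 10 * t ≤ ((starRingEnd ℂ) z * N).re := by
    rw [e3, Complex.sub_re, Complex.re_ofReal_mul, Complex.re_ofReal_mul]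
    have h2 : t * (79 / 80) * (4 / 5) ≤ t * ‖z‖ ^ 2 * (z ^ 2).re := by
      have h3 : t * (79 / 80) ≤ t * ‖z‖ ^ 2 := mul_le_mul_of_nonneg_left (by linarith) h0.le
      exact mul_le_mul h3 hz2re (by norm_num) (mul_nonneg h0.le (sq_nonneg _))
    have h4 : (1 + z / 2).re ≤ 3 / 2 := by
      rw [Complex.add_re, Complex.one_re, Complex.div_ofNat_re]
      norm_num
      linarith
    have h5 : 0 ≤ (1 + z / 2).re := by
      rw [Complex.add_re, Complex.one_re, Complex.div_ofNat_re]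
      linarith
    have h6 : (M - 1) * ‖z‖ ^ 2 * (1 + z / 2).re ≤ t ^ 2 * 1 * (3 / 2) := by
      refine mul_le_mul (mul_le_mul (by linarith) hn3 (sq_nonneg _) ht0) h4 h5 (by linarith)
    linarith
  have e5 : |(X * μ).re| ≤ 5 / 4 * t * (3 / 20) := by
    refine (Complex.abs_re_le_norm _).trans ?_
    rw [norm_mul]
    exact mul_le_mul hXn hμn (norm_nonneg _) (by linarith)
  have hM3 : M ≤ 1 + 1 / 400 := by nlinarith
  have e6 : t / 4 ≤ X.re := op_e6 h0 hM0 hM3 e2 e4 e5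
  -- the modulus of `η`
  have e7 : ‖η‖ ^ 2 = ‖z‖ ^ 2 + 2 * X.re + ‖d‖ ^ 2 := by
    have h2 : η = z + d := by rw [hd]; ring
    rw [h2, hX]
    simp only [← Complex.normSq_eq_norm_sq, Complex.normSq_apply, Complex.add_re, Complex.add_im,
      Complex.mul_re, Complex.conj_re, Complex.conj_im]
    ring
  have e8 : ‖η‖ ^ 2 < 1 := by nlinarith [norm_nonneg η]
  nlinarith [sq_nonneg ‖d‖]

/-- the region near `1` -/
private def opS (t : ℝ) : Set ℂ := {z | ‖z - 1‖ ≤ 1 / 10 ∧ 1 - t / 8 < ‖z‖ ∧ ‖z‖ < 1}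

private theorem opS_meas (t : ℝ) : MeasurableSet (opS t) := by
  have h1 : MeasurableSet {z : ℂ | ‖z - 1‖ ≤ 1 / 10} :=
    measurableSet_le (continuous_id.sub continuous_const).norm.measurable measurable_const
  have h2 : MeasurableSet {z : ℂ | 1 - t / 8 < ‖z‖} :=
    measurableSet_lt measurable_const continuous_norm.measurable
  have h3 : MeasurableSet {z : ℂ | ‖z‖ < 1} :=
    measurableSet_lt continuous_norm.measurable measurable_const
  exact h1.inter (h2.inter h3)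

private theorem opS_vol {t : ℝ} (h0 : 0 < t) (h1 : t ≤ 1 / 20) :
    ENNReal.ofReal (t / 160) ≤ volume (opS t) := by
  have hπ : 3 < Real.pi := Real.pi_gt_three
  have hpol := Complex.lintegral_comp_polarCoord_symm ((opS t).indicator fun _ => 1)
  rw [lintegral_indicator (opS_meas t), setLIntegral_one] at hpol
  rw [← hpol]
  set Rc : Set (ℝ × ℝ) := Ioo (1 - t / 8) 1 ×ˢ Ioo (-(1 / 20) : ℝ) (1 / 20) with hRc
  have hRm : MeasurableSet Rc := measurableSet_Ioo.prod measurableSet_Ioo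
  have hsub : Rc ⊆ polarCoord.target := by
    rintro ⟨r, θ⟩ ⟨hr, hθ⟩
    rw [polarCoord_target]
    refine ⟨?_, ?_, ?_⟩
    · show 0 < r
      have h2 : 1 - t / 8 < r := hr.1
      linarith
    · show -Real.pi < θ
      have h2 : -(1 / 20) < θ := hθ.1
      linarith
    · show θ < Real.pi
      have h2 : θ < 1 / 20 := hθ.2
      linarith
  have hvol : volume Rc = ENNReal.ofReal (t / 8) * ENNReal.ofReal (1 / 10) := by
    rw [hRc, Measure.volume_eq_prod, Measure.prod_prod, Real.volume_Ioo, Real.volume_Ioo]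
    norm_num
  calc ENNReal.ofReal (t / 160) = ENNReal.ofReal (1 / 2) * volume Rc := by
        rw [hvol, ← ENNReal.ofReal_mul (by linarith), ← ENNReal.ofReal_mul (by norm_num)]
        congr 1
        ring
    _ = ∫⁻ _ in Rc, ENNReal.ofReal (1 / 2) := by rw [setLIntegral_const]
    _ ≤ ∫⁻ p in Rc, ENNReal.ofReal p.1 • (opS t).indicator (fun _ => 1)
          (Complex.polarCoord.symm p) := by
        refine setLIntegral_mono' hRm ?_
        rintro ⟨r, θ⟩ ⟨hr, hθ⟩
        have hr1 : 1 - t / 8 < r := hr.1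
        have hr2 : r < 1 := hr.2
        have hθ1 : -(1 / 20) < θ := hθ.1
        have hθ2 : θ < 1 / 20 := hθ.2
        have hr0 : 0 < r := by linarith
        have hz : Complex.polarCoord.symm (r, θ) = (r : ℂ) * Complex.exp (Complex.I * θ) := by
          rw [Complex.polarCoord_symm_apply, mul_comm Complex.I, Complex.exp_mul_I,
            ← Complex.ofReal_cos, ← Complex.ofReal_sin]
        have hen : ‖Complex.exp (Complex.I * θ)‖ = 1 := by
          rw [mul_comm, Complex.norm_exp_ofReal_mul_I]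
        have hzn : ‖(r : ℂ) * Complex.exp (Complex.I * θ)‖ = r := by
          rw [norm_mul, hen, mul_one, Complex.norm_real, Real.norm_eq_abs, abs_of_pos hr0]
        have hz1 : ‖(r : ℂ) * Complex.exp (Complex.I * θ) - 1‖ ≤ 1 / 10 := by
          have e1 : (r : ℂ) * Complex.exp (Complex.I * θ) - 1 =
              ((r - 1 : ℝ) : ℂ) * Complex.exp (Complex.I * θ) +
                (Complex.exp (Complex.I * θ) - 1) := by
            push_cast
            ring
          rw [e1]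
          refine (norm_add_le _ _).trans ?_
          have e2 : ‖((r - 1 : ℝ) : ℂ) * Complex.exp (Complex.I * θ)‖ ≤ 1 / 160 := by
            rw [norm_mul, hen, mul_one, Complex.norm_real, Real.norm_eq_abs, abs_le]
            constructor <;> linarith
          have e3 : ‖Complex.exp (Complex.I * θ) - 1‖ ≤ 1 / 20 := by
            refine (Real.norm_exp_I_mul_ofReal_sub_one_le (x := θ)).trans ?_
            rw [Real.norm_eq_abs, abs_le]
            constructor <;> linarith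
          linarith
        have hmem : Complex.polarCoord.symm (r, θ) ∈ opS t := by
          rw [hz]
          refine ⟨hz1, ?_, ?_⟩
          · rw [hzn]
            exact hr1
          · rw [hzn]
            exact hr2
        rw [indicator_of_mem hmem, smul_eq_mul, mul_one]
        exact ENNReal.ofReal_le_ofReal (by show 1 / 2 ≤ r; linarith)
    _ ≤ ∫⁻ p in polarCoord.target, ENNReal.ofReal p.1 • (opS t).indicator (fun _ => 1)
          (Complex.polarCoord.symm p) := lintegral_mono_set hsub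

/-- the test functions show that the deficit can be of the order of the square of the asymmetry -/
theorem ft_main {t : ℝ} (h0 : 0 < t) (h1 : t ≤ 1 / 20) :
    volume (ft t '' ball 0 1) ≠ ⊤ ∧
      volume.real (ft t '' ball 0 1) = 3 * Real.pi / 2 * (1 + 2 * t ^ 2) ∧
      (2 - ‖deriv (deriv (ft t)) 0 / 2‖) * Real.sqrt (volume.real (ft t '' ball 0 1)) ≤
        3 / 2 * Real.sqrt (3 * Real.pi / 2) * (1 + t ^ 2) ∧
      t / 160 ≤ volume.real (symmDiff (ft t '' ball 0 1) (Cd (Real.sqrt (1 + 2 * t ^ 2)))) := by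
  have hint : IntegrableOn (fun u => ‖deriv (ft t) u‖ ^ 2) (ball 0 1) := by
    rw [ft_deriv]
    have hcont : Continuous fun z : ℂ => ‖1 + z + 3 * (t : ℂ) * z ^ 2‖ ^ 2 := by fun_prop
    exact (hcont.continuousOn.integrableOn_compact (isCompact_closedBall (0 : ℂ) 1)).mono_set
      ball_subset_closedBall
  obtain ⟨ha1, ha2⟩ := areaU (ft_diff t) (ft_inj h0 h1)
  have hfin : volume (ft t '' ball 0 1) ≠ ⊤ := ha1.2 hint
  have hAe : volume.real (ft t '' ball 0 1) = 3 * Real.pi / 2 * (1 + 2 * t ^ 2) := by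
    rw [← ft_Ar t, ha2]
    rfl
  have hπ : 0 < Real.pi := Real.pi_pos
  refine ⟨hfin, hAe, ?_, ?_⟩
  · rw [hAe, ft_a2, Real.sqrt_mul (by positivity)]
    have e1 : (2 - ‖(1 / 2 : ℂ)‖) = 3 / 2 := by
      rw [norm_div, norm_one, Complex.norm_ofNat]
      norm_num
    have e2 : Real.sqrt (1 + 2 * t ^ 2) ≤ 1 + t ^ 2 := by
      rw [Real.sqrt_le_left (by positivity)]
      nlinarith [sq_nonneg (t ^ 2)]
    rw [e1, ← mul_assoc]
    exact mul_le_mul_of_nonneg_left e2 (by positivity)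
  · set M : ℝ := Real.sqrt (1 + 2 * t ^ 2) with hM
    have hM1 : 1 ≤ M := by
      rw [hM, Real.one_le_sqrt]
      nlinarith [sq_nonneg t]
    have hM2 : M ≤ 1 + t ^ 2 := by
      rw [hM, Real.sqrt_le_left (by positivity)]
      nlinarith [sq_nonneg (t ^ 2)]
    have hM0 : 0 < M := by linarith
    have hSb : opS t ⊆ ball 0 1 := fun z hz => mem_ball_zero_iff.2 hz.2.2
    have hSi : InjOn (ft t) (opS t) := (ft_inj h0 h1).mono hSb
    have hsub : ft t '' opS t ⊆ symmDiff (ft t '' ball 0 1) (Cd M) := by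
      rintro _ ⟨z, hz, rfl⟩
      refine Or.inl ⟨⟨z, hSb hz, rfl⟩, ?_⟩
      rintro ⟨η, hη, hh⟩
      exact op_out h0 h1 hM1 hM2 hz.2.2 hz.2.1 hz.1 (mem_ball_zero_iff.1 hη) hh.symm
    have hvS : ENNReal.ofReal (t / 160) ≤ volume (ft t '' opS t) := by
      rw [cv_vol (opS_meas t) (fun u _ => (op_deriv t u).differentiableAt) hSi]
      refine (opS_vol h0 h1).trans ?_
      rw [← setLIntegral_one]
      refine setLIntegral_mono' (opS_meas t) (fun z hz => ?_)
      rw [← ENNReal.ofReal_one]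
      apply ENNReal.ofReal_le_ofReal
      rw [ft_deriv]
      have hre : |z.re - 1| ≤ 1 / 10 := by
        have h2 := Complex.abs_re_le_norm (z - 1)
        rw [Complex.sub_re, Complex.one_re] at h2
        exact h2.trans hz.1
      have h3 : (1 + z).re = 1 + z.re := by rw [Complex.add_re, Complex.one_re]
      have h4 : 19 / 10 ≤ ‖1 + z‖ := by
        refine le_trans ?_ (Complex.re_le_norm (1 + z))
        rw [h3]
        linarith [(abs_le.1 hre).1]
      have h5 : ‖3 * (t : ℂ) * z ^ 2‖ ≤ 3 / 20 := by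
        rw [norm_mul, norm_mul, Complex.norm_real, Real.norm_eq_abs, abs_of_pos h0, norm_pow,
          Complex.norm_ofNat]
        have h6 : ‖z‖ ^ 2 ≤ 1 := pow_le_one₀ (norm_nonneg z) hz.2.2.le
        nlinarith [sq_nonneg ‖z‖]
      have h6 : 1 ≤ ‖1 + z + 3 * (t : ℂ) * z ^ 2‖ := by
        have h7 := norm_sub_le (1 + z + 3 * (t : ℂ) * z ^ 2) (3 * (t : ℂ) * z ^ 2)
        rw [add_sub_cancel_right] at h7
        linarith
      exact one_le_pow₀ h6
    have hfin2 : volume (symmDiff (ft t '' ball 0 1) (Cd M)) ≠ ⊤ := by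
      refine ne_top_of_le_ne_top ?_ (measure_mono symmDiff_le_sup)
      refine ne_top_of_le_ne_top ?_ (measure_union_le _ _)
      refine ENNReal.add_ne_top.2 ⟨hfin, ?_⟩
      rw [vol_Cd hM0]
      exact ENNReal.ofReal_ne_top
    have h7 : ENNReal.ofReal (t / 160) ≤ volume (symmDiff (ft t '' ball 0 1) (Cd M)) :=
      hvS.trans (measure_mono hsub)
    exact (ENNReal.ofReal_le_iff_le_toReal hfin2).1 h7

/-- optimality of the exponent `2` in `stab_S` -/
theorem opt_exp {δ : ℝ} (hδ : 0 < δ) : ∃ f : ℂ → ℂ, DifferentiableOn ℂ f (ball 0 1) ∧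
    InjOn f (ball 0 1) ∧ f 0 = 0 ∧ deriv f 0 = 1 ∧ deriv (deriv f) 0 / 2 = 1 / 2 ∧
    volume (f '' ball 0 1) ≠ ⊤ ∧ ∃ x : ℝ, 0 < x ∧ x < δ ∧
      x = volume.real (symmDiff (f '' ball 0 1)
        (Cd (Real.sqrt (2 * volume.real (f '' ball 0 1) / (3 * Real.pi))))) /
          volume.real (f '' ball 0 1) ∧
      (2 - ‖deriv (deriv f) 0 / 2‖) * Real.sqrt (volume.real (f '' ball 0 1)) ≤
        3 / 2 * Real.sqrt (3 * Real.pi / 2) * (1 + 640000 * x ^ 2) := by
  set t : ℝ := min (1 / 20) (δ / 7) with ht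
  have h0 : 0 < t := lt_min (by norm_num) (by linarith)
  have h1 : t ≤ 1 / 20 := min_le_left _ _
  have h2 : t ≤ δ / 7 := min_le_right _ _
  obtain ⟨hfin, hA, hup, hlow⟩ := ft_main h0 h1
  have hπ : 0 < Real.pi := Real.pi_pos
  have hz : ft t 0 = 0 := by
    unfold ft
    norm_num
  have hd : deriv (ft t) 0 = 1 := by
    rw [ft_deriv]
    norm_num
  have hM : Real.sqrt (2 * volume.real (ft t '' ball 0 1) / (3 * Real.pi)) =
      Real.sqrt (1 + 2 * t ^ 2) := by
    congr 1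
    rw [hA]
    field_simp
  set x : ℝ := volume.real (symmDiff (ft t '' ball 0 1)
    (Cd (Real.sqrt (2 * volume.real (ft t '' ball 0 1) / (3 * Real.pi))))) /
      volume.real (ft t '' ball 0 1) with hx
  have hA0 : 0 < volume.real (ft t '' ball 0 1) := by
    rw [hA]
    positivity
  have hA1 : volume.real (ft t '' ball 0 1) ≤ 5 := by
    rw [hA]
    have h3 : Real.pi < 3.15 := Real.pi_lt_d2
    have h4 : t ^ 2 ≤ 1 / 400 := by nlinarith
    nlinarith
  have hxl : t / 800 ≤ x := by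
    rw [hx, le_div_iff₀ hA0, hM]
    refine le_trans ?_ hlow
    nlinarith
  have hx0 : 0 < x := by linarith
  have hstab := stab_S (ft_diff t) (ft_inj h0 h1) hz hd hfin (c := 1) norm_one (by
    rw [ft_a2, one_mul, norm_div, norm_one, Complex.norm_ofNat]
    norm_num)
  have himg : (fun w : ℂ => (1 : ℂ)⁻¹ * w) '' Cd (Real.sqrt (2 * volume.real (ft t '' ball 0 1) /
      (3 * Real.pi))) = Cd (Real.sqrt (2 * volume.real (ft t '' ball 0 1) / (3 * Real.pi))) := by
    have h3 : (fun w : ℂ => (1 : ℂ)⁻¹ * w) = id := by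
      funext w
      rw [inv_one, one_mul]
      rfl
    rw [h3, image_id]
  rw [himg, ← hx] at hstab
  have hc : 0 < 3 / 2 * Real.sqrt (3 * Real.pi / 2) := by positivity
  have hx2 : x ^ 2 ≤ 32 * t ^ 2 := by
    have h3 := hstab.trans hup
    have h4 := le_of_mul_le_mul_left h3 hc
    linarith
  have hx3 : x ≤ 6 * t := by
    have h3 : x ^ 2 ≤ (6 * t) ^ 2 := by nlinarith [sq_nonneg t]
    exact (pow_le_pow_iff_left₀ hx0.le (by linarith) two_ne_zero).1 h3
  refine ⟨ft t, ft_diff t, ft_inj h0 h1, hz, hd, ft_a2 t, hfin, x, hx0, by linarith, rfl, ?_⟩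
  refine hup.trans (mul_le_mul_of_nonneg_left ?_ hc.le)
  have h3 : t ≤ 800 * x := by linarith
  nlinarith

end Pool.Agent.CRD
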