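import Pool.Agent.CRD.SFac

/-! CRD/PhE.  Expansion of `Ph` at the pole: `Ph z = H (z²) / z` with `H` analytic near `0` and
`H 0 = sqrt M`. -/

set_option autoImplicit false

open Complex MeasureTheory Metric Set Filter Topology

namespace Pool.Agent.CRD

variable {M : ℝ} {f k : ℂ → ℂ}

theorem taylor2 {H : ℂ → ℂ} {R : ℝ} (hR : 0 < R) (hH : DifferentiableOn ℂ H (ball 0 R)) :
    ∃ C R1 : ℝ, 0 ≤ C ∧ 0 < R1 ∧ R1 ≤ R ∧ ∀ u : ℂ, ‖u‖ < R1 →
      ‖H u - H 0 - deriv H 0 * u‖ ≤ C * ‖u‖ ^ 2 := by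
  have hn : ball (0 : ℂ) R ∈ 𝓝 (0 : ℂ) := ball_mem_nhds 0 hR
  have h1 : DifferentiableOn ℂ (dslope H 0) (ball 0 R) :=
    (Complex.differentiableOn_dslope hn).2 hH
  have h2 : DifferentiableOn ℂ (dslope (dslope H 0) 0) (ball 0 R) :=
    (Complex.differentiableOn_dslope hn).2 h1
  have hsub : closedBall (0 : ℂ) (R / 2) ⊆ ball 0 R := closedBall_subset_ball (by linarith)
  obtain ⟨C, hC⟩ := (isCompact_closedBall (0 : ℂ) (R / 2)).exists_bound_of_continuousOn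
    (h2.continuousOn.mono hsub)
  refine ⟨max C 0, R / 2, le_max_right _ _, by linarith, by linarith, fun u hu => ?_⟩
  have e1 : u * dslope H 0 u = H u - H 0 := by
    have h := sub_smul_dslope H 0 u
    rwa [sub_zero, smul_eq_mul] at h
  have e2 : u * dslope (dslope H 0) 0 u = dslope H 0 u - deriv H 0 := by
    have h := sub_smul_dslope (dslope H 0) 0 u
    rwa [sub_zero, smul_eq_mul, dslope_same] at h
  have e3 : H u - H 0 - deriv H 0 * u = u ^ 2 * dslope (dslope H 0) 0 u := by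
    rw [← e1]
    linear_combination (-u) * e2
  have h3 : ‖dslope (dslope H 0) 0 u‖ ≤ max C 0 :=
    (hC u (mem_closedBall_zero_iff.2 hu.le)).trans (le_max_left _ _)
  rw [e3, norm_mul, norm_pow, mul_comm]
  exact mul_le_mul_of_nonneg_right h3 (by positivity)

private theorem phe_Rt0 : Rt M 0 = 1 := by
  rw [Rt, mul_zero, zero_div, add_zero]
  exact sq_unique (by norm_num) (by simp)

private theorem phe_sq2 : sq 2 = ((Real.sqrt 2 : ℝ) : ℂ) := by
  refine sq_unique ?_ ?_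
  · rw [← Complex.ofReal_pow, Real.sq_sqrt (by norm_num)]
    norm_num
  · rw [Complex.ofReal_re]
    exact Real.sqrt_pos.2 (by norm_num)

private theorem phe_slit (w : ℂ) : 1 + Rt M w ∈ slitPlane := by
  left
  rw [Complex.add_re, Complex.one_re]
  have h := sq_re (1 + 2 * w / M)
  rw [Rt]
  linarith

private theorem phe_sqne (w : ℂ) : sq (1 + Rt M w) ≠ 0 := by
  intro h
  have h1 := sq_re_pos (phe_slit (M := M) w)
  rw [h, Complex.zero_re] at h1
  exact lt_irrefl _ h1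

/-- `Ph z = H (z²) / z` near `0` -/
theorem ph_H (D : Dat M f k) : ∃ (H : ℂ → ℂ) (R : ℝ), 0 < R ∧ R ≤ 1 ∧
    DifferentiableOn ℂ H (ball 0 R) ∧ H 0 = ((Real.sqrt M : ℝ) : ℂ) ∧
    ∀ z : ℂ, z ≠ 0 → ‖z‖ ^ 2 < R → Ph M k z = H (z ^ 2) / z := by
  have hM := D.hM
  have hs2 : ((Real.sqrt (2 / M) : ℝ) : ℂ) ≠ 0 := by
    rw [Ne, Complex.ofReal_eq_zero]
    exact (Real.sqrt_pos.2 (by positivity)).ne'
  -- radius
  have hkat : DifferentiableAt ℂ k 0 :=
    D.kd.differentiableAt (ball_mem_nhds 0 one_pos)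
  have hcont : ContinuousAt (fun u : ℂ => 1 + 2 * (u * (k u) ^ 2) / M) 0 := by
    have h1 : DifferentiableAt ℂ (fun u : ℂ => 1 + 2 * (u * (k u) ^ 2) / M) 0 := by
      fun_prop
    exact h1.continuousAt
  have hmem : ∀ᶠ u in 𝓝 (0 : ℂ), 1 + 2 * (u * (k u) ^ 2) / M ∈ slitPlane := by
    apply hcont.eventually_mem
    rw [zero_mul, mul_zero, zero_div, add_zero]
    exact Complex.isOpen_slitPlane.mem_nhds Complex.one_mem_slitPlane
  obtain ⟨R, hR, hRs⟩ := Metric.eventually_nhds_iff_ball.1 hmem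
  obtain ⟨E, hE⟩ : ∃ E : ℂ → ℂ, E = fun u => ((Real.sqrt (2 / M) : ℝ) : ℂ) * k u /
    sq (1 + Rt M (u * (k u) ^ 2)) := ⟨_, rfl⟩
  have hEd : ∀ u ∈ ball (0 : ℂ) (min R 1), DifferentiableAt ℂ E u := by
    intro u hu
    have hu1 : u ∈ ball (0 : ℂ) 1 := ball_subset_ball (min_le_right _ _) hu
    have huR : u ∈ ball (0 : ℂ) R := ball_subset_ball (min_le_left _ _) hu
    have hk : DifferentiableAt ℂ k u := D.kd.differentiableAt (isOpen_ball.mem_nhds hu1)
    have hs := hRs u huR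
    have hq1 : DifferentiableAt ℂ sq (1 + 2 * (u * (k u) ^ 2) / M) :=
      (sq_deriv hs).differentiableAt
    have hin : DifferentiableAt ℂ (fun u : ℂ => 1 + 2 * (u * (k u) ^ 2) / M) u := by
      fun_prop
    have hRt : DifferentiableAt ℂ (fun u : ℂ => Rt M (u * (k u) ^ 2)) u :=
      DifferentiableAt.comp (f := fun u : ℂ => 1 + 2 * (u * (k u) ^ 2) / M) u hq1 hin
    have hq2 : DifferentiableAt ℂ sq (1 + Rt M (u * (k u) ^ 2)) :=
      (sq_deriv (phe_slit _)).differentiableAt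
    have hin2 : DifferentiableAt ℂ (fun u : ℂ => 1 + Rt M (u * (k u) ^ 2)) u :=
      hRt.const_add 1
    have hden : DifferentiableAt ℂ (fun u : ℂ => sq (1 + Rt M (u * (k u) ^ 2))) u :=
      DifferentiableAt.comp (f := fun u : ℂ => 1 + Rt M (u * (k u) ^ 2)) u hq2 hin2
    rw [hE]
    exact (hk.const_mul _).div hden (phe_sqne _)
  have hEne : ∀ u ∈ ball (0 : ℂ) (min R 1), E u ≠ 0 := by
    intro u hu
    have hu1 : u ∈ ball (0 : ℂ) 1 := ball_subset_ball (min_le_right _ _) hu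
    rw [hE]
    exact div_ne_zero (mul_ne_zero hs2 (D.kne u hu1)) (phe_sqne _)
  have hE0 : (E 0)⁻¹ = ((Real.sqrt M : ℝ) : ℂ) := by
    rw [hE]
    simp only [zero_mul]
    rw [phe_Rt0, D.k0, mul_one, show (1 : ℂ) + 1 = 2 by norm_num, phe_sq2, inv_div,
      Real.sqrt_div (by norm_num : (0 : ℝ) ≤ 2), Complex.ofReal_div]
    have h2 : ((Real.sqrt 2 : ℝ) : ℂ) ≠ 0 := by
      rw [Ne, Complex.ofReal_eq_zero]
      exact (Real.sqrt_pos.2 (by norm_num)).ne'
    field_simp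
  refine ⟨fun u => (E u)⁻¹ - u * E u, min R 1, lt_min hR one_pos, min_le_right _ _, ?_, ?_, ?_⟩
  · intro u hu
    exact (((hEd u hu).inv (hEne u hu)).sub
      (differentiableAt_id.mul (hEd u hu))).differentiableWithinAt
  · simp only [zero_mul, sub_zero]
    exact hE0
  · intro z hz hzR
    have hmz : z ^ 2 ∈ ball (0 : ℂ) (min R 1) := by
      rw [mem_ball_zero_iff, norm_pow]
      exact hzR
    have hss : ss M (fh k z) = z * E (z ^ 2) := by
      rw [hE, ss, fh]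
      simp only
      rw [mul_pow]
      ring
    rw [Ph, QQ, hss]
    have hne := hEne _ hmz
    simp only
    field_simp

theorem ph_exp (D : Dat M f k) : ∃ (g : ℂ) (C0 R0 : ℝ), 0 < R0 ∧ R0 ≤ 1 ∧
    DifferentiableOn ℂ (Ph M k) (ball 0 R0 \ {0}) ∧
    ∀ z : ℂ, z ≠ 0 → ‖z‖ < R0 →
      ‖Ph M k z - ((Real.sqrt M : ℝ) : ℂ) / z - g * z‖ ≤ C0 * ‖z‖ ^ 3 := by
  obtain ⟨H, R, hR, hR1, hH, hH0, hPh⟩ := ph_H D
  obtain ⟨C, R1, hC, hR1p, hR1R, hT⟩ := taylor2 hR hH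
  have hsq : ∀ z : ℂ, ‖z‖ < min R1 1 → ‖z‖ ^ 2 < R1 := by
    intro z hz
    have h1 : ‖z‖ < R1 := lt_of_lt_of_le hz (min_le_left _ _)
    have h2 : ‖z‖ < 1 := lt_of_lt_of_le hz (min_le_right _ _)
    have h3 := norm_nonneg z
    nlinarith
  refine ⟨deriv H 0, C, min R1 1, lt_min hR1p one_pos, min_le_right _ _, ?_, ?_⟩
  · have h1 : DifferentiableOn ℂ (fun z : ℂ => H (z ^ 2) / z) (ball 0 (min R1 1) \ {0}) := by
      intro z hz
      have hz0 : z ≠ 0 := fun h => hz.2 (mem_singleton_iff.2 h)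
      have hzn : ‖z‖ < min R1 1 := mem_ball_zero_iff.1 hz.1
      have hz2 : z ^ 2 ∈ ball (0 : ℂ) R := by
        rw [mem_ball_zero_iff, norm_pow]
        exact lt_of_lt_of_le (hsq z hzn) hR1R
      have hHd : DifferentiableAt ℂ H (z ^ 2) := hH.differentiableAt (isOpen_ball.mem_nhds hz2)
      have h2 : DifferentiableAt ℂ (fun z : ℂ => H (z ^ 2)) z :=
        DifferentiableAt.comp (f := fun z : ℂ => z ^ 2) z hHd (by fun_prop)
      exact (h2.div differentiableAt_id hz0).differentiableWithinAt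
    refine h1.congr fun z hz => ?_
    have hz0 : z ≠ 0 := fun h => hz.2 (mem_singleton_iff.2 h)
    have hzn : ‖z‖ < min R1 1 := mem_ball_zero_iff.1 hz.1
    exact hPh z hz0 (lt_of_lt_of_le (hsq z hzn) hR1R)
  · intro z hz0 hzn
    have h1 := hT (z ^ 2) (by rw [norm_pow]; exact hsq z hzn)
    have h2 : Ph M k z - ((Real.sqrt M : ℝ) : ℂ) / z - deriv H 0 * z =
        (H (z ^ 2) - H 0 - deriv H 0 * z ^ 2) / z := by
      rw [hPh z hz0 (lt_of_lt_of_le (hsq z hzn) hR1R), ← hH0]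
      field_simp
    rw [h2, norm_div]
    rw [norm_pow] at h1
    have h3 : 0 < ‖z‖ := norm_pos_iff.2 hz0
    rw [div_le_iff₀ h3]
    calc _ ≤ C * (‖z‖ ^ 2) ^ 2 := h1
      _ = C * ‖z‖ ^ 3 * ‖z‖ := by ring

end Pool.Agent.CRD
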