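import Pool.Agent.CRD.ConstV
import Pool.Agent.CRD.Ener
import Pool.Agent.CRD.Expan

/-! CRD/PhRel.  Vanishing remainder: the algebraic equation of the extremal functions.

`const_v` gives `Im (Ph M k z) = √M Im (z⁻¹ - z)` (the constant is `0` as `v` is odd). The function
`Φ z = Ph M k z - √M (z⁻¹ - z)` is holomorphic and real valued near `0` and tends to `0` at `0`, so it vanishes. -/

set_option autoImplicit false

open Complex MeasureTheory Metric Set

namespace Pool.Agent.CRD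

variable {M : ℝ} {f k : ℂ → ℂ}

private theorem fh_neg (k : ℂ → ℂ) (z : ℂ) : fh k (-z) = -fh k z := by
  simp [fh]

private theorem VV_neg (ζ : ℂ) : VV M (-ζ) = -VV M ζ := by
  unfold VV QQ
  rw [ss_neg, inv_neg]
  simp
  ring

theorem vv_odd (ω : ℂ) : vv M k (ω + Real.pi * I) = -vv M k ω := by
  unfold vv
  rw [Complex.exp_add, Complex.exp_pi_mul_I, mul_neg_one, fh_neg, VV_neg, neg_div]

private theorem im_inv_sub (ω : ℂ) : ((exp ω)⁻¹ - exp ω).im = -2 * Real.cosh ω.re * Real.sin ω.im := by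
  rw [← Complex.exp_neg, Complex.sub_im, Complex.exp_im, Complex.exp_im, Complex.neg_re, Complex.neg_im,
    Real.sin_neg, Real.cosh_eq]
  ring

private theorem vv_eq (D : Dat M f k)
    (h : ∀ a b : ℝ, a < b → b < 0 → ∫ ω in strip a b, gap (vv M k) ω ≤ 0) :
    ∀ ω : ℂ, ω.re < 0 → 0 < ω.im → ω.im < 2 * Real.pi →
      vv M k ω = -2 * Real.cosh ω.re * Real.sin ω.im := by
  have hd : ∀ᵐ ω : ℂ, ω.re < 0 → DifferentiableAt ℝ (vv M k) ω := by
    filter_upwards [vv_ener D] with ω hω hre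
    obtain ⟨L, hL, _⟩ := hω hre
    exact hL.differentiableAt
  obtain ⟨c, hc⟩ := const_v (vv_lip D) hd h
  have h1 := hc ((-1 : ℝ) + (Real.pi / 2 : ℝ) * I) (by simp) (by simp; positivity)
    (by simp; linarith [Real.pi_pos])
  have h2 := hc ((-1 : ℝ) + (Real.pi / 2 : ℝ) * I + Real.pi * I) (by simp)
    (by simp; linarith [Real.pi_pos]) (by simp; linarith [Real.pi_pos])
  rw [vv_odd, h1] at h2
  have e1 : (((-1 : ℝ) : ℂ) + (Real.pi / 2 : ℝ) * I).re = -1 := by simp
  have e2 : (((-1 : ℝ) : ℂ) + (Real.pi / 2 : ℝ) * I).im = Real.pi / 2 := by simp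
  have e3 : (((-1 : ℝ) : ℂ) + (Real.pi / 2 : ℝ) * I + Real.pi * I).re = -1 := by simp
  have e4 : (((-1 : ℝ) : ℂ) + (Real.pi / 2 : ℝ) * I + Real.pi * I).im = Real.pi / 2 + Real.pi := by
    simp
  rw [e1, e2, e3, e4, Real.sin_add_pi, Real.sin_pi_div_two] at h2
  have hc0 : c = 0 := by linarith
  intro ω a b e
  rw [hc ω a b e, hc0, add_zero]

private theorem im_Ph (D : Dat M f k)
    (h : ∀ a b : ℝ, a < b → b < 0 → ∫ ω in strip a b, gap (vv M k) ω ≤ 0) {z : ℂ}
    (h0 : z ≠ 0) (h1 : ‖z‖ < 1) : (Ph M k z).im = Real.sqrt M * (z⁻¹ - z).im := by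
  have hsM : Real.sqrt M ≠ 0 := (Real.sqrt_pos.2 D.hM).ne'
  have key : ∀ ω : ℂ, ω.re < 0 → 0 < ω.im → ω.im < 2 * Real.pi →
      (Ph M k (exp ω)).im = Real.sqrt M * ((exp ω)⁻¹ - exp ω).im := by
    intro ω a b c
    have := vv_eq D h ω a b c
    rw [im_inv_sub, ← this]
    unfold vv
    rw [mul_div_cancel₀ _ hsM]
    rfl
  have hre : (Complex.log z).re < 0 := by
    rw [Complex.log_re]
    exact Real.log_neg (norm_pos_iff.2 h0) h1
  rcases lt_trichotomy (Complex.log z).im 0 with hi | hi | hi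
  · have hb : (Complex.log z + 2 * Real.pi * I).re < 0 := by simpa using hre
    have h2 := key (Complex.log z + 2 * Real.pi * I) hb
      (by simp; linarith [Complex.neg_pi_lt_log_im z, Real.pi_pos, Complex.log_im z])
      (by simp; linarith [Complex.log_im z])
    rw [Complex.exp_periodic, Complex.exp_log h0] at h2
    exact h2
  · have h2 := key (Complex.log z + Real.pi * I) (by simpa using hre)
      (by rw [Complex.add_im, hi]; simp; positivity)
      (by rw [Complex.add_im, hi]; simp; linarith [Real.pi_pos])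
    rw [Complex.exp_add, Complex.exp_pi_mul_I, Complex.exp_log h0, mul_neg_one] at h2
    have h3 : (Ph M k (-z)).im = -(Ph M k z).im := by
      have : VV M (fh k (-z)) = - VV M (fh k z) := by rw [fh_neg, VV_neg]
      exact this
    rw [h3, inv_neg] at h2
    have h4 : (-z⁻¹ - -z).im = -(z⁻¹ - z).im := by simp; ring
    rw [h4] at h2
    linarith
  · have h2 := key (Complex.log z) hre hi
      (by linarith [Complex.log_im_le_pi z, Real.pi_pos])
    rw [Complex.exp_log h0] at h2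
    exact h2

private theorem deriv_zero {F : ℂ → ℂ} {U : Set ℂ} (hU : IsOpen U) (hF : DifferentiableOn ℂ F U)
    (hr : ∀ z ∈ U, (F z).im = 0) {z : ℂ} (hz : z ∈ U) : deriv F z = 0 := by
  have hd : HasDerivAt F (deriv F z) z := (hF.differentiableAt (hU.mem_nhds hz)).hasDerivAt
  have key : ∀ v : ℂ, (deriv F z * v).im = 0 := by
    intro v
    have h1 : HasDerivAt (fun t : ℝ => z + (t : ℂ) * v) v 0 := by
      have := ((Complex.ofRealCLM.hasDerivAt (x := (0 : ℝ))).mul_const v).const_add z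
      simpa using this
    have hd' : HasDerivAt F (deriv F z) (z + ((0 : ℝ) : ℂ) * v) := by simpa using hd
    have h2 : HasDerivAt (fun t : ℝ => F (z + (t : ℂ) * v)) (deriv F z * v) 0 := by
      have := hd'.scomp (0 : ℝ) h1
      rw [smul_eq_mul, mul_comm] at this
      exact this
    have h3 : HasDerivAt (fun t : ℝ => (F (z + (t : ℂ) * v)).im) (deriv F z * v).im 0 :=
      (Complex.imCLM.hasFDerivAt.comp_hasDerivAt (0 : ℝ) h2)
    have h4 : (fun t : ℝ => (F (z + (t : ℂ) * v)).im) =ᶠ[nhds 0] fun _ => (0 : ℝ) := by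
      have hc : Filter.Tendsto (fun t : ℝ => z + (t : ℂ) * v) (nhds 0) (nhds z) := by
        have := h1.continuousAt.tendsto
        simpa using this
      filter_upwards [hc (hU.mem_nhds hz)] with t ht
      exact hr _ ht
    exact h3.unique ((hasDerivAt_const (0 : ℝ) (0 : ℝ)).congr_of_eventuallyEq h4)
  have a := key 1
  have b := key I
  apply Complex.ext
  · simpa using b
  · simpa using a

theorem ph_rel (D : Dat M f k) (h : ∀ a b : ℝ, a < b → b < 0 → ∫ ω in strip a b, gap (vv M k) ω ≤ 0) :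
    ∃ r : ℝ, 0 < r ∧ ∀ z : ℂ, z ≠ 0 → ‖z‖ < r → Ph M k z = ((Real.sqrt M : ℝ) : ℂ) * (z⁻¹ - z) := by
  obtain ⟨C, r0, hC, hr0, hr01, hexp⟩ := expan D
  have hk : ∀ z : ℂ, ‖z‖ < 1 → DifferentiableAt ℂ (fh k) z := by
    intro z hz
    have hz2 : z ^ 2 ∈ ball (0 : ℂ) 1 := by
      rw [mem_ball_zero_iff, norm_pow]
      exact pow_lt_one₀ (norm_nonneg z) hz (by norm_num)
    have h1 : DifferentiableAt ℂ k (z ^ 2) := D.kd.differentiableAt (isOpen_ball.mem_nhds hz2)
    have h2 : DifferentiableAt ℂ (fun z : ℂ => k (z ^ 2)) z :=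
      DifferentiableAt.comp z h1 (by fun_prop)
    exact DifferentiableAt.mul (a := fun z : ℂ => z) differentiableAt_id h2
  have hne : ∀ z : ℂ, z ≠ 0 → ‖z‖ < 1 → fh k z ≠ 0 := by
    intro z h0 hz
    have hz2 : z ^ 2 ∈ ball (0 : ℂ) 1 := by
      rw [mem_ball_zero_iff, norm_pow]
      exact pow_lt_one₀ (norm_nonneg z) hz (by norm_num)
    exact mul_ne_zero h0 (D.kne _ hz2)
  have hsl : ∀ᶠ z in nhds (0 : ℂ), 1 + 2 * (fh k z) ^ 2 / M ∈ slitPlane := by
    have hc : ContinuousAt (fun z : ℂ => 1 + 2 * (fh k z) ^ 2 / M) 0 := by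
      have := (hk 0 (by simp)).continuousAt
      fun_prop
    have h0 : 1 + 2 * (fh k 0) ^ 2 / (M : ℂ) ∈ slitPlane := by
      simp [fh]
    exact hc.eventually (isOpen_slitPlane.mem_nhds h0)
  obtain ⟨r1, hr1, hsl⟩ := Metric.eventually_nhds_iff_ball.1 hsl
  set r : ℝ := min r0 r1 with hr
  have hrpos : 0 < r := lt_min hr0 hr1
  set F : ℂ → ℂ := fun z => if z = 0 then 0 else Ph M k z - ((Real.sqrt M : ℝ) : ℂ) * (z⁻¹ - z) with hF
  have hF0 : F 0 = 0 := by simp [hF]
  have hFne : ∀ z : ℂ, z ≠ 0 → F z = Ph M k z - ((Real.sqrt M : ℝ) : ℂ) * (z⁻¹ - z) := by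
    intro z hz
    simp [hF, hz]
  have hdiff : DifferentiableOn ℂ F (ball 0 r \ {0}) := by
    intro z hz
    have hz0 : z ≠ 0 := by simpa using hz.2
    have hzr : ‖z‖ < r := by simpa using hz.1
    have hz1 : ‖z‖ < 1 := (hzr.trans_le (min_le_left _ _)).trans hr01
    obtain ⟨d, hd, _⟩ := QQ_deriv D.hM (hne z hz0 hz1)
      (hsl z (by rw [mem_ball_zero_iff]; exact hzr.trans_le (min_le_right _ _)))
    have h1 : DifferentiableAt ℂ (Ph M k) z := hd.differentiableAt.comp z (hk z hz1)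
    have h2 : DifferentiableAt ℂ (fun z => Ph M k z - ((Real.sqrt M : ℝ) : ℂ) * (z⁻¹ - z)) z := by
      apply h1.sub
      apply DifferentiableAt.const_mul
      exact (differentiableAt_inv hz0).sub differentiableAt_id
    have h3 : F =ᶠ[nhds z] fun z => Ph M k z - ((Real.sqrt M : ℝ) : ℂ) * (z⁻¹ - z) := by
      filter_upwards [isOpen_ne.mem_nhds hz0] with w hw
      exact hFne w hw
    exact (h2.congr_of_eventuallyEq h3).differentiableWithinAt
  have hcont : ContinuousAt F 0 := by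
    unfold ContinuousAt
    rw [hF0]
    set β : ℂ := deriv k 0 + 3 / (4 * M) with hβ
    apply squeeze_zero_norm' (a := fun z : ℂ => C * ‖z‖ ^ 3 + ‖((Real.sqrt M : ℝ) : ℂ) * (1 - β)‖ * ‖z‖)
    · filter_upwards [isOpen_ball.mem_nhds (show (0 : ℂ) ∈ ball 0 r0 by simpa using hr0)] with z hz
      rcases eq_or_ne z 0 with rfl | hz0
      · rw [hF0]; simp
      · rw [hFne z hz0]
        have h1 := hexp z hz0 (by simpa using hz)
        have h2 : Ph M k z - ((Real.sqrt M : ℝ) : ℂ) * (z⁻¹ - z) =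
            (Ph M k z - ((Real.sqrt M : ℝ) : ℂ) * (z⁻¹ - β * z)) +
              ((Real.sqrt M : ℝ) : ℂ) * (1 - β) * z := by ring
        rw [h2]
        refine (norm_add_le _ _).trans ?_
        rw [norm_mul _ z]
        linarith
    · have : Continuous (fun z : ℂ => C * ‖z‖ ^ 3 + ‖((Real.sqrt M : ℝ) : ℂ) * (1 - β)‖ * ‖z‖) := by
        fun_prop
      have h := this.tendsto 0
      simpa using h
  have hD : DifferentiableOn ℂ F (ball 0 r) :=
    (Complex.differentiableOn_compl_singleton_and_continuousAt_iff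
      (isOpen_ball.mem_nhds (by simpa using hrpos))).1 ⟨hdiff, hcont⟩
  have hreal : ∀ z ∈ ball (0 : ℂ) r, (F z).im = 0 := by
    intro z hz
    rcases eq_or_ne z 0 with rfl | hz0
    · rw [hF0]; rfl
    · have hz1 : ‖z‖ < 1 := by
        have : ‖z‖ < r := by simpa using hz
        exact (this.trans_le (min_le_left _ _)).trans hr01
      rw [hFne z hz0, Complex.sub_im, im_Ph D h hz0 hz1, Complex.im_ofReal_mul]
      ring
  refine ⟨r, hrpos, fun z hz0 hz => ?_⟩
  have h1 : F z = F 0 := by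
    apply isOpen_ball.is_const_of_deriv_eq_zero (convex_ball (0 : ℂ) r).isPreconnected hD
      (fun w hw => deriv_zero isOpen_ball hD hreal hw)
    · simpa using hz
    · simpa using hrpos
  rw [hF0, hFne z hz0] at h1
  exact sub_eq_zero.1 h1

end Pool.Agent.CRD
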