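import Pool.Agent.CRD.Root

/-! CRD/RelU.  Consequences of the algebraic equation: `rel_poly` by the identity theorem, `rel_unique` by the
injectivity of `η/(1-η)²` on the unit disc and the identity theorem. -/

set_option autoImplicit false

open Complex MeasureTheory Metric Set

namespace Pool.Agent.CRD

variable {M : ℝ} {f g : ℂ → ℂ}

theorem rel_poly (hM : 0 < M) (hf : DifferentiableOn ℂ f (ball 0 1))
    (h : ∃ r : ℝ, 0 < r ∧ ∀ u : ℂ, ‖u‖ < r → u * (1 - et M (f u)) ^ 2 = M * et M (f u) * (1 - u) ^ 2) :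
    ∀ u ∈ ball (0 : ℂ) 1, (1 + 2 * f u / M) * (M * (1 - u) ^ 2 + 4 * u) ^ 2 =
      (M * (1 - u) ^ 2 + 5 * u + 2 * u * f u / M) ^ 2 := by
  have hM' : (M : ℂ) ≠ 0 := by exact_mod_cast hM.ne'
  obtain ⟨r, hr, h⟩ := h
  have hd1 : DifferentiableOn ℂ (fun u => (1 + 2 * f u / M) * (M * (1 - u) ^ 2 + 4 * u) ^ 2) (ball 0 1) := by
    have h1 : DifferentiableOn ℂ (fun u => 1 + 2 * f u / (M : ℂ)) (ball 0 1) :=
      ((hf.const_mul 2).div_const _).const_add 1
    have h2 : DifferentiableOn ℂ (fun u : ℂ => ((M : ℂ) * (1 - u) ^ 2 + 4 * u) ^ 2) (ball 0 1) := by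
      apply Differentiable.differentiableOn
      fun_prop
    exact h1.mul h2
  have hd2 : DifferentiableOn ℂ (fun u => (M * (1 - u) ^ 2 + 5 * u + 2 * u * f u / M) ^ 2) (ball 0 1) := by
    have h1 : DifferentiableOn ℂ (fun u : ℂ => (M : ℂ) * (1 - u) ^ 2 + 5 * u) (ball 0 1) := by
      apply Differentiable.differentiableOn
      fun_prop
    have h2 : DifferentiableOn ℂ (fun u : ℂ => 2 * u) (ball 0 1) := by
      apply Differentiable.differentiableOn
      fun_prop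
    exact (h1.add ((h2.mul hf).div_const _)).pow 2
  refine AnalyticOnNhd.eqOn_of_preconnected_of_eventuallyEq (hd1.analyticOnNhd isOpen_ball)
    (hd2.analyticOnNhd isOpen_ball) (convex_ball (0 : ℂ) 1).isPreconnected (mem_ball_self one_pos) ?_
  filter_upwards [ball_mem_nhds (0 : ℂ) hr] with u hu
  have hu' : ‖u‖ < r := by simpa using hu
  have h1 := h u hu'
  have h2 := et_eq hM (f u)
  obtain ⟨η, hη⟩ : ∃ η, η = et M (f u) := ⟨_, rfl⟩
  rw [← hη] at h1 h2
  have hg : 1 + 2 * f u / M = (1 + η) ^ 2 := by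
    rw [← h2]
    field_simp
    ring
  have hg2 : 2 * u * f u / M = u * ((1 + η) ^ 2 - 1) := by
    rw [← hg]
    ring
  rw [hg2, hg]
  have h3 : η * (M * (1 - u) ^ 2 + 4 * u) = u * (1 + η) ^ 2 := by
    linear_combination -h1
  have h4 : M * (1 - u) ^ 2 + 5 * u + u * ((1 + η) ^ 2 - 1) =
      (M * (1 - u) ^ 2 + 4 * u) * (1 + η) := by
    linear_combination -h3
  rw [h4]
  ring

private lemma et_zero (hM : 0 < M) : et M 0 = 0 := (et_zero_iff hM 0).2 rfl

private lemma et_cont : ContinuousAt (et M) 0 := by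
  have h1 : (1 : ℂ) + 2 * 0 / M ∈ slitPlane := by simp
  have h2 : ContinuousAt sq (1 + 2 * (0 : ℂ) / M) := (sq_deriv h1).continuousAt
  have h3 : ContinuousAt (fun w : ℂ => 1 + 2 * w / (M : ℂ)) 0 := by fun_prop
  have h4 : ContinuousAt (fun w : ℂ => sq (1 + 2 * w / (M : ℂ))) 0 := ContinuousAt.comp (g := sq) h2 h3
  exact h4.sub continuousAt_const

private lemma small (hM : 0 < M) (hf : DifferentiableOn ℂ f (ball 0 1)) (f0 : f 0 = 0) :
    ∀ᶠ u in nhds (0 : ℂ), ‖et M (f u)‖ < 1 := by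
  have h1 : ContinuousAt f 0 :=
    (hf.differentiableAt (ball_mem_nhds (0 : ℂ) one_pos)).continuousAt
  have h2 : ContinuousAt (fun u => ‖et M (f u)‖) 0 := by
    have h3 : ContinuousAt (et M) (f 0) := by
      rw [f0]
      exact et_cont
    exact (ContinuousAt.comp (g := et M) h3 h1).norm
  have h4 := h2.eventually_lt_const (u := (1 : ℝ)) (by
    show ‖et M (f 0)‖ < 1
    rw [f0, et_zero hM, norm_zero]
    exact one_pos)
  exact h4

theorem rel_unique (hM : 0 < M) (hf : DifferentiableOn ℂ f (ball 0 1)) (f0 : f 0 = 0)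
    (hg : DifferentiableOn ℂ g (ball 0 1)) (g0 : g 0 = 0)
    (h : ∃ r : ℝ, 0 < r ∧ ∀ u : ℂ, ‖u‖ < r → u * (1 - et M (f u)) ^ 2 = M * et M (f u) * (1 - u) ^ 2)
    (h' : ∃ r : ℝ, 0 < r ∧ ∀ u : ℂ, ‖u‖ < r → u * (1 - et M (g u)) ^ 2 = M * et M (g u) * (1 - u) ^ 2) :
    EqOn f g (ball 0 1) := by
  obtain ⟨r, hr, h⟩ := h
  obtain ⟨r', hr', h'⟩ := h'
  refine AnalyticOnNhd.eqOn_of_preconnected_of_eventuallyEq (hf.analyticOnNhd isOpen_ball)
    (hg.analyticOnNhd isOpen_ball) (convex_ball (0 : ℂ) 1).isPreconnected (mem_ball_self one_pos) ?_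
  filter_upwards [ball_mem_nhds (0 : ℂ) hr, ball_mem_nhds (0 : ℂ) hr', small hM hf f0,
    small hM hg g0] with u hu hu' h1 h2
  by_cases hu0 : u = 0
  · rw [hu0, f0, g0]
  have h3 := h u (by simpa using hu)
  have h4 := h' u (by simpa using hu')
  rw [← et_eq hM (f u), ← et_eq hM (g u)]
  obtain ⟨a, ha⟩ : ∃ a, a = et M (f u) := ⟨_, rfl⟩
  obtain ⟨b, hb⟩ : ∃ b, b = et M (g u) := ⟨_, rfl⟩
  rw [← ha] at h1 h3 ⊢
  rw [← hb] at h2 h4 ⊢
  have h5 : u * ((b - a) * (1 - a * b)) = 0 := by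
    linear_combination b * h3 - a * h4
  have h6 : 1 - a * b ≠ 0 := by
    intro h7
    have h8 : a * b = 1 := by linear_combination -h7
    have h9 : ‖a‖ * ‖b‖ = 1 := by rw [← norm_mul, h8, norm_one]
    have h10 : ‖a‖ * ‖b‖ < 1 := by
      nlinarith [norm_nonneg a, norm_nonneg b]
    linarith
  have h7 : b = a := by
    rcases mul_eq_zero.1 h5 with h8 | h8
    · exact absurd h8 hu0
    · rcases mul_eq_zero.1 h8 with h9 | h9
      · exact sub_eq_zero.1 h9
      · exact absurd h9 h6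
  rw [h7]

end Pool.Agent.CRD
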