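import Pool.Agent.CRD.Defs

/-! CRD/Root.  Elementary facts on the square roots: `sq z` is the root of `z` with nonnegative real part, `et M` is the
inverse of `η ↦ M (η + η²/2)` on the unit disc, and `Cd M` is the open set `‖et M w‖ < 1`. -/

set_option autoImplicit false

open Complex MeasureTheory Metric Set

namespace Pool.Agent.CRD

theorem sq_sq (z : ℂ) : sq z ^ 2 = z := by
  have h := Complex.cpow_nat_inv_pow z (n := 2) (by norm_num)
  unfold sq
  rw [one_div]
  exact_mod_cast h

private theorem sq_polar {z : ℂ} (hz : z ≠ 0) :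
    (sq z).re = Real.exp (Real.log ‖z‖ / 2) * Real.cos (arg z / 2) := by
  unfold sq
  rw [Complex.cpow_def_of_ne_zero hz, Complex.exp_re]
  congr 2
  · simp [Complex.log_re]
    ring
  · simp [Complex.log_im]
    ring

theorem sq_re (z : ℂ) : 0 ≤ (sq z).re := by
  by_cases hz : z = 0
  · subst hz
    have : sq 0 = 0 := by
      have := sq_sq 0
      simpa using this
    rw [this]
    simp
  · rw [sq_polar hz]
    refine mul_nonneg (Real.exp_pos _).le (Real.cos_nonneg_of_mem_Icc ⟨?_, ?_⟩)
    · linarith [Complex.neg_pi_lt_arg z]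
    · linarith [Complex.arg_le_pi z]

theorem sq_re_pos {z : ℂ} (hz : z ∈ slitPlane) : 0 < (sq z).re := by
  rw [Complex.mem_slitPlane_iff_arg] at hz
  rw [sq_polar hz.2]
  refine mul_pos (Real.exp_pos _) (Real.cos_pos_of_mem_Ioo ⟨?_, ?_⟩)
  · linarith [Complex.neg_pi_lt_arg z]
  · have := lt_of_le_of_ne (Complex.arg_le_pi z) hz.1
    linarith

theorem sq_unique {x z : ℂ} (h : x ^ 2 = z) (hx : 0 < x.re) : sq z = x := by
  have h1 : (sq z - x) * (sq z + x) = 0 := by
    have := sq_sq z
    linear_combination this - h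
  rcases mul_eq_zero.1 h1 with h2 | h2
  · exact sub_eq_zero.1 h2
  · exfalso
    have h3 : (sq z + x).re = 0 := by rw [h2]; simp
    rw [Complex.add_re] at h3
    linarith [sq_re z]

private theorem sq_ne {z : ℂ} (hz : z ≠ 0) : sq z ≠ 0 := by
  intro h
  have := sq_sq z
  rw [h] at this
  exact hz (by rw [← this]; ring)

theorem sq_deriv {z : ℂ} (hz : z ∈ slitPlane) : HasDerivAt sq (1 / (2 * sq z)) z := by
  have hz0 : z ≠ 0 := Complex.slitPlane_ne_zero hz
  have h := (hasDerivAt_id z).cpow_const (c := (1 / 2 : ℂ)) hz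
  simp only [id] at h
  have h0 := sq_ne hz0
  have h1 : (1 / 2 : ℂ) * z ^ ((1 / 2 : ℂ) - 1) * 1 = 1 / (2 * sq z) := by
    rw [Complex.cpow_sub _ _ hz0, Complex.cpow_one]
    change (1 / 2 : ℂ) * (sq z / z) * 1 = _
    have h2 := sq_sq z
    have h3 : sq z / z = 1 / sq z := by
      rw [div_eq_div_iff hz0 h0]
      linear_combination h2
    rw [h3]
    field_simp
  rw [h1] at h
  exact h

theorem sq_conj {z : ℂ} (hz : z ∈ slitPlane) : sq ((starRingEnd ℂ) z) = (starRingEnd ℂ) (sq z) := by
  apply sq_unique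
  · rw [← map_pow, sq_sq]
  · rw [Complex.conj_re]
    exact sq_re_pos hz

private theorem norm_sq_sq (z : ℂ) : ‖sq z‖ ^ 2 = ‖z‖ := by
  rw [← norm_pow, sq_sq]

/-- continuity from above at the negative axis -/
theorem sq_cont_above (z : ℂ) (hz : 0 ≤ z.im) : ContinuousWithinAt sq {w | 0 ≤ w.im} z := by
  by_cases h : z ∈ slitPlane
  · exact (sq_deriv h).continuousAt.continuousWithinAt
  · by_cases h0 : z = 0
    · subst h0
      apply ContinuousAt.continuousWithinAt
      have hs : sq 0 = 0 := by simpa using sq_sq 0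
      rw [ContinuousAt, hs, tendsto_zero_iff_norm_tendsto_zero]
      have h1 : (fun w => ‖sq w‖) = fun w : ℂ => Real.sqrt ‖w‖ := by
        funext w
        rw [← norm_sq_sq w, Real.sqrt_sq (norm_nonneg _)]
      rw [h1]
      have h2 : Continuous (fun w : ℂ => Real.sqrt ‖w‖) := by fun_prop
      have h3 := h2.tendsto 0
      simpa using h3
    · rw [Complex.mem_slitPlane_iff, not_or, not_lt, not_not] at h
      have hre : z.re < 0 := by
        refine lt_of_le_of_ne h.1 ?_
        intro h3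
        exact h0 (Complex.ext h3 h.2)
      have h1 := Complex.continuousWithinAt_log_of_re_neg_of_im_zero hre h.2
      have h2 : ContinuousWithinAt (fun w => Complex.exp (Complex.log w * (1 / 2 : ℂ)))
          {w | 0 ≤ w.im} z :=
        Complex.continuous_exp.continuousAt.comp_continuousWithinAt
          (h1.mul continuousWithinAt_const)
      refine h2.congr_of_eventuallyEq ?_ ?_
      · have h4 : ∀ᶠ w in nhdsWithin z {w | 0 ≤ w.im}, w ≠ 0 :=
          nhdsWithin_le_nhds (isOpen_ne.mem_nhds h0)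
        filter_upwards [h4] with w hw
        unfold sq
        rw [Complex.cpow_def_of_ne_zero hw]
      · unfold sq
        rw [Complex.cpow_def_of_ne_zero h0]

theorem measurable_sq : Measurable sq := by
  unfold sq
  exact measurable_id.pow_const _

variable {M : ℝ}

private theorem Rt_sq (w : ℂ) : Rt M w ^ 2 = 1 + 2 * w / M := sq_sq _

theorem et_eq (hM : 0 < M) (w : ℂ) : (M : ℂ) * (et M w + et M w ^ 2 / 2) = w := by
  have hM' : (M : ℂ) ≠ 0 := by exact_mod_cast hM.ne'
  have h := Rt_sq (M := M) w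
  unfold et
  have h2 : Rt M w - 1 + (Rt M w - 1) ^ 2 / 2 = w / M := by
    linear_combination h / 2
  rw [h2]
  field_simp

private theorem add_re_pos {η : ℂ} (h : ‖η‖ < 1) : 0 < (1 + η).re := by
  have h1 := Complex.abs_re_le_norm η
  have h2 := neg_abs_le η.re
  rw [Complex.add_re, Complex.one_re]
  linarith

private theorem add_sq (hM : 0 < M) (η : ℂ) :
    (1 + η) ^ 2 = 1 + 2 * ((M : ℂ) * (η + η ^ 2 / 2)) / M := by
  have hM' : (M : ℂ) ≠ 0 := by exact_mod_cast hM.ne'
  field_simp
  ring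

/-- `Re η ≥ -1`, so `η` is the inverse of the cardioid map -/
theorem et_Cd (hM : 0 < M) {η : ℂ} (h : ‖η‖ < 1) : et M ((M : ℂ) * (η + η ^ 2 / 2)) = η := by
  unfold et Rt
  rw [sq_unique (add_sq hM η) (add_re_pos h)]
  ring

theorem mem_Cd (hM : 0 < M) (w : ℂ) : w ∈ Cd M ↔ ‖et M w‖ < 1 := by
  constructor
  · rintro ⟨η, hη, rfl⟩
    rw [mem_ball_zero_iff] at hη
    simp only
    rw [et_Cd hM hη]
    exact hη
  · intro h
    exact ⟨et M w, mem_ball_zero_iff.2 h, et_eq hM w⟩

theorem Cd_slit (hM : 0 < M) {w : ℂ} (h : w ∈ Cd M) : 1 + 2 * w / M ∈ slitPlane := by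
  obtain ⟨η, hη, rfl⟩ := h
  rw [mem_ball_zero_iff] at hη
  simp only
  rw [← add_sq hM η]
  have h1 := add_re_pos hη
  set x := 1 + η with hx
  rw [Complex.mem_slitPlane_iff]
  by_cases him : x.im = 0
  · left
    rw [pow_two, Complex.mul_re, him]
    nlinarith
  · right
    rw [pow_two, Complex.mul_im]
    have h2 : x.re * x.im + x.im * x.re = 2 * (x.re * x.im) := by ring
    rw [h2]
    exact mul_ne_zero two_ne_zero (mul_ne_zero h1.ne' him)

theorem et_zero_iff (hM : 0 < M) (w : ℂ) : et M w = 0 ↔ w = 0 := by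
  constructor
  · intro h
    have := et_eq hM w
    rw [h] at this
    rw [← this]
    ring
  · intro h
    subst h
    have h1 := et_Cd hM (η := 0) (by simp)
    simpa using h1

theorem rho_ge (hM : 0 < M) {w : ℂ} (h : w ∈ Cd M) (h0 : w ≠ 0) : 1 ≤ rho M w := by
  rw [mem_Cd hM] at h
  have h1 : 0 < ‖et M w‖ := by
    rw [norm_pos_iff]
    intro h2
    exact h0 ((et_zero_iff hM w).1 h2)
  unfold rho
  rw [one_le_inv₀ (by positivity)]
  exact pow_le_one₀ h1.le h.le

theorem rho_le (hM : 0 < M) {w : ℂ} (h : w ∉ Cd M) : rho M w ≤ 1 := by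
  rw [mem_Cd hM, not_lt] at h
  unfold rho
  exact inv_le_one_of_one_le₀ (one_le_pow₀ h)

theorem rho_nonneg (w : ℂ) : 0 ≤ rho M w := by
  unfold rho
  positivity

theorem measurable_rho : Measurable (rho M) := by
  have h1 : Measurable (et M) := by
    unfold et Rt
    have h2 : Measurable (fun w : ℂ => 1 + 2 * w / (M : ℂ)) := by fun_prop
    exact (measurable_sq.comp h2).sub_const 1
  unfold rho
  exact ((h1.norm).pow_const 3).inv

theorem isOpen_Cd (hM : 0 < M) : IsOpen (Cd M) := by
  rw [isOpen_iff_mem_nhds]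
  intro w hw
  have h1 : ContinuousAt (et M) w := by
    unfold et Rt
    have h2 : ContinuousAt (fun w : ℂ => 1 + 2 * w / (M : ℂ)) w := by fun_prop
    have h3 : ContinuousAt sq (1 + 2 * w / (M : ℂ)) := (sq_deriv (Cd_slit hM hw)).continuousAt
    exact (ContinuousAt.comp (f := fun w : ℂ => 1 + 2 * w / (M : ℂ)) h3 h2).sub
      continuousAt_const
  have h4 : ∀ᶠ v in nhds w, ‖et M v‖ < 1 :=
    h1.norm.eventually_lt_const ((mem_Cd hM w).1 hw)
  filter_upwards [h4] with v hv
  exact (mem_Cd hM v).2 hv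

theorem zero_mem_Cd : (0 : ℂ) ∈ Cd M := by
  refine ⟨0, by simp, by simp⟩

end Pool.Agent.CRD
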