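import Pool.Agent.CRD.Root

/-! CRD/SFac.  Facts on `ss` and `QQ`: the square of `ss`, injectivity, norm, derivative of `QQ`. -/

set_option autoImplicit false

open Complex MeasureTheory Metric Set

namespace Pool.Agent.CRD

variable {M : ℝ}

private theorem Rt_sq (w : ℂ) : Rt M w ^ 2 = 1 + 2 * w / M := sq_sq _

private theorem one_add_Rt_re (w : ℂ) : 1 ≤ (1 + Rt M w).re := by
  have h := sq_re (1 + 2 * w / M)
  unfold Rt
  rw [add_re, one_re]
  linarith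

private theorem one_add_Rt_ne (w : ℂ) : 1 + Rt M w ≠ 0 := by
  intro h
  have h1 := one_add_Rt_re (M := M) w
  rw [h, zero_re] at h1
  linarith

private theorem sq_ne (w : ℂ) : sq (1 + Rt M w) ≠ 0 := by
  intro h
  have h1 := sq_sq (1 + Rt M w)
  rw [h] at h1
  exact one_add_Rt_ne (M := M) w (by rw [← h1]; ring)

private theorem c_ne (hM : 0 < M) : ((Real.sqrt (2 / M) : ℝ) : ℂ) ≠ 0 := by
  have h : 0 < Real.sqrt (2 / M) := Real.sqrt_pos.2 (by positivity)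
  exact_mod_cast h.ne'

private theorem c_sq (hM : 0 < M) : ((Real.sqrt (2 / M) : ℝ) : ℂ) ^ 2 = 2 / M := by
  have h : Real.sqrt (2 / M) ^ 2 = 2 / M := Real.sq_sqrt (by positivity)
  rw [← ofReal_pow, h]
  push_cast
  ring

theorem ss_sq (hM : 0 < M) (ζ : ℂ) : ss M ζ ^ 2 = et M (ζ ^ 2) := by
  have h1 := Rt_sq (M := M) (ζ ^ 2)
  have h2 := one_add_Rt_ne (M := M) (ζ ^ 2)
  unfold ss et
  rw [div_pow, mul_pow, sq_sq, c_sq hM, div_eq_iff h2]
  have h3 : (Rt M (ζ ^ 2) - 1) * (1 + Rt M (ζ ^ 2)) = Rt M (ζ ^ 2) ^ 2 - 1 := by ring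
  rw [h3, h1]
  ring

theorem ss_neg (ζ : ℂ) : ss M (-ζ) = -ss M ζ := by
  unfold ss
  rw [neg_sq]
  ring

theorem ss_zero_iff (hM : 0 < M) (ζ : ℂ) : ss M ζ = 0 ↔ ζ = 0 := by
  unfold ss
  rw [div_eq_zero_iff, mul_eq_zero]
  constructor
  · rintro ((h | h) | h)
    · exact absurd h (c_ne hM)
    · exact h
    · exact absurd h (sq_ne _)
  · intro h
    exact Or.inl (Or.inr h)

theorem ss_inj (hM : 0 < M) : Function.Injective (ss M) := by
  intro a b h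
  have h1 : et M (a ^ 2) = et M (b ^ 2) := by rw [← ss_sq hM, ← ss_sq hM, h]
  have h2 : a ^ 2 = b ^ 2 := by rw [← et_eq hM (a ^ 2), ← et_eq hM (b ^ 2), h1]
  rcases sq_eq_sq_iff_eq_or_eq_neg.1 h2 with h3 | h3
  · exact h3
  · rw [h3, ss_neg] at h
    have h4 : ss M b = 0 := by
      have h5 : ss M b + ss M b = 0 := by
        nth_rewrite 1 [← h]
        ring
      rw [← two_mul] at h5
      exact (mul_eq_zero.1 h5).resolve_left two_ne_zero
    have h5 := (ss_zero_iff hM b).1 h4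
    rw [h3, h5, neg_zero]

theorem ss_norm (hM : 0 < M) {ζ : ℂ} (h : ζ ^ 2 ∈ Cd M) : ‖ss M ζ‖ < 1 := by
  have h1 := (mem_Cd hM _).1 h
  rw [← ss_sq hM, norm_pow] at h1
  have h2 := norm_nonneg (ss M ζ)
  nlinarith

/-- `s ↦ 1/s - s` is injective on the punctured unit disc -/
theorem Q_inj {s t : ℂ} (hs : ‖s‖ < 1) (ht : ‖t‖ < 1) (hs0 : s ≠ 0) (ht0 : t ≠ 0)
    (h : s⁻¹ - s = t⁻¹ - t) : s = t := by
  have h1 : (t - s) * (1 + s * t) = 0 := by
    have h2 : (s⁻¹ - s) * (s * t) = t - s ^ 2 * t := by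
      field_simp
    have h3 : (t⁻¹ - t) * (s * t) = s - t ^ 2 * s := by
      field_simp
    have h4 : t - s ^ 2 * t = s - t ^ 2 * s := by rw [← h2, ← h3, h]
    linear_combination h4
  rcases mul_eq_zero.1 h1 with h2 | h2
  · exact (sub_eq_zero.1 h2).symm
  · exfalso
    have h3 : s * t = -1 := by linear_combination h2
    have h4 : ‖s‖ * ‖t‖ = 1 := by rw [← norm_mul, h3, norm_neg, norm_one]
    have h5 := norm_nonneg s
    have h6 := norm_nonneg t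
    nlinarith

private theorem Rt_deriv {ζ : ℂ} (hs : 1 + 2 * ζ ^ 2 / M ∈ slitPlane) :
    HasDerivAt (fun z => Rt M (z ^ 2)) (1 / (2 * Rt M (ζ ^ 2)) * (2 * (2 * ζ) / M)) ζ := by
  have h1 : HasDerivAt (fun z : ℂ => 1 + 2 * z ^ 2 / M) (2 * (2 * ζ) / M) ζ := by
    have h2 := (((hasDerivAt_pow 2 ζ).const_mul 2).div_const (M : ℂ)).const_add 1
    refine h2.congr_deriv ?_
    push_cast
    ring
  exact (sq_deriv hs).comp ζ h1

theorem ss_diff (hM : 0 < M) {ζ : ℂ} (hs : 1 + 2 * ζ ^ 2 / M ∈ slitPlane) :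
    DifferentiableAt ℂ (ss M) ζ := by
  have h1 : DifferentiableAt ℂ (fun z => 1 + Rt M (z ^ 2)) ζ :=
    ((Rt_deriv hs).differentiableAt).const_add 1
  have h2 : 1 + Rt M (ζ ^ 2) ∈ slitPlane := by
    left
    have := one_add_Rt_re (M := M) (ζ ^ 2)
    linarith
  have h3 : DifferentiableAt ℂ (fun z => sq (1 + Rt M (z ^ 2))) ζ :=
    DifferentiableAt.comp (g := sq) ζ (sq_deriv h2).differentiableAt h1
  exact (differentiableAt_id.const_mul _).div h3 (sq_ne _)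

theorem QQ_deriv (hM : 0 < M) {ζ : ℂ} (h0 : ζ ≠ 0) (hs : 1 + 2 * ζ ^ 2 / M ∈ slitPlane) :
    ∃ d : ℂ, HasDerivAt (QQ M) d ζ ∧ ‖d‖ ^ 2 = rho M (ζ ^ 2) * ‖ζ‖ ^ 2 / M ^ 2 := by
  have hMc : (M : ℂ) ≠ 0 := by exact_mod_cast hM.ne'
  have hs0 : ss M ζ ≠ 0 := fun h => h0 ((ss_zero_iff hM ζ).1 h)
  have hR0 : Rt M (ζ ^ 2) ≠ 0 := by
    intro h
    have h1 := Rt_sq (M := M) (ζ ^ 2)
    rw [h] at h1
    exact slitPlane_ne_zero hs (by rw [← h1]; ring)
  have hD := (ss_diff hM hs).hasDerivAt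
  set s' := deriv (ss M) ζ with hs'
  have hR : Rt M (ζ ^ 2) = 1 + ss M ζ ^ 2 := by
    rw [ss_sq hM]
    unfold et
    ring
  have h1 : HasDerivAt (fun z => ss M z ^ 2) (2 * ss M ζ * s') ζ := by
    have := hD.pow 2
    refine this.congr_deriv ?_
    push_cast
    ring
  have h2 : HasDerivAt (fun z => ss M z ^ 2)
      (1 / (2 * Rt M (ζ ^ 2)) * (2 * (2 * ζ) / M)) ζ := by
    have h3 := (Rt_deriv hs).sub_const 1
    refine h3.congr_of_eventuallyEq (Filter.Eventually.of_forall fun z => ?_)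
    exact ss_sq hM z
  have h3 := h1.unique h2
  have h4 : s' = ζ / (M * Rt M (ζ ^ 2) * ss M ζ) := by
    have h5 : 2 * ss M ζ * s' * (M * Rt M (ζ ^ 2)) = 2 * ζ := by
      rw [h3]
      field_simp
    rw [eq_div_iff (mul_ne_zero (mul_ne_zero hMc hR0) hs0)]
    linear_combination h5 / 2
  refine ⟨-(ζ / (M * ss M ζ ^ 3)), ?_, ?_⟩
  · have h5 : HasDerivAt (QQ M) (-s' / ss M ζ ^ 2 - s') ζ := (hD.inv hs0).sub hD
    refine h5.congr_deriv ?_
    have h6 : -s' / ss M ζ ^ 2 - s' = -(s' * (1 + ss M ζ ^ 2)) / ss M ζ ^ 2 := by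
      field_simp
      ring
    rw [h6, ← hR, h4]
    field_simp
  · have h5 : ‖et M (ζ ^ 2)‖ = ‖ss M ζ‖ ^ 2 := by rw [← ss_sq hM, norm_pow]
    unfold rho
    rw [h5, norm_neg, norm_div, norm_mul, norm_pow, norm_real, Real.norm_of_nonneg hM.le]
    have h6 : ‖ss M ζ‖ ≠ 0 := norm_ne_zero_iff.2 hs0
    field_simp

end Pool.Agent.CRD
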