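import Pool.Agent.CRD.SFac

/-! CRD/Slit.  `VV` is locally Lipschitz outside `0`.

The slit `{ζ : 1 + 2 ζ²/M ∉ slitPlane}` is contained in the imaginary axis.  `VV` is symmetric under `ζ ↦ -conj ζ`, and `QQ` is
continuous at the points of the imaginary axis within `{Im (ζ²) ≥ 0}`, so `VV` is continuous outside `0`.  A continuous function on a ball
which is `K`-Lipschitz on both open half balls is `K`-Lipschitz (`lip_line`).  The derivative of `QQ` is bounded near every `ζ ≠ 0`. -/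

set_option autoImplicit false

open Complex MeasureTheory Metric Set

namespace Pool.Agent.CRD

variable {M : ℝ}

theorem slit_re (hM : 0 < M) {ζ : ℂ} (h : 1 + 2 * ζ ^ 2 / M ∉ slitPlane) : ζ.re = 0 := by
  rw [mem_slitPlane_iff, not_or, not_lt, not_not] at h
  obtain ⟨h1, h2⟩ := h
  have e1 : (1 + 2 * ζ ^ 2 / M : ℂ).re = 1 + 2 * (ζ.re ^ 2 - ζ.im ^ 2) / M := by
    rw [add_re, one_re, div_ofReal_re]
    congr 2
    rw [pow_two, mul_re, mul_re]
    simp
    ring
  have e2 : (1 + 2 * ζ ^ 2 / M : ℂ).im = 2 * (2 * (ζ.re * ζ.im)) / M := by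
    rw [add_im, one_im, div_ofReal_im, zero_add]
    congr 1
    rw [pow_two, mul_im, mul_im]
    simp
    ring
  rw [e1] at h1
  rw [e2, div_eq_zero_iff] at h2
  have h3 : ζ.re * ζ.im = 0 := by
    rcases h2 with h2 | h2
    · linarith
    · exact absurd h2 hM.ne'
  rcases mul_eq_zero.1 h3 with h4 | h4
  · exact h4
  · exfalso
    rw [h4] at h1
    have e3 : ζ.re ^ 2 - 0 ^ 2 = ζ.re ^ 2 := by ring
    rw [e3] at h1
    have h5 : 0 ≤ 2 * ζ.re ^ 2 / M := by positivity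
    linarith

private theorem R_slit (w : ℂ) : 1 + Rt M w ∈ slitPlane := by
  rw [mem_slitPlane_iff]
  left
  rw [add_re, one_re]
  have := sq_re (1 + 2 * w / M)
  unfold Rt
  linarith

private theorem sqR_ne (w : ℂ) : sq (1 + Rt M w) ≠ 0 := by
  intro h
  have h1 := sq_re_pos (R_slit (M := M) w)
  rw [h, zero_re] at h1
  exact lt_irrefl _ h1

theorem VV_symm (hM : 0 < M) (ζ : ℂ) : VV M (-(starRingEnd ℂ) ζ) = VV M ζ := by
  by_cases h : 1 + 2 * ζ ^ 2 / M ∈ slitPlane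
  · have e1 : Rt M ((starRingEnd ℂ) (ζ ^ 2)) = (starRingEnd ℂ) (Rt M (ζ ^ 2)) := by
      unfold Rt
      rw [← sq_conj h]
      congr 1
      rw [map_add, map_div₀, map_mul, map_one, conj_ofReal, map_ofNat]
    have e2 : (-(starRingEnd ℂ) ζ) ^ 2 = (starRingEnd ℂ) (ζ ^ 2) := by
      rw [map_pow]
      ring
    have e3 : ss M (-(starRingEnd ℂ) ζ) = -(starRingEnd ℂ) (ss M ζ) := by
      unfold ss
      rw [e2, e1]
      have e4 : (1 : ℂ) + (starRingEnd ℂ) (Rt M (ζ ^ 2)) =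
          (starRingEnd ℂ) (1 + Rt M (ζ ^ 2)) := by
        rw [map_add, map_one]
      rw [e4, sq_conj (R_slit _), map_div₀, map_mul, conj_ofReal]
      ring
    unfold VV QQ
    rw [e3]
    have e5 : (-(starRingEnd ℂ) (ss M ζ))⁻¹ - -(starRingEnd ℂ) (ss M ζ) =
        -(starRingEnd ℂ) ((ss M ζ)⁻¹ - ss M ζ) := by
      rw [map_sub, map_inv₀, inv_neg]
      ring
    rw [e5, neg_im, conj_im, neg_neg]
  · have h1 := slit_re hM h
    have e : -(starRingEnd ℂ) ζ = ζ := by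
      apply Complex.ext
      · rw [neg_re, conj_re, h1, neg_zero]
      · rw [neg_im, conj_im, neg_neg]
    rw [e]

private theorem QQ_within (hM : 0 < M) {ζ : ℂ} (h0 : ζ ≠ 0) (h : 0 ≤ (ζ ^ 2).im) :
    ContinuousWithinAt (QQ M) {z | 0 ≤ (z ^ 2).im} ζ := by
  have im_eq : ∀ w : ℂ, (1 + 2 * w / M : ℂ).im = 2 * w.im / M := by
    intro w
    rw [add_im, one_im, div_ofReal_im, zero_add]
    congr 1
    simp
  have h1 : ContinuousWithinAt (fun z : ℂ => 1 + 2 * z ^ 2 / M) {z | 0 ≤ (z ^ 2).im} ζ := by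
    apply Continuous.continuousWithinAt
    fun_prop
  have h2 : ContinuousWithinAt (fun z : ℂ => Rt M (z ^ 2)) {z | 0 ≤ (z ^ 2).im} ζ := by
    have h3 : ContinuousWithinAt sq {w | 0 ≤ w.im} (1 + 2 * ζ ^ 2 / M) := by
      apply sq_cont_above
      rw [im_eq]
      positivity
    have h4 : MapsTo (fun z : ℂ => 1 + 2 * z ^ 2 / M) {z | 0 ≤ (z ^ 2).im} {w | 0 ≤ w.im} := by
      intro z hz
      rw [mem_ofPred_eq] at hz
      show 0 ≤ (1 + 2 * z ^ 2 / M : ℂ).im
      rw [im_eq]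
      positivity
    exact ContinuousWithinAt.comp (f := fun z : ℂ => 1 + 2 * z ^ 2 / M) (g := sq) (x := ζ)
      h3 h1 h4
  have h5 : ContinuousWithinAt (fun z : ℂ => sq (1 + Rt M (z ^ 2))) {z | 0 ≤ (z ^ 2).im} ζ :=
    ContinuousAt.comp_continuousWithinAt (g := sq) (f := fun z : ℂ => 1 + Rt M (z ^ 2))
      (sq_deriv (R_slit (ζ ^ 2))).continuousAt (continuousWithinAt_const.add h2)
  have h6 : ContinuousWithinAt (ss M) {z | 0 ≤ (z ^ 2).im} ζ :=
    ContinuousWithinAt.div (continuousWithinAt_const.mul continuousWithinAt_id) h5 (sqR_ne _)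
  have h7 : ss M ζ ≠ 0 := fun h7 => h0 ((ss_zero_iff hM ζ).1 h7)
  exact (h6.inv₀ h7).sub h6

theorem VV_cont (hM : 0 < M) {ζ : ℂ} (h0 : ζ ≠ 0) : ContinuousAt (VV M) ζ := by
  by_cases h : 1 + 2 * ζ ^ 2 / M ∈ slitPlane
  · obtain ⟨d, hd, -⟩ := QQ_deriv hM h0 h
    exact continuous_im.continuousAt.comp hd.continuousAt
  · have h1 := slit_re hM h
    have him : ∀ z : ℂ, (z ^ 2).im = 2 * (z.re * z.im) := by
      intro z
      rw [pow_two, mul_im]
      ring
    have h2 : 0 ≤ (ζ ^ 2).im := by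
      rw [him, h1]
      simp
    have hA : ContinuousWithinAt (VV M) {z | 0 ≤ (z ^ 2).im} ζ :=
      continuous_im.continuousAt.comp_continuousWithinAt (QQ_within hM h0 h2)
    have e : -(starRingEnd ℂ) ζ = ζ := by
      apply Complex.ext
      · rw [neg_re, conj_re, h1, neg_zero]
      · rw [neg_im, conj_im, neg_neg]
    have hB : ContinuousWithinAt (VV M) {z | (z ^ 2).im ≤ 0} ζ := by
      have hf : VV M = VV M ∘ fun z => -(starRingEnd ℂ) z := by
        funext z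
        exact (VV_symm hM z).symm
      rw [hf]
      have hc : ContinuousWithinAt (fun z : ℂ => -(starRingEnd ℂ) z) {z | (z ^ 2).im ≤ 0} ζ :=
        (continuous_conj.neg).continuousWithinAt
      have hm : MapsTo (fun z : ℂ => -(starRingEnd ℂ) z) {z | (z ^ 2).im ≤ 0}
          {z | 0 ≤ (z ^ 2).im} := by
        intro z hz
        rw [mem_ofPred_eq, him] at hz ⊢
        rw [neg_re, neg_im, conj_re, conj_im]
        linarith
      have hA' : ContinuousWithinAt (VV M) {z | 0 ≤ (z ^ 2).im} (-(starRingEnd ℂ) ζ) := by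
        rw [e]
        exact hA
      exact ContinuousWithinAt.comp (f := fun z : ℂ => -(starRingEnd ℂ) z) (g := VV M) (x := ζ)
        hA' hc hm
    have hU := hA.union hB
    have e2 : {z : ℂ | 0 ≤ (z ^ 2).im} ∪ {z : ℂ | (z ^ 2).im ≤ 0} = univ := by
      ext z
      rw [mem_union, mem_ofPred_eq, mem_ofPred_eq]
      simp only [mem_univ, iff_true]
      exact le_total _ _
    rw [e2] at hU
    exact continuousWithinAt_univ _ _ |>.1 hU

private theorem lip_closed {g : ℂ → ℝ} {c : ℂ} {r : ℝ} {K : NNReal} (e : ℝ)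
    (hc : ContinuousOn g (ball c r))
    (h1 : LipschitzOnWith K g (ball c r ∩ {z | 0 < e * z.re})) (he : e * e = 1)
    {x y : ℂ} (hx : x ∈ ball c r) (hy : y ∈ ball c r) (hx0 : 0 ≤ e * x.re)
    (hy0 : 0 ≤ e * y.re) : dist (g x) (g y) ≤ K * dist x y := by
  have hlim : ∀ z ∈ ball c r, Filter.Tendsto (fun t : ℝ => g (z + (e * t : ℝ)))
      (nhdsWithin 0 (Ioi 0)) (nhds (g z)) := by
    intro z hz
    have h2 : ContinuousAt g z := (hc z hz).continuousAt (isOpen_ball.mem_nhds hz)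
    have h3 : Filter.Tendsto (fun t : ℝ => z + ((e * t : ℝ) : ℂ)) (nhdsWithin 0 (Ioi 0))
        (nhds z) := by
      have h4 : Continuous fun t : ℝ => z + ((e * t : ℝ) : ℂ) := by fun_prop
      have h5 := (h4.tendsto 0).mono_left (nhdsWithin_le_nhds (s := Ioi 0))
      rw [mul_zero, ofReal_zero, add_zero] at h5
      exact h5
    exact h2.tendsto.comp h3
  have hmem : ∀ z ∈ ball c r, ∀ᶠ t : ℝ in nhdsWithin 0 (Ioi 0),
      z + ((e * t : ℝ) : ℂ) ∈ ball c r := by
    intro z hz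
    have h4 : Continuous fun t : ℝ => z + ((e * t : ℝ) : ℂ) := by fun_prop
    have h5 := (h4.tendsto 0).mono_left (nhdsWithin_le_nhds (s := Ioi 0))
    rw [mul_zero, ofReal_zero, add_zero] at h5
    exact h5.eventually (isOpen_ball.mem_nhds hz)
  have hpos : ∀ z : ℂ, 0 ≤ e * z.re → ∀ t : ℝ, 0 < t → 0 < e * (z + ((e * t : ℝ) : ℂ)).re := by
    intro z hz t ht
    rw [add_re, ofReal_re, mul_add, ← mul_assoc, he, one_mul]
    linarith
  refine le_of_tendsto ((hlim x hx).dist (hlim y hy)) ?_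
  filter_upwards [hmem x hx, hmem y hy, self_mem_nhdsWithin] with t h2 h3 h4
  have h5 := h1.dist_le_mul _ ⟨h2, hpos x hx0 t h4⟩ _ ⟨h3, hpos y hy0 t h4⟩
  rwa [dist_add_right] at h5

private theorem cross {c x y : ℂ} {r : ℝ} (hx : x ∈ ball c r) (hy : y ∈ ball c r)
    (hx0 : 0 < x.re) (hy0 : y.re < 0) :
    ∃ z ∈ ball c r, z.re = 0 ∧ dist x z + dist z y = dist x y := by
  have hd : 0 < x.re - y.re := by linarith
  set θ : ℝ := x.re / (x.re - y.re) with hθ
  have t0 : 0 ≤ θ := by positivity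
  have t1 : θ ≤ 1 := by
    rw [hθ, div_le_one hd]
    linarith
  refine ⟨AffineMap.lineMap x y θ, ?_, ?_, ?_⟩
  · exact (convex_ball c r).lineMap_mem hx hy ⟨t0, t1⟩
  · rw [AffineMap.lineMap_apply, vsub_eq_sub, vadd_eq_add, add_re, smul_re, sub_re, smul_eq_mul,
      hθ]
    field_simp
    ring
  · rw [dist_left_lineMap, dist_lineMap_right, Real.norm_of_nonneg t0,
      Real.norm_of_nonneg (by linarith : 0 ≤ 1 - θ)]
    ring

theorem lip_line {g : ℂ → ℝ} {c : ℂ} {r : ℝ} {K : NNReal} (hc : ContinuousOn g (ball c r))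
    (h1 : LipschitzOnWith K g (ball c r ∩ {z | 0 < z.re}))
    (h2 : LipschitzOnWith K g (ball c r ∩ {z | z.re < 0})) : LipschitzOnWith K g (ball c r) := by
  have h1' : LipschitzOnWith K g (ball c r ∩ {z | 0 < (1 : ℝ) * z.re}) := by
    simp only [one_mul]
    exact h1
  have h2' : LipschitzOnWith K g (ball c r ∩ {z | 0 < (-1 : ℝ) * z.re}) := by
    have e : {z : ℂ | 0 < (-1 : ℝ) * z.re} = {z : ℂ | z.re < 0} := by
      ext z
      rw [mem_ofPred_eq, mem_ofPred_eq]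
      constructor
      · intro h
        linarith
      · intro h
        linarith
    rw [e]
    exact h2
  have hP : ∀ x ∈ ball c r, ∀ y ∈ ball c r, 0 ≤ x.re → 0 ≤ y.re → dist (g x) (g y) ≤ K * dist x y :=
    fun x hx y hy hx0 hy0 => lip_closed 1 hc h1' (by norm_num) hx hy (by linarith) (by linarith)
  have hN : ∀ x ∈ ball c r, ∀ y ∈ ball c r, x.re ≤ 0 → y.re ≤ 0 → dist (g x) (g y) ≤ K * dist x y :=
    fun x hx y hy hx0 hy0 => lip_closed (-1) hc h2' (by norm_num) hx hy (by linarith) (by linarith)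
  have hX : ∀ x ∈ ball c r, ∀ y ∈ ball c r, 0 < x.re → y.re < 0 →
      dist (g x) (g y) ≤ K * dist x y := by
    intro x hx y hy hx0 hy0
    obtain ⟨z, hz, hz0, hd⟩ := cross hx hy hx0 hy0
    calc dist (g x) (g y) ≤ dist (g x) (g z) + dist (g z) (g y) := dist_triangle _ _ _
      _ ≤ K * dist x z + K * dist z y :=
          add_le_add (hP x hx z hz hx0.le hz0.ge) (hN z hz y hy hz0.le hy0.le)
      _ = K * dist x y := by rw [← hd]; ring
  refine LipschitzOnWith.of_dist_le_mul fun x hx y hy => ?_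
  rcases lt_trichotomy x.re 0 with h3 | h3 | h3
  · rcases le_or_gt y.re 0 with h4 | h4
    · exact hN x hx y hy h3.le h4
    · rw [dist_comm, dist_comm x y]
      exact hX y hy x hx h4 h3
  · rcases le_total y.re 0 with h4 | h4
    · exact hN x hx y hy h3.le h4
    · exact hP x hx y hy h3.ge h4
  · rcases le_or_gt 0 y.re with h4 | h4
    · exact hP x hx y hy h3.le h4
    · exact hX x hx y hy h3 h4

theorem VV_lip (hM : 0 < M) {ζ : ℂ} (h0 : ζ ≠ 0) :
    ∃ K : NNReal, ∃ r > 0, LipschitzOnWith K (VV M) (ball ζ r) := by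
  set δ : ℝ := ‖ζ‖ / 2 with hδ
  have hδ0 : 0 < δ := by
    have := norm_pos_iff.2 h0
    positivity
  set e0 : ℝ := min 1 (2 * δ ^ 2 / (3 * M)) with he0
  have he : 0 < e0 := lt_min one_pos (by positivity)
  have hnorm : ∀ z ∈ ball ζ δ, δ ≤ ‖z‖ ∧ ‖z‖ ≤ 3 * δ := by
    intro z hz
    rw [mem_ball, dist_eq_norm] at hz
    have h1 : ‖ζ‖ = 2 * δ := by rw [hδ]; ring
    have h2 : ‖ζ‖ ≤ ‖z‖ + ‖z - ζ‖ := by
      have h3 := norm_sub_le z (z - ζ)
      have e : z - (z - ζ) = ζ := by ring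
      rwa [e] at h3
    have h3 : ‖z‖ ≤ ‖ζ‖ + ‖z - ζ‖ := by
      have h4 := norm_add_le ζ (z - ζ)
      have e : ζ + (z - ζ) = z := by ring
      rwa [e] at h4
    constructor
    · linarith
    · linarith
  have het : ∀ z ∈ ball ζ δ, e0 ≤ ‖et M (z ^ 2)‖ := by
    intro z hz
    by_contra hlt
    push Not at hlt
    have h1 : ‖et M (z ^ 2)‖ < 1 := hlt.trans_le (min_le_left _ _)
    have h2 : ‖et M (z ^ 2)‖ < 2 * δ ^ 2 / (3 * M) := hlt.trans_le (min_le_right _ _)
    have h3 : ‖z‖ ^ 2 ≤ M * (‖et M (z ^ 2)‖ + ‖et M (z ^ 2)‖ ^ 2 / 2) := by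
      have h4 := congrArg norm (et_eq hM (z ^ 2))
      rw [norm_mul, norm_real, Real.norm_of_nonneg hM.le, norm_pow] at h4
      rw [← h4]
      refine mul_le_mul_of_nonneg_left ((norm_add_le _ _).trans (le_of_eq ?_)) hM.le
      rw [norm_div, norm_pow]
      simp
    have h4 : δ ^ 2 ≤ ‖z‖ ^ 2 := pow_le_pow_left₀ hδ0.le (hnorm z hz).1 2
    have h5 : ‖et M (z ^ 2)‖ ^ 2 ≤ ‖et M (z ^ 2)‖ := by
      rw [pow_two]
      exact mul_le_of_le_one_left (norm_nonneg _) h1.le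
    rw [lt_div_iff₀ (by positivity)] at h2
    have h6 : M * (‖et M (z ^ 2)‖ + ‖et M (z ^ 2)‖ ^ 2 / 2) ≤
        M * (‖et M (z ^ 2)‖ + ‖et M (z ^ 2)‖ / 2) :=
      mul_le_mul_of_nonneg_left (by linarith) hM.le
    nlinarith
  set B : ℝ := Real.sqrt ((e0 ^ 3)⁻¹ * (3 * δ) ^ 2 / M ^ 2) with hB
  have hB0 : 0 ≤ B := Real.sqrt_nonneg _
  have hne : ∀ z ∈ ball ζ δ, z ≠ 0 := by
    intro z hz h1
    have h2 := (hnorm z hz).1
    rw [h1, norm_zero] at h2
    linarith
  have hder : ∀ z ∈ ball ζ δ, z.re ≠ 0 → DifferentiableAt ℂ (QQ M) z ∧ ‖deriv (QQ M) z‖ ≤ B := by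
    intro z hz hz0
    have h1 : 1 + 2 * z ^ 2 / M ∈ slitPlane := by
      by_contra h1
      exact hz0 (slit_re hM h1)
    obtain ⟨d, hd, hd2⟩ := QQ_deriv hM (hne z hz) h1
    refine ⟨hd.differentiableAt, ?_⟩
    rw [hd.deriv]
    apply Real.le_sqrt_of_sq_le
    rw [hd2]
    have h2 : rho M (z ^ 2) ≤ (e0 ^ 3)⁻¹ := by
      unfold rho
      exact inv_anti₀ (by positivity) (pow_le_pow_left₀ he.le (het z hz) 3)
    have h3 : ‖z‖ ^ 2 ≤ (3 * δ) ^ 2 := pow_le_pow_left₀ (norm_nonneg _) (hnorm z hz).2 2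
    exact div_le_div_of_nonneg_right (mul_le_mul h2 h3 (by positivity) (by positivity))
      (by positivity)
  have hlip : ∀ s : Set ℂ, Convex ℝ s → s ⊆ ball ζ δ → (∀ z ∈ s, z.re ≠ 0) →
      LipschitzOnWith B.toNNReal (VV M) s := by
    intro s hs hsub hs0
    refine LipschitzOnWith.of_dist_le_mul fun x hx y hy => ?_
    have h1 := hs.norm_image_sub_le_of_norm_deriv_le (𝕜 := ℂ) (f := QQ M) (C := B)
      (fun z hz => (hder z (hsub hz) (hs0 z hz)).1) (fun z hz => (hder z (hsub hz) (hs0 z hz)).2)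
      hx hy
    rw [Real.coe_toNNReal _ hB0, dist_eq_norm x y, norm_sub_rev x y, Real.dist_eq]
    refine le_trans ?_ h1
    have h2 : VV M x - VV M y = -(QQ M y - QQ M x).im := by
      unfold VV
      rw [sub_im]
      ring
    rw [h2, abs_neg]
    exact abs_im_le_norm _
  refine ⟨B.toNNReal, δ, hδ0, lip_line (fun z hz => (VV_cont hM (hne z hz)).continuousWithinAt)
    (hlip _ ?_ inter_subset_left ?_) (hlip _ ?_ inter_subset_left ?_)⟩
  · exact (convex_ball ζ δ).inter (convex_halfSpace_re_gt 0)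
  · rintro z ⟨-, hz⟩
    exact ne_of_gt hz
  · exact (convex_ball ζ δ).inter (convex_halfSpace_re_lt 0)
  · rintro z ⟨-, hz⟩
    exact ne_of_lt hz

end Pool.Agent.CRD
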