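import Pool.Agent.CRD.Smal
import Pool.Agent.CRD.Vol

/-! CRD/Spl.  The exact identity for the weighted area of the image of `ball 0 1 \ B`, `B = closedBall 0 (r²)`, `f '' B ⊆ Cd M`.

With `T1 = {u ∈ ball 0 1 \ B | f u ∈ Cd M}` and `T2 = ball 0 1 ∩ f ⁻¹' (Cd M)ᶜ` the disc is the disjoint union of `B`, `T1` and `T2`; on `B ∪ T1` the
function `f` is injective, so the change of variables applies there, and `Cd M` is the disjoint union of `f '' B`, `f '' T1` and `Cd M \ f '' ball 0 1`. -/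

set_option autoImplicit false

open Complex MeasureTheory Metric Set Real

namespace Pool.Agent.CRD

variable {M : ℝ} {f k : ℂ → ℂ}

theorem split (D : Dat M f k) {r : ℝ} (hr : 0 < r) (hr1 : r ^ 2 < 1)
    (hsub : f '' closedBall 0 (r ^ 2) ⊆ Cd M) :
    (∫ u in ball 0 1 \ closedBall 0 (r ^ 2), rho M (f u) * ‖deriv f u‖ ^ 2) =
      Ar f + (∫ w in Cd M \ f '' closedBall 0 (r ^ 2), rho M w) - volume.real (Cd M) - Rem M f := by
  have hM := D.hM
  set B : Set ℂ := closedBall 0 (r ^ 2) with hBdef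
  set U : Set ℂ := ball 0 1 with hUdef
  have hBU : B ⊆ U := closedBall_subset_ball hr1
  have hcont : ContinuousOn f U := (f_diff D).continuousOn
  have hdiff : ∀ u ∈ U, DifferentiableAt ℂ f u := fun u hu =>
    (f_diff D).differentiableAt (isOpen_ball.mem_nhds hu)
  -- the three parts of the disc
  set V : Set ℂ := U ∩ f ⁻¹' Cd M with hVdef
  have hVm : MeasurableSet V := (hcont.isOpen_inter_preimage isOpen_ball (isOpen_Cd hM)).measurableSet
  have hBm : MeasurableSet B := isClosed_closedBall.measurableSet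
  have hUm : MeasurableSet U := isOpen_ball.measurableSet
  have hBV : B ⊆ V := fun u hu => ⟨hBU hu, hsub ⟨u, hu, rfl⟩⟩
  have hVinj : InjOn f V := fun u hu v hv h => D.inj u hu.1 v hv.1 h hu.2
  set T1 : Set ℂ := V \ B with hT1def
  set T2 : Set ℂ := U ∩ f ⁻¹' (Cd M)ᶜ with hT2def
  have hT2eq : T2 = U \ V := by
    ext u
    constructor
    · rintro ⟨h1, h2⟩
      exact ⟨h1, fun h => h2 h.2⟩
    · rintro ⟨h1, h2⟩
      exact ⟨h1, fun h => h2 ⟨h1, h⟩⟩
  have hT1m : MeasurableSet T1 := hVm.diff hBm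
  have hT2m : MeasurableSet T2 := by rw [hT2eq]; exact hUm.diff hVm
  have hT1V : T1 ⊆ V := sdiff_subset
  have hT1U : T1 ⊆ U := fun u hu => hu.1.1
  have hT2U : T2 ⊆ U := fun u hu => hu.1
  have hUB : U \ B = T1 ∪ T2 := by
    ext u
    constructor
    · rintro ⟨h1, h2⟩
      by_cases h : f u ∈ Cd M
      · exact Or.inl ⟨⟨h1, h⟩, h2⟩
      · exact Or.inr ⟨h1, h⟩
    · rintro (h | h)
      · exact ⟨h.1.1, h.2⟩
      · exact ⟨h.1, fun hB => h.2 (hBV hB).2⟩
  have hUe : U = (B ∪ T1) ∪ T2 := by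
    rw [union_assoc, ← hUB, union_sdiff_cancel hBU]
  have hd12 : Disjoint T1 T2 := by
    rw [Set.disjoint_left]
    intro u hu hu'
    exact hu'.2 hu.1.2
  have hdB1 : Disjoint B T1 := disjoint_sdiff_right
  have hdB12 : Disjoint (B ∪ T1) T2 := by
    rw [Set.disjoint_left]
    rintro u (hu | hu) hu'
    · exact hu'.2 (hBV hu).2
    · exact hu'.2 hu.1.2
  have hB1 : B ∪ T1 = V := union_sdiff_cancel hBV
  -- the images
  have hfBm : MeasurableSet (f '' B) :=
    cv_meas hBm (fun u hu => hdiff u (hBU hu)) (hVinj.mono hBV)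
  have hfT1m : MeasurableSet (f '' T1) :=
    cv_meas hT1m (fun u hu => hdiff u (hT1U hu)) (hVinj.mono hT1V)
  have hfd : Disjoint (f '' B) (f '' T1) := by
    rw [Set.disjoint_left]
    rintro w ⟨u, hu, rfl⟩ ⟨v, hv, hvu⟩
    have h := hVinj (hT1V hv) (hBV hu) hvu
    exact hv.2 (h ▸ hu)
  have hCm : MeasurableSet (Cd M) := (isOpen_Cd hM).measurableSet
  have hfV : Cd M \ f '' U = Cd M \ (f '' B ∪ f '' T1) := by
    rw [← image_union, hB1]
    ext w
    constructor
    · rintro ⟨h1, h2⟩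
      refine ⟨h1, ?_⟩
      rintro ⟨u, hu, rfl⟩
      exact h2 ⟨u, hu.1, rfl⟩
    · rintro ⟨h1, h2⟩
      refine ⟨h1, ?_⟩
      rintro ⟨u, hu, rfl⟩
      exact h2 ⟨u, ⟨hu, h1⟩, rfl⟩
  have hfT1C : f '' T1 ⊆ Cd M := by
    rintro w ⟨u, hu, rfl⟩
    exact hu.1.2
  set R : Set ℂ := Cd M \ f '' U with hRdef
  have hRm : MeasurableSet R := by rw [hfV]; exact hCm.diff (hfBm.union hfT1m)
  have hCB : Cd M \ f '' B = f '' T1 ∪ R := by
    rw [hfV]
    ext w
    constructor
    · rintro ⟨h1, h2⟩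
      by_cases h : w ∈ f '' T1
      · exact Or.inl h
      · exact Or.inr ⟨h1, fun h' => h'.elim h2 h⟩
    · rintro (h | h)
      · exact ⟨hfT1C h, fun h' => Set.disjoint_left.1 hfd h' h⟩
      · exact ⟨h.1, fun h' => h.2 (Or.inl h')⟩
  have hdR : Disjoint (f '' T1) R := by
    rw [hfV, Set.disjoint_left]
    intro w hw hw'
    exact hw'.2 (Or.inr hw)
  have hCe : Cd M = f '' B ∪ (f '' T1 ∪ R) := by
    rw [← hCB, union_sdiff_cancel hsub]
  have hdBR : Disjoint (f '' B) (f '' T1 ∪ R) := by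
    rw [← hCB]
    exact disjoint_sdiff_right
  -- integrability
  have hr2 : 0 < r ^ 2 := by positivity
  have hrho : IntegrableOn (rho M) (Cd M \ f '' B) := rho_int hM hfBm (fB_nhds D hr2)
  have hrho1 : IntegrableOn (rho M) (f '' T1) :=
    hrho.mono_set (by rw [hCB]; exact subset_union_left)
  have hrhoR : IntegrableOn (rho M) R :=
    hrho.mono_set (by rw [hCB]; exact subset_union_right)
  have hF := D.area
  have hF1 : IntegrableOn (fun u => rho M (f u) * ‖deriv f u‖ ^ 2) T1 :=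
    (cv_integrable hT1m (fun u hu => hdiff u (hT1U hu)) (hVinj.mono hT1V) (rho M)).1 hrho1
  have hFT2 : IntegrableOn (fun u => ‖deriv f u‖ ^ 2) T2 := hF.mono_set hT2U
  have hF2 : IntegrableOn (fun u => rho M (f u) * ‖deriv f u‖ ^ 2) T2 := by
    have hae : AEMeasurable f (volume.restrict T2) := (hcont.mono hT2U).aemeasurable hT2m
    refine Integrable.mono' hFT2
      ((measurable_rho.comp_aemeasurable hae).aestronglyMeasurable.mul hFT2.aestronglyMeasurable) ?_
    refine (ae_restrict_iff' hT2m).2 (Filter.Eventually.of_forall fun u hu => ?_)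
    rw [norm_mul, Real.norm_of_nonneg (rho_nonneg _), Real.norm_of_nonneg (by positivity)]
    exact mul_le_of_le_one_left (by positivity) (rho_le hM hu.2)
  -- finite volume
  have hvol : volume (Cd M) ≠ ⊤ := by rw [vol_Cd hM]; exact ENNReal.ofReal_ne_top
  have hv : ∀ S : Set ℂ, S ⊆ Cd M → volume S ≠ ⊤ := fun S hS =>
    ne_top_of_le_ne_top hvol (measure_mono hS)
  have hRC : R ⊆ Cd M := sdiff_subset
  -- the identities
  have e1 : (∫ u in U \ B, rho M (f u) * ‖deriv f u‖ ^ 2) =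
      (∫ u in T1, rho M (f u) * ‖deriv f u‖ ^ 2) + ∫ u in T2, rho M (f u) * ‖deriv f u‖ ^ 2 := by
    rw [hUB]
    exact setIntegral_union hd12 hT2m hF1 hF2
  have e2 : (∫ u in T1, rho M (f u) * ‖deriv f u‖ ^ 2) = ∫ w in f '' T1, rho M w :=
    (cv_int hT1m (fun u hu => hdiff u (hT1U hu)) (hVinj.mono hT1V) (rho M)).symm
  have e3 : (∫ u in T2, (1 - rho M (f u)) * ‖deriv f u‖ ^ 2) =
      (∫ u in T2, ‖deriv f u‖ ^ 2) - ∫ u in T2, rho M (f u) * ‖deriv f u‖ ^ 2 := by
    rw [← integral_sub hFT2 hF2]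
    refine integral_congr_ae (Filter.Eventually.of_forall fun u => ?_)
    show (1 - rho M (f u)) * ‖deriv f u‖ ^ 2 =
      ‖deriv f u‖ ^ 2 - rho M (f u) * ‖deriv f u‖ ^ 2
    ring
  have e4 : (∫ w in Cd M \ f '' B, rho M w) = (∫ w in f '' T1, rho M w) + ∫ w in R, rho M w := by
    rw [hCB]
    exact setIntegral_union hdR hRm hrho1 hrhoR
  have e5 : (∫ w in R, (rho M w - 1)) = (∫ w in R, rho M w) - volume.real R := by
    rw [integral_sub hrhoR (integrableOn_const (hv R hRC)), setIntegral_const, smul_eq_mul, mul_one]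
  have hFB : IntegrableOn (fun u => ‖deriv f u‖ ^ 2) B := hF.mono_set hBU
  have hFT1 : IntegrableOn (fun u => ‖deriv f u‖ ^ 2) T1 := hF.mono_set hT1U
  have e6 : Ar f = (∫ u in B, ‖deriv f u‖ ^ 2) + (∫ u in T1, ‖deriv f u‖ ^ 2) +
      ∫ u in T2, ‖deriv f u‖ ^ 2 := by
    rw [Ar, ← hUdef]
    conv_lhs => rw [hUe]
    rw [setIntegral_union hdB12 hT2m (hFB.union hFT1) hFT2, setIntegral_union hdB1 hT1m hFB hFT1]
  have e7 : (∫ u in B, ‖deriv f u‖ ^ 2) = volume.real (f '' B) :=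
    (cv_real hBm (fun u hu => hdiff u (hBU hu)) (hVinj.mono hBV)).symm
  have e8 : (∫ u in T1, ‖deriv f u‖ ^ 2) = volume.real (f '' T1) :=
    (cv_real hT1m (fun u hu => hdiff u (hT1U hu)) (hVinj.mono hT1V)).symm
  have e9 : volume.real (Cd M) = volume.real (f '' B) + (volume.real (f '' T1) + volume.real R) := by
    conv_lhs => rw [hCe]
    rw [measureReal_union hdBR (hfT1m.union hRm) (hv _ hsub)
      (hv _ (union_subset hfT1C hRC)), measureReal_union hdR hRm (hv _ hfT1C) (hv _ hRC)]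
  have e10 : Rem M f = (∫ w in R, (rho M w - 1)) + ∫ u in T2, (1 - rho M (f u)) * ‖deriv f u‖ ^ 2 :=
    rfl
  linarith

end Pool.Agent.CRD
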