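import Pool.Agent.CRD.GrE
import Pool.Agent.CRD.PhE
import Pool.Agent.CRD.OmA
import Pool.Agent.CRD.Spl

/-! CRD/Upper.  The upper bound for the energy: the exact identity `split`, the comparison `om_int` of
the weighted area with the area of the omitted set of `Ph`, and the area bound `gron` of Gronwall
type for the omitted set. -/

set_option autoImplicit false

open Complex MeasureTheory Metric Set Real

namespace Pool.Agent.CRD

variable {M : ℝ} {f k : ℂ → ℂ}

private theorem upper_fB_meas (D : Dat M f k) {r : ℝ} (hr1 : r < 1) :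
    MeasurableSet (f '' closedBall 0 r) := by
  have h1 : closedBall (0 : ℂ) r ⊆ ball 0 1 := closedBall_subset_ball hr1
  exact ((isCompact_closedBall 0 r).image_of_continuousOn
    ((f_diff D).continuousOn.mono h1)).measurableSet

private theorem upper_int (D : Dat M f k) {r : ℝ} (hr : 0 < r) (hr1 : r ^ 2 < 1)
    (hsub : f '' closedBall 0 (r ^ 2) ⊆ Cd M) {X : ℝ} (hX : 0 ≤ X)
    (hv : volume (Om M k r) ≤ ENNReal.ofReal X) :
    (∫ w in Cd M \ f '' closedBall 0 (r ^ 2), rho M w) ≤ 2 * M ^ 2 * X := by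
  have hr2 : 0 < r ^ 2 := by positivity
  have hint := rho_int D.hM (upper_fB_meas D hr1) (fB_nhds D hr2)
  have hnn : ∀ w, 0 ≤ rho M w := by
    intro w
    rw [rho]
    positivity
  rw [integral_eq_lintegral_of_nonneg_ae (Filter.Eventually.of_forall hnn)
    hint.aestronglyMeasurable]
  apply ENNReal.toReal_le_of_le_ofReal (by positivity)
  refine (om_int D hr hr1 hsub).trans ?_
  have h2 : ENNReal.ofReal (2 * M ^ 2 * X) = ENNReal.ofReal (2 * M ^ 2) * ENNReal.ofReal X :=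
    ENNReal.ofReal_mul (by positivity)
  rw [h2]
  exact mul_le_mul_right hv _

theorem upper (D : Dat M f k) : ∃ C r0 : ℝ, 0 < r0 ∧ r0 < 1 ∧ ∀ r, 0 < r → r < r0 →
    (∫ u in ball 0 1 \ closedBall 0 (r ^ 2), rho M (f u) * ‖deriv f u‖ ^ 2) ≤
      Ar f - 3 * π / 2 * M ^ 2 - Rem M f + 2 * π * M ^ 3 / r ^ 2 + C * r ^ 2 := by
  have hM := D.hM
  obtain ⟨r1, h1, h11, hsm⟩ := small_Cd D
  obtain ⟨g, C0, R0, hR0, _, hd, hexp⟩ := ph_exp D
  obtain ⟨C, r0, hr0, _, hvol⟩ := gron (Real.sqrt_pos.2 hM) hR0 hd hexp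
  refine ⟨2 * M ^ 2 * max C 0, min r0 r1, lt_min hr0 h1, lt_of_le_of_lt (min_le_right _ _) h11, ?_⟩
  intro r hr hrr
  have hra : r < r0 := lt_of_lt_of_le hrr (min_le_left _ _)
  have hrb : r < r1 := lt_of_lt_of_le hrr (min_le_right _ _)
  have hr1 : r ^ 2 < 1 := by nlinarith
  have hsub := hsm r hr hrb
  have hX : 0 ≤ π * M / r ^ 2 + max C 0 * r ^ 2 := by positivity
  have hv : volume (Om M k r) ≤ ENNReal.ofReal (π * M / r ^ 2 + max C 0 * r ^ 2) := by
    refine (hvol r hr hra).trans (ENNReal.ofReal_le_ofReal ?_)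
    rw [Real.sq_sqrt hM.le]
    have : C * r ^ 2 ≤ max C 0 * r ^ 2 := mul_le_mul_of_nonneg_right (le_max_left _ _) (sq_nonneg r)
    linarith
  have hI := upper_int D hr hr1 hsub hX hv
  have hV : volume.real (Cd M) = 3 * π / 2 * M ^ 2 := by
    rw [Measure.real, vol_Cd hM, ENNReal.toReal_ofReal (by positivity)]
  rw [split D hr hr1 hsub, hV]
  have hid : 2 * M ^ 2 * (π * M / r ^ 2 + max C 0 * r ^ 2) =
      2 * π * M ^ 3 / r ^ 2 + 2 * M ^ 2 * max C 0 * r ^ 2 := by
    field_simp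
  rw [hid] at hI
  linarith

end Pool.Agent.CRD
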